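import Pool.Agent.Run7.h10.AX4

/-!
# The countability lemma: conclusion
-/

set_option autoImplicit false
set_option linter.unusedSectionVars false

namespace Pool.Agent.Run7.h10

open MvPolynomial Filter Topology Metric

variable {σ : Type} [Fintype σ] {g d : ℕ}
variable {N : Fin g → σ → MvPolynomial σ ℂ} {x : (Fin g → ℂ) → σ → ℂ} {U : Set (Fin g → ℂ)}

theorem dv_span {P : Ideal (MvPolynomial σ ℂ)} {S : Finset (MvPolynomial σ ℂ)}
    (hS : Ideal.span (S : Set (MvPolynomial σ ℂ)) = P) {v : Fin g → MvPolynomial σ ℂ}
    (h : ∀ F ∈ S, dv N v F ∈ P) : ∀ F ∈ P, dv N v F ∈ P := by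
  intro F hF
  rw [← hS] at hF
  refine Submodule.span_induction (p := fun F _ => dv N v F ∈ P) ?_ ?_ ?_ ?_ hF
  · intro F hF
    exact h F hF
  · rw [map_zero]; exact P.zero_mem
  · intro F G _ _ h1 h2
    rw [map_add]; exact P.add_mem h1 h2
  · intro c F hF' h1
    have hFP : F ∈ P := by rw [← hS]; exact hF'
    rw [smul_eq_mul, Derivation.leibniz]
    simp only [smul_eq_mul]
    exact P.add_mem (P.mul_mem_left _ h1) (P.mul_mem_right _ hFP)

theorem ax_main (h : Chart N x U) {J : Ideal (MvPolynomial σ ℂ)} {b : Fin g → ℂ}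
    {L : Fin d → Fin g → ℂ} {L' : Fin g → Fin d → ℂ}
    (hL : ∀ i k, ∑ j, L i j * L' j k = if i = k then 1 else 0)
    (hdim : ∀ P : Ideal (MvPolynomial σ ℂ), P.IsPrime → J ≤ P → (∃ z ∈ U, x z ∈ Z P) →
      dm P + d ≤ g)
    (hunc : ¬ (EE x U b L J).Countable) :
    ∃ P : Ideal (MvPolynomial σ ℂ), P.IsPrime ∧ J ≤ P ∧ 1 ≤ dm P ∧ (∃ z ∈ U, x z ∈ Z P) ∧
      ∃ ω : Fin g → ℂ, ω ≠ 0 ∧ ∃ c, c ∉ P ∧ ∃ S : Finset (MvPolynomial σ ℂ), (∀ F ∈ S, F ∈ P) ∧
        ∃ β : S → MvPolynomial σ ℂ, ∀ j, C (ω j) * c - ∑ F : S, β F * dd N j F ∈ P := by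
  classical
  -- a maximal ideal with uncountably many points
  obtain ⟨P, ⟨hJP, hPunc⟩, hmax⟩ := WellFounded.has_min
    (r := ((· > ·) : Ideal (MvPolynomial σ ℂ) → Ideal (MvPolynomial σ ℂ) → Prop))
    wellFounded_gt {I | J ≤ I ∧ ¬ (EE x U b L I).Countable} ⟨J, le_rfl, hunc⟩
  have hdich : ∀ f, f ∉ P → {s ∈ EE x U b L P | eval (x (pL b L s)) f = 0}.Countable := by
    intro f hf
    by_contra hcon
    refine hmax (P ⊔ Ideal.span {f}) ⟨hJP.trans le_sup_left, ?_⟩ ?_
    · intro hc
      apply hcon
      apply hc.mono
      rintro s ⟨⟨h1, h2⟩, h3⟩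
      exact ⟨h1, mem_Z_sup_span.2 ⟨h2, h3⟩⟩
    · apply lt_of_le_of_ne le_sup_left
      intro h1
      apply hf
      rw [h1]
      exact Ideal.mem_sup_right (Ideal.mem_span_singleton_self f)
  have hpick : ∀ f, f ∉ P → ∃ s ∈ EE x U b L P, eval (x (pL b L s)) f ≠ 0 := by
    intro f hf
    by_contra hcon
    push Not at hcon
    apply hPunc
    apply (hdich f hf).mono
    intro s hs
    exact ⟨hs, hcon s hs⟩
  have hP : P.IsPrime := by
    constructor
    · intro htop
      apply hPunc
      have : EE x U b L P = ∅ := by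
        rw [Set.eq_empty_iff_forall_notMem]
        intro s hs
        have h1 := hs.2 1 (by rw [htop]; trivial)
        simp at h1
      rw [this]
      exact Set.countable_empty
    · intro f k hfk
      by_contra hcon
      push Not at hcon
      apply hPunc
      apply ((hdich f hcon.1).union (hdich k hcon.2)).mono
      intro s hs
      have h1 := hs.2 _ hfk
      rw [map_mul] at h1
      rcases mul_eq_zero.1 h1 with h1 | h1
      · exact Or.inl ⟨hs, h1⟩
      · exact Or.inr ⟨hs, h1⟩
  -- immersion and commutation modulo `P`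
  have himm : ∀ v : Fin g → MvPolynomial σ ℂ, (∀ i, dv N v (X i) ∈ P) → ∀ j, v j ∈ P := by
    intro v hv j
    by_contra hj
    obtain ⟨s, hs, hsj⟩ := hpick _ hj
    apply hsj
    have h1 := h.imm (pL b L s) hs.1 (fun j => eval (x (pL b L s)) (v j)) (by
      funext i
      rw [h.fderiv_apply hs.1]
      have h2 := hs.2 _ (hv i)
      rw [dv_apply, map_sum] at h2
      simpa [dd_X] using h2)
    exact congrFun h1 j
  have hcomm : ∀ j k F, dd N j (dd N k F) - dd N k (dd N j F) ∈ P := by
    intro j k F
    by_contra hcon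
    obtain ⟨s, hs, hne⟩ := hpick _ hcon
    exact hne (h.comm hs.1 j k F)
  obtain ⟨S, hS⟩ := (IsNoetherian.noetherian P : P.FG)
  have hS' : Ideal.span (S : Set (MvPolynomial σ ℂ)) = P := hS
  have hSP : ∀ F ∈ S, F ∈ P := fun F hF => by rw [← hS]; exact Ideal.subset_span hF
  -- a tangent vector along `L`
  obtain ⟨a, ha, hau⟩ : ∃ a : Fin d → MvPolynomial σ ℂ, (∃ i, a i ∉ P) ∧
      ∀ F ∈ P, dv N (uL L a) F ∈ P := by
    set K := FractionRing (MvPolynomial σ ℂ ⧸ P) with hK
    let M : (Fin d → K) →ₗ[K] (S → K) :=
      { toFun := fun w F => ∑ i, w i * ∑ j, rd P (C (L i j)) * rd P (dd N j F)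
        map_add' := fun v w => by
          funext F
          simp [add_mul, Finset.sum_add_distrib]
        map_smul' := fun r v => by
          funext F
          simp only [Pi.smul_apply, smul_eq_mul, mul_assoc, RingHom.id_apply]
          rw [Finset.mul_sum] }
    by_cases hinj : Function.Injective M
    · exfalso
      obtain ⟨B, hB⟩ := M.exists_leftInverse_of_injective (LinearMap.ker_eq_bot.2 hinj)
      obtain ⟨β, hβ, B', hB'⟩ := clearP P (fun p : Fin d × S => B (Pi.single p.2 1) p.1)
      have hBM : ∀ i k, (∑ F : S, B' (i, F) * ∑ j, C (L k j) * dd N j F) -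
          C (if i = k then 1 else 0) * β ∈ P := by
        intro i k
        rw [← rd_eq_zero P, map_sub, map_sum]
        simp only [map_mul, map_sum, hB']
        have h1 : B (M (Pi.single k 1)) i = (Pi.single k 1 : Fin d → K) i := by
          have := LinearMap.congr_fun hB (Pi.single k 1)
          exact congrFun this i
        have h2 : M (Pi.single k 1) = ∑ F : S,
            (∑ j, rd P (C (L k j)) * rd P (dd N j F)) • (Pi.single F 1 : S → K) := by
          have h3 : M (Pi.single k 1) = fun F : S =>
              ∑ j, rd P (C (L k j)) * rd P (dd N j F) := by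
            funext F
            show ∑ i, (Pi.single k 1 : Fin d → K) i * _ = _
            rw [Finset.sum_eq_single k]
            · rw [Pi.single_eq_same, one_mul]
            · intro l _ hl
              rw [Pi.single_eq_of_ne hl, zero_mul]
            · intro hh; exact absurd (Finset.mem_univ _) hh
          rw [h3]
          exact pi_eq_sum_univ' _
        rw [h2, map_sum, Finset.sum_apply] at h1
        simp only [map_smul, Pi.smul_apply, smul_eq_mul] at h1
        have h4 : rd P (C (if i = k then 1 else 0)) = (Pi.single k 1 : Fin d → K) i := by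
          by_cases hik : i = k
          · subst hik; simp
          · rw [if_neg hik, Pi.single_eq_of_ne hik]; simp
        rw [h4, ← h1, Finset.sum_mul, sub_eq_zero]
        apply Finset.sum_congr rfl
        intro F _
        ring
      apply hPunc
      have hiso : {s ∈ EE x U b L P | eval (x (pL b L s)) β ≠ 0}.Countable := by
        apply countable_of_isolated
        rintro s ⟨hs, hsβ⟩
        -- the derivative of the generators is injective
        let Φ : (Fin d → ℂ) → S → ℂ := fun s F => eval (x (pL b L s)) (F : MvPolynomial σ ℂ)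
        let Φ' : (Fin d → ℂ) →L[ℂ] (S → ℂ) :=
          ContinuousLinearMap.pi fun F : S => (dF N x F (pL b L s)).comp (lL L)
        have hΦ : HasFDerivAt Φ Φ' s := by
          rw [hasFDerivAt_pi']
          intro F
          exact h.hasFDerivAt_pL hs.1 F
        have hinjΦ : ∃ C, AntilipschitzWith C Φ' := by
          obtain ⟨K', -, hK'⟩ := (Φ' : (Fin d → ℂ) →ₗ[ℂ] (S → ℂ)).exists_antilipschitzWith (by
            rw [LinearMap.ker_eq_bot']
            intro w hw
            have hwF : ∀ F : S, ∑ k, w k * ∑ j, L k j * eval (x (pL b L s)) (dd N j F) = 0 := by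
              intro F
              have h1 := congrFun hw F
              have h2 : dF N x F (pL b L s) (lL L w) = 0 := h1
              rw [dF_apply] at h2
              rw [← h2]
              simp only [lL_apply, Finset.mul_sum, Finset.sum_mul]
              rw [Finset.sum_comm]
              apply Finset.sum_congr rfl
              intro j _
              apply Finset.sum_congr rfl
              intro k _
              ring
            funext i
            have h3 : eval (x (pL b L s)) β * w i = 0 := by
              have h4 : ∀ k, (∑ F : S, eval (x (pL b L s)) (B' (i, F)) *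
                  ∑ j, L k j * eval (x (pL b L s)) (dd N j F)) =
                  (if i = k then 1 else 0) * eval (x (pL b L s)) β := by
                intro k
                have h5 := hs.2 _ (hBM i k)
                simp only [map_sub, map_sum, map_mul, eval_C] at h5
                exact sub_eq_zero.1 h5
              have h6 : ∑ k, w k * (∑ F : S, eval (x (pL b L s)) (B' (i, F)) *
                  ∑ j, L k j * eval (x (pL b L s)) (dd N j F)) = 0 := by
                have h7 : ∀ k, w k * (∑ F : S, eval (x (pL b L s)) (B' (i, F)) *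
                  ∑ j, L k j * eval (x (pL b L s)) (dd N j F)) =
                  ∑ F : S, eval (x (pL b L s)) (B' (i, F)) *
                    (w k * ∑ j, L k j * eval (x (pL b L s)) (dd N j F)) := by
                  intro k
                  rw [Finset.mul_sum]
                  apply Finset.sum_congr rfl
                  intro F _
                  ring
                simp_rw [h7]
                rw [Finset.sum_comm]
                apply Finset.sum_eq_zero
                intro F _
                rw [← Finset.mul_sum, hwF F, mul_zero]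
              simp_rw [h4] at h6
              rw [Finset.sum_eq_single i] at h6
              · rw [if_pos rfl, one_mul] at h6
                rw [mul_comm]; exact h6
              · intro k _ hk
                rw [if_neg (Ne.symm hk), zero_mul, mul_zero]
              · intro hh; exact absurd (Finset.mem_univ _) hh
            exact (mul_eq_zero.1 h3).resolve_left hsβ)
          exact ⟨K', hK'⟩
        have hne := hΦ.eventually_ne (c := 0) hinjΦ
        filter_upwards [hne] with s' hs' hcon
        apply hs'
        funext F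
        exact hcon.1.2 _ (hSP F F.2)
      apply (hiso.union (hdich β hβ)).mono
      intro s hs
      by_cases hsβ : eval (x (pL b L s)) β = 0
      · exact Or.inr ⟨hs, hsβ⟩
      · exact Or.inl ⟨hs, hsβ⟩
    · rw [injective_iff_map_eq_zero] at hinj
      push Not at hinj
      obtain ⟨w, hw, hw0⟩ := hinj
      obtain ⟨β, hβ, a, ha⟩ := clearP P w
      refine ⟨a, ?_, ?_⟩
      · by_contra hcon
        push Not at hcon
        apply hw0
        funext i
        have h1 := ha i
        rw [(rd_eq_zero P).2 (hcon i)] at h1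
        exact (mul_eq_zero.1 h1.symm).resolve_left (fun h2 => hβ ((rd_eq_zero P).1 h2))
      · apply dv_span hS'
        intro F hF
        have h1 : ∑ i, w i * ∑ j, rd P (C (L i j)) * rd P (dd N j F) = 0 :=
          congrFun hw ⟨F, hF⟩
        rw [dv_apply, ← rd_eq_zero P, map_sum]
        simp only [uL, map_mul, map_sum, ha]
        have h2 : ∑ j, (∑ i, rd P β * w i * rd P (C (L i j))) * rd P (dd N j F) =
            rd P β * ∑ i, w i * ∑ j, rd P (C (L i j)) * rd P (dd N j F) := by
          simp only [Finset.sum_mul]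
          rw [Finset.sum_comm, Finset.mul_sum]
          apply Finset.sum_congr rfl
          intro i _
          have e1 : ∑ j, rd P β * w i * rd P (C (L i j)) * rd P (dd N j F) =
              ∑ j, (rd P β * w i) * (rd P (C (L i j)) * rd P (dd N j F)) :=
            Finset.sum_congr rfl fun j _ => mul_assoc _ _ _
          have e2 : ∑ j, (rd P β * w i) * (rd P (C (L i j)) * rd P (dd N j F)) =
              (rd P β * w i) * ∑ j, rd P (C (L i j)) * rd P (dd N j F) :=
            (Finset.mul_sum _ _ _).symm
          exact e1.trans (e2.trans (mul_assoc _ _ _))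
        rw [h2, h1, mul_zero]
  obtain ⟨i₀, hi₀⟩ := ha
  -- constants
  have hconst : ∀ a₁ b₁, b₁ ∉ P → b₁ * dv N (uL L a) a₁ - a₁ * dv N (uL L a) b₁ ∈ P →
      ∃ c, a₁ - C c * b₁ ∈ P := by
    intro a₁ b₁ hb₁ hab
    obtain ⟨s₀, hs₀, hne⟩ := hpick (b₁ * a i₀) (fun hh => (hP.mem_or_mem hh).elim hb₁ hi₀)
    rw [map_mul] at hne
    have hne1 := left_ne_zero_of_mul hne
    have hne2 := right_ne_zero_of_mul hne
    refine ⟨eval (x (pL b L s₀)) a₁ / eval (x (pL b L s₀)) b₁, ?_⟩
    by_contra hcon
    refine flow_step h hau hs₀ hne2 (b₁ := b₁) (c₁ := dv N (uL L a) b₁) hne1 ?_ ?_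
      (hdich _ hcon)
    · rw [map_sub, map_mul, eval_C, div_mul_cancel₀ _ hne1, sub_self]
    · have hC : ∀ c : ℂ, dv N (uL L a) (C c) = 0 := fun c => (dv N (uL L a)).map_algebraMap c
      rw [map_sub, Derivation.leibniz, hC, smul_zero, add_zero, smul_eq_mul]
      have : b₁ * (dv N (uL L a) a₁ - C (eval (x (pL b L s₀)) a₁ / eval (x (pL b L s₀)) b₁) *
          dv N (uL L a) b₁) - (a₁ - C (eval (x (pL b L s₀)) a₁ / eval (x (pL b L s₀)) b₁) * b₁) *
          dv N (uL L a) b₁ = b₁ * dv N (uL L a) a₁ - a₁ * dv N (uL L a) b₁ := by ring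
      rw [this]
      exact hab
  obtain ⟨s₁, hs₁, -⟩ := hpick _ hi₀
  have hpt : ∃ z ∈ U, x z ∈ Z P := ⟨_, hs₁.1, hs₁.2⟩
  have hrel := exists_rel himm (hdim P hP hJP hpt) hL ⟨i₀, hi₀⟩ hau
  obtain ⟨ω, hω, hω'⟩ := exists_const_rel hcomm hau hconst hrel
  obtain ⟨c, hc, β, hβ⟩ := row_space hS' hω'
  refine ⟨P, hP, hJP, ?_, hpt, ω, hω, c, hc, S, hSP, β, hβ⟩
  -- positive dimension
  by_contra hcon
  have h0 : dm P = 0 := by omega
  have hPpt := pt_of_dm_zero hP h0 hs₁.2
  have h1u := himm (uL L a) (fun i => by
    have h2 := hau (X i - C (x (pL b L s₁) i)) (by rw [hPpt, mem_pt]; simp)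
    have hC : ∀ c : ℂ, dv N (uL L a) (C c) = 0 := fun c => (dv N (uL L a)).map_algebraMap c
    rwa [map_sub, hC, sub_zero] at h2)
  apply hi₀
  have h1 : a i₀ = ∑ j, uL L a j * C (L' j i₀) := by
    simp only [uL, Finset.sum_mul]
    rw [Finset.sum_comm]
    have h2 : ∀ i, ∑ j, a i * C (L i j) * C (L' j i₀) =
        a i * (if i = i₀ then 1 else 0) := by
      intro i
      have h3 := congrArg (C (σ := σ)) (hL i i₀)
      rw [map_sum] at h3
      simp only [map_mul] at h3
      simp_rw [mul_assoc]
      rw [← Finset.mul_sum, h3]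
      split_ifs <;> simp
    simp [h2]
  rw [h1]
  exact P.sum_mem fun j _ => P.mul_mem_right _ (h1u j)

end Pool.Agent.Run7.h10
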