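import Pool.Agent.Run7.h10.IP

/-!
# Polynomial approximation of holomorphic functions
-/

set_option autoImplicit false
set_option linter.unusedSectionVars false

namespace Pool.Agent.Run7.h10

open MvPolynomial Filter Topology Metric

variable {τ : Type} [Fintype τ]

theorem multilinear_poly {k : ℕ} (p : ContinuousMultilinearMap ℂ (fun _ : Fin k => τ → ℂ) ℂ)
    (a : τ → ℂ) : ∃ F : MvPolynomial τ ℂ, ∀ y, eval y F = p (fun _ => y - a) := by
  classical
  refine ⟨∑ φ : Fin k → τ, C (p fun j => Pi.single (φ j) 1) * ∏ j, (X (φ j) - C (a (φ j))),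
    fun y => ?_⟩
  have h1 : (fun _ : Fin k => y - a) =
      fun _ : Fin k => ∑ i, (y i - a i) • (Pi.single i 1 : τ → ℂ) := by
    funext _
    exact pi_eq_sum_univ' (y - a)
  rw [h1, p.map_sum]
  simp only [map_sum, map_mul, eval_C, map_prod, map_sub, eval_X]
  apply Finset.sum_congr rfl
  intro φ _
  rw [p.map_smul_univ, smul_eq_mul, mul_comm]

theorem poly_approx {f : (τ → ℂ) → ℂ} {a : τ → ℂ} (hf : AnalyticAt ℂ f a) :
    ∃ r > 0, ContinuousOn f (closedBall a r) ∧
      ∀ η > 0, ∃ F : MvPolynomial τ ℂ, ∀ x ∈ closedBall a r, ‖f x - eval x F‖ ≤ η := by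
  obtain ⟨p, R, hp⟩ := hf
  obtain ⟨r, hr0, hr⟩ : ∃ r : NNReal, 0 < r ∧ (r : ENNReal) < R := by
    obtain ⟨r, h1, h2⟩ := ENNReal.lt_iff_exists_nnreal_btwn.1 hp.r_pos
    exact ⟨r, by exact_mod_cast h1, h2⟩
  have hu := hp.tendstoUniformlyOn' hr
  have hsub : closedBall a ((r : ℝ) / 2) ⊆ ball a r := by
    apply closedBall_subset_ball
    have : (0 : ℝ) < r := hr0
    linarith
  refine ⟨(r : ℝ) / 2, by positivity, ?_, ?_⟩
  · apply ContinuousOn.mono _ hsub
    apply hp.continuousOn.mono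
    intro x hx
    rw [Metric.mem_eball, edist_dist]
    refine lt_trans ?_ hr
    rw [ENNReal.ofReal_lt_iff_lt_toReal dist_nonneg ENNReal.coe_ne_top]
    exact hx
  · intro η hη
    rw [Metric.tendstoUniformlyOn_iff] at hu
    obtain ⟨n, hn⟩ := (hu η hη).exists
    choose F hF using fun k => multilinear_poly (p k) a
    refine ⟨∑ k ∈ Finset.range n, F k, fun x hx => ?_⟩
    have h1 := hn x (hsub hx)
    rw [dist_eq_norm, FormalMultilinearSeries.partialSum] at h1
    rw [map_sum]
    simp_rw [hF]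
    exact h1.le

end Pool.Agent.Run7.h10
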