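import Pool.Agent.Run7.h10.Def
import Pool.Agent.Run7.h10.AX5
import Pool.Agent.Run7.h10.Approx

/-!
# Abelian varieties
-/

set_option autoImplicit false
set_option linter.unusedSectionVars false

namespace Pool.Agent.Run7.h10

open MvPolynomial Filter Topology Metric

variable {g N : ℕ} (A : AbelianVariety g N)

namespace AbelianVariety

theorem exists_bdd : ∃ R : ℝ, 0 < R ∧ ∀ z, ∃ l ∈ A.Λ, ‖z - l‖ ≤ R := by
  classical
  let b := Module.Basis.ofSpan (K := ℝ) (s := (A.Λ : Set (Fin g → ℂ))) A.spans.ge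
  have hb : Set.range b ⊆ (A.Λ : Set (Fin g → ℂ)) := Module.Basis.ofSpan_subset A.spans.ge
  haveI : Fintype ((linearIndepOn_empty ℝ id).extend
      (Set.empty_subset (A.Λ : Set (Fin g → ℂ)))) := FiniteDimensional.fintypeBasisIndex b
  refine ⟨∑ i, ‖b i‖ + 1, ?_, fun z => ⟨(ZSpan.floor b z : Fin g → ℂ), ?_, ?_⟩⟩
  · have : 0 ≤ ∑ i, ‖b i‖ := Finset.sum_nonneg fun i _ => norm_nonneg _
    linarith
  · have h1 : Submodule.span ℤ (Set.range b) ≤ A.Λ := Submodule.span_le.2 hb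
    exact h1 (ZSpan.floor b z).2
  · have h1 := ZSpan.norm_fract_le b z
    rw [ZSpan.fract_apply] at h1
    linarith

theorem θ_add (z : Fin g → ℂ) {l : Fin g → ℂ} (hl : l ∈ A.Λ) :
    ∃ c : ℂ, c ≠ 0 ∧ A.θ (z + l) = c • A.θ z := by
  obtain ⟨c, hc⟩ := (A.kernel (z + l) z).2 (by rw [add_sub_cancel_left]; exact hl)
  refine ⟨c, ?_, hc⟩
  rintro rfl
  rw [zero_smul] at hc
  exact A.ne_zero _ hc

/-- affine coordinates -/
noncomputable def xch (l : Fin (N + 1)) (z : Fin g → ℂ) : Fin (N + 1) → ℂ :=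
  fun i => A.θ z i / A.θ z l

variable {A} {l : Fin (N + 1)} {z w z₀ : Fin g → ℂ}

theorem θ_eq_smul (h : A.θ z l ≠ 0) : A.θ z = A.θ z l • A.xch l z := by
  funext i
  simp only [xch, Pi.smul_apply, smul_eq_mul]
  field_simp

theorem xch_self (h : A.θ z l ≠ 0) : A.xch l z l = 1 := div_self h

theorem xch_ne_zero (h : A.θ z l ≠ 0) : A.xch l z ≠ 0 := by
  intro h0
  have := xch_self h
  rw [h0] at this
  simp at this

theorem xch_of_smul {c : ℂ} (hc : c ≠ 0) (h : A.θ z = c • A.θ w) : A.xch l z = A.xch l w := by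
  funext i
  simp only [xch, h, Pi.smul_apply, smul_eq_mul]
  exact mul_div_mul_left _ _ hc

theorem xch_add {l' : Fin g → ℂ} (hl : l' ∈ A.Λ) : A.xch l (z + l') = A.xch l z := by
  obtain ⟨c, hc, h⟩ := A.θ_add z hl
  exact xch_of_smul hc h

theorem θ_add_ne {l' : Fin g → ℂ} (hl : l' ∈ A.Λ) : A.θ (z + l') l ≠ 0 ↔ A.θ z l ≠ 0 := by
  obtain ⟨c, hc, h⟩ := A.θ_add z hl
  rw [h]
  simp [hc]

theorem sub_mem_of_xch_eq (hz : A.θ z l ≠ 0) (hw : A.θ w l ≠ 0) (h : A.xch l z = A.xch l w) :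
    z - w ∈ A.Λ := by
  rw [← A.kernel]
  refine ⟨A.θ z l / A.θ w l, ?_⟩
  rw [θ_eq_smul hz, h]
  conv_rhs => rw [θ_eq_smul hw]
  rw [smul_smul]
  congr 1
  simp only [Pi.smul_apply, smul_eq_mul]
  rw [xch_self hw]
  field_simp

theorem analyticAt_θi (z : Fin g → ℂ) (i : Fin (N + 1)) : AnalyticAt ℂ (fun z => A.θ z i) z :=
  (analyticAt_pi_iff.1 (A.entire z)) i

theorem continuous_θ : Continuous A.θ := by
  rw [continuous_iff_continuousAt]
  exact fun z => (A.entire z).continuousAt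

theorem analyticAt_xch (h : A.θ z l ≠ 0) : AnalyticAt ℂ (A.xch l) z := by
  rw [analyticAt_pi_iff]
  intro i
  exact (analyticAt_θi z i).div (analyticAt_θi z l) h

theorem isOpen_chart (l : Fin (N + 1)) : IsOpen {z | A.θ z l ≠ 0} :=
  isOpen_ne_fun ((continuous_apply l).comp continuous_θ) continuous_const

theorem fderiv_xch (h : A.θ z l ≠ 0) {v : Fin g → ℂ} (hv : fderiv ℂ (A.xch l) z v = 0) :
    v = 0 := by
  apply A.immersion z v
  have hd : HasFDerivAt A.θ (fderiv ℂ A.θ z) z := (A.entire z).differentiableAt.hasFDerivAt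
  have hx : HasFDerivAt (A.xch l) (fderiv ℂ (A.xch l) z) z :=
    (analyticAt_xch h).differentiableAt.hasFDerivAt
  have hl : HasFDerivAt (fun z => A.θ z l)
      ((ContinuousLinearMap.proj l : (Fin (N + 1) → ℂ) →L[ℂ] ℂ).comp (fderiv ℂ A.θ z)) z :=
    (hasFDerivAt_pi'.1 hd) l
  have h1 : HasFDerivAt (fun z => A.θ z l • A.xch l z)
      (A.θ z l • fderiv ℂ (A.xch l) z +
        ((ContinuousLinearMap.proj l : (Fin (N + 1) → ℂ) →L[ℂ] ℂ).comp
          (fderiv ℂ A.θ z)).smulRight (A.xch l z)) z := hl.smul hx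
  have h2 : A.θ =ᶠ[𝓝 z] fun z => A.θ z l • A.xch l z := by
    filter_upwards [(isOpen_chart l).mem_nhds h] with w hw
    exact θ_eq_smul hw
  have h3 := hd.unique (h1.congr_of_eventuallyEq h2)
  refine ⟨fderiv ℂ A.θ z v l / A.θ z l, ?_⟩
  have h4 := congrArg (fun f : (Fin g → ℂ) →L[ℂ] (Fin (N + 1) → ℂ) => f v) h3
  simp only [_root_.add_apply, _root_.smul_apply, hv, smul_zero, zero_add,
    ContinuousLinearMap.smulRight_apply, ContinuousLinearMap.comp_apply,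
    ContinuousLinearMap.proj_apply] at h4
  rw [h4]
  funext i
  simp only [Pi.smul_apply, smul_eq_mul, xch]
  field_simp

/-- points of the variety near a point of the chart come from points near it -/
theorem near_lift (h : A.θ z₀ l ≠ 0) {r : ℝ} (hr : 0 < r) :
    ∃ ρ > 0, ∀ z, A.θ z l ≠ 0 → ‖A.xch l z - A.xch l z₀‖ < ρ →
      ∃ l' ∈ A.Λ, ‖z - l' - z₀‖ < r := by
  by_contra hcon
  push Not at hcon
  have h1 : ∀ n : ℕ, ∃ z, A.θ z l ≠ 0 ∧ ‖A.xch l z - A.xch l z₀‖ < 1 / ((n : ℝ) + 1) ∧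
      ∀ l' ∈ A.Λ, r ≤ ‖z - l' - z₀‖ := fun n => hcon _ (by positivity)
  choose z hz1 hz2 hz3 using h1
  obtain ⟨R, hR, hbdd⟩ := A.exists_bdd
  choose m hm1 hm2 using fun n => hbdd (z n)
  have hin : ∀ n, z n - m n ∈ closedBall (0 : Fin g → ℂ) R := fun n => by
    rw [mem_closedBall_zero_iff]; exact hm2 n
  obtain ⟨w, -, φ, hφ, hlim⟩ := (isCompact_closedBall (0 : Fin g → ℂ) R).tendsto_subseq hin
  have hx : ∀ n, A.xch l (z n - m n) = A.xch l (z n) := by
    intro n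
    have := xch_add (l := l) (z := z n) (A.Λ.neg_mem (hm1 n))
    rwa [← sub_eq_add_neg] at this
  have hne : ∀ n, A.θ (z n - m n) l ≠ 0 := by
    intro n
    have := (θ_add_ne (l := l) (z := z n) (A.Λ.neg_mem (hm1 n))).2 (hz1 n)
    rwa [← sub_eq_add_neg] at this
  have hxlim : Tendsto (fun n => A.xch l (z n - m n)) atTop (𝓝 (A.xch l z₀)) := by
    rw [tendsto_iff_norm_sub_tendsto_zero]
    refine squeeze_zero (fun n => norm_nonneg _) (fun n => ?_)
      (tendsto_one_div_add_atTop_nhds_zero_nat (𝕜 := ℝ))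
    rw [hx n]
    exact (hz2 n).le
  have hθ : Tendsto (fun n => A.θ (z (φ n) - m (φ n))) atTop (𝓝 (A.θ w)) :=
    (continuous_θ.tendsto w).comp hlim
  have hθ2 : Tendsto (fun n => A.θ (z (φ n) - m (φ n)) l • A.xch l (z (φ n) - m (φ n))) atTop
      (𝓝 (A.θ w l • A.xch l z₀)) := by
    apply Tendsto.smul
    · exact ((continuous_apply l).tendsto _).comp hθ
    · exact hxlim.comp hφ.tendsto_atTop
  have heq : A.θ w = A.θ w l • A.xch l z₀ := by
    apply tendsto_nhds_unique hθ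
    refine hθ2.congr fun n => ?_
    exact (θ_eq_smul (hne _)).symm
  have hw : w - z₀ ∈ A.Λ := by
    rw [← A.kernel]
    refine ⟨A.θ w l / A.θ z₀ l, ?_⟩
    rw [heq]
    conv_rhs => rw [θ_eq_smul h, smul_smul]
    congr 1
    simp only [Pi.smul_apply, smul_eq_mul]
    rw [xch_self h]
    field_simp
  have h2 := Metric.tendsto_atTop.1 hlim r hr
  obtain ⟨n, hn⟩ := h2
  have h3 := hn n le_rfl
  have h4 := hz3 (φ n) (m (φ n) + (w - z₀)) (A.Λ.add_mem (hm1 _) hw)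
  rw [dist_eq_norm] at h3
  have h5 : z (φ n) - (m (φ n) + (w - z₀)) - z₀ = z (φ n) - m (φ n) - w := by abel
  rw [h5] at h4
  exact absurd h3 (not_lt.2 h4)

end AbelianVariety

end Pool.Agent.Run7.h10
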