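import Pool.Agent.Run7.h10.AV

/-!
# Invariant vector fields in affine coordinates
-/

set_option autoImplicit false
set_option linter.unusedSectionVars false

namespace Pool.Agent.Run7.h10

open MvPolynomial Filter Topology Metric

theorem eval_wh {τ : Type} [Fintype τ] {w : τ → ℕ} {F : MvPolynomial τ ℂ} {n : ℕ}
    (hF : IsWeightedHomogeneous w F n) (c : ℂ) (x : τ → ℂ) :
    eval (fun t => c ^ w t * x t) F = c ^ n * eval x F := by
  rw [eval_eq', eval_eq', Finset.mul_sum]
  apply Finset.sum_congr rfl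
  intro d hd
  have h1 : Finsupp.weight w d = n := hF (mem_support_iff.1 hd)
  have h2 : ∏ t, (c ^ w t * x t) ^ d t = c ^ n * ∏ t, x t ^ d t := by
    rw [← h1, Finsupp.weight_apply, Finsupp.sum_fintype _ _ (by simp), ← Finset.prod_pow_eq_pow_sum,
      ← Finset.prod_mul_distrib]
    apply Finset.prod_congr rfl
    intro t _
    rw [mul_pow, ← pow_mul, smul_eq_mul, mul_comm (w t)]
  rw [h2]
  ring

/-- the differential of a polynomial in the direction of a linear map -/
noncomputable def gF {τ E : Type} [Fintype τ] [NormedAddCommGroup E] [NormedSpace ℂ E]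
    (u' : E →L[ℂ] (τ → ℂ)) (x : τ → ℂ) (F : MvPolynomial τ ℂ) : E →L[ℂ] ℂ :=
  (∑ t, (eval x (pderiv t F)) • (ContinuousLinearMap.proj t : (τ → ℂ) →L[ℂ] ℂ)).comp u'

theorem gF_apply {τ E : Type} [Fintype τ] [NormedAddCommGroup E] [NormedSpace ℂ E]
    (u' : E →L[ℂ] (τ → ℂ)) (x : τ → ℂ) (F : MvPolynomial τ ℂ) (v : E) :
    gF u' x F v = ∑ t, eval x (pderiv t F) * u' v t := by
  rw [gF, ContinuousLinearMap.comp_apply, _root_.sum_apply]
  rfl

/-- chain rule -/
theorem hasFDerivAt_eval {τ E : Type} [Fintype τ] [NormedAddCommGroup E] [NormedSpace ℂ E]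
    {u : E → τ → ℂ} {u' : E →L[ℂ] (τ → ℂ)} {z : E} (hu : HasFDerivAt u u' z)
    (F : MvPolynomial τ ℂ) :
    HasFDerivAt (fun z => eval (u z) F) (gF u' (u z) F) z := by
  induction F using MvPolynomial.induction_on with
  | C a =>
    have h : gF u' (u z) (C a) = 0 := by
      ext v
      rw [gF_apply]
      simp
    rw [h]
    simp only [eval_C]
    exact hasFDerivAt_const _ _
  | add p q hp hq =>
    have h : gF u' (u z) (p + q) = gF u' (u z) p + gF u' (u z) q := by
      ext v
      rw [_root_.add_apply, gF_apply, gF_apply, gF_apply, ← Finset.sum_add_distrib]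
      apply Finset.sum_congr rfl
      intro t _
      simp only [map_add]
      ring
    rw [h]
    simp only [map_add]
    exact hp.add hq
  | mul_X p i hp =>
    classical
    have hxi := (hasFDerivAt_pi'.1 hu) i
    have h2 := hp.mul hxi
    simp only [map_mul, eval_X]
    refine h2.congr_fderiv ?_
    have h3 : ∀ t, pderiv t (p * X i) = pderiv t p * X i + p * (if t = i then 1 else 0) := by
      intro t
      rw [Derivation.leibniz, pderiv_X, smul_eq_mul, smul_eq_mul]
      by_cases h : t = i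
      · subst h; simp; ring
      · rw [Pi.single_eq_of_ne (Ne.symm h), if_neg h]; ring
    have h4 : ∀ t, eval (u z) (pderiv t (p * X i)) =
        eval (u z) (pderiv t p) * u z i + (if t = i then eval (u z) p else 0) := by
      intro t
      rw [h3, map_add, map_mul, map_mul, eval_X]
      split_ifs <;> simp
    ext v
    rw [gF_apply, _root_.add_apply, _root_.smul_apply, _root_.smul_apply, gF_apply,
      ContinuousLinearMap.comp_apply, ContinuousLinearMap.proj_apply]
    simp only [h4, add_mul, Finset.sum_add_distrib, ite_mul, zero_mul, smul_eq_mul]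
    rw [Finset.sum_ite_eq' Finset.univ i, if_pos (Finset.mem_univ i), add_comm, Finset.mul_sum]
    congr 1
    apply Finset.sum_congr rfl
    intro t _
    ring

variable {g N : ℕ} {A : AbelianVariety g N}

/-- substituting constants in the second group of variables -/
noncomputable def subst2 (Y : Fin (N + 1) → ℂ)
    (S : MvPolynomial (Fin (N + 1) ⊕ Fin (N + 1)) ℂ) : MvPolynomial (Fin (N + 1)) ℂ :=
  aeval (Sum.elim X (fun k => C (Y k))) S

theorem eval_subst2 (Y : Fin (N + 1) → ℂ) (S : MvPolynomial (Fin (N + 1) ⊕ Fin (N + 1)) ℂ)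
    (x : Fin (N + 1) → ℂ) : eval x (subst2 Y S) = eval (Sum.elim x Y) S := by
  induction S using MvPolynomial.induction_on with
  | C a => simp [subst2]
  | add p q hp hq =>
    simp only [subst2, map_add] at hp hq ⊢
    rw [hp, hq]
  | mul_X p i hp =>
    simp only [subst2, map_mul, aeval_X, eval_X] at hp ⊢
    rw [hp]
    cases i <;> simp

namespace AbelianVariety

theorem exists_vector_fields (A : AbelianVariety g N) {l : Fin (N + 1)} {a : Fin g → ℂ}
    (ha : A.θ a l ≠ 0) :
    ∃ (D : MvPolynomial (Fin (N + 1)) ℂ) (M : Fin g → Fin (N + 1) → MvPolynomial (Fin (N + 1)) ℂ),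
      eval (A.xch l a) D ≠ 0 ∧ ∀ z, A.θ z l ≠ 0 → ∀ j i,
        fderiv ℂ (A.xch l) z (Pi.single j 1) i * eval (A.xch l z) D =
          eval (A.xch l z) (M j i) := by
  obtain ⟨p, q, S, hp, hq, ⟨i₀, hi₀⟩, hS⟩ := A.addition a 0
  obtain ⟨m, hm⟩ : ∃ m, A.θ 0 m ≠ 0 := Function.ne_iff.1 (A.ne_zero 0)
  set Y := A.xch m 0 with hY
  -- scaling
  have hscale : ∀ z w, A.θ z l ≠ 0 → A.θ w m ≠ 0 → ∀ i,
      eval (Sum.elim (A.θ z) (A.θ w)) (S i) =
        A.θ z l ^ p * A.θ w m ^ q * eval (Sum.elim (A.xch l z) (A.xch m w)) (S i) := by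
    intro z w hz hw i
    have h1 : Sum.elim (A.θ z) (A.θ w) = fun t => A.θ z l ^ (Sum.elim (fun _ => 1) (fun _ => 0) :
        Fin (N + 1) ⊕ Fin (N + 1) → ℕ) t * (A.θ w m ^ (Sum.elim (fun _ => 0) (fun _ => 1) :
        Fin (N + 1) ⊕ Fin (N + 1) → ℕ) t * Sum.elim (A.xch l z) (A.xch m w) t) := by
      funext t
      rcases t with t | t
      · simp only [Sum.elim_inl, pow_one, pow_zero, one_mul]
        exact congrFun (θ_eq_smul hz) t
      · simp only [Sum.elim_inr, pow_one, pow_zero, one_mul]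
        exact congrFun (θ_eq_smul hw) t
    rw [h1, eval_wh (hp i), eval_wh (hq i)]
    ring
  have hkey : ∀ z w, A.θ z l ≠ 0 → A.θ w m ≠ 0 → A.θ (z + w) l ≠ 0 → ∀ i,
      eval (Sum.elim (A.xch l z) (A.xch m w)) (S i) =
        A.xch l (z + w) i * eval (Sum.elim (A.xch l z) (A.xch m w)) (S l) := by
    intro z w hz hw hzw i
    obtain ⟨c, hc⟩ := hS z w
    have h1 : A.θ z l ^ p * A.θ w m ^ q ≠ 0 := mul_ne_zero (pow_ne_zero _ hz) (pow_ne_zero _ hw)
    apply mul_left_cancel₀ h1
    have h2 := hscale z w hz hw i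
    have h3 := hscale z w hz hw l
    have h4 : eval (Sum.elim (A.θ z) (A.θ w)) (S i) = c * A.θ (z + w) i := congrFun hc i
    have h5 : eval (Sum.elim (A.θ z) (A.θ w)) (S l) = c * A.θ (z + w) l := congrFun hc l
    rw [← h2, h4]
    have h6 : A.θ z l ^ p * A.θ w m ^ q * (A.xch l (z + w) i *
        eval (Sum.elim (A.xch l z) (A.xch m w)) (S l)) = A.xch l (z + w) i *
        (A.θ z l ^ p * A.θ w m ^ q * eval (Sum.elim (A.xch l z) (A.xch m w)) (S l)) := by ring
    rw [h6, ← h3, h5]
    simp only [xch]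
    field_simp
  let η : Fin g → Fin (N + 1) → ℂ := fun j => fderiv ℂ (A.xch m) 0 (Pi.single j 1)
  refine ⟨subst2 Y (S l), fun j i => ∑ k, C (η j k) *
    (subst2 Y (pderiv (Sum.inr k) (S i)) - X i * subst2 Y (pderiv (Sum.inr k) (S l))), ?_, ?_⟩
  · rw [eval_subst2]
    intro h0
    have h1 := hscale a 0 ha hm l
    rw [← hY, h0, mul_zero] at h1
    obtain ⟨c, hc⟩ := hS a 0
    have h2 : eval (Sum.elim (A.θ a) (A.θ 0)) (S l) = c * A.θ (a + 0) l := congrFun hc l
    rw [h1, add_zero] at h2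
    have hc0 : c = 0 := by
      rcases mul_eq_zero.1 h2.symm with h3 | h3
      · exact h3
      · exact absurd h3 ha
    apply hi₀
    have h3 : eval (Sum.elim (A.θ a) (A.θ 0)) (S i₀) = c * A.θ (a + 0) i₀ := congrFun hc i₀
    rw [h3, hc0, zero_mul]
  · intro z hz j i
    -- differentiate the addition law
    have hy : HasFDerivAt (A.xch m) (fderiv ℂ (A.xch m) 0) 0 :=
      (analyticAt_xch hm).differentiableAt.hasFDerivAt
    have hx : HasFDerivAt (A.xch l) (fderiv ℂ (A.xch l) z) z :=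
      (analyticAt_xch hz).differentiableAt.hasFDerivAt
    have hx2 : HasFDerivAt (fun w => A.xch l (z + w)) (fderiv ℂ (A.xch l) z) 0 := by
      have h1 : HasFDerivAt (A.xch l) (fderiv ℂ (A.xch l) z) (z + 0) := by rwa [add_zero]
      exact (hasFDerivAt_comp_add_left z).2 h1
    have hx2i : HasFDerivAt (fun w => A.xch l (z + w) i)
        ((ContinuousLinearMap.proj i : (Fin (N + 1) → ℂ) →L[ℂ] ℂ).comp (fderiv ℂ (A.xch l) z)) 0 :=
      (hasFDerivAt_pi'.1 hx2) i
    let u : (Fin g → ℂ) → (Fin (N + 1) ⊕ Fin (N + 1)) → ℂ := fun w =>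
      Sum.elim (A.xch l z) (A.xch m w)
    let u' : (Fin g → ℂ) →L[ℂ] ((Fin (N + 1) ⊕ Fin (N + 1)) → ℂ) :=
      ContinuousLinearMap.pi (Sum.elim (fun _ => 0) (fun k =>
        (ContinuousLinearMap.proj k : (Fin (N + 1) → ℂ) →L[ℂ] ℂ).comp (fderiv ℂ (A.xch m) 0)))
    have hu : HasFDerivAt u u' 0 := by
      rw [hasFDerivAt_pi']
      rintro (t | t)
      · exact hasFDerivAt_const _ _
      · exact (hasFDerivAt_pi'.1 hy) t
    have hSi := fun i => hasFDerivAt_eval hu (S i)
    have hprod := hx2i.mul (hSi l)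
    have hev : (fun w => eval (u w) (S i)) =ᶠ[𝓝 0]
        fun w => A.xch l (z + w) i * eval (u w) (S l) := by
      have h1 : ∀ᶠ w in 𝓝 (0 : Fin g → ℂ), A.θ w m ≠ 0 := (isOpen_chart m).mem_nhds hm
      have h2 : ∀ᶠ w in 𝓝 (0 : Fin g → ℂ), A.θ (z + w) l ≠ 0 := by
        have h3 : ContinuousAt (fun w : Fin g → ℂ => z + w) 0 := by fun_prop
        refine h3.eventually_mem (s := {z | A.θ z l ≠ 0}) ?_
        rw [add_zero]
        exact (isOpen_chart l).mem_nhds hz
      filter_upwards [h1, h2] with w hw1 hw2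
      exact hkey z w hz hw1 hw2 i
    have h5 := (hSi i).unique (hprod.congr_of_eventuallyEq hev)
    have h6 := congrArg (fun f : (Fin g → ℂ) →L[ℂ] ℂ => f (Pi.single j 1)) h5
    have hu0 : u 0 = Sum.elim (A.xch l z) Y := rfl
    have hcomp1 : ∀ k : Fin (N + 1), u' (Pi.single j 1) (Sum.inl k) = 0 := fun k => rfl
    have hcomp2 : ∀ k : Fin (N + 1), u' (Pi.single j 1) (Sum.inr k) = η j k := fun k => rfl
    simp only [_root_.add_apply, _root_.smul_apply, gF_apply,
      Fintype.sum_sum_type, hcomp1, hcomp2, smul_eq_mul, mul_zero, Finset.sum_const_zero,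
      zero_add, hu0, add_zero, ContinuousLinearMap.comp_apply, ContinuousLinearMap.proj_apply] at h6
    rw [eval_subst2, map_sum]
    simp only [map_mul, map_sub, eval_C, eval_X, eval_subst2]
    have h7 : ∑ k, η j k * (eval (Sum.elim (A.xch l z) Y) (pderiv (Sum.inr k) (S i)) -
        A.xch l z i * eval (Sum.elim (A.xch l z) Y) (pderiv (Sum.inr k) (S l))) =
        ∑ k, eval (Sum.elim (A.xch l z) Y) (pderiv (Sum.inr k) (S i)) * η j k -
        A.xch l z i * ∑ k, eval (Sum.elim (A.xch l z) Y) (pderiv (Sum.inr k) (S l)) * η j k := by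
      rw [Finset.mul_sum, ← Finset.sum_sub_distrib]
      apply Finset.sum_congr rfl
      intro k _
      ring
    rw [h7, h6]
    ring

end AbelianVariety

end Pool.Agent.Run7.h10
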