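import Pool.Agent.Run7.h10.AV2

/-!
# The extended affine chart
-/

set_option autoImplicit false
set_option linter.unusedSectionVars false

namespace Pool.Agent.Run7.h10

open MvPolynomial Filter Topology Metric

variable {g N : ℕ} {A : AbelianVariety g N}

namespace AbelianVariety

/-- extended affine coordinates -/
noncomputable def xo (A : AbelianVariety g N) (l : Fin (N + 1))
    (D : MvPolynomial (Fin (N + 1)) ℂ) (z : Fin g → ℂ) : Option (Fin (N + 1)) → ℂ :=
  fun o => o.elim (eval (A.xch l z) D)⁻¹ (A.xch l z)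

/-- the domain of the extended affine coordinates -/
def dom (A : AbelianVariety g N) (l : Fin (N + 1))
    (D : MvPolynomial (Fin (N + 1)) ℂ) : Set (Fin g → ℂ) :=
  {z | A.θ z l ≠ 0 ∧ eval (A.xch l z) D ≠ 0}

/-- the invariant vector fields in extended affine coordinates -/
noncomputable def No (D : MvPolynomial (Fin (N + 1)) ℂ)
    (M : Fin g → Fin (N + 1) → MvPolynomial (Fin (N + 1)) ℂ) :
    Fin g → Option (Fin (N + 1)) → MvPolynomial (Option (Fin (N + 1))) ℂ :=
  fun j o => o.elim (-(X none) ^ 2 * ∑ i, rename some (pderiv i D) *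
    (X none * rename some (M j i))) (fun i => X none * rename some (M j i))

theorem isOpen_dom (l : Fin (N + 1)) (D : MvPolynomial (Fin (N + 1)) ℂ) :
    IsOpen (A.dom l D) := by
  rw [isOpen_iff_mem_nhds]
  rintro z ⟨h1, h2⟩
  have h3 : ContinuousAt (fun z => eval (A.xch l z) D) z :=
    (MvPolynomial.continuous_eval D).continuousAt.comp (analyticAt_xch h1).continuousAt
  filter_upwards [(isOpen_chart l).mem_nhds h1, h3.eventually_ne h2] with w hw1 hw2
  exact ⟨hw1, hw2⟩

theorem analyticAt_evalx {l : Fin (N + 1)} {z : Fin g → ℂ} (h : A.θ z l ≠ 0)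
    (F : MvPolynomial (Fin (N + 1)) ℂ) : AnalyticAt ℂ (fun z => eval (A.xch l z) F) z := by
  have hi : ∀ i, AnalyticAt ℂ (fun z => A.xch l z i) z := fun i =>
    (analyticAt_pi_iff.1 (analyticAt_xch h)) i
  induction F using MvPolynomial.induction_on with
  | C a =>
    simp only [eval_C]
    exact analyticAt_const
  | add p q hp hq =>
    simp only [map_add]
    exact hp.add hq
  | mul_X p i hp =>
    simp only [map_mul, eval_X]
    exact hp.mul (hi i)

theorem eval_xo_rename {l : Fin (N + 1)} {D : MvPolynomial (Fin (N + 1)) ℂ} (z : Fin g → ℂ)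
    (F : MvPolynomial (Fin (N + 1)) ℂ) :
    eval (A.xo l D z) (rename some F) = eval (A.xch l z) F := by
  rw [eval_rename]
  rfl

theorem chart_xo {l : Fin (N + 1)} {D : MvPolynomial (Fin (N + 1)) ℂ}
    {M : Fin g → Fin (N + 1) → MvPolynomial (Fin (N + 1)) ℂ}
    (hDM : ∀ z, A.θ z l ≠ 0 → ∀ j i,
        fderiv ℂ (A.xch l) z (Pi.single j 1) i * eval (A.xch l z) D =
          eval (A.xch l z) (M j i)) : Chart (No D M) (A.xo l D) (A.dom l D) where
  isOpen := isOpen_dom l D
  an := by
    rintro z ⟨h1, h2⟩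
    rw [analyticAt_pi_iff]
    rintro (_ | i)
    · exact (analyticAt_evalx h1 D).inv h2
    · exact (analyticAt_pi_iff.1 (analyticAt_xch h1)) i
  der := by
    rintro z ⟨h1, h2⟩ j o
    have hxo : HasFDerivAt (A.xo l D) (fderiv ℂ (A.xo l D) z) z := by
      apply DifferentiableAt.hasFDerivAt
      apply AnalyticAt.differentiableAt
      rw [analyticAt_pi_iff]
      rintro (_ | i)
      · exact (analyticAt_evalx h1 D).inv h2
      · exact (analyticAt_pi_iff.1 (analyticAt_xch h1)) i
    have hx : HasFDerivAt (A.xch l) (fderiv ℂ (A.xch l) z) z :=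
      (analyticAt_xch h1).differentiableAt.hasFDerivAt
    have hval : ∀ i, fderiv ℂ (A.xch l) z (Pi.single j 1) i =
        (eval (A.xch l z) D)⁻¹ * eval (A.xch l z) (M j i) := by
      intro i
      rw [← hDM z h1 j i]
      field_simp
    rcases o with _ | i
    · have h3 : HasFDerivAt (fun z => A.xo l D z none) _ z := (hasFDerivAt_pi'.1 hxo) none
      have h4 := hasFDerivAt_eval hx D
      have h5 := (hasFDerivAt_inv (𝕜 := ℂ) h2).comp z h4
      have h6 := h3.unique h5
      have h7 := congrArg (fun f : (Fin g → ℂ) →L[ℂ] ℂ => f (Pi.single j 1)) h6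
      simp only [ContinuousLinearMap.comp_apply, ContinuousLinearMap.proj_apply, gF_apply,
        ContinuousLinearMap.toSpanSingleton_apply, smul_eq_mul] at h7
      rw [h7]
      simp only [No, Option.elim, map_mul, map_neg, map_pow, eval_X, map_sum, eval_xo_rename]
      simp only [hval]
      have h8 : A.xo l D z none = (eval (A.xch l z) D)⁻¹ := rfl
      rw [h8]
      have h9 : ∀ i, eval (A.xch l z) (pderiv i D) * ((eval (A.xch l z) D)⁻¹ *
        eval (A.xch l z) (M j i)) = eval (A.xch l z) (pderiv i D) * ((eval (A.xch l z) D)⁻¹ *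
        eval (A.xch l z) (M j i)) := fun _ => rfl
      field_simp
    · have h3 : HasFDerivAt (fun z => A.xo l D z (some i)) _ z := (hasFDerivAt_pi'.1 hxo) (some i)
      have h4 : HasFDerivAt (fun z => A.xch l z i) _ z := (hasFDerivAt_pi'.1 hx) i
      have h6 := h3.unique h4
      have h7 := congrArg (fun f : (Fin g → ℂ) →L[ℂ] ℂ => f (Pi.single j 1)) h6
      simp only [ContinuousLinearMap.comp_apply, ContinuousLinearMap.proj_apply] at h7
      rw [h7, hval]
      simp only [No, Option.elim, map_mul, eval_X, eval_xo_rename]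
      rfl
  imm := by
    rintro z ⟨h1, h2⟩ v hv
    have hxo : HasFDerivAt (A.xo l D) (fderiv ℂ (A.xo l D) z) z := by
      apply DifferentiableAt.hasFDerivAt
      apply AnalyticAt.differentiableAt
      rw [analyticAt_pi_iff]
      rintro (_ | i)
      · exact (analyticAt_evalx h1 D).inv h2
      · exact (analyticAt_pi_iff.1 (analyticAt_xch h1)) i
    have hx : HasFDerivAt (A.xch l) (fderiv ℂ (A.xch l) z) z :=
      (analyticAt_xch h1).differentiableAt.hasFDerivAt
    apply fderiv_xch h1
    funext i
    have h3 : HasFDerivAt (fun z => A.xo l D z (some i)) _ z := (hasFDerivAt_pi'.1 hxo) (some i)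
    have h4 : HasFDerivAt (fun z => A.xch l z i) _ z := (hasFDerivAt_pi'.1 hx) i
    have h6 := h3.unique h4
    have h7 := congrArg (fun f : (Fin g → ℂ) →L[ℂ] ℂ => f v) h6
    simp only [ContinuousLinearMap.comp_apply, ContinuousLinearMap.proj_apply] at h7
    rw [← h7, hv]
    rfl

end AbelianVariety

/-! ### homogenization -/

/-- homogenization of degree `n` with respect to the variable `l` -/
noncomputable def hom (l : Fin (N + 1)) (n : ℕ) (F : MvPolynomial (Fin (N + 1)) ℂ) :
    MvPolynomial (Fin (N + 1)) ℂ :=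
  ∑ k ∈ Finset.range (n + 1), X l ^ (n - k) * homogeneousComponent k F

theorem hom_isHomogeneous (l : Fin (N + 1)) (n : ℕ) (F : MvPolynomial (Fin (N + 1)) ℂ) :
    (hom l n F).IsHomogeneous n := by
  apply IsHomogeneous.sum
  intro k hk
  have h1 := (isHomogeneous_X_pow (R := ℂ) l (n - k)).mul
    (homogeneousComponent_isHomogeneous k F)
  have h2 : n - k + k = n := by
    have := Finset.mem_range.1 hk
    omega
  rwa [h2] at h1

theorem aeval_scale {B : Type} [CommRing B] [Algebra ℂ B] {F : MvPolynomial (Fin (N + 1)) ℂ}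
    {n : ℕ} (hF : F.IsHomogeneous n) (c : B) (v : Fin (N + 1) → B) :
    aeval (fun i => c * v i) F = c ^ n * aeval v F := by
  rw [aeval_def, aeval_def, eval₂_eq', eval₂_eq', Finset.mul_sum]
  apply Finset.sum_congr rfl
  intro d hd
  have h1 : d.degree = n := hF.degree_eq_sum_deg_support hd |>.symm ▸ rfl
  have h2 : ∏ t, (c * v t) ^ d t = c ^ n * ∏ t, v t ^ d t := by
    rw [← h1, Finsupp.degree_eq_sum, ← Finset.prod_pow_eq_pow_sum, ← Finset.prod_mul_distrib]
    apply Finset.prod_congr rfl
    intro t _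
    rw [mul_pow]
  rw [h2]
  ring

theorem eval_scale {F : MvPolynomial (Fin (N + 1)) ℂ}
    {n : ℕ} (hF : F.IsHomogeneous n) (c : ℂ) (v : Fin (N + 1) → ℂ) :
    eval (c • v) F = c ^ n * eval v F := by
  have h := aeval_scale hF c v
  rw [aeval_pt, aeval_pt] at h
  exact h

theorem aeval_hom {B : Type} [Field B] [Algebra ℂ B] (l : Fin (N + 1)) {n : ℕ}
    {F : MvPolynomial (Fin (N + 1)) ℂ} (hn : F.totalDegree ≤ n) {v : Fin (N + 1) → B}
    (hv : v l ≠ 0) : aeval v (hom l n F) = v l ^ n * aeval (fun i => v i / v l) F := by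
  have h1 : F = ∑ k ∈ Finset.range (n + 1), homogeneousComponent k F := by
    conv_lhs => rw [← sum_homogeneousComponent F]
    apply Finset.sum_subset
    · intro k hk
      rw [Finset.mem_range] at hk ⊢
      omega
    · intro k _ hk
      rw [Finset.mem_range, not_lt] at hk
      exact homogeneousComponent_eq_zero _ _ (by omega)
  conv_rhs => rw [h1]
  rw [hom, map_sum, map_sum, Finset.mul_sum]
  apply Finset.sum_congr rfl
  intro k hk
  rw [map_mul, map_pow, aeval_X]
  have h2 : (fun i => v i / v l) = fun i => (v l)⁻¹ * v i := by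
    funext i
    rw [div_eq_mul_inv, mul_comm]
  rw [h2, aeval_scale (homogeneousComponent_isHomogeneous k F)]
  have h3 : n - k + k = n := by
    have := Finset.mem_range.1 hk
    omega
  rw [← mul_assoc, ← h3, pow_add, h3]
  congr 1
  rw [mul_assoc, ← mul_pow, mul_inv_cancel₀ hv, one_pow, mul_one]

theorem eval_hom (l : Fin (N + 1)) {n : ℕ}
    {F : MvPolynomial (Fin (N + 1)) ℂ} (hn : F.totalDegree ≤ n) {v : Fin (N + 1) → ℂ}
    (hv : v l ≠ 0) : eval v (hom l n F) = v l ^ n * eval (fun i => v i / v l) F := by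
  have h := aeval_hom (B := ℂ) l hn hv
  rw [aeval_pt, aeval_pt] at h
  exact h

/-- elimination of the inverse of `D` -/
theorem exists_hat (D : MvPolynomial (Fin (N + 1)) ℂ)
    (F : MvPolynomial (Option (Fin (N + 1))) ℂ) :
    ∃ (b : ℕ) (G : MvPolynomial (Fin (N + 1)) ℂ),
      F * (rename some D) ^ b - rename some G ∈ Ideal.span {X none * rename some D - 1} := by
  induction F using MvPolynomial.induction_on with
  | C a => exact ⟨0, C a, by simp⟩
  | add p q hp hq =>
    obtain ⟨b, G, h⟩ := hp
    obtain ⟨b', G', h'⟩ := hq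
    refine ⟨b + b', G * D ^ b' + G' * D ^ b, ?_⟩
    have h1 := Ideal.add_mem _ (Ideal.mul_mem_right (rename some D ^ b') _ h)
      (Ideal.mul_mem_right (rename some D ^ b) _ h')
    convert h1 using 1
    simp only [map_add, map_mul, map_pow]
    ring
  | mul_X p i hp =>
    obtain ⟨b, G, h⟩ := hp
    rcases i with _ | i
    · refine ⟨b + 1, G, ?_⟩
      have h1 := Ideal.add_mem _ (Ideal.mul_mem_left _ (p * rename some D ^ b)
        (Ideal.mem_span_singleton_self (X none * rename some D - 1))) h
      convert h1 using 1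
      ring
    · refine ⟨b, G * X i, ?_⟩
      have h1 := Ideal.mul_mem_right (X (some i)) _ h
      convert h1 using 1
      simp only [map_mul, rename_X]
      ring

end Pool.Agent.Run7.h10
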