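import Pool.Agent.Run7.h10.Alg

/-!
# Vector fields tangent to a prime ideal: algebra
-/

set_option autoImplicit false
set_option linter.unusedSectionVars false

namespace Pool.Agent.Run7.h10

open MvPolynomial

/-- a derivation killing `S` kills all elements algebraic over `S` -/
theorem der_alg {B : Type} [CommRing B] [IsDomain B] [Algebra ℂ B] (δ : Derivation ℂ B B)
    (S : Set B) (hS : ∀ s ∈ S, δ s = 0) {y : B} (hy : IsAlgebraic (Algebra.adjoin ℂ S) y) :
    δ y = 0 := by
  have hA : ∀ s ∈ Algebra.adjoin ℂ S, δ s = 0 := by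
    intro s hs
    induction hs using Algebra.adjoin_induction with
    | mem x hx => exact hS x hx
    | algebraMap r => exact δ.map_algebraMap r
    | add x y _ _ hx hy => rw [map_add, hx, hy, add_zero]
    | mul x y _ _ hx hy => rw [δ.leibniz, hx, hy, smul_zero, smul_zero, add_zero]
  obtain ⟨p, hp, hpy⟩ := hy
  haveI : CharZero B := charZero_of_injective_algebraMap (algebraMap ℂ B).injective
  have key : ∀ n : ℕ, ∀ q : Polynomial B, q.natDegree ≤ n → q ≠ 0 → (∀ i, δ (q.coeff i) = 0) →
      q.eval y = 0 → δ y = 0 := by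
    intro n
    induction n with
    | zero =>
      intro q hq hq0 _ h
      exfalso
      rw [Polynomial.eq_C_of_natDegree_le_zero hq, Polynomial.eval_C] at h
      apply hq0
      rw [Polynomial.eq_C_of_natDegree_le_zero hq, h, Polynomial.C_0]
    | succ n ih =>
      intro q hq hq0 hc h
      have h1 : δ (q.eval y) = q.derivative.eval y * δ y := by
        rw [Polynomial.eval_eq_sum_range, map_sum, Polynomial.derivative_eval, Polynomial.sum_def,
          Finset.sum_mul, Finset.sum_subset (Polynomial.supp_subset_range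
            (Nat.lt_succ_self _) : q.support ⊆ Finset.range (q.natDegree + 1))]
        · apply Finset.sum_congr rfl
          intro i _
          rw [δ.leibniz, hc i, smul_zero, add_zero, δ.leibniz_pow, smul_eq_mul]
          simp only [smul_eq_mul, nsmul_eq_mul]
          ring
        · intro i _ hi
          rw [Polynomial.notMem_support_iff.1 hi]
          simp
      rw [h, map_zero] at h1
      rcases mul_eq_zero.1 h1.symm with h2 | h2
      · by_cases hd : q.derivative = 0
        · exact ih q (by rw [Polynomial.derivative_eq_zero.1 hd]; omega) hq0 hc h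
        · apply ih q.derivative _ hd _ h2
          · have := Polynomial.natDegree_derivative_le q
            omega
          · intro i
            rw [Polynomial.coeff_derivative, δ.leibniz, hc]
            have : δ ((i : B) + 1) = 0 := by
              have := δ.map_natCast (i + 1)
              push_cast at this
              exact this
            rw [this, smul_zero, smul_zero, add_zero]
      · exact h2
  apply key _ (p.map (algebraMap (Algebra.adjoin ℂ S) B)) le_rfl
  · rw [Polynomial.map_ne_zero_iff (FaithfulSMul.algebraMap_injective _ _)]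
    exact hp
  · intro i
    rw [Polynomial.coeff_map]
    exact hA _ (p.coeff i).2
  · rw [Polynomial.eval_map_algebraMap]
    exact hpy

/-- clearing denominators -/
theorem clear {B : Type} [CommRing B] [IsDomain B] {ι : Type} [Finite ι]
    (k : ι → FractionRing B) : ∃ β : B, β ≠ 0 ∧ ∃ r : ι → B, ∀ i,
      algebraMap B (FractionRing B) (r i) = algebraMap B (FractionRing B) β * k i := by
  obtain ⟨b, hb⟩ := IsLocalization.exist_integer_multiples_of_finite (nonZeroDivisors B) k
  choose r hr using hb
  refine ⟨b, nonZeroDivisors.ne_zero b.2, r, fun i => ?_⟩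
  rw [hr i, Algebra.smul_def]

variable {σ : Type} [Fintype σ] {g : ℕ}

/-- the derivation defined by the `j`-th coordinate vector field -/
noncomputable def dd (N : Fin g → σ → MvPolynomial σ ℂ) (j : Fin g) :
    Derivation ℂ (MvPolynomial σ ℂ) (MvPolynomial σ ℂ) := MvPolynomial.mkDerivation ℂ (N j)

theorem dd_X (N : Fin g → σ → MvPolynomial σ ℂ) (j : Fin g) (i : σ) :
    dd N j (X i) = N j i := MvPolynomial.mkDerivation_X ℂ (N j) i

/-- the derivation with coefficients `v` -/
noncomputable def dv (N : Fin g → σ → MvPolynomial σ ℂ) (v : Fin g → MvPolynomial σ ℂ) :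
    Derivation ℂ (MvPolynomial σ ℂ) (MvPolynomial σ ℂ) := ∑ j, v j • dd N j

theorem dv_apply (N : Fin g → σ → MvPolynomial σ ℂ) (v : Fin g → MvPolynomial σ ℂ)
    (F : MvPolynomial σ ℂ) : dv N v F = ∑ j, v j * dd N j F := by
  have h := congrFun (map_sum (Derivation.coeFnAddMonoidHom (R := ℂ) (A := MvPolynomial σ ℂ)
    (M := MvPolynomial σ ℂ)) (fun j => v j • dd N j) Finset.univ) F
  rw [Finset.sum_apply] at h
  exact h

variable (P : Ideal (MvPolynomial σ ℂ))

/-- reduction -/
noncomputable def rd : MvPolynomial σ ℂ →+* FractionRing (MvPolynomial σ ℂ ⧸ P) :=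
  (algebraMap (MvPolynomial σ ℂ ⧸ P) (FractionRing (MvPolynomial σ ℂ ⧸ P))).comp
    (Ideal.Quotient.mk P)

theorem rd_eq_zero [hP : P.IsPrime] {F : MvPolynomial σ ℂ} : rd P F = 0 ↔ F ∈ P := by
  rw [rd, RingHom.comp_apply, IsFractionRing.to_map_eq_zero_iff, Ideal.Quotient.eq_zero_iff_mem]

theorem clearP [hP : P.IsPrime] {ι : Type} [Finite ι]
    (k : ι → FractionRing (MvPolynomial σ ℂ ⧸ P)) : ∃ β : MvPolynomial σ ℂ, β ∉ P ∧
      ∃ r : ι → MvPolynomial σ ℂ, ∀ i, rd P (r i) = rd P β * k i := by
  obtain ⟨b, hb, r, hr⟩ := clear k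
  obtain ⟨β, rfl⟩ := Ideal.Quotient.mk_surjective b
  choose s hs using fun i => Ideal.Quotient.mk_surjective (r i)
  refine ⟨β, fun h => hb (Ideal.Quotient.eq_zero_iff_mem.2 h), s, fun i => ?_⟩
  rw [rd, RingHom.comp_apply, RingHom.comp_apply, hs, hr]

/-- the tangent vectors over the function field -/
noncomputable def TK [P.IsPrime] (N : Fin g → σ → MvPolynomial σ ℂ) :
    Submodule (FractionRing (MvPolynomial σ ℂ ⧸ P))
      (Fin g → FractionRing (MvPolynomial σ ℂ ⧸ P)) where
  carrier := {v | ∀ F ∈ P, ∑ j, v j * rd P (dd N j F) = 0}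
  add_mem' := by
    intro a b ha hb F hF
    simp only [Pi.add_apply, add_mul, Finset.sum_add_distrib]
    rw [ha F hF, hb F hF, add_zero]
  zero_mem' := by
    intro F _
    simp
  smul_mem' := by
    intro c v hv F hF
    simp only [Pi.smul_apply, smul_eq_mul, mul_assoc]
    rw [← Finset.mul_sum, hv F hF, mul_zero]

theorem mem_TK [P.IsPrime] {N : Fin g → σ → MvPolynomial σ ℂ}
    {v : Fin g → FractionRing (MvPolynomial σ ℂ ⧸ P)} :
    v ∈ TK P N ↔ ∀ F ∈ P, ∑ j, v j * rd P (dd N j F) = 0 := Iff.rfl

theorem clear_TK [P.IsPrime] {N : Fin g → σ → MvPolynomial σ ℂ}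
    {v : Fin g → FractionRing (MvPolynomial σ ℂ ⧸ P)} (hv : v ∈ TK P N) :
    ∃ β : MvPolynomial σ ℂ, β ∉ P ∧ ∃ r : Fin g → MvPolynomial σ ℂ,
      (∀ i, rd P (r i) = rd P β * v i) ∧ ∀ F ∈ P, dv N r F ∈ P := by
  obtain ⟨β, hβ, r, hr⟩ := clearP P v
  refine ⟨β, hβ, r, hr, fun F hF => ?_⟩
  rw [dv_apply, ← rd_eq_zero P, map_sum]
  simp only [map_mul, hr, mul_assoc]
  rw [← Finset.mul_sum, hv F hF, mul_zero]

theorem finrank_TK [hP : P.IsPrime] (N : Fin g → σ → MvPolynomial σ ℂ)
    (himm : ∀ v : Fin g → MvPolynomial σ ℂ, (∀ i, dv N v (X i) ∈ P) → ∀ j, v j ∈ P) :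
    Module.finrank (FractionRing (MvPolynomial σ ℂ ⧸ P)) (TK P N) ≤ dm P := by
  classical
  set B := MvPolynomial σ ℂ ⧸ P
  set s : Set B := Set.range fun i : σ => Ideal.Quotient.mk P (X i) with hs
  have htop : Algebra.adjoin ℂ s = ⊤ := by
    rw [eq_top_iff]
    intro b _
    obtain ⟨F, rfl⟩ := Ideal.Quotient.mk_surjective b
    induction F using MvPolynomial.induction_on with
    | C a => exact Subalgebra.algebraMap_mem _ a
    | add p q hp hq =>
      rw [map_add]; exact Subalgebra.add_mem _ (hp trivial) (hq trivial)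
    | mul_X p i hp =>
      rw [map_mul]
      exact Subalgebra.mul_mem _ (hp trivial) (Algebra.subset_adjoin ⟨i, rfl⟩)
  haveI : Algebra.IsAlgebraic (Algebra.adjoin ℂ s) B := by
    constructor
    intro b
    have hb : b ∈ Algebra.adjoin ℂ s := by rw [htop]; trivial
    exact isAlgebraic_algebraMap (⟨b, hb⟩ : Algebra.adjoin ℂ s)
  haveI : FaithfulSMul ℂ B := (faithfulSMul_iff_algebraMap_injective ℂ B).2
    (algebraMap ℂ B).injective
  obtain ⟨t, hts, ht⟩ := exists_isTranscendenceBasis_subset (R := ℂ) (A := B) s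
  have htfin : Finite t := (Set.finite_range _).subset hts
  haveI := Fintype.ofFinite t
  have hcard : Fintype.card t = dm P := by
    have h1 := ht.cardinalMk_eq_trdeg
    rw [trdeg_eq_dm, Cardinal.mk_fintype] at h1
    exact_mod_cast h1
  choose i hi using fun τ : t => hts τ.2
  let φ : (TK P N) →ₗ[FractionRing B] (t → FractionRing B) :=
    { toFun := fun v τ => ∑ j, v.1 j * rd P (N j (i τ))
      map_add' := by
        intro v w
        funext τ
        simp [add_mul, Finset.sum_add_distrib]
      map_smul' := by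
        intro c v
        funext τ
        simp [mul_assoc, Finset.mul_sum] }
  have hφ : Function.Injective φ := by
    rw [injective_iff_map_eq_zero]
    intro v hv
    obtain ⟨β, hβ, r, hr, hrP⟩ := clear_TK P v.2
    have hδ : ∀ x, Ideal.Quotient.mk P x = 0 → Ideal.Quotient.mk P (dv N r x) = 0 := by
      intro x hx
      rw [Ideal.Quotient.eq_zero_iff_mem] at hx ⊢
      exact hrP x hx
    let δ : Derivation ℂ B B := Derivation.liftOfSurjective (f := Ideal.Quotient.mkₐ ℂ P)
      (Ideal.Quotient.mkₐ_surjective ℂ P) (d := dv N r) hδ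
    have hδa : ∀ x, δ (Ideal.Quotient.mk P x) = Ideal.Quotient.mk P (dv N r x) := fun x =>
      Derivation.liftOfSurjective_apply (f := Ideal.Quotient.mkₐ ℂ P)
      (Ideal.Quotient.mkₐ_surjective ℂ P) (d := dv N r) hδ x
    have hδt : ∀ s ∈ t, δ s = 0 := by
      intro s hs
      have h1 := hi ⟨s, hs⟩
      simp only at h1
      rw [← h1, hδa, Ideal.Quotient.eq_zero_iff_mem, ← rd_eq_zero P, dv_apply, map_sum]
      have h2 := congrFun hv ⟨s, hs⟩
      have h3 : ∑ j, v.1 j * rd P (N j (i ⟨s, hs⟩)) = 0 := h2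
      simp only [map_mul, hr, mul_assoc, dd_X]
      rw [← Finset.mul_sum, h3, mul_zero]
    have hδ0 : ∀ b : B, δ b = 0 := by
      intro b
      apply der_alg δ t hδt
      have h1 := ht.isAlgebraic
      rw [Subtype.range_coe] at h1
      exact h1.isAlgebraic b
    have h4 := himm r (fun k => by
      have := hδ0 (Ideal.Quotient.mk P (X k))
      rw [hδa, Ideal.Quotient.eq_zero_iff_mem] at this
      exact this)
    apply Subtype.ext
    funext j
    have h5 := hr j
    rw [(rd_eq_zero P).2 (h4 j)] at h5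
    rcases mul_eq_zero.1 h5.symm with h6 | h6
    · exact absurd ((rd_eq_zero P).1 h6) hβ
    · exact h6
  have h1 := LinearMap.finrank_le_finrank_of_injective hφ
  rw [Module.finrank_fintype_fun_eq_card, hcard] at h1
  exact h1

end Pool.Agent.Run7.h10
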