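import Pool.Agent.Run7.h10.AX1

/-!
# Invariant forms vanishing on the tangent vectors
-/

set_option autoImplicit false
set_option linter.unusedSectionVars false

namespace Pool.Agent.Run7.h10

open MvPolynomial

variable {σ : Type} [Fintype σ] {g d : ℕ} (P : Ideal (MvPolynomial σ ℂ))
  (N : Fin g → σ → MvPolynomial σ ℂ) (L : Fin d → Fin g → ℂ)

/-- relations -/
def Rel (φ : Fin g → MvPolynomial σ ℂ) : Prop :=
  (∀ v : Fin g → MvPolynomial σ ℂ, (∀ F ∈ P, dv N v F ∈ P) → ∑ j, φ j * v j ∈ P) ∧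
    ∀ i, ∑ j, φ j * C (L i j) ∈ P

/-- the vector in the span of `L` with coefficients `a` -/
noncomputable def uL (a : Fin d → MvPolynomial σ ℂ) : Fin g → MvPolynomial σ ℂ :=
  fun j => ∑ i, a i * C (L i j)

variable {P N L}

theorem exists_rel [hP : P.IsPrime]
    (himm : ∀ v : Fin g → MvPolynomial σ ℂ, (∀ i, dv N v (X i) ∈ P) → ∀ j, v j ∈ P)
    (hd : dm P + d ≤ g) {L' : Fin g → Fin d → ℂ}
    (hL : ∀ i k, ∑ j, L i j * L' j k = if i = k then 1 else 0)
    {a : Fin d → MvPolynomial σ ℂ} (ha : ∃ i, a i ∉ P)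
    (hau : ∀ F ∈ P, dv N (uL L a) F ∈ P) : ∃ φ, Rel P N L φ ∧ ∃ j, φ j ∉ P := by
  classical
  set K := FractionRing (MvPolynomial σ ℂ ⧸ P)
  let l : Fin d → Fin g → K := fun i j => rd P (C (L i j))
  let LK : Submodule K (Fin g → K) := Submodule.span K (Set.range l)
  have hLK : Module.finrank K LK ≤ d := by
    have := finrank_range_le_card (R := K) l
    rw [Fintype.card_fin] at this
    exact this
  let uK : Fin g → K := fun j => rd P (uL L a j)
  have huT : uK ∈ TK P N := by
    intro F hF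
    have h1 := hau F hF
    rw [dv_apply, ← rd_eq_zero P, map_sum] at h1
    simpa [uK] using h1
  have huL : uK ∈ LK := by
    have h1 : uK = ∑ i, rd P (a i) • l i := by
      funext j
      simp [uK, uL, l, map_sum, Finset.sum_apply]
    rw [h1]
    exact Submodule.sum_mem _ fun i _ => Submodule.smul_mem _ _ (Submodule.subset_span ⟨i, rfl⟩)
  have hu0 : uK ≠ 0 := by
    intro h
    obtain ⟨k, hk⟩ := ha
    apply hk
    rw [← rd_eq_zero P]
    have h1 : a k = ∑ j, uL L a j * C (L' j k) := by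
      simp only [uL, Finset.sum_mul]
      rw [Finset.sum_comm]
      have h2 : ∀ i, ∑ j, a i * C (L i j) * C (L' j k) =
          a i * (if i = k then 1 else 0) := by
        intro i
        have h3 := congrArg (C (σ := σ)) (hL i k)
        rw [map_sum] at h3
        simp only [map_mul] at h3
        simp_rw [mul_assoc]
        rw [← Finset.mul_sum, h3]
        split_ifs <;> simp
      simp [h2]
    rw [h1, map_sum]
    apply Finset.sum_eq_zero
    intro j _
    rw [map_mul]
    have : rd P (uL L a j) = 0 := congrFun h j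
    rw [this, zero_mul]
  have hinf : 1 ≤ Module.finrank K ↥(TK P N ⊓ LK) := by
    rw [Nat.one_le_iff_ne_zero, Ne, Submodule.finrank_eq_zero]
    intro h
    have h1 : uK ∈ TK P N ⊓ LK := ⟨huT, huL⟩
    rw [h] at h1
    exact hu0 h1
  have hsum : Module.finrank K ↥(TK P N ⊔ LK) + Module.finrank K ↥(TK P N ⊓ LK) =
      Module.finrank K ↥(TK P N) + Module.finrank K LK :=
    Submodule.finrank_sup_add_finrank_inf_eq (TK P N) LK
  have hTK : Module.finrank K ↥(TK P N) ≤ dm P := finrank_TK P N himm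
  have hlt : TK P N ⊔ LK < ⊤ := by
    apply Submodule.lt_top_of_finrank_lt_finrank
    rw [Module.finrank_fintype_fun_eq_card, Fintype.card_fin]
    have e : Module.finrank (FractionRing (MvPolynomial σ ℂ ⧸ P)) ↥(TK P N ⊔ LK) =
      Module.finrank K ↥(TK P N ⊔ LK) := rfl
    rw [e]
    omega
  obtain ⟨f, hf, hker⟩ := Submodule.exists_le_ker_of_lt_top _ hlt
  obtain ⟨β, hβ, φ, hφ⟩ := clearP P (fun j : Fin g => f (Pi.single j 1))
  have hfv : ∀ v : Fin g → K, ∑ j, rd P (φ j) * v j = rd P β * f v := by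
    intro v
    have h1 : v = ∑ j, v j • (Pi.single j 1 : Fin g → K) := pi_eq_sum_univ' v
    conv_rhs => rw [h1]
    rw [map_sum, Finset.mul_sum]
    apply Finset.sum_congr rfl
    intro j _
    rw [hφ, map_smul, smul_eq_mul]
    ring
  refine ⟨φ, ⟨?_, ?_⟩, ?_⟩
  · intro v hv
    rw [← rd_eq_zero P, map_sum]
    simp only [map_mul]
    rw [hfv]
    have h1 : (fun j => rd P (v j)) ∈ TK P N := by
      intro F hF
      have h1 := hv F hF
      rw [dv_apply, ← rd_eq_zero P, map_sum] at h1
      simpa using h1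
    have h2 : f (fun j => rd P (v j)) = 0 := hker (Submodule.mem_sup_left h1)
    rw [h2, mul_zero]
  · intro i
    rw [← rd_eq_zero P, map_sum]
    simp only [map_mul]
    have h2 : f (l i) = 0 := hker (Submodule.mem_sup_right (Submodule.subset_span ⟨i, rfl⟩))
    have h3 := hfv (l i)
    rw [h2, mul_zero] at h3
    exact h3
  · by_contra hcon
    push Not at hcon
    apply hf
    ext j
    have h1 := hφ j
    rw [(rd_eq_zero P).2 (hcon j)] at h1
    rcases mul_eq_zero.1 h1.symm with h2 | h2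
    · exact absurd ((rd_eq_zero P).1 h2) hβ
    · simpa using h2

theorem Rel.smul {φ : Fin g → MvPolynomial σ ℂ} (h : Rel P N L φ) (c : MvPolynomial σ ℂ) :
    Rel P N L (fun j => c * φ j) := by
  refine ⟨fun v hv => ?_, fun i => ?_⟩
  · simp only [mul_assoc]
    rw [← Finset.mul_sum]
    exact P.mul_mem_left _ (h.1 v hv)
  · simp only [mul_assoc]
    rw [← Finset.mul_sum]
    exact P.mul_mem_left _ (h.2 i)

theorem Rel.sub {φ ψ : Fin g → MvPolynomial σ ℂ} (h : Rel P N L φ) (h' : Rel P N L ψ) :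
    Rel P N L (fun j => φ j - ψ j) := by
  refine ⟨fun v hv => ?_, fun i => ?_⟩
  · simp only [sub_mul, Finset.sum_sub_distrib]
    exact P.sub_mem (h.1 v hv) (h'.1 v hv)
  · simp only [sub_mul, Finset.sum_sub_distrib]
    exact P.sub_mem (h.2 i) (h'.2 i)

theorem comm_mem (hcomm : ∀ j k F, dd N j (dd N k F) - dd N k (dd N j F) ∈ P)
    {u v : Fin g → MvPolynomial σ ℂ} (hu : ∀ F ∈ P, dv N u F ∈ P) (hv : ∀ F ∈ P, dv N v F ∈ P) :
    ∀ F ∈ P, dv N (fun j => dv N u (v j) - dv N v (u j)) F ∈ P := by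
  intro F hF
  have h1 : dv N (fun j => dv N u (v j) - dv N v (u j)) F =
      dv N u (dv N v F) - dv N v (dv N u F) +
        ∑ j, ∑ k, v j * u k * (dd N j (dd N k F) - dd N k (dd N j F)) := by
    have e1 : dv N u (dv N v F) = ∑ j, (v j * dv N u (dd N j F) + dd N j F * dv N u (v j)) := by
      rw [dv_apply N v F, map_sum]
      apply Finset.sum_congr rfl
      intro j _
      rw [Derivation.leibniz]
      simp only [smul_eq_mul]
    have e2 : dv N v (dv N u F) = ∑ j, (u j * dv N v (dd N j F) + dd N j F * dv N v (u j)) := by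
      rw [dv_apply N u F, map_sum]
      apply Finset.sum_congr rfl
      intro j _
      rw [Derivation.leibniz]
      simp only [smul_eq_mul]
    have e3 : ∑ j, v j * dv N u (dd N j F) = ∑ j, ∑ k, v j * u k * dd N k (dd N j F) := by
      apply Finset.sum_congr rfl
      intro j _
      rw [dv_apply, Finset.mul_sum]
      apply Finset.sum_congr rfl
      intro k _
      ring
    have e4 : ∑ j, u j * dv N v (dd N j F) = ∑ j, ∑ k, v j * u k * dd N j (dd N k F) := by
      rw [Finset.sum_comm]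
      apply Finset.sum_congr rfl
      intro j _
      rw [dv_apply, Finset.mul_sum]
      apply Finset.sum_congr rfl
      intro k _
      ring
    rw [e1, e2, Finset.sum_add_distrib, Finset.sum_add_distrib, e3, e4]
    simp only [mul_sub, Finset.sum_sub_distrib]
    rw [dv_apply]
    simp only [sub_mul, Finset.sum_sub_distrib]
    have e5 : ∑ j, dd N j F * dv N u (v j) = ∑ j, dv N u (v j) * dd N j F :=
      Finset.sum_congr rfl fun j _ => mul_comm _ _
    have e6 : ∑ j, dd N j F * dv N v (u j) = ∑ j, dv N v (u j) * dd N j F :=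
      Finset.sum_congr rfl fun j _ => mul_comm _ _
    rw [e5, e6]
    ring
  rw [h1]
  apply P.add_mem
  · exact P.sub_mem (hu _ (hv _ hF)) (hv _ (hu _ hF))
  · exact P.sum_mem fun j _ => P.sum_mem fun k _ => P.mul_mem_left _ (hcomm j k F)

theorem Rel.der (hcomm : ∀ j k F, dd N j (dd N k F) - dd N k (dd N j F) ∈ P)
    {a : Fin d → MvPolynomial σ ℂ} (hau : ∀ F ∈ P, dv N (uL L a) F ∈ P)
    {φ : Fin g → MvPolynomial σ ℂ} (h : Rel P N L φ) :
    Rel P N L (fun j => dv N (uL L a) (φ j)) := by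
  have hC : ∀ (w : Fin g → MvPolynomial σ ℂ) (c : ℂ), dv N w (C c) = 0 := by
    intro w c
    exact (dv N w).map_algebraMap c
  refine ⟨fun v hv => ?_, fun i => ?_⟩
  · have h1 := h.1 _ (comm_mem hcomm hau hv)
    simp only [mul_sub, Finset.sum_sub_distrib] at h1
    have h2 : ∑ j, φ j * dv N v (uL L a j) ∈ P := by
      have e : ∑ j, φ j * dv N v (uL L a j) =
          ∑ i, dv N v (a i) * ∑ j, φ j * C (L i j) := by
        simp only [uL, map_sum, Finset.mul_sum]
        rw [Finset.sum_comm]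
        apply Finset.sum_congr rfl
        intro i _
        apply Finset.sum_congr rfl
        intro j _
        rw [Derivation.leibniz, hC]
        simp only [smul_eq_mul, mul_zero, zero_add]
        ring
      rw [e]
      exact P.sum_mem fun i _ => P.mul_mem_left _ (h.2 i)
    have h3 := P.add_mem h1 h2
    rw [sub_add_cancel] at h3
    have h4 := hau _ (h.1 v hv)
    have e : dv N (uL L a) (∑ j, φ j * v j) =
        ∑ j, φ j * dv N (uL L a) (v j) + ∑ j, dv N (uL L a) (φ j) * v j := by
      rw [map_sum, ← Finset.sum_add_distrib]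
      apply Finset.sum_congr rfl
      intro j _
      rw [Derivation.leibniz]
      simp only [smul_eq_mul]
      ring
    rw [e] at h4
    have h5 := P.sub_mem h4 h3
    rwa [add_sub_cancel_left] at h5
  · have h4 := hau _ (h.2 i)
    have e : dv N (uL L a) (∑ j, φ j * C (L i j)) =
        ∑ j, dv N (uL L a) (φ j) * C (L i j) := by
      rw [map_sum]
      apply Finset.sum_congr rfl
      intro j _
      rw [Derivation.leibniz, hC]
      simp only [smul_eq_mul, mul_zero, zero_add]
      ring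
    rwa [e] at h4

/-- constant relations -/
theorem exists_const_rel [hP : P.IsPrime]
    (hcomm : ∀ j k F, dd N j (dd N k F) - dd N k (dd N j F) ∈ P)
    {a : Fin d → MvPolynomial σ ℂ} (hau : ∀ F ∈ P, dv N (uL L a) F ∈ P)
    (hconst : ∀ a₁ b₁, b₁ ∉ P → b₁ * dv N (uL L a) a₁ - a₁ * dv N (uL L a) b₁ ∈ P →
      ∃ c, a₁ - C c * b₁ ∈ P)
    (hrel : ∃ φ, Rel P N L φ ∧ ∃ j, φ j ∉ P) :
    ∃ ω : Fin g → ℂ, ω ≠ 0 ∧ ∀ v : Fin g → MvPolynomial σ ℂ, (∀ F ∈ P, dv N v F ∈ P) →
      ∑ j, C (ω j) * v j ∈ P := by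
  classical
  let S : Set ℕ := {n | ∃ φ, Rel P N L φ ∧ (∃ j, φ j ∉ P) ∧
    (Finset.univ.filter fun j => φ j ∉ P).card = n}
  have hS : S.Nonempty := by
    obtain ⟨φ, h1, h2⟩ := hrel
    exact ⟨_, φ, h1, h2, rfl⟩
  obtain ⟨φ, hφ, ⟨j₁, hj₁⟩, hcard⟩ := Nat.sInf_mem hS
  have hmin : ∀ ψ, Rel P N L ψ → (∃ j, ψ j ∉ P) →
      (Finset.univ.filter fun j => φ j ∉ P).card ≤
        (Finset.univ.filter fun j => ψ j ∉ P).card := by
    intro ψ h1 h2
    rw [hcard]
    exact Nat.sInf_le ⟨ψ, h1, h2, rfl⟩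
  set δ := dv N (uL L a) with hδ
  have hψ : Rel P N L (fun j => φ j₁ * δ (φ j) - δ (φ j₁) * φ j) :=
    ((hφ.der hcomm hau).smul (φ j₁)).sub (hφ.smul (δ (φ j₁)))
  have hall : ∀ j, φ j₁ * δ (φ j) - δ (φ j₁) * φ j ∈ P := by
    by_contra hcon
    push Not at hcon
    have h1 := hmin _ hψ hcon
    have h2 : (Finset.univ.filter fun j => φ j₁ * δ (φ j) - δ (φ j₁) * φ j ∉ P) ⊆
        (Finset.univ.filter fun j => φ j ∉ P).erase j₁ := by
      intro j hj
      rw [Finset.mem_filter] at hj
      rw [Finset.mem_erase, Finset.mem_filter]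
      refine ⟨?_, Finset.mem_univ _, ?_⟩
      · rintro rfl
        apply hj.2
        have : φ j * δ (φ j) - δ (φ j) * φ j = 0 := by ring
        rw [this]
        exact P.zero_mem
      · intro h
        apply hj.2
        exact P.sub_mem (P.mul_mem_left _ (hau _ h)) (P.mul_mem_left _ h)
    have h3 := Finset.card_le_card h2
    rw [Finset.card_erase_of_mem (by simp [hj₁])] at h3
    have h4 : 0 < (Finset.univ.filter fun j => φ j ∉ P).card :=
      Finset.card_pos.2 ⟨j₁, by simp [hj₁]⟩
    omega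
  choose c hc using fun j => hconst (φ j) (φ j₁) hj₁ (by
    have := hall j
    rwa [mul_comm (δ (φ j₁))] at this)
  refine ⟨c, ?_, ?_⟩
  · intro h
    have h1 := hc j₁
    rw [h] at h1
    simp only [Pi.zero_apply, map_zero, zero_mul, sub_zero] at h1
    exact hj₁ h1
  · intro v hv
    have h1 := hφ.1 v hv
    have h2 : ∑ j, (φ j - C (c j) * φ j₁) * v j ∈ P :=
      P.sum_mem fun j _ => P.mul_mem_right _ (hc j)
    have h3 := P.sub_mem h1 h2
    have h4 : ∑ j, φ j * v j - ∑ j, (φ j - C (c j) * φ j₁) * v j =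
        φ j₁ * ∑ j, C (c j) * v j := by
      rw [← Finset.sum_sub_distrib, Finset.mul_sum]
      apply Finset.sum_congr rfl
      intro j _
      ring
    rw [h4] at h3
    exact (hP.mem_or_mem h3).resolve_left hj₁

/-- forms vanishing on all tangent vectors lie in the row space of the Jacobian -/
theorem row_space [hP : P.IsPrime] {S : Finset (MvPolynomial σ ℂ)}
    (hS : Ideal.span (S : Set (MvPolynomial σ ℂ)) = P) {ω : Fin g → ℂ}
    (hω : ∀ v : Fin g → MvPolynomial σ ℂ, (∀ F ∈ P, dv N v F ∈ P) → ∑ j, C (ω j) * v j ∈ P) :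
    ∃ h, h ∉ P ∧ ∃ b : S → MvPolynomial σ ℂ, ∀ j, C (ω j) * h - ∑ F : S, b F * dd N j F ∈ P := by
  classical
  set K := FractionRing (MvPolynomial σ ℂ ⧸ P)
  let fr : (Fin g → K) → (Fin g → K) →ₗ[K] K := fun c =>
    { toFun := fun v => ∑ j, v j * c j
      map_add' := fun v w => by simp [add_mul, Finset.sum_add_distrib]
      map_smul' := fun r v => by
        simp only [Pi.smul_apply, smul_eq_mul, mul_assoc, RingHom.id_apply]
        rw [Finset.mul_sum] }
  let Lf : S → (Fin g → K) →ₗ[K] K := fun F => fr fun j => rd P (dd N j F)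
  let Kf : (Fin g → K) →ₗ[K] K := fr fun j => rd P (C (ω j))
  have hker : ⨅ F, LinearMap.ker (Lf F) ≤ LinearMap.ker Kf := by
    intro v hv
    rw [Submodule.mem_iInf] at hv
    have hvT : v ∈ TK P N := by
      intro F hF
      rw [← hS] at hF
      refine Submodule.span_induction (p := fun F _ => ∑ j, v j * rd P (dd N j F) = 0)
        ?_ ?_ ?_ ?_ hF
      · intro F hF
        exact hv ⟨F, hF⟩
      · simp
      · intro F G _ _ h1 h2
        simp only [map_add, mul_add, Finset.sum_add_distrib]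
        rw [h1, h2, add_zero]
      · intro c F hF' h1
        have hFP : rd P F = 0 := by
          rw [rd_eq_zero, ← hS]
          exact hF'
        simp only [smul_eq_mul, Derivation.leibniz, map_add, map_mul, hFP, zero_mul, add_zero]
        have : ∀ j, v j * (rd P c * rd P (dd N j F)) = rd P c * (v j * rd P (dd N j F)) :=
          fun j => by ring
        simp_rw [this]
        rw [← Finset.mul_sum, h1, mul_zero]
    obtain ⟨β, hβ, r, hr, hrP⟩ := clear_TK P hvT
    have h1 := hω r hrP
    rw [← rd_eq_zero P, map_sum] at h1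
    simp only [map_mul, hr] at h1
    have h2 : rd P β * Kf v = 0 := by
      rw [← h1]
      show rd P β * ∑ j, v j * rd P (C (ω j)) = _
      rw [Finset.mul_sum]
      apply Finset.sum_congr rfl
      intro j _
      ring
    rcases mul_eq_zero.1 h2 with h3 | h3
    · exact absurd ((rd_eq_zero P).1 h3) hβ
    · exact h3
  have hspan := mem_span_of_iInf_ker_le_ker hker
  obtain ⟨c, hc⟩ := (Submodule.mem_span_range_iff_exists_fun K).1 hspan
  obtain ⟨h, hh, b, hb⟩ := clearP P c
  refine ⟨h, hh, b, fun j => ?_⟩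
  rw [← rd_eq_zero P, map_sub, map_mul, map_sum]
  have h1 := congrArg (fun f => f (Pi.single j (1 : K))) hc
  have h2 : ∀ c : Fin g → K, fr c (Pi.single j 1) = c j := by
    intro c
    show ∑ i, (Pi.single j 1 : Fin g → K) i * c i = c j
    rw [Finset.sum_eq_single j]
    · simp
    · intro i _ hi
      rw [Pi.single_eq_of_ne hi, zero_mul]
    · intro h; exact absurd (Finset.mem_univ _) h
  simp only [LinearMap.sum_apply, LinearMap.smul_apply, smul_eq_mul] at h1
  have h3 : Kf (Pi.single j 1) = rd P (C (ω j)) := h2 _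
  have h4 : ∀ F, Lf F (Pi.single j 1) = rd P (dd N j F) := fun F => h2 _
  rw [h3] at h1
  simp only [h4] at h1
  rw [← h1]
  simp only [map_mul, hb]
  rw [Finset.sum_mul, sub_eq_zero]
  apply Finset.sum_congr rfl
  intro F _
  ring

end Pool.Agent.Run7.h10
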