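import Pool.Agent.Run7.h10.AX2

/-!
# Vector fields: analytic side
-/

set_option autoImplicit false
set_option linter.unusedSectionVars false

namespace Pool.Agent.Run7.h10

open MvPolynomial Filter Topology Metric

variable {σ : Type} [Fintype σ] {g d : ℕ}

/-- an immersed analytic piece with polynomial derivatives -/
structure Chart (N : Fin g → σ → MvPolynomial σ ℂ) (x : (Fin g → ℂ) → σ → ℂ)
    (U : Set (Fin g → ℂ)) : Prop where
  isOpen : IsOpen U
  an : ∀ z ∈ U, AnalyticAt ℂ x z
  der : ∀ z ∈ U, ∀ j i, fderiv ℂ x z (Pi.single j 1) i = eval (x z) (N j i)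
  imm : ∀ z ∈ U, ∀ v, fderiv ℂ x z v = 0 → v = 0

variable {N : Fin g → σ → MvPolynomial σ ℂ} {x : (Fin g → ℂ) → σ → ℂ} {U : Set (Fin g → ℂ)}

theorem Chart.fderiv_apply (h : Chart N x U) {z : Fin g → ℂ} (hz : z ∈ U) (v : Fin g → ℂ) (i : σ) :
    fderiv ℂ x z v i = ∑ j, v j * eval (x z) (N j i) := by
  conv_lhs => rw [pi_eq_sum_univ' v]
  rw [map_sum, Finset.sum_apply]
  apply Finset.sum_congr rfl
  intro j _
  rw [map_smul, Pi.smul_apply, smul_eq_mul, h.der z hz]

/-- the derivative of a polynomial -/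
noncomputable def dF (N : Fin g → σ → MvPolynomial σ ℂ) (x : (Fin g → ℂ) → σ → ℂ)
    (F : MvPolynomial σ ℂ) (z : Fin g → ℂ) : (Fin g → ℂ) →L[ℂ] ℂ :=
  ∑ j, (eval (x z) (dd N j F)) • (ContinuousLinearMap.proj j : (Fin g → ℂ) →L[ℂ] ℂ)

theorem dF_apply (F : MvPolynomial σ ℂ) (z v : Fin g → ℂ) :
    dF N x F z v = ∑ j, v j * eval (x z) (dd N j F) := by
  rw [dF, _root_.sum_apply]
  apply Finset.sum_congr rfl
  intro j _
  rw [_root_.smul_apply, ContinuousLinearMap.proj_apply, smul_eq_mul, mul_comm]

theorem Chart.hasFDerivAt (h : Chart N x U) {z : Fin g → ℂ} (hz : z ∈ U) (F : MvPolynomial σ ℂ) :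
    HasFDerivAt (fun z => eval (x z) F) (dF N x F z) z := by
  induction F using MvPolynomial.induction_on with
  | C a =>
    have h1 : dF N x (C a) z = 0 := by
      ext v
      rw [dF_apply]
      have : ∀ j, dd N j (C a) = 0 := fun j => (dd N j).map_algebraMap a
      simp [this]
    rw [h1]
    simp only [eval_C]
    exact hasFDerivAt_const _ _
  | add p q hp hq =>
    have h1 : dF N x (p + q) z = dF N x p z + dF N x q z := by
      ext v
      simp only [dF_apply, _root_.add_apply, map_add, mul_add,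
        Finset.sum_add_distrib]
    rw [h1]
    simp only [map_add]
    exact hp.add hq
  | mul_X p i hp =>
    have hx : HasFDerivAt x (fderiv ℂ x z) z := (h.an z hz).differentiableAt.hasFDerivAt
    have hxi := (hasFDerivAt_pi'.1 hx) i
    have h2 := hp.mul hxi
    simp only [map_mul, eval_X]
    refine h2.congr_fderiv ?_
    ext v
    simp only [dF_apply, _root_.add_apply, _root_.smul_apply,
      ContinuousLinearMap.comp_apply, ContinuousLinearMap.proj_apply, smul_eq_mul,
      Derivation.leibniz, map_add, map_mul, dd_X, eval_X, h.fderiv_apply hz]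
    simp only [mul_add, Finset.sum_add_distrib, Finset.mul_sum]
    congr 1
    · apply Finset.sum_congr rfl
      intro j _
      ring
    · apply Finset.sum_congr rfl
      intro j _
      ring

theorem Chart.analyticAt_eval (h : Chart N x U) {z : Fin g → ℂ} (hz : z ∈ U)
    (F : MvPolynomial σ ℂ) : AnalyticAt ℂ (fun z => eval (x z) F) z := by
  have hi : ∀ i, AnalyticAt ℂ (fun z => x z i) z := fun i =>
    (analyticAt_pi_iff.1 (h.an z hz)) i
  induction F using MvPolynomial.induction_on with
  | C a =>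
    simp only [eval_C]
    exact analyticAt_const
  | add p q hp hq =>
    simp only [map_add]
    exact hp.add hq
  | mul_X p i hp =>
    simp only [map_mul, eval_X]
    exact hp.mul (hi i)

theorem Chart.comm (h : Chart N x U) {z : Fin g → ℂ} (hz : z ∈ U) (j k : Fin g)
    (F : MvPolynomial σ ℂ) : eval (x z) (dd N j (dd N k F) - dd N k (dd N j F)) = 0 := by
  have hd : ∀ᶠ y in 𝓝 z, HasFDerivAt (fun z => eval (x z) F) (dF N x F y) y := by
    filter_upwards [h.isOpen.mem_nhds hz] with y hy using h.hasFDerivAt hy F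
  have h2 : HasFDerivAt (dF N x F)
      (∑ l, (dF N x (dd N l F) z).smulRight (ContinuousLinearMap.proj l :
        (Fin g → ℂ) →L[ℂ] ℂ)) z := by
    unfold dF
    apply HasFDerivAt.fun_sum
    intro l _
    exact HasFDerivAt.smul_const (𝕜 := ℂ) (h.hasFDerivAt hz (dd N l F))
      (ContinuousLinearMap.proj l : (Fin g → ℂ) →L[ℂ] ℂ)
  have h3 := second_derivative_symmetric_of_eventually hd h2 (Pi.single j 1) (Pi.single k 1)
  have key : ∀ a b : Fin g, (∑ l, (dF N x (dd N l F) z).smulRight (ContinuousLinearMap.proj l :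
        (Fin g → ℂ) →L[ℂ] ℂ)) (Pi.single a 1) (Pi.single b 1) =
        eval (x z) (dd N a (dd N b F)) := by
    intro a b
    rw [_root_.sum_apply, _root_.sum_apply, Finset.sum_eq_single b]
    · rw [ContinuousLinearMap.smulRight_apply, _root_.smul_apply,
        ContinuousLinearMap.proj_apply, Pi.single_eq_same, dF_apply, Finset.sum_eq_single a]
      · rw [Pi.single_eq_same]; simp
      · intro l _ hl
        rw [Pi.single_eq_of_ne hl, zero_mul]
      · intro hh; exact absurd (Finset.mem_univ _) hh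
    · intro l _ hl
      rw [ContinuousLinearMap.smulRight_apply, _root_.smul_apply,
        ContinuousLinearMap.proj_apply, Pi.single_eq_of_ne hl, smul_zero]
    · intro hh; exact absurd (Finset.mem_univ _) hh
  rw [key, key] at h3
  rw [map_sub, h3, sub_self]

/-- the affine map -/
def pL (b : Fin g → ℂ) (L : Fin d → Fin g → ℂ) (s : Fin d → ℂ) : Fin g → ℂ :=
  fun j => b j + ∑ i, s i * L i j

/-- its linear part -/
noncomputable def lL (L : Fin d → Fin g → ℂ) : (Fin d → ℂ) →L[ℂ] (Fin g → ℂ) :=
  ContinuousLinearMap.pi fun j => ∑ i, (L i j) • (ContinuousLinearMap.proj i :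
    (Fin d → ℂ) →L[ℂ] ℂ)

theorem lL_apply (L : Fin d → Fin g → ℂ) (s : Fin d → ℂ) (j : Fin g) :
    lL L s j = ∑ i, s i * L i j := by
  rw [lL, ContinuousLinearMap.pi_apply, _root_.sum_apply]
  apply Finset.sum_congr rfl
  intro i _
  rw [_root_.smul_apply, ContinuousLinearMap.proj_apply, smul_eq_mul, mul_comm]

theorem pL_eq (b : Fin g → ℂ) (L : Fin d → Fin g → ℂ) (s : Fin d → ℂ) :
    pL b L s = b + lL L s := by
  funext j
  rw [Pi.add_apply, lL_apply]
  rfl

theorem hasFDerivAt_pL (b : Fin g → ℂ) (L : Fin d → Fin g → ℂ) (s : Fin d → ℂ) :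
    HasFDerivAt (pL b L) (lL L) s := by
  have : pL b L = fun s => b + lL L s := funext (pL_eq b L)
  rw [this]
  exact (lL L).hasFDerivAt.const_add b

theorem analyticAt_pL (b : Fin g → ℂ) (L : Fin d → Fin g → ℂ) (s : Fin d → ℂ) :
    AnalyticAt ℂ (pL b L) s := by
  have : pL b L = fun s => b + lL L s := funext (pL_eq b L)
  rw [this]
  exact analyticAt_const.add ((lL L).analyticAt s)

theorem continuous_pL (b : Fin g → ℂ) (L : Fin d → Fin g → ℂ) : Continuous (pL b L) := by
  rw [continuous_iff_continuousAt]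
  exact fun s => (hasFDerivAt_pL b L s).continuousAt

theorem Chart.hasFDerivAt_pL (h : Chart N x U) {b : Fin g → ℂ} {L : Fin d → Fin g → ℂ}
    {s : Fin d → ℂ} (hs : pL b L s ∈ U) (F : MvPolynomial σ ℂ) :
    HasFDerivAt (fun s => eval (x (pL b L s)) F) ((dF N x F (pL b L s)).comp (lL L)) s :=
  (h.hasFDerivAt hs F).comp s (Pool.Agent.Run7.h10.hasFDerivAt_pL b L s)

/-- sets of isolated points are countable -/
theorem countable_of_isolated {X : Type} [TopologicalSpace X] [SecondCountableTopology X]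
    {S : Set X} (h : ∀ s ∈ S, ∀ᶠ y in 𝓝[≠] s, y ∉ S) : S.Countable := by
  haveI : DiscreteTopology S := by
    rw [discreteTopology_subtype_iff]
    intro s hs
    rw [← _root_.disjoint_iff, Filter.disjoint_principal_right]
    exact h s hs
  exact TopologicalSpace.separableSpace_iff_countable.1 inferInstance

end Pool.Agent.Run7.h10
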