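import Pool.Agent.Run7.h10.AX3

/-!
# The countability lemma
-/

set_option autoImplicit false
set_option linter.unusedSectionVars false

namespace Pool.Agent.Run7.h10

open MvPolynomial Filter Topology Metric

variable {σ : Type} [Fintype σ] {g d : ℕ}
variable {N : Fin g → σ → MvPolynomial σ ℂ} {x : (Fin g → ℂ) → σ → ℂ} {U : Set (Fin g → ℂ)}

/-- the exceptional parameters -/
def EE (x : (Fin g → ℂ) → σ → ℂ) (U : Set (Fin g → ℂ)) (b : Fin g → ℂ) (L : Fin d → Fin g → ℂ)
    (I : Ideal (MvPolynomial σ ℂ)) : Set (Fin d → ℂ) :=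
  {s | pL b L s ∈ U ∧ x (pL b L s) ∈ Z I}

theorem mem_Z_sup_span {I : Ideal (MvPolynomial σ ℂ)} {f : MvPolynomial σ ℂ} {y : σ → ℂ} :
    y ∈ Z (I ⊔ Ideal.span {f}) ↔ y ∈ Z I ∧ eval y f = 0 := by
  rw [mem_Z_iff, mem_Z_iff, sup_le_iff, Ideal.span_singleton_le_iff_mem, mem_pt]

/-- the flow step -/
theorem flow_step (h : Chart N x U) {P : Ideal (MvPolynomial σ ℂ)} [hP : P.IsPrime]
    {b : Fin g → ℂ} {L : Fin d → Fin g → ℂ} {a : Fin d → MvPolynomial σ ℂ}
    (hau : ∀ F ∈ P, dv N (uL L a) F ∈ P) {s₀ : Fin d → ℂ} (hs₀ : s₀ ∈ EE x U b L P)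
    {i₀ : Fin d} (hi₀ : eval (x (pL b L s₀)) (a i₀) ≠ 0)
    {F₀ b₁ c₁ : MvPolynomial σ ℂ} (hb₁ : eval (x (pL b L s₀)) b₁ ≠ 0)
    (hF₀ : eval (x (pL b L s₀)) F₀ = 0)
    (hrel : b₁ * dv N (uL L a) F₀ - F₀ * c₁ ∈ P) :
    ¬ {s ∈ EE x U b L P | eval (x (pL b L s)) F₀ = 0}.Countable := by
  classical
  intro hcount
  obtain ⟨S, hS⟩ := (IsNoetherian.noetherian P : P.FG)
  -- the vector field
  set V : (Fin d → ℂ) → (Fin d → ℂ) := fun s i => eval (x (pL b L s)) (a i) with hV
  have hVan : AnalyticAt ℂ V s₀ := by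
    rw [analyticAt_pi_iff]
    intro i
    exact (h.analyticAt_eval hs₀.1 (a i)).comp_of_eq (analyticAt_pL b L s₀) rfl
  have hVC : ContDiffAt ℝ 1 V s₀ := (hVan.contDiffAt (n := 1)).restrict_scalars ℝ
  obtain ⟨α, hα0, ε, hε, hα⟩ :=
    hVC.exists_forall_mem_closedBall_exists_eq_forall_mem_Ioo_hasDerivAt₀ 0
  simp only [zero_sub, zero_add] at hα
  have hαc : ContinuousAt α 0 := (hα 0 ⟨by linarith, hε⟩).continuousAt
  -- derivative along the flow
  have hder : ∀ t ∈ Set.Ioo (-ε) ε, pL b L (α t) ∈ U → ∀ F : MvPolynomial σ ℂ,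
      HasDerivAt (fun t => eval (x (pL b L (α t))) F)
        (eval (x (pL b L (α t))) (dv N (uL L a) F)) t := by
    intro t ht hU F
    have h1 := ((h.hasFDerivAt_pL hU F).restrictScalars ℝ).comp_hasDerivAt t (hα t ht)
    refine h1.congr_deriv ?_
    show dF N x F (pL b L (α t)) (lL L (V (α t))) = _
    rw [dF_apply, dv_apply, map_sum]
    apply Finset.sum_congr rfl
    intro j _
    rw [lL_apply, map_mul, uL, map_sum]
    simp [hV]
  -- coefficients
  have hcoef : ∀ F ∈ P, ∃ c : S → MvPolynomial σ ℂ, F = ∑ G : S, c G * G := by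
    intro F hF
    rw [← hS] at hF
    have h1 : F ∈ Submodule.span (MvPolynomial σ ℂ)
        (Set.range (fun G : S => (G : MvPolynomial σ ℂ))) := by
      have h2 : Set.range (fun G : S => (G : MvPolynomial σ ℂ)) = (S : Set (MvPolynomial σ ℂ)) :=
        Subtype.range_coe
      rw [h2]
      exact hF
    obtain ⟨c, hc⟩ := (Submodule.mem_span_range_iff_exists_fun _).1 h1
    exact ⟨c, hc.symm⟩
  have hSP : ∀ F ∈ S, F ∈ P := fun F hF => by rw [← hS]; exact Ideal.subset_span hF
  choose! cF hcF using hcoef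
  set c0 := cF (b₁ * dv N (uL L a) F₀ - F₀ * c₁) with hc0
  have hc0' := hcF _ hrel
  -- bounds near `0`
  have hxc : ContinuousAt (fun t => x (pL b L (α t))) 0 := by
    have h1 : ContinuousAt x (pL b L (α 0)) := by
      rw [hα0]
      exact (h.an _ hs₀.1).continuousAt
    exact ContinuousAt.comp (g := x) (f := fun t => pL b L (α t)) h1
      ((continuous_pL b L).continuousAt.comp hαc)
  have hbd : ∀ F : MvPolynomial σ ℂ, ∀ᶠ t in 𝓝 (0 : ℝ),
      ‖eval (x (pL b L (α t))) F‖ ≤ ‖eval (x (pL b L s₀)) F‖ + 1 := by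
    intro F
    have h1 : ContinuousAt (fun t => ‖eval (x (pL b L (α t))) F‖) 0 :=
      ((MvPolynomial.continuous_eval F).continuousAt.comp hxc).norm
    have h2 : (fun t => ‖eval (x (pL b L (α t))) F‖) 0 < ‖eval (x (pL b L s₀)) F‖ + 1 := by
      show ‖eval (x (pL b L (α 0))) F‖ < _
      rw [hα0]; linarith
    filter_upwards [h1.eventually_lt_const h2] with t ht using ht.le
  have hbU : ∀ᶠ t in 𝓝 (0 : ℝ), pL b L (α t) ∈ U := by
    have h1 : ContinuousAt (fun t => pL b L (α t)) 0 := (continuous_pL b L).continuousAt.comp hαc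
    apply h1.eventually_mem
    rw [hα0]
    exact h.isOpen.mem_nhds hs₀.1
  have hbb : ∀ᶠ t in 𝓝 (0 : ℝ), ‖eval (x (pL b L s₀)) b₁‖ / 2 ≤
      ‖eval (x (pL b L (α t))) b₁‖ := by
    have h1 : ContinuousAt (fun t => ‖eval (x (pL b L (α t))) b₁‖) 0 :=
      ((MvPolynomial.continuous_eval b₁).continuousAt.comp hxc).norm
    have h2 : ‖eval (x (pL b L s₀)) b₁‖ / 2 < (fun t => ‖eval (x (pL b L (α t))) b₁‖) 0 := by
      show _ < ‖eval (x (pL b L (α 0))) b₁‖
      rw [hα0]
      have := norm_pos_iff.2 hb₁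
      linarith
    filter_upwards [h1.eventually_const_lt h2] with t ht using ht.le
  have hall : ∀ᶠ t in 𝓝 (0 : ℝ), pL b L (α t) ∈ U ∧
      ‖eval (x (pL b L s₀)) b₁‖ / 2 ≤ ‖eval (x (pL b L (α t))) b₁‖ ∧
      ‖eval (x (pL b L (α t))) c₁‖ ≤ ‖eval (x (pL b L s₀)) c₁‖ + 1 ∧
      (∀ G : S, ‖eval (x (pL b L (α t))) (c0 G)‖ ≤ ‖eval (x (pL b L s₀)) (c0 G)‖ + 1) ∧
      (∀ F G : S, ‖eval (x (pL b L (α t))) (cF (dv N (uL L a) F) G)‖ ≤
        ‖eval (x (pL b L s₀)) (cF (dv N (uL L a) F) G)‖ + 1) := by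
    refine hbU.and (hbb.and ((hbd c₁).and ?_))
    refine Filter.Eventually.and ?_ ?_
    · rw [Filter.eventually_all]
      exact fun G => hbd _
    · rw [Filter.eventually_all]
      intro F
      rw [Filter.eventually_all]
      exact fun G => hbd _
  obtain ⟨ρ, hρ, hball⟩ := Metric.eventually_nhds_iff.1 hall
  set e : ℝ := min ρ ε / 2 with he
  have he0 : 0 < e := by positivity
  have heρ : e < ρ := by
    have := min_le_left ρ ε
    have := lt_min hρ hε
    rw [he]; linarith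
  have heε : e < ε := by
    have := min_le_right ρ ε
    have := lt_min hρ hε
    rw [he]; linarith
  have hmem : ∀ t ∈ Set.Icc 0 e, t ∈ Set.Ioo (-ε) ε := fun t ht =>
    ⟨by linarith [ht.1], by linarith [ht.2]⟩
  have hgood : ∀ t ∈ Set.Icc 0 e, _ := fun t (ht : t ∈ Set.Icc 0 e) => hball (show dist t 0 < ρ by
    rw [dist_zero_right, Real.norm_of_nonneg ht.1]; linarith [ht.2])
  -- the system
  set f : ℝ → Option S → ℂ := fun t o => eval (x (pL b L (α t))) (o.elim F₀ (fun G => G)) with hf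
  set f' : ℝ → Option S → ℂ := fun t o => eval (x (pL b L (α t)))
    (dv N (uL L a) (o.elim F₀ (fun G => G))) with hf'
  have hfd : ∀ t ∈ Set.Icc 0 e, HasDerivAt f (f' t) t := by
    intro t ht
    rw [hasDerivAt_pi]
    intro o
    exact hder t (hmem t ht) (hgood t ht).1 _
  set A : ℝ := (∑ G : S, (‖eval (x (pL b L s₀)) (c0 G)‖ + 1)) +
    (∑ F : S, ∑ G : S, (‖eval (x (pL b L s₀)) (cF (dv N (uL L a) F) G)‖ + 1)) +
    (‖eval (x (pL b L s₀)) c₁‖ + 1) with hA
  have hA1 : 0 ≤ ∑ G : S, (‖eval (x (pL b L s₀)) (c0 G)‖ + 1) :=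
    Finset.sum_nonneg fun G _ => by positivity
  have hA2 : 0 ≤ ∑ F : S, ∑ G : S, (‖eval (x (pL b L s₀)) (cF (dv N (uL L a) F) G)‖ + 1) :=
    Finset.sum_nonneg fun F _ => Finset.sum_nonneg fun G _ => by positivity
  have hA3 : 0 ≤ ‖eval (x (pL b L s₀)) c₁‖ + 1 := by positivity
  have hA0 : 0 ≤ A := add_nonneg (add_nonneg hA1 hA2) hA3
  set B : ℝ := ‖eval (x (pL b L s₀)) b₁‖ / 2 with hB
  have hB0 : 0 < B := by
    have := norm_pos_iff.2 hb₁
    rw [hB]; linarith
  have hbound : ∀ t ∈ Set.Ico 0 e, ‖f' t‖ ≤ (A + A / B) * ‖f t‖ := by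
    intro t ht
    have ht' : t ∈ Set.Icc 0 e := ⟨ht.1, ht.2.le⟩
    obtain ⟨hU, hb, hc1, hc0b, hcFb⟩ := hgood t ht'
    rw [pi_norm_le_iff_of_nonneg (mul_nonneg (add_nonneg hA0 (div_nonneg hA0 hB0.le))
      (norm_nonneg _))]
    intro o
    have hfle : ∀ o, ‖f t o‖ ≤ ‖f t‖ := fun o => norm_le_pi_norm (f t) o
    rcases o with _ | F
    · -- the component `F₀`
      have h1 : eval (x (pL b L (α t))) b₁ * f' t none =
          f t none * eval (x (pL b L (α t))) c₁ +
            ∑ G : S, eval (x (pL b L (α t))) (c0 G) * f t (some G) := by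
        have h2 := congrArg (eval (x (pL b L (α t)))) hc0'
        rw [map_sub, map_mul, map_mul, map_sum] at h2
        simp only [map_mul] at h2
        simp only [hf, hf', Option.elim]
        linear_combination h2
      have h2 : ‖eval (x (pL b L (α t))) b₁‖ * ‖f' t none‖ ≤ A * ‖f t‖ := by
        rw [← norm_mul, h1]
        calc _ ≤ ‖f t none * eval (x (pL b L (α t))) c₁‖ +
              ∑ G : S, ‖eval (x (pL b L (α t))) (c0 G) * f t (some G)‖ :=
              (norm_add_le _ _).trans (add_le_add le_rfl (norm_sum_le _ _))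
          _ ≤ ‖f t‖ * (‖eval (x (pL b L s₀)) c₁‖ + 1) +
              ∑ G : S, (‖eval (x (pL b L s₀)) (c0 G)‖ + 1) * ‖f t‖ := by
              gcongr with G
              · rw [norm_mul]
                exact mul_le_mul (hfle _) hc1 (norm_nonneg _) (norm_nonneg _)
              · rw [norm_mul]
                exact mul_le_mul (hc0b G) (hfle _) (norm_nonneg _) (by positivity)
          _ = ((‖eval (x (pL b L s₀)) c₁‖ + 1) +
              ∑ G : S, (‖eval (x (pL b L s₀)) (c0 G)‖ + 1)) * ‖f t‖ := by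
              rw [← Finset.sum_mul]; ring
          _ ≤ A * ‖f t‖ := by
              apply mul_le_mul_of_nonneg_right _ (norm_nonneg _)
              rw [hA]; linarith
      have h3 : B * ‖f' t none‖ ≤ A * ‖f t‖ :=
        (mul_le_mul_of_nonneg_right hb (norm_nonneg _)).trans h2
      have h4 : ‖f' t none‖ ≤ A / B * ‖f t‖ := by
        rw [div_mul_eq_mul_div, le_div_iff₀ hB0]
        linarith
      have h5 : 0 ≤ A * ‖f t‖ := mul_nonneg hA0 (norm_nonneg _)
      linarith
    · have h1 : f' t (some F) =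
            ∑ G : S, eval (x (pL b L (α t))) (cF (dv N (uL L a) F) G) * f t (some G) := by
        have h2 := congrArg (eval (x (pL b L (α t)))) (hcF _ (hau F (hSP F F.2)))
        rw [map_sum] at h2
        simp only [map_mul] at h2
        simp only [hf, hf', Option.elim]
        exact h2
      rw [h1]
      calc _ ≤ ∑ G : S, ‖eval (x (pL b L (α t))) (cF (dv N (uL L a) F) G) * f t (some G)‖ :=
              norm_sum_le _ _
        _ ≤ ∑ G : S, (‖eval (x (pL b L s₀)) (cF (dv N (uL L a) F) G)‖ + 1) * ‖f t‖ := by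
              gcongr with G
              rw [norm_mul]
              exact mul_le_mul (hcFb F G) (hfle _) (norm_nonneg _) (by positivity)
        _ = (∑ G : S, (‖eval (x (pL b L s₀)) (cF (dv N (uL L a) F) G)‖ + 1)) * ‖f t‖ := by
              rw [Finset.sum_mul]
        _ ≤ A * ‖f t‖ := by
              apply mul_le_mul_of_nonneg_right _ (norm_nonneg _)
              have h3 : (∑ G : S, (‖eval (x (pL b L s₀)) (cF (dv N (uL L a) F) G)‖ + 1)) ≤
                  ∑ F : S, ∑ G : S, (‖eval (x (pL b L s₀)) (cF (dv N (uL L a) F) G)‖ + 1) :=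
                Finset.single_le_sum
                  (f := fun F : S => ∑ G : S,
                    (‖eval (x (pL b L s₀)) (cF (dv N (uL L a) F) G)‖ + 1))
                  (fun F _ => Finset.sum_nonneg fun G _ => by positivity) (Finset.mem_univ F)
              rw [hA]; linarith
        _ ≤ (A + A / B) * ‖f t‖ := by
              apply mul_le_mul_of_nonneg_right _ (norm_nonneg _)
              have : 0 ≤ A / B := div_nonneg hA0 hB0.le
              linarith
  have hf0 : f 0 = 0 := by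
    funext o
    rcases o with _ | F
    · show eval (x (pL b L (α 0))) F₀ = 0
      rw [hα0]; exact hF₀
    · show eval (x (pL b L (α 0))) (F : MvPolynomial σ ℂ) = 0
      rw [hα0]; exact hs₀.2 _ (hSP F F.2)
  have hzero := eq_zero_of_abs_deriv_le_mul_abs_self_of_eq_zero_right (f := f) (f' := f')
    (K := A + A / B) (a := 0) (b := e)
    (fun t ht => (hfd t ht).continuousAt.continuousWithinAt)
    (fun t ht => (hfd t ⟨ht.1, ht.2.le⟩).hasDerivWithinAt) hf0 hbound
  -- the image of the flow is countable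
  have himg : (α '' Set.Icc 0 e) ⊆ {s ∈ EE x U b L P | eval (x (pL b L s)) F₀ = 0} := by
    rintro _ ⟨t, ht, rfl⟩
    have h1 := hzero t ht
    refine ⟨⟨(hgood t ht).1, ?_⟩, congrFun h1 none⟩
    rw [mem_Z_iff, ← hS, Ideal.span_le]
    intro F hF
    exact congrFun h1 (some ⟨F, hF⟩)
  have hαcont : ContinuousOn α (Set.Icc 0 e) := fun t ht =>
    (hα t (hmem t ht)).continuousAt.continuousWithinAt
  have hss : (α '' Set.Icc 0 e).Subsingleton :=
    hcount.isTotallyDisconnected _ himg (isPreconnected_Icc.image _ hαcont)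
  have hconst : ∀ t ∈ Set.Icc 0 e, α t = s₀ := by
    intro t ht
    have := hss (Set.mem_image_of_mem α ht)
      (Set.mem_image_of_mem α (⟨le_rfl, he0.le⟩ : (0 : ℝ) ∈ Set.Icc 0 e))
    rw [this, hα0]
  have hmid : e / 2 ∈ Set.Icc 0 e := ⟨by positivity, by linarith⟩
  have hd1 := hα (e / 2) (hmem _ hmid)
  have hd2 : HasDerivAt α 0 (e / 2) := by
    have h1 : α =ᶠ[𝓝 (e / 2)] fun _ => s₀ := by
      filter_upwards [Icc_mem_nhds (show (0 : ℝ) < e / 2 by positivity)
        (show e / 2 < e by linarith)] with t ht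
      exact hconst t ht
    exact (hasDerivAt_const (e / 2) s₀).congr_of_eventuallyEq h1
  have hd3 := congrFun (hd1.unique hd2) i₀
  rw [hconst _ hmid] at hd3
  exact hi₀ hd3

end Pool.Agent.Run7.h10
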