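import Mathlib
import Pool.Agent.N769.BK.DIM

/-!
# Dimension theory of prime ideals of a polynomial ring over the complex numbers
-/

set_option autoImplicit false

namespace Pool.Agent.Run7.h10

open MvPolynomial

variable {σ : Type}

/-- the dimension of the zero set of a prime ideal -/
noncomputable def dm (P : Ideal (MvPolynomial σ ℂ)) : ℕ :=
  Cardinal.toNat (Algebra.trdeg ℂ (MvPolynomial σ ℂ ⧸ P))

/-- the zero set -/
def Z (P : Ideal (MvPolynomial σ ℂ)) : Set (σ → ℂ) := {y | ∀ F ∈ P, eval y F = 0}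

/-- the ideal of a point -/
noncomputable def pt (y : σ → ℂ) : Ideal (MvPolynomial σ ℂ) := RingHom.ker (eval y)

instance pt_prime (y : σ → ℂ) : (pt y).IsPrime := RingHom.ker_isPrime _

theorem mem_pt {y : σ → ℂ} {F : MvPolynomial σ ℂ} : F ∈ pt y ↔ eval y F = 0 := Iff.rfl

theorem mem_Z_iff {P : Ideal (MvPolynomial σ ℂ)} {y : σ → ℂ} : y ∈ Z P ↔ P ≤ pt y := Iff.rfl

theorem pt_maximal (y : σ → ℂ) : (pt y).IsMaximal := by
  apply RingHom.ker_isMaximal_of_surjective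
  intro c
  exact ⟨C c, by simp⟩

theorem Z_anti {P Q : Ideal (MvPolynomial σ ℂ)} (h : P ≤ Q) : Z Q ⊆ Z P :=
  fun _ hy F hF => hy F (h hF)

variable [Finite σ]

theorem trdeg_fin (P : Ideal (MvPolynomial σ ℂ)) :
    Algebra.trdeg ℂ (MvPolynomial σ ℂ ⧸ P) < Cardinal.aleph0 := trdeg_lt_aleph0_of_finiteType

theorem trdeg_eq_dm (P : Ideal (MvPolynomial σ ℂ)) :
    Algebra.trdeg ℂ (MvPolynomial σ ℂ ⧸ P) = (dm P : Cardinal) :=
  (Cardinal.cast_toNat_of_lt_aleph0 (trdeg_fin P)).symm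

/-- strict inclusions of primes decrease the dimension -/
theorem dm_lt {P Q : Ideal (MvPolynomial σ ℂ)} (hP : P.IsPrime) (hQ : Q.IsPrime) (h : P < Q) :
    dm Q + 1 ≤ dm P := by
  obtain ⟨f, hfQ, hfP⟩ := SetLike.exists_of_lt h
  have h2 := Pool.Agent.N769.BK.DIM.strict (F := ℂ) (Ideal.Quotient.factorₐ ℂ h.le)
    (Ideal.Quotient.factor_surjective h.le)
    (Ideal.Quotient.mk P f) (fun h' => hfP (Ideal.Quotient.eq_zero_iff_mem.1 h'))
    (by
      show Ideal.Quotient.mk Q f = 0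
      exact Ideal.Quotient.eq_zero_iff_mem.2 hfQ)
  rw [trdeg_eq_dm, trdeg_eq_dm] at h2
  exact_mod_cast h2

theorem dm_le {P Q : Ideal (MvPolynomial σ ℂ)} (hP : P.IsPrime) (hQ : Q.IsPrime) (h : P ≤ Q) :
    dm Q ≤ dm P := by
  rcases h.eq_or_lt with rfl | h
  · exact le_rfl
  · have := dm_lt hP hQ h
    omega

theorem eq_of_dm_le {P Q : Ideal (MvPolynomial σ ℂ)} (hP : P.IsPrime) (hQ : Q.IsPrime)
    (h : P ≤ Q) (hd : dm P ≤ dm Q) : P = Q := by
  rcases h.eq_or_lt with rfl | h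
  · rfl
  · have := dm_lt hP hQ h
    omega

/-- components of hypersurface sections -/
theorem dm_step_le {P Q : Ideal (MvPolynomial σ ℂ)} {f : MvPolynomial σ ℂ} (hP : P.IsPrime)
    (hQ : Q ∈ (P ⊔ Ideal.span {f}).minimalPrimes) : dm P ≤ dm Q + 1 := by
  have hs : Function.Surjective (Ideal.Quotient.mk P) := Ideal.Quotient.mk_surjective
  have h1 : P ⊔ Ideal.span {f} =
      (Ideal.span {Ideal.Quotient.mk P f}).comap (Ideal.Quotient.mk P) := by
    rw [← Set.image_singleton, ← Ideal.map_span, Ideal.comap_map_of_surjective _ hs,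
      ← RingHom.ker_eq_comap_bot, Ideal.mk_ker, sup_comm]
  rw [h1, Ideal.comap_minimalPrimes_eq_of_surjective hs] at hQ
  obtain ⟨q, hq, rfl⟩ := hQ
  have h2 := Pool.Agent.N769.BK.DIM.dom (F := ℂ) (A := MvPolynomial σ ℂ ⧸ P) _ q hq
  have h3 : Function.Surjective (Ideal.quotientMapₐ (R₁ := ℂ) q (Ideal.Quotient.mkₐ ℂ P) le_rfl :
      (MvPolynomial σ ℂ ⧸ q.comap (Ideal.Quotient.mkₐ ℂ P)) →ₐ[ℂ] _) :=
    Ideal.quotientMap_surjective (H := le_rfl) hs
  have h4 := _root_.trdeg_le_of_surjective _ h3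
  have h5 : Algebra.trdeg ℂ (MvPolynomial σ ℂ ⧸ P) ≤
      Algebra.trdeg ℂ (MvPolynomial σ ℂ ⧸ q.comap (Ideal.Quotient.mk P)) + 1 :=
    h2.trans (add_le_add_left h4 1)
  rw [trdeg_eq_dm, trdeg_eq_dm] at h5
  exact_mod_cast h5

theorem dm_step {P Q : Ideal (MvPolynomial σ ℂ)} {f : MvPolynomial σ ℂ} (hP : P.IsPrime)
    (hf : f ∉ P) (hQ : Q ∈ (P ⊔ Ideal.span {f}).minimalPrimes) : dm P = dm Q + 1 := by
  apply le_antisymm (dm_step_le hP hQ)
  have hPQ : P ≤ Q := le_sup_left.trans hQ.1.2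
  have hfQ : f ∈ Q := hQ.1.2 (Ideal.mem_sup_right (Ideal.mem_span_singleton_self f))
  apply dm_lt hP hQ.1.1
  exact lt_of_le_of_ne hPQ (fun h => hf (h ▸ hfQ))

theorem krull_one {P : Ideal (MvPolynomial σ ℂ)} (hP : P.IsPrime) {y : σ → ℂ} (hy : y ∈ Z P)
    {f : MvPolynomial σ ℂ} (hf : eval y f = 0) :
    ∃ Q : Ideal (MvPolynomial σ ℂ), Q.IsPrime ∧ P ≤ Q ∧ f ∈ Q ∧ y ∈ Z Q ∧ dm P ≤ dm Q + 1 := by
  have h1 : P ⊔ Ideal.span {f} ≤ pt y := by
    rw [sup_le_iff]
    refine ⟨hy, ?_⟩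
    rw [Ideal.span_singleton_le_iff_mem]
    exact hf
  obtain ⟨Q, hQ, hQy⟩ := Ideal.exists_minimalPrimes_le h1
  exact ⟨Q, hQ.1.1, le_sup_left.trans hQ.1.2,
    hQ.1.2 (Ideal.mem_sup_right (Ideal.mem_span_singleton_self f)), hQy, dm_step_le hP hQ⟩

/-- Krull's height theorem at a point -/
theorem krull {P : Ideal (MvPolynomial σ ℂ)} (hP : P.IsPrime) {y : σ → ℂ} (hy : y ∈ Z P) :
    ∀ (n : ℕ) (f : Fin n → MvPolynomial σ ℂ), (∀ i, eval y (f i) = 0) →
    ∃ Q : Ideal (MvPolynomial σ ℂ), Q.IsPrime ∧ P ≤ Q ∧ (∀ i, f i ∈ Q) ∧ y ∈ Z Q ∧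
      dm P ≤ dm Q + n := by
  intro n
  induction n with
  | zero => exact fun f hf => ⟨P, hP, le_rfl, fun i => i.elim0, hy, by simp⟩
  | succ n ih =>
    intro f hf
    obtain ⟨Q, hQ, hPQ, hfQ, hyQ, hd⟩ := ih (fun i => f i.castSucc) (fun i => hf _)
    obtain ⟨Q', hQ', hQQ', hfQ', hyQ', hd'⟩ := krull_one hQ hyQ (hf (Fin.last n))
    refine ⟨Q', hQ', hPQ.trans hQQ', ?_, hyQ', by omega⟩
    intro i
    refine Fin.lastCases ?_ (fun j => ?_) i
    · exact hfQ'
    · exact hQQ' (hfQ j)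

/-- the zero set of a prime ideal of dimension zero is a point -/
theorem pt_of_dm_zero {Q : Ideal (MvPolynomial σ ℂ)} (hQ : Q.IsPrime) (h : dm Q = 0) {y : σ → ℂ}
    (hy : y ∈ Z Q) : Q = pt y :=
  eq_of_dm_le hQ (pt_prime y) hy (by omega)

theorem dm_pt (y : σ → ℂ) : dm (pt y) = 0 := by
  have h1 : Algebra.trdeg ℂ (MvPolynomial σ ℂ ⧸ pt y) = 0 := by
    have : Algebra.IsAlgebraic ℂ (MvPolynomial σ ℂ ⧸ pt y) := by
      constructor
      intro a
      obtain ⟨F, rfl⟩ := Ideal.Quotient.mk_surjective a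
      have h : Ideal.Quotient.mk (pt y) F =
          algebraMap ℂ (MvPolynomial σ ℂ ⧸ pt y) (eval y F) := by
        symm
        show Ideal.Quotient.mk (pt y) (C (eval y F)) = _
        rw [Ideal.Quotient.eq, mem_pt]
        simp
      rw [h]
      exact isAlgebraic_algebraMap _
    exact _root_.trdeg_eq_zero
  unfold dm
  rw [h1]
  simp

omit [Finite σ] in
theorem aeval_pt (x : σ → ℂ) (F : MvPolynomial σ ℂ) : aeval x F = eval x F := by
  rw [← MvPolynomial.coe_aeval_eq_eval]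
  rfl

/-- Hilbert's Nullstellensatz for prime ideals -/
theorem mem_of_vanish {P : Ideal (MvPolynomial σ ℂ)} (hP : P.IsPrime) {F : MvPolynomial σ ℂ}
    (h : ∀ y ∈ Z P, eval y F = 0) : F ∈ P := by
  have h1 := MvPolynomial.vanishingIdeal_zeroLocus_eq_radical (K := ℂ) P
  rw [hP.radical] at h1
  rw [← h1]
  rw [MvPolynomial.mem_vanishingIdeal_iff]
  intro x hx
  rw [aeval_pt]
  apply h
  intro G hG
  have := hx G hG
  rwa [aeval_pt] at this

theorem Z_nonempty {P : Ideal (MvPolynomial σ ℂ)} (hP : P ≠ ⊤) : (Z P).Nonempty := by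
  obtain ⟨M, hM, hPM⟩ := Ideal.exists_le_maximal P hP
  obtain ⟨x, hx⟩ := MvPolynomial.isMaximal_iff_eq_vanishingIdeal_singleton.1 hM
  refine ⟨x, fun F hF => ?_⟩
  have h1 := hPM hF
  rw [hx, MvPolynomial.mem_vanishingIdeal_singleton_iff] at h1
  rwa [aeval_pt] at h1

theorem maximal_eq_pt {M : Ideal (MvPolynomial σ ℂ)} (hM : M.IsMaximal) : ∃ x, M = pt x := by
  obtain ⟨x, hx⟩ := Z_nonempty hM.ne_top
  exact ⟨x, hM.eq_of_le (pt_prime x).ne_top hx⟩

/-- a prime of positive dimension in general position with respect to `f` -/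
theorem exists_step {P : Ideal (MvPolynomial σ ℂ)} (hP : P.IsPrime) {y : σ → ℂ} (hy : y ∈ Z P)
    {f : MvPolynomial σ ℂ} (hf : f ∉ P) (hd : 2 ≤ dm P) :
    ∃ Q : Ideal (MvPolynomial σ ℂ), Q.IsPrime ∧ P ≤ Q ∧ y ∈ Z Q ∧ dm P = dm Q + 1 ∧ f ∉ Q := by
  classical
  have hfin : (P ⊔ Ideal.span {f}).minimalPrimes.Finite :=
    Ideal.finite_minimalPrimes_of_isNoetherianRing _ _
  -- an element of the ideal of the point in none of the minimal primes
  have hav : ∃ h ∈ pt y, h ∉ P ∧ ∀ q ∈ (P ⊔ Ideal.span {f}).minimalPrimes, h ∉ q := by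
    by_contra hcon
    push Not at hcon
    have hsub : ((pt y : Ideal _) : Set (MvPolynomial σ ℂ)) ⊆
        ⋃ q ∈ (↑(insert P hfin.toFinset) : Set (Ideal (MvPolynomial σ ℂ))), (q : Set _) := by
      intro h hh
      by_cases hhP : h ∈ P
      · exact Set.mem_biUnion (by simp) hhP
      · obtain ⟨q, hq, hhq⟩ := hcon h hh hhP
        exact Set.mem_biUnion (by simp [hq]) hhq
    rw [Ideal.subset_union_prime P P] at hsub
    · obtain ⟨q, hq, hle⟩ := hsub
      have hqp : q.IsPrime := by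
        rw [Finset.mem_insert] at hq
        rcases hq with rfl | hq
        · exact hP
        · exact ((Set.Finite.mem_toFinset hfin).1 hq).1.1
      have h1 : pt y = q := (pt_maximal y).eq_of_le hqp.ne_top hle
      have h2 : 1 ≤ dm q := by
        rw [Finset.mem_insert] at hq
        rcases hq with rfl | hq
        · omega
        · have := dm_step hP hf ((Set.Finite.mem_toFinset hfin).1 hq)
          omega
      rw [← h1, dm_pt] at h2
      omega
    · intro q hq _ _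
      rw [Finset.mem_insert] at hq
      rcases hq with rfl | hq
      · exact hP
      · exact ((Set.Finite.mem_toFinset hfin).1 hq).1.1
  obtain ⟨h, hhy, hhP, hhq⟩ := hav
  have h1 : P ⊔ Ideal.span {h} ≤ pt y := by
    rw [sup_le_iff]
    refine ⟨hy, ?_⟩
    rw [Ideal.span_singleton_le_iff_mem]
    exact hhy
  obtain ⟨Q, hQ, hQy⟩ := Ideal.exists_minimalPrimes_le h1
  have hdQ := dm_step hP hhP hQ
  refine ⟨Q, hQ.1.1, le_sup_left.trans hQ.1.2, hQy, hdQ, ?_⟩
  intro hfQ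
  have h2 : P ⊔ Ideal.span {f} ≤ Q := by
    rw [sup_le_iff]
    refine ⟨le_sup_left.trans hQ.1.2, ?_⟩
    rw [Ideal.span_singleton_le_iff_mem]
    exact hfQ
  have hQp : Q.IsPrime := hQ.1.1
  obtain ⟨q, hq, hqQ⟩ := Ideal.exists_minimalPrimes_le h2
  have hdq := dm_step hP hf hq
  have h3 := eq_of_dm_le hq.1.1 hQp hqQ (by omega)
  apply hhq q hq
  rw [h3]
  exact hQ.1.2 (Ideal.mem_sup_right (Ideal.mem_span_singleton_self h))

/-- a curve through a given point on which `f` does not vanish identically -/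
theorem exists_curve {y : σ → ℂ} {f : MvPolynomial σ ℂ} : ∀ (n : ℕ)
    {P : Ideal (MvPolynomial σ ℂ)}, P.IsPrime → y ∈ Z P → f ∉ P → dm P = n + 1 →
    ∃ Q : Ideal (MvPolynomial σ ℂ), Q.IsPrime ∧ P ≤ Q ∧ y ∈ Z Q ∧ dm Q = 1 ∧ f ∉ Q := by
  intro n
  induction n with
  | zero => exact fun {P} hP hy hf hd => ⟨P, hP, le_rfl, hy, by omega, hf⟩
  | succ n ih =>
    intro P hP hy hf hd
    obtain ⟨Q, hQ, hPQ, hyQ, hdQ, hfQ⟩ := exists_step hP hy hf (by omega)
    obtain ⟨Q', hQ', hQQ', h1, h2, h3⟩ := ih hQ hyQ hfQ (by omega)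
    exact ⟨Q', hQ', hPQ.trans hQQ', h1, h2, h3⟩

/-- on a curve a polynomial which does not vanish identically has finitely many zeros -/
theorem finite_zeros {Q : Ideal (MvPolynomial σ ℂ)} (hQ : Q.IsPrime) (hd : dm Q = 1)
    {f : MvPolynomial σ ℂ} (hf : f ∉ Q) : {y ∈ Z Q | eval y f = 0}.Finite := by
  classical
  have hfin : (Q ⊔ Ideal.span {f}).minimalPrimes.Finite :=
    Ideal.finite_minimalPrimes_of_isNoetherianRing _ _
  have h1 : {y ∈ Z Q | eval y f = 0} ⊆ ⋃ q ∈ (Q ⊔ Ideal.span {f}).minimalPrimes, Z q := by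
    rintro y ⟨hy, hfy⟩
    have h2 : Q ⊔ Ideal.span {f} ≤ pt y := by
      rw [sup_le_iff]
      refine ⟨hy, ?_⟩
      rw [Ideal.span_singleton_le_iff_mem]
      exact hfy
    obtain ⟨q, hq, hqy⟩ := Ideal.exists_minimalPrimes_le h2
    exact Set.mem_biUnion hq hqy
  apply Set.Finite.subset _ h1
  apply Set.Finite.biUnion hfin
  intro q hq
  have h3 := dm_step hQ hf hq
  have h4 : dm q = 0 := by omega
  rcases (Z q).eq_empty_or_nonempty with he | ⟨y, hy⟩
  · rw [he]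
    exact Set.finite_empty
  · have h5 := pt_of_dm_zero hq.1.1 h4 hy
    apply Set.Finite.subset (Set.finite_singleton y)
    intro x hx
    rw [h5] at hx
    rw [Set.mem_singleton_iff]
    funext i
    have h6 := hx (X i - C (y i)) (by rw [mem_pt]; simp)
    simp only [map_sub, eval_X, eval_C] at h6
    exact sub_eq_zero.1 h6

end Pool.Agent.Run7.h10
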