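import Pool.Agent.Run7.h10.AV3

/-!
# Projective closures of curves
-/

set_option autoImplicit false
set_option linter.unusedSectionVars false

namespace Pool.Agent.Run7.h10

open MvPolynomial Filter Topology Metric

variable {g N : ℕ} {A : AbelianVariety g N}

theorem sub_C_mem {τ : Type} {P : Ideal (MvPolynomial τ ℂ)} {y : τ → ℂ}
    (h : ∀ i, X i - C (y i) ∈ P) (F : MvPolynomial τ ℂ) : F - C (eval y F) ∈ P := by
  induction F using MvPolynomial.induction_on with
  | C a => simp
  | add p q hp hq =>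
    have h1 := P.add_mem hp hq
    convert h1 using 1
    simp only [map_add]
    ring
  | mul_X p i hp =>
    have h1 := P.add_mem (P.mul_mem_right (X i) hp) (P.mul_mem_left (C (eval y p)) (h i))
    convert h1 using 1
    simp only [map_mul, eval_X]
    ring

/-- a curve in the extended affine chart -/
structure Crv (A : AbelianVariety g N) (l : Fin (N + 1)) (D : MvPolynomial (Fin (N + 1)) ℂ)
    (P : Ideal (MvPolynomial (Option (Fin (N + 1))) ℂ)) : Prop where
  prime : P.IsPrime
  dim : dm P = 1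
  one : X (some l) - 1 ∈ P
  inv : X none * rename some D - 1 ∈ P
  eqs : ∀ F : MvPolynomial (Fin (N + 1)) ℂ, (∃ n, F.IsHomogeneous n) →
    (∀ z, eval (A.θ z) F = 0) → rename some F ∈ P

/-- the projective closure of the curve, in the Lie algebra -/
def Ct (A : AbelianVariety g N) (P : Ideal (MvPolynomial (Option (Fin (N + 1))) ℂ)) :
    Set (Fin g → ℂ) :=
  {z | ∀ (F : MvPolynomial (Fin (N + 1)) ℂ) (n : ℕ), F.IsHomogeneous n → rename some F ∈ P →
    eval (A.θ z) F = 0}

/-- the coordinates in the function field -/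
noncomputable def xv (P : Ideal (MvPolynomial (Option (Fin (N + 1))) ℂ)) (i : Fin (N + 1)) :
    FractionRing (MvPolynomial (Option (Fin (N + 1))) ℂ ⧸ P) := rd P (X (some i))

theorem aeval_xv (P : Ideal (MvPolynomial (Option (Fin (N + 1))) ℂ))
    (F : MvPolynomial (Fin (N + 1)) ℂ) : aeval (xv P) F = rd P (rename some F) := by
  induction F using MvPolynomial.induction_on with
  | C a =>
    rw [aeval_C, rename_C]
    rfl
  | add p q hp hq => rw [map_add, map_add, map_add, hp, hq]
  | mul_X p i hp => rw [map_mul, map_mul, map_mul, hp, aeval_X, rename_X]; rfl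

/-- the ideal of the curve in the affine chart `m` -/
noncomputable def Pm [IsDomain ℂ] (P : Ideal (MvPolynomial (Option (Fin (N + 1))) ℂ))
    (hP : P.IsPrime) (m : Fin (N + 1)) : Ideal (MvPolynomial (Fin (N + 1)) ℂ) :=
  RingHom.ker (aeval (R := ℂ) (fun i => xv P i / xv P m))

variable {l : Fin (N + 1)} {D : MvPolynomial (Fin (N + 1)) ℂ}
  {P : Ideal (MvPolynomial (Option (Fin (N + 1))) ℂ)}

theorem Pm_prime (hP : P.IsPrime) (m : Fin (N + 1)) : (Pm P hP m).IsPrime :=
  RingHom.ker_isPrime _

theorem mem_Pm (hP : P.IsPrime) {m : Fin (N + 1)} {F : MvPolynomial (Fin (N + 1)) ℂ} :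
    F ∈ Pm P hP m ↔ aeval (fun i => xv P i / xv P m) F = 0 := Iff.rfl

theorem xv_ne (hP : P.IsPrime) {m : Fin (N + 1)} (hm : X (some m) ∉ P) : xv P m ≠ 0 := by
  intro h
  exact hm ((rd_eq_zero P).1 h)

theorem mem_Pm_of_hom (hP : P.IsPrime) {m : Fin (N + 1)} (hm : X (some m) ∉ P)
    {F : MvPolynomial (Fin (N + 1)) ℂ} {n : ℕ} (hF : F.IsHomogeneous n) :
    F ∈ Pm P hP m ↔ rename some F ∈ P := by
  rw [mem_Pm]
  have h2 : (fun i => xv P i / xv P m) = fun i => (xv P m)⁻¹ * xv P i := by
    funext i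
    rw [div_eq_mul_inv, mul_comm]
  rw [h2, aeval_scale hF, aeval_xv]
  have h3 : (xv P m)⁻¹ ^ n ≠ 0 := pow_ne_zero _ (inv_ne_zero (xv_ne hP hm))
  rw [mul_eq_zero, or_iff_right h3, rd_eq_zero]

theorem one_mem_Pm (hP : P.IsPrime) {m : Fin (N + 1)} (hm : X (some m) ∉ P) :
    (X m - 1 : MvPolynomial (Fin (N + 1)) ℂ) ∈ Pm P hP m := by
  rw [mem_Pm, map_sub, aeval_X, map_one, div_self (xv_ne hP hm), sub_self]

theorem Z_Pm (hP : P.IsPrime) {m : Fin (N + 1)} (hm : X (some m) ∉ P) {y : Fin (N + 1) → ℂ}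
    (hy : y ∈ Z (Pm P hP m)) : y m = 1 ∧ ∀ (F : MvPolynomial (Fin (N + 1)) ℂ) (n : ℕ),
      F.IsHomogeneous n → rename some F ∈ P → eval y F = 0 := by
  refine ⟨?_, fun F n hF hFP => hy F ((mem_Pm_of_hom hP hm hF).2 hFP)⟩
  have h1 := hy _ (one_mem_Pm hP hm)
  simp only [map_sub, eval_X, map_one] at h1
  exact sub_eq_zero.1 h1

theorem not_mem_of_Ct {z : Fin g → ℂ} (hz : z ∈ Ct A P) {m : Fin (N + 1)} (hm : A.θ z m ≠ 0) :
    X (some m) ∉ P := by
  intro h
  apply hm
  have h1 := hz (X m) 1 (isHomogeneous_X _ _) (by rwa [rename_X])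
  rwa [eval_X] at h1

theorem Ct_mem_Z (hP : P.IsPrime) {z : Fin g → ℂ} (hz : z ∈ Ct A P) {m : Fin (N + 1)}
    (hm : A.θ z m ≠ 0) : A.xch m z ∈ Z (Pm P hP m) := by
  intro F hF
  have hmP := not_mem_of_Ct hz hm
  have h1 : rename some (hom m F.totalDegree F) ∈ P := by
    rw [← rd_eq_zero P, ← aeval_xv, aeval_hom m le_rfl (xv_ne hP hmP), (mem_Pm hP).1 hF, mul_zero]
  have h2 := hz _ _ (hom_isHomogeneous m F.totalDegree F) h1
  rw [eval_hom m le_rfl hm] at h2
  rcases mul_eq_zero.1 h2 with h3 | h3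
  · exact absurd h3 (pow_ne_zero _ hm)
  · exact h3

theorem mem_Ct_of_Z (hP : P.IsPrime) {z : Fin g → ℂ} {m : Fin (N + 1)}
    (hmP : X (some m) ∉ P) (hm : A.θ z m ≠ 0) (hz : A.xch m z ∈ Z (Pm P hP m)) :
    z ∈ Ct A P := by
  intro F n hF hFP
  have h1 := (Z_Pm hP hmP hz).2 F n hF hFP
  rw [A.θ_eq_smul hm, eval_scale hF, h1, mul_zero]

theorem Ct_add {z l' : Fin g → ℂ} (hl : l' ∈ A.Λ) (hz : z ∈ Ct A P) : z + l' ∈ Ct A P := by
  intro F n hF hFP
  obtain ⟨c, -, hc⟩ := A.θ_add z hl
  rw [hc, eval_scale hF, hz F n hF hFP, mul_zero]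

theorem isClosed_Ct : IsClosed (Ct A P) := by
  have : Ct A P = ⋂ (F : MvPolynomial (Fin (N + 1)) ℂ) (n : ℕ) (_ : F.IsHomogeneous n)
      (_ : rename some F ∈ P), {z | eval (A.θ z) F = 0} := by
    ext z; simp [Ct]
  rw [this]
  refine isClosed_iInter fun F => isClosed_iInter fun n => isClosed_iInter fun _ =>
    isClosed_iInter fun _ => isClosed_eq ?_ continuous_const
  exact (MvPolynomial.continuous_eval F).comp AbelianVariety.continuous_θ

namespace Crv

theorem xvl (h : Crv A l D P) : xv P l = 1 := by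
  haveI := h.prime
  have h1 := (rd_eq_zero P).2 h.one
  rw [map_sub, map_one, sub_eq_zero] at h1
  exact h1

theorem Xl_notMem (h : Crv A l D P) : X (some l) ∉ P := by
  intro h1
  apply h.prime.ne_top
  rw [Ideal.eq_top_iff_one]
  have := P.sub_mem h1 h.one
  rwa [sub_sub_cancel] at this

theorem D_notMem (h : Crv A l D P) : rename some D ∉ P := by
  intro h1
  apply h.prime.ne_top
  rw [Ideal.eq_top_iff_one]
  have := P.sub_mem (P.mul_mem_left (X none) h1) h.inv
  rwa [sub_sub_cancel] at this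

/-- points of the closure in the extended chart lie on the curve -/
theorem xo_mem (h : Crv A l D P) {z : Fin g → ℂ} (hz : z ∈ Ct A P) (hd : z ∈ A.dom l D) :
    A.xo l D z ∈ Z P := by
  haveI := h.prime
  intro F hF
  obtain ⟨b, G, hG⟩ := exists_hat D F
  have hle : Ideal.span {X none * rename some D - 1} ≤ P := by
    rw [Ideal.span_singleton_le_iff_mem]; exact h.inv
  have hGP : rename some G ∈ P := by
    have h1 := P.sub_mem (P.mul_mem_right (rename some D ^ b) hF) (hle hG)
    rwa [sub_sub_cancel] at h1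
  have h1 : rename some (hom l G.totalDegree G) ∈ P := by
    rw [← rd_eq_zero P, ← aeval_xv, aeval_hom l le_rfl (xv_ne h.prime h.Xl_notMem)]
    have : (fun i => xv P i / xv P l) = xv P := by
      funext i; rw [h.xvl, div_one]
    rw [this, aeval_xv, (rd_eq_zero P).2 hGP, mul_zero]
  have h2 := hz _ _ (hom_isHomogeneous l G.totalDegree G) h1
  rw [eval_hom l le_rfl hd.1] at h2
  have h3 : eval (A.xch l z) G = 0 := by
    rcases mul_eq_zero.1 h2 with h3 | h3
    · exact absurd h3 (pow_ne_zero _ hd.1)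
    · exact h3
  obtain ⟨q, hq⟩ := Ideal.mem_span_singleton'.1 hG
  have h4 := congrArg (eval (A.xo l D z)) hq
  simp only [map_mul, map_sub, map_pow, map_one, eval_X, AbelianVariety.eval_xo_rename, h3,
    sub_zero] at h4
  have h5 : A.xo l D z none * eval (A.xch l z) D = 1 := inv_mul_cancel₀ hd.2
  rw [h5, sub_self, mul_zero] at h4
  rcases mul_eq_zero.1 h4.symm with h6 | h6
  · exact h6
  · exact absurd h6 (pow_ne_zero _ hd.2)

theorem Z_mem_Ct (h : Crv A l D P) {z : Fin g → ℂ} (hz : A.θ z l ≠ 0)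
    (hd : A.xo l D z ∈ Z P) : z ∈ Ct A P := by
  intro F n hF hFP
  have h1 := hd _ hFP
  rw [AbelianVariety.eval_xo_rename] at h1
  rw [A.θ_eq_smul hz, eval_scale hF, h1, mul_zero]

/-- the exceptional points form a proper closed subset -/
theorem exists_avoid (h : Crv A l D P) {c : MvPolynomial (Option (Fin (N + 1))) ℂ} (hc : c ∉ P)
    {m : Fin (N + 1)} (hm : X (some m) ∉ P) :
    ∃ G, G ∉ Pm P h.prime m ∧ ∀ z, A.θ z m ≠ 0 → eval (A.xch m z) G ≠ 0 →
      z ∈ A.dom l D ∧ eval (A.xo l D z) c ≠ 0 := by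
  haveI := h.prime
  obtain ⟨b, G, hG⟩ := exists_hat D c
  have hle : Ideal.span {X none * rename some D - 1} ≤ P := by
    rw [Ideal.span_singleton_le_iff_mem]; exact h.inv
  have hGP : rename some G ∉ P := by
    intro h1
    have h2 := P.add_mem (hle hG) h1
    rw [sub_add_cancel] at h2
    rcases h.prime.mem_or_mem h2 with h3 | h3
    · exact hc h3
    · exact h.D_notMem (h.prime.mem_of_pow_mem _ h3)
  have hhom : ∀ F : MvPolynomial (Fin (N + 1)) ℂ, rename some F ∉ P →
      hom l F.totalDegree F ∉ Pm P h.prime m := by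
    intro F hF h1
    rw [mem_Pm_of_hom h.prime hm (hom_isHomogeneous l F.totalDegree F)] at h1
    rw [← rd_eq_zero P, ← aeval_xv, aeval_hom l le_rfl (xv_ne h.prime h.Xl_notMem)] at h1
    have : (fun i => xv P i / xv P l) = xv P := by
      funext i; rw [h.xvl, div_one]
    rw [this, h.xvl, one_pow, one_mul, aeval_xv] at h1
    exact hF ((rd_eq_zero P).1 h1)
  refine ⟨X l * hom l D.totalDegree D * hom l G.totalDegree G, ?_, ?_⟩
  · intro h1
    haveI := Pm_prime h.prime m
    rcases (Pm_prime h.prime m).mem_or_mem h1 with h2 | h2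
    · rcases (Pm_prime h.prime m).mem_or_mem h2 with h3 | h3
      · rw [mem_Pm_of_hom h.prime hm (isHomogeneous_X _ _), rename_X] at h3
        exact h.Xl_notMem h3
      · exact hhom D h.D_notMem h3
    · exact hhom G hGP h2
  · intro z hzm hz
    rw [map_mul, map_mul, eval_X] at hz
    have h1 : A.xch m z l ≠ 0 := left_ne_zero_of_mul (left_ne_zero_of_mul hz)
    have h2 := right_ne_zero_of_mul (left_ne_zero_of_mul hz)
    have h3 := right_ne_zero_of_mul hz
    have hzl : A.θ z l ≠ 0 := by
      intro h0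
      apply h1
      simp [AbelianVariety.xch, h0]
    have hq : (fun i => A.xch m z i / A.xch m z l) = A.xch l z := by
      funext i
      simp only [AbelianVariety.xch]
      field_simp
    rw [eval_hom l le_rfl h1, hq] at h2 h3
    have h4 := right_ne_zero_of_mul h2
    have h5 := right_ne_zero_of_mul h3
    refine ⟨⟨hzl, h4⟩, ?_⟩
    intro h0
    apply h5
    obtain ⟨q, hq'⟩ := Ideal.mem_span_singleton'.1 hG
    have h6 := congrArg (eval (A.xo l D z)) hq'
    simp only [map_mul, map_sub, map_pow, map_one, eval_X, AbelianVariety.eval_xo_rename, h0,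
      zero_mul, zero_sub] at h6
    have h7 : A.xo l D z none * eval (A.xch l z) D = 1 := inv_mul_cancel₀ h4
    rw [h7, sub_self, mul_zero] at h6
    exact neg_eq_zero.1 h6.symm

theorem dm_Pm (h : Crv A l D P) {m : Fin (N + 1)} (hm : X (some m) ∉ P) :
    dm (Pm P h.prime m) = 1 := by
  haveI := h.prime
  have hpr := Pm_prime h.prime m
  apply le_antisymm
  · -- the quotient embeds in the function field
    let f : (MvPolynomial (Fin (N + 1)) ℂ ⧸ Pm P h.prime m) →ₐ[ℂ]
        FractionRing (MvPolynomial (Option (Fin (N + 1))) ℂ ⧸ P) :=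
      Ideal.kerLiftAlg (aeval (R := ℂ) (fun i => xv P i / xv P m))
    have hf : Function.Injective f := Ideal.kerLiftAlg_injective _
    have h1 := trdeg_le_of_injective f hf
    have h2 : Algebra.trdeg ℂ (FractionRing (MvPolynomial (Option (Fin (N + 1))) ℂ ⧸ P)) =
        Algebra.trdeg ℂ (MvPolynomial (Option (Fin (N + 1))) ℂ ⧸ P) := by
      haveI : Algebra.IsAlgebraic (MvPolynomial (Option (Fin (N + 1))) ℂ ⧸ P)
        (FractionRing (MvPolynomial (Option (Fin (N + 1))) ℂ ⧸ P)) :=
        IsLocalization.isAlgebraic _ (nonZeroDivisors _)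
      have h3 := _root_.trdeg_add_eq ℂ (MvPolynomial (Option (Fin (N + 1))) ℂ ⧸ P)
        (A := FractionRing (MvPolynomial (Option (Fin (N + 1))) ℂ ⧸ P))
      rw [_root_.trdeg_eq_zero (R := MvPolynomial (Option (Fin (N + 1))) ℂ ⧸ P), add_zero] at h3
      exact h3.symm
    rw [h2, trdeg_eq_dm, trdeg_eq_dm, h.dim] at h1
    exact_mod_cast h1
  · by_contra hcon
    have h0 : dm (Pm P h.prime m) = 0 := by omega
    obtain ⟨y, hy⟩ := Z_nonempty hpr.ne_top
    have hpt := pt_of_dm_zero hpr h0 hy
    have hxy : ∀ i, xv P i = algebraMap ℂ _ (y i) * xv P m := by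
      intro i
      have h1 : (X i - C (y i) : MvPolynomial (Fin (N + 1)) ℂ) ∈ Pm P h.prime m := by
        rw [hpt, mem_pt]; simp
      rw [mem_Pm, map_sub, aeval_X, aeval_C, sub_eq_zero] at h1
      rw [← h1, div_mul_cancel₀ _ (xv_ne h.prime hm)]
    have hyl : y l ≠ 0 := by
      intro h1
      have h2 := hxy l
      rw [h1, map_zero, zero_mul, h.xvl] at h2
      exact one_ne_zero h2
    have hconst : ∀ i, X (some i) - C (y i / y l) ∈ P := by
      intro i
      rw [← rd_eq_zero P, map_sub, sub_eq_zero]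
      have h1 : rd P (C (y i / y l)) = algebraMap ℂ _ (y i / y l) := rfl
      rw [h1]
      have h2 := hxy i
      have h3 := hxy l
      rw [h.xvl] at h3
      have h4 : algebraMap ℂ (FractionRing (MvPolynomial (Option (Fin (N + 1))) ℂ ⧸ P)) (y l) ≠ 0 := by
        intro h5
        rw [h5, zero_mul] at h3
        exact one_ne_zero h3
      show xv P i = _
      rw [h2, map_div₀]
      field_simp
      rw [mul_assoc, mul_comm (xv P m), ← h3, mul_one]
    -- so `P` is the ideal of a point
    set w : Fin (N + 1) → ℂ := fun i => y i / y l with hw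
    have hDw : rename some D - C (eval w D) ∈ P := by
      have : ∀ F : MvPolynomial (Fin (N + 1)) ℂ, rename some F - C (eval w F) ∈ P := by
        intro F
        induction F using MvPolynomial.induction_on with
        | C a => simp
        | add p q hp hq =>
          have h1 := P.add_mem hp hq
          convert h1 using 1
          simp only [map_add]
          ring
        | mul_X p i hp =>
          have h1 := P.add_mem (P.mul_mem_right (X (some i)) hp)
            (P.mul_mem_left (C (eval w p)) (hconst i))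
          convert h1 using 1
          simp only [map_mul, rename_X, eval_X]
          ring
      exact this D
    have hD0 : eval w D ≠ 0 := by
      intro h1
      rw [h1, C_0, sub_zero] at hDw
      exact h.D_notMem hDw
    have hnone : X none - C (eval w D)⁻¹ ∈ P := by
      have h1 := P.sub_mem (P.mul_mem_left (C (eval w D)⁻¹) h.inv)
        (P.mul_mem_left (C (eval w D)⁻¹ * X none) hDw)
      have h2 : (C (eval w D)⁻¹ * C (eval w D) : MvPolynomial (Option (Fin (N + 1))) ℂ) = 1 := by
        rw [← C_mul, inv_mul_cancel₀ hD0, C_1]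
      convert h1 using 1
      linear_combination (- X none) * h2
    have hPpt : P = pt (fun o : Option (Fin (N + 1)) => o.elim (eval w D)⁻¹ w) := by
      have hall : ∀ o, X o - C ((fun o : Option (Fin (N + 1)) => o.elim (eval w D)⁻¹ w) o) ∈ P := by
        rintro (_ | i)
        · exact hnone
        · exact hconst i
      symm
      apply (pt_maximal _).eq_of_le h.prime.ne_top
      intro F hF
      have h1 := sub_C_mem hall F
      rw [mem_pt.1 hF, C_0, sub_zero] at h1
      exact h1
    have := h.dim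
    rw [hPpt, dm_pt] at this
    omega

end Crv

end Pool.Agent.Run7.h10
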