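import Pool.Agent.Run7.h10.CC1

/-!
# Discs in the closure of a curve
-/

set_option autoImplicit false
set_option linter.unusedSectionVars false

namespace Pool.Agent.Run7.h10

open MvPolynomial Filter Topology Metric

variable {g N : ℕ} {A : AbelianVariety g N}

namespace AbelianVariety

/-- a linear projection inverting the differential of a chart -/
theorem exists_lin {m : Fin (N + 1)} {z₀ : Fin g → ℂ} (hm : A.θ z₀ m ≠ 0) :
    ∃ ℓ : (Fin (N + 1) → ℂ) →L[ℂ] (Fin g → ℂ),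
      HasStrictFDerivAt (fun z => ℓ (A.xch m z)) (ContinuousLinearMap.id ℂ (Fin g → ℂ)) z₀ := by
  have hinj : LinearMap.ker (fderiv ℂ (A.xch m) z₀ : (Fin g → ℂ) →ₗ[ℂ] (Fin (N + 1) → ℂ)) = ⊥ := by
    rw [LinearMap.ker_eq_bot']
    intro v hv
    exact fderiv_xch hm hv
  obtain ⟨ℓ, hℓ⟩ := LinearMap.exists_leftInverse_of_injective _ hinj
  refine ⟨LinearMap.toContinuousLinearMap ℓ, ?_⟩
  have h1 : HasStrictFDerivAt (A.xch m) (fderiv ℂ (A.xch m) z₀) z₀ :=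
    (analyticAt_xch hm).hasStrictFDerivAt
  have h2 := (LinearMap.toContinuousLinearMap ℓ).hasStrictFDerivAt.comp z₀ h1
  refine h2.congr_fderiv ?_
  ext v i
  have := LinearMap.congr_fun hℓ v
  exact congrFun this i

theorem exists_psi {m : Fin (N + 1)} {z₀ : Fin g → ℂ} (hm : A.θ z₀ m ≠ 0) :
    ∃ ψ : (Fin (N + 1) → ℂ) → (Fin g → ℂ), AnalyticAt ℂ ψ (A.xch m z₀) ∧
      ∀ᶠ z in 𝓝 z₀, ψ (A.xch m z) = z := by
  obtain ⟨ℓ, hℓ⟩ := exists_lin hm
  set f : (Fin g → ℂ) → (Fin g → ℂ) := fun z => ℓ (A.xch m z) with hf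
  have hfan : AnalyticAt ℂ f z₀ := (ℓ.analyticAt _).comp (analyticAt_xch hm)
  have hcd : ContDiffAt ℂ ⊤ f z₀ := hfan.contDiffAt
  have hfd : HasFDerivAt f ((ContinuousLinearEquiv.refl ℂ (Fin g → ℂ) :
      (Fin g → ℂ) →L[ℂ] (Fin g → ℂ))) z₀ := hℓ.hasFDerivAt
  have hne : (⊤ : WithTop ℕ∞) ≠ 0 := by simp
  refine ⟨fun y => hcd.localInverse hfd hne (ℓ y), ?_, ?_⟩
  · have h1 := (hcd.to_localInverse hfd hne).analyticAt
    exact AnalyticAt.comp (g := hcd.localInverse hfd hne) h1 (ℓ.analyticAt _)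
  · exact (hcd.hasStrictFDerivAt' hfd hne).eventually_left_inverse

/-- algebraic points near a point of the variety -/
theorem exists_lift (A : AbelianVariety g N) {m : Fin (N + 1)} {z₀ : Fin g → ℂ}
    (hm : A.θ z₀ m ≠ 0) {r : ℝ} (hr : 0 < r) :
    ∃ ρ > 0, ∀ y : Fin (N + 1) → ℂ, y m = 1 →
      (∀ (F : MvPolynomial (Fin (N + 1)) ℂ), (∃ n, F.IsHomogeneous n) →
        (∀ z, eval (A.θ z) F = 0) → eval y F = 0) →
      ‖y - A.xch m z₀‖ < ρ → ∃ z, ‖z - z₀‖ < r ∧ A.θ z m ≠ 0 ∧ A.xch m z = y := by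
  obtain ⟨ρ, hρ, h⟩ := near_lift hm hr
  refine ⟨ρ, hρ, fun y hy1 hyF hyρ => ?_⟩
  obtain ⟨S, hS1, hS2⟩ := A.algebraic
  have hy0 : y ≠ 0 := by
    rintro rfl
    simp at hy1
  have hθ0 : ∀ F ∈ S, ∀ z, eval (A.θ z) F = 0 := by
    intro F hF z
    exact (hS2 (A.θ z) (A.ne_zero z)).2 ⟨z, 1, by simp⟩ F hF
  obtain ⟨z, c, hzc⟩ := (hS2 y hy0).1 (fun F hF => hyF F (hS1 F hF) (hθ0 F hF))
  have hc : c ≠ 0 := by
    rintro rfl
    rw [zero_smul] at hzc
    exact hy0 hzc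
  have hm1 : c * A.θ z m = 1 := by
    have := congrFun hzc m
    rw [hy1] at this
    exact this.symm
  have hzm : A.θ z m ≠ 0 := right_ne_zero_of_mul_eq_one hm1
  have hxz : A.xch m z = y := by
    funext i
    rw [hzc]
    simp only [xch, Pi.smul_apply, smul_eq_mul]
    rw [div_eq_iff hzm]
    have : c * A.θ z i * A.θ z m = A.θ z i * (c * A.θ z m) := by ring
    rw [this, hm1, mul_one]
  obtain ⟨l', hl', hlt⟩ := h z hzm (by rw [hxz]; exact hyρ)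
  refine ⟨z - l', hlt, ?_, ?_⟩
  · rw [sub_eq_add_neg]
    exact (θ_add_ne (A.Λ.neg_mem hl')).2 hzm
  · rw [sub_eq_add_neg, xch_add (A.Λ.neg_mem hl'), hxz]

end AbelianVariety

variable {l : Fin (N + 1)} {D : MvPolynomial (Fin (N + 1)) ℂ}
  {P : Ideal (MvPolynomial (Option (Fin (N + 1))) ℂ)}

open AbelianVariety in
theorem Ct_discs (h : Crv A l D P) {z₀ : Fin g → ℂ} (hz₀ : z₀ ∈ Ct A P) :
    ∃ (J : Type) (_ : Fintype J) (_ : Nonempty J) (H : J → ℂ → Fin g → ℂ) (ε : ℝ), 0 < ε ∧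
      (∀ j, DifferentiableOn ℂ (H j) (ball 0 ε)) ∧ (∀ j, H j 0 = z₀) ∧
      (∀ j, ∀ τ ∈ ball (0 : ℂ) ε, H j τ ∈ Ct A P) ∧
      (∀ᶠ z in 𝓝 z₀, z ∈ Ct A P → ∃ j, ∃ τ ∈ ball (0 : ℂ) ε, z = H j τ) ∧
      (∀ j, ∃ τ ∈ ball (0 : ℂ) ε, H j τ ≠ z₀) ∧
      (∀ c, c ∉ P → ∀ j,
        {τ ∈ ball (0 : ℂ) ε | ¬ (H j τ ∈ A.dom l D ∧ eval (A.xo l D (H j τ)) c ≠ 0)}.Finite) := by
  obtain ⟨m, hm⟩ : ∃ m, A.θ z₀ m ≠ 0 := Function.ne_iff.1 (A.ne_zero z₀)
  have hmP := not_mem_of_Ct hz₀ hm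
  have hy₀ := Ct_mem_Z h.prime hz₀ hm
  obtain ⟨T, -, J, _, _, hh, K, ε₀, hK, hε₀, hhd, hh0, hhZ, hcov⟩ :=
    local_param (Pm_prime h.prime m) (h.dm_Pm hmP) hy₀
  obtain ⟨ψ, hψan, hψ⟩ := exists_psi hm
  obtain ⟨r, hr, hball⟩ := Metric.eventually_nhds_iff.1 hψ
  obtain ⟨ρ, hρ, hlift⟩ := A.exists_lift hm hr
  -- lifting
  have hl : ∀ y ∈ Z (Pm P h.prime m), ‖y - A.xch m z₀‖ < ρ →
      A.θ (ψ y) m ≠ 0 ∧ A.xch m (ψ y) = y := by
    intro y hy hyρ
    obtain ⟨hy1, hyF⟩ := Z_Pm h.prime hmP hy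
    obtain ⟨z, hz1, hz2, hz3⟩ := hlift y hy1 (fun F hF hF0 => by
      obtain ⟨n, hn⟩ := hF
      exact hyF F n hn (h.eqs F ⟨n, hn⟩ hF0)) hyρ
    have h1 : ψ (A.xch m z) = z := hball (by rw [dist_eq_norm]; exact hz1)
    rw [hz3] at h1
    rw [h1]
    exact ⟨hz2, hz3⟩
  -- a common radius
  have hev : ∀ᶠ τ in 𝓝 (0 : ℂ), ∀ j, ‖hh j τ - A.xch m z₀‖ < ρ ∧
      DifferentiableAt ℂ ψ (hh j τ) := by
    rw [Filter.eventually_all]
    intro j
    have hcj : ContinuousAt (hh j) 0 := (hhd j).continuousOn.continuousAt (ball_mem_nhds _ hε₀)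
    have h1 : ∀ᶠ y in 𝓝 (A.xch m z₀), ‖y - A.xch m z₀‖ < ρ ∧ DifferentiableAt ℂ ψ y := by
      refine Filter.Eventually.and ?_ ?_
      · filter_upwards [ball_mem_nhds (A.xch m z₀) hρ] with y hy
        rwa [mem_ball, dist_eq_norm] at hy
      · filter_upwards [hψan.eventually_analyticAt] with y hy using hy.differentiableAt
    have h2 : Tendsto (hh j) (𝓝 0) (𝓝 (A.xch m z₀)) := by
      have := hcj.tendsto
      rwa [hh0 j] at this
    exact h2.eventually h1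
  obtain ⟨ε₁, hε₁, hb⟩ := Metric.eventually_nhds_iff.1 hev
  set ε := min ε₁ ε₀ with hεdef
  have hε : 0 < ε := lt_min hε₁ hε₀
  have hεε₀ : ball (0 : ℂ) ε ⊆ ball 0 ε₀ := ball_subset_ball (min_le_right _ _)
  have hbb : ∀ τ ∈ ball (0 : ℂ) ε, ∀ j, ‖hh j τ - A.xch m z₀‖ < ρ ∧
      DifferentiableAt ℂ ψ (hh j τ) := fun τ hτ =>
    hb ((mem_ball.1 hτ).trans_le (min_le_left _ _))
  have hxH : ∀ j, ∀ τ ∈ ball (0 : ℂ) ε, A.θ (ψ (hh j τ)) m ≠ 0 ∧
      A.xch m (ψ (hh j τ)) = hh j τ := fun j τ hτ =>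
    hl _ (hhZ j τ (hεε₀ hτ)).1 (hbb τ hτ j).1
  refine ⟨J, inferInstance, inferInstance, fun j τ => ψ (hh j τ), ε, hε, ?_, ?_, ?_, ?_, ?_, ?_⟩
  · intro j τ hτ
    have h1 : DifferentiableAt ℂ (hh j) τ :=
      ((hhd j) τ (hεε₀ hτ)).differentiableAt (isOpen_ball.mem_nhds (hεε₀ hτ))
    exact ((hbb τ hτ j).2.comp τ h1).differentiableWithinAt
  · intro j
    show ψ (hh j 0) = z₀
    rw [hh0 j]
    exact hψ.self_of_nhds
  · intro j τ hτ
    obtain ⟨h1, h2⟩ := hxH j τ hτ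
    apply mem_Ct_of_Z h.prime hmP h1
    rw [h2]
    exact (hhZ j τ (hεε₀ hτ)).1
  · have h1 : Tendsto (A.xch m) (𝓝 z₀) (𝓝 (A.xch m z₀)) :=
      (analyticAt_xch hm).continuousAt
    filter_upwards [h1.eventually (hcov ε hε (min_le_right _ _)), hψ,
      (isOpen_chart m).mem_nhds hm] with z hz1 hz2 hz3 hz
    obtain ⟨j, τ, hτ, hj⟩ := hz1 (Ct_mem_Z h.prime hz hz3)
    refine ⟨j, τ, hτ, ?_⟩
    rw [← hj, hz2]
  · intro j
    refine ⟨(ε / 2 : ℝ), ?_, ?_⟩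
    · rw [mem_ball_zero_iff, Complex.norm_real, Real.norm_of_nonneg (by positivity)]
      linarith
    · intro hcon
      have hτ : ((ε / 2 : ℝ) : ℂ) ∈ ball (0 : ℂ) ε := by
        rw [mem_ball_zero_iff, Complex.norm_real, Real.norm_of_nonneg (by positivity)]
        linarith
      have h1 := (hxH j _ hτ).2
      simp only at hcon
      rw [hcon] at h1
      have h2 := (hhZ j _ (hεε₀ hτ)).2
      rw [← h1] at h2
      have h3 : ((ε / 2 : ℝ) : ℂ) ^ K = 0 := by linear_combination -h2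
      have h4 : ((ε / 2 : ℝ) : ℂ) ≠ 0 := by
        rw [Complex.ofReal_ne_zero]; positivity
      exact pow_ne_zero _ h4 h3
  · intro c hc j
    obtain ⟨G, hG, hG'⟩ := h.exists_avoid hc hmP
    have hfin := finite_zeros (Pm_prime h.prime m) (h.dm_Pm hmP) hG
    have hfin2 := disc_finite (h := hh j) hK (fun τ hτ => (hhZ j τ hτ).2) hfin
    apply hfin2.subset
    rintro τ ⟨hτ, hτ2⟩
    refine ⟨hεε₀ hτ, (hhZ j τ (hεε₀ hτ)).1, ?_⟩
    by_contra hne
    apply hτ2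
    obtain ⟨h1, h2⟩ := hxH j τ hτ
    exact hG' _ h1 (by rw [h2]; exact hne)

/-- an invariant form vanishing on the curve is constant on the discs -/
theorem form_const {M : Fin g → Fin (N + 1) → MvPolynomial (Fin (N + 1)) ℂ}
    (hch : Chart (AbelianVariety.No D M) (A.xo l D) (A.dom l D)) (h : Crv A l D P)
    {ω : Fin g → ℂ} {c : MvPolynomial (Option (Fin (N + 1))) ℂ} (hc : c ∉ P)
    {S : Finset (MvPolynomial (Option (Fin (N + 1))) ℂ)} (hS : ∀ F ∈ S, F ∈ P)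
    {β : S → MvPolynomial (Option (Fin (N + 1))) ℂ}
    (hβ : ∀ j, C (ω j) * c - ∑ F : S, β F * dd (AbelianVariety.No D M) j F ∈ P)
    {H : ℂ → Fin g → ℂ} {ε : ℝ} (hε : 0 < ε) (hH : DifferentiableOn ℂ H (ball 0 ε))
    (hHC : ∀ τ ∈ ball (0 : ℂ) ε, H τ ∈ Ct A P)
    (hfin : {τ ∈ ball (0 : ℂ) ε | ¬ (H τ ∈ A.dom l D ∧ eval (A.xo l D (H τ)) c ≠ 0)}.Finite) :
    ∀ τ ∈ ball (0 : ℂ) ε, ∑ j, ω j * H τ j = ∑ j, ω j * H 0 j := by
  set f : ℂ → ℂ := fun τ => ∑ j, ω j * H τ j with hf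
  have hHi : ∀ j, DifferentiableOn ℂ (fun τ => H τ j) (ball 0 ε) :=
    fun j => (differentiableOn_pi.1 hH) j
  have hfd : DifferentiableOn ℂ f (ball 0 ε) := by
    apply DifferentiableOn.fun_sum
    intro j _
    exact (hHi j).const_mul (ω j)
  set E := {τ ∈ ball (0 : ℂ) ε | ¬ (H τ ∈ A.dom l D ∧ eval (A.xo l D (H τ)) c ≠ 0)} with hE
  have hopen : IsOpen (ball (0 : ℂ) ε \ E) := isOpen_ball.sdiff hfin.isClosed
  -- the derivative vanishes outside the exceptional set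
  have hder : ∀ τ ∈ ball (0 : ℂ) ε \ E, deriv f τ = 0 := by
    intro τ hτ
    have hgood : ∀ τ' ∈ ball (0 : ℂ) ε \ E, H τ' ∈ A.dom l D ∧ eval (A.xo l D (H τ')) c ≠ 0 := by
      intro τ' hτ'
      by_contra hcon
      exact hτ'.2 ⟨hτ'.1, hcon⟩
    have hHτ : HasDerivAt H (deriv H τ) τ :=
      ((hH τ hτ.1).differentiableAt (isOpen_ball.mem_nhds hτ.1)).hasDerivAt
    have hHτi : ∀ j, HasDerivAt (fun τ => H τ j) (deriv H τ j) τ := fun j =>
      (hasDerivAt_pi.1 hHτ) j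
    have hF0 : ∀ F ∈ S, ∑ j, deriv H τ j * eval (A.xo l D (H τ))
        (dd (AbelianVariety.No D M) j F) = 0 := by
      intro F hF
      have h1 := (hch.hasFDerivAt (hgood τ hτ).1 F).comp_hasDerivAt τ hHτ
      have h2 : (fun z => eval (A.xo l D z) F) ∘ H =ᶠ[𝓝 τ] fun _ => 0 := by
        filter_upwards [hopen.mem_nhds hτ] with τ' hτ'
        exact h.xo_mem (hHC τ' hτ'.1) (hgood τ' hτ').1 F (hS F hF)
      have h3 := h1.unique ((hasDerivAt_const τ (0 : ℂ)).congr_of_eventuallyEq h2)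
      rw [dF_apply] at h3
      exact h3
    have h1 : HasDerivAt f (∑ j, ω j * deriv H τ j) τ := by
      apply HasDerivAt.fun_sum
      intro j _
      exact (hHτi j).const_mul (ω j)
    rw [h1.deriv]
    have h2 : eval (A.xo l D (H τ)) c * ∑ j, ω j * deriv H τ j = 0 := by
      have h3 : ∀ j, ω j * eval (A.xo l D (H τ)) c = ∑ F : S, eval (A.xo l D (H τ)) (β F) *
          eval (A.xo l D (H τ)) (dd (AbelianVariety.No D M) j F) := by
        intro j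
        have h4 := h.xo_mem (hHC τ hτ.1) (hgood τ hτ).1 _ (hβ j)
        simp only [map_sub, map_mul, map_sum, eval_C] at h4
        exact sub_eq_zero.1 h4
      have h5 : eval (A.xo l D (H τ)) c * ∑ j, ω j * deriv H τ j =
          ∑ j, (ω j * eval (A.xo l D (H τ)) c) * deriv H τ j := by
        rw [Finset.mul_sum]
        apply Finset.sum_congr rfl
        intro j _
        ring
      rw [h5]
      simp only [h3, Finset.sum_mul]
      rw [Finset.sum_comm]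
      apply Finset.sum_eq_zero
      intro F _
      have h6 := hF0 F F.2
      have h7 : ∑ j, eval (A.xo l D (H τ)) (β F) *
          eval (A.xo l D (H τ)) (dd (AbelianVariety.No D M) j F) * deriv H τ j =
          eval (A.xo l D (H τ)) (β F) * ∑ j, deriv H τ j * eval (A.xo l D (H τ))
            (dd (AbelianVariety.No D M) j F) := by
        rw [Finset.mul_sum]
        apply Finset.sum_congr rfl
        intro j _
        ring
      rw [h7, h6, mul_zero]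
    exact (mul_eq_zero.1 h2).resolve_left (hgood τ hτ).2
  -- so it vanishes everywhere
  have hderall : ∀ τ ∈ ball (0 : ℂ) ε, deriv f τ = 0 := by
    intro τ hτ
    have hcont : ContinuousAt (deriv f) τ := by
      have h1 := (hfd.deriv isOpen_ball).continuousOn
      exact h1.continuousAt (isOpen_ball.mem_nhds hτ)
    have h2 : ∀ᶠ τ' in 𝓝[≠] τ, deriv f τ' = 0 := by
      have h3 : (E \ {τ})ᶜ ∈ 𝓝 τ := (hfin.subset Set.sdiff_subset).isClosed.isOpen_compl.mem_nhds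
        (by simp)
      filter_upwards [nhdsWithin_le_nhds h3, nhdsWithin_le_nhds (isOpen_ball.mem_nhds hτ),
        self_mem_nhdsWithin] with τ' h4 h5 h6
      apply hder
      refine ⟨h5, fun h7 => h4 ⟨h7, h6⟩⟩
    have h3 : Tendsto (deriv f) (𝓝[≠] τ) (𝓝 (deriv f τ)) :=
      hcont.tendsto.mono_left nhdsWithin_le_nhds
    apply tendsto_nhds_unique h3
    apply tendsto_const_nhds.congr'
    filter_upwards [h2] with τ' h4 using h4.symm
  intro τ hτ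
  exact isOpen_ball.is_const_of_deriv_eq_zero (convex_ball _ _).isPreconnected hfd
    (fun τ hτ => hderall τ hτ) hτ (mem_ball_self hε)

end Pool.Agent.Run7.h10
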