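import Pool.Agent.Run7.h10.CC2

/-!
# Invariant forms on curves in simple abelian varieties
-/

set_option autoImplicit false
set_option linter.unusedSectionVars false

namespace Pool.Agent.Run7.h10

open MvPolynomial Filter Topology Metric

variable {g N : ℕ} {A : AbelianVariety g N}

/-- local constancy on preconnected sets -/
theorem clopen_const {E : Type} [TopologicalSpace E] {S : Set E} (hS : IsPreconnected S)
    {φ : E → ℂ} (hφ : Continuous φ) {z₀ : E} (hz₀ : z₀ ∈ S)
    (h : ∀ z ∈ S, φ z = φ z₀ → ∀ᶠ z' in 𝓝 z, z' ∈ S → φ z' = φ z₀) :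
    ∀ z ∈ S, φ z = φ z₀ := by
  intro z hz
  by_contra hne
  have hu : IsOpen (interior {z' | z' ∈ S → φ z' = φ z₀}) := isOpen_interior
  have hv : IsOpen {z' | φ z' ≠ φ z₀} := isOpen_ne_fun hφ continuous_const
  have hsub : S ⊆ interior {z' | z' ∈ S → φ z' = φ z₀} ∪ {z' | φ z' ≠ φ z₀} := by
    intro w hw
    by_cases hwe : φ w = φ z₀
    · left
      rw [mem_interior_iff_mem_nhds]
      exact h w hw hwe
    · exact Or.inr hwe
  obtain ⟨w, hwS, hw1, hw2⟩ := hS _ _ hu hv hsub ⟨z₀, hz₀, by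
    rw [mem_interior_iff_mem_nhds]; exact h z₀ hz₀ rfl⟩ ⟨z, hz, hne⟩
  exact hw2 ((interior_subset hw1) hwS)

/-- the complex functional with given real part -/
noncomputable def cx (f : (Fin g → ℂ) →ₗ[ℝ] ℝ) : (Fin g → ℂ) →ₗ[ℂ] ℂ where
  toFun z := (f z : ℂ) - Complex.I * (f (Complex.I • z) : ℂ)
  map_add' z w := by
    simp only [map_add, smul_add, Complex.ofReal_add]
    ring
  map_smul' c z := by
    have h1 : c • z = c.re • z + c.im • (Complex.I • z) := by
      funext i
      simp only [Pi.smul_apply, Pi.add_apply, smul_eq_mul, Complex.real_smul]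
      conv_lhs => rw [← Complex.re_add_im c]
      ring
    have h2 : Complex.I • (c • z) = c.re • (Complex.I • z) - c.im • z := by
      funext i
      simp only [Pi.smul_apply, Pi.sub_apply, smul_eq_mul, Complex.real_smul]
      conv_lhs => rw [← Complex.re_add_im c]
      ring_nf
      rw [Complex.I_sq]
      ring
    rw [h2, h1]
    simp only [map_add, map_sub, map_smul, smul_eq_mul, Complex.ofReal_add, Complex.ofReal_sub,
      Complex.ofReal_mul, RingHom.id_apply]
    conv_rhs => rw [← Complex.re_add_im c]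
    ring_nf
    rw [Complex.I_sq]
    ring

theorem cx_re (f : (Fin g → ℂ) →ₗ[ℝ] ℝ) (z : Fin g → ℂ) : (cx f z).re = f z := by
  simp [cx]

variable {l : Fin (N + 1)} {D : MvPolynomial (Fin (N + 1)) ℂ}
  {P : Ideal (MvPolynomial (Option (Fin (N + 1))) ℂ)}

theorem no_invariant_form (hs : A.IsSimple)
    {M : Fin g → Fin (N + 1) → MvPolynomial (Fin (N + 1)) ℂ}
    (hch : Chart (AbelianVariety.No D M) (A.xo l D) (A.dom l D)) (h : Crv A l D P)
    (hpt : ∃ z ∈ A.dom l D, A.xo l D z ∈ Z P)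
    {ω : Fin g → ℂ} (hω : ω ≠ 0) {c : MvPolynomial (Option (Fin (N + 1))) ℂ} (hc : c ∉ P)
    {S : Finset (MvPolynomial (Option (Fin (N + 1))) ℂ)} (hS : ∀ F ∈ S, F ∈ P)
    {β : S → MvPolynomial (Option (Fin (N + 1))) ℂ}
    (hβ : ∀ j, C (ω j) * c - ∑ F : S, β F * dd (AbelianVariety.No D M) j F ∈ P) : False := by
  classical
  obtain ⟨z₁, hz₁d, hz₁P⟩ := hpt
  have hz₁ : z₁ ∈ Ct A P := h.Z_mem_Ct hz₁d.1 hz₁P
  set cc := connectedComponentIn (Ct A P) with hcc
  -- local structure
  have hlocal : ∀ z₀ ∈ Ct A P, ∀ᶠ z in 𝓝 z₀, z ∈ Ct A P → z ∈ cc z₀ := by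
    intro z₀ hz₀
    obtain ⟨J, _, _, H, ε, hε, hHd, hH0, hHC, hcov, -, -⟩ := Ct_discs h hz₀
    filter_upwards [hcov] with z hz hzC
    obtain ⟨j, τ, hτ, rfl⟩ := hz hzC
    have h1 : IsPreconnected (H j '' ball (0 : ℂ) ε) :=
      (convex_ball _ _).isPreconnected.image _ (hHd j).continuousOn
    have h2 : z₀ ∈ H j '' ball (0 : ℂ) ε := ⟨0, mem_ball_self hε, hH0 j⟩
    have h3 : H j '' ball (0 : ℂ) ε ⊆ Ct A P := by
      rintro _ ⟨τ', hτ', rfl⟩
      exact hHC j τ' hτ'
    exact h1.subset_connectedComponentIn h2 h3 ⟨τ, hτ, rfl⟩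
  have hccC : ∀ z, cc z ⊆ Ct A P := fun z => connectedComponentIn_subset _ _
  have hself : ∀ z ∈ Ct A P, z ∈ cc z := fun z hz => mem_connectedComponentIn hz
  have hcceq : ∀ {z w}, w ∈ cc z → cc z = cc w := fun {z w} hw => connectedComponentIn_eq hw
  -- translations
  have htr : ∀ m ∈ A.Λ, ∀ z w, w ∈ cc z → w + m ∈ cc (z + m) := by
    intro m hm z w hw
    have hzC : z ∈ Ct A P := by
      by_contra hzC
      rw [hcc, connectedComponentIn_eq_empty hzC] at hw
      exact hw
    have h1 : IsPreconnected ((fun x => x + m) '' cc z) :=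
      isPreconnected_connectedComponentIn.image _ (by fun_prop)
    have h2 : z + m ∈ (fun x => x + m) '' cc z := ⟨z, hself z hzC, rfl⟩
    have h3 : (fun x => x + m) '' cc z ⊆ Ct A P := by
      rintro _ ⟨x, hx, rfl⟩
      exact Ct_add hm (hccC _ hx)
    exact h1.subset_connectedComponentIn h2 h3 ⟨w, hw, rfl⟩
  set C₀ := cc z₁ with hC₀
  have hz₁C₀ : z₁ ∈ C₀ := hself z₁ hz₁
  have hconn : IsPreconnected C₀ := isPreconnected_connectedComponentIn
  have hclosed : IsClosed C₀ := by
    rw [← closure_subset_iff_isClosed]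
    intro z hz
    have hzC : z ∈ Ct A P := by
      rw [← isClosed_Ct.closure_eq]
      exact closure_mono (hccC _) hz
    rw [mem_closure_iff_frequently] at hz
    obtain ⟨w, hw1, hw2⟩ := (hz.and_eventually (hlocal z hzC)).exists
    have h1 := hcceq (hw2 (hccC _ hw1))
    have h2 : C₀ = cc w := hcceq hw1
    rw [h2, ← h1]
    exact hself z hzC
  -- the stabilizer
  set Λ₀ : Set (Fin g → ℂ) := {m | m ∈ A.Λ ∧ z₁ + m ∈ C₀} with hΛ₀
  have hstab : ∀ m ∈ Λ₀, ∀ z ∈ C₀, z + m ∈ C₀ := by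
    intro m hm z hz
    have h1 := htr m hm.1 z₁ z hz
    have h2 : C₀ = cc (z₁ + m) := hcceq hm.2
    rw [h2]
    exact h1
  obtain ⟨R', hR'⟩ : ∃ R' : ℝ, ∀ z ∈ C₀, ∃ m ∈ Λ₀, ‖z - m‖ ≤ R' ∧ z - m ∈ C₀ := by
    obtain ⟨R, hR, hbdd⟩ := A.exists_bdd
    have hK : IsCompact (Ct A P ∩ closedBall 0 R) :=
      (isCompact_closedBall _ _).inter_left isClosed_Ct
    obtain ⟨t, ht, hcover⟩ := hK.elim_nhds_subcover
      (fun z₀ => {z | z ∈ Ct A P → z ∈ cc z₀}) (fun z hz => hlocal z hz.1)
    have hch : ∀ i : Fin g → ℂ, ∃ m : Fin g → ℂ, (∃ m' ∈ A.Λ, i + m' ∈ C₀) →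
        m ∈ A.Λ ∧ i + m ∈ C₀ := by
      intro i
      by_cases hi : ∃ m' ∈ A.Λ, i + m' ∈ C₀
      · obtain ⟨m', h1, h2⟩ := hi
        exact ⟨m', fun _ => ⟨h1, h2⟩⟩
      · exact ⟨0, fun h => absurd h hi⟩
    choose mm hmm using hch
    refine ⟨R + ∑ i ∈ t, ‖mm i‖, fun z hz => ?_⟩
    obtain ⟨m, hm, hle⟩ := hbdd z
    have hk : z - m ∈ Ct A P := by
      rw [sub_eq_add_neg]
      exact Ct_add (A.Λ.neg_mem hm) (hccC _ hz)
    obtain ⟨i, hi, hik⟩ := Set.mem_iUnion₂.1 (hcover ⟨hk, by
      rw [mem_closedBall_zero_iff]; exact hle⟩)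
    have h1 : z - m ∈ cc i := hik hk
    have h2 : z ∈ cc (i + m) := by
      have := htr m hm i _ h1
      rwa [sub_add_cancel] at this
    have hiC : i ∈ Ct A P := (ht i hi).1
    have h3 : i + m ∈ C₀ := by
      have h4 : cc (i + m) = cc z := hcceq h2
      have h5 : C₀ = cc z := hcceq hz
      rw [h5, ← h4]
      exact hself _ (Ct_add hm hiC)
    obtain ⟨h4, h5⟩ := hmm i ⟨m, hm, h3⟩
    have hμ : m - mm i ∈ A.Λ := A.Λ.sub_mem hm h4
    have h6 : i + m ∈ cc (z₁ + (m - mm i)) := by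
      have := htr (m - mm i) hμ z₁ (i + mm i) h5
      have h7 : i + mm i + (m - mm i) = i + m := by abel
      rwa [h7] at this
    have h7 : z₁ + (m - mm i) ∈ C₀ := by
      have h8 : cc (z₁ + (m - mm i)) = cc (i + m) := hcceq h6
      have h9 : C₀ = cc (i + m) := hcceq h3
      rw [h9, ← h8]
      exact hself _ (Ct_add hμ hz₁)
    refine ⟨m - mm i, ⟨hμ, h7⟩, ?_, ?_⟩
    · have h8 : z - (m - mm i) = (z - m) + mm i := by abel
      rw [h8]
      refine (norm_add_le _ _).trans (add_le_add hle ?_)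
      exact Finset.single_le_sum (f := fun i => ‖mm i‖) (fun i _ => norm_nonneg _) hi
    · have h8 : z - (m - mm i) ∈ cc (z₁ - (m - mm i)) := by
        have := htr (-(m - mm i)) (A.Λ.neg_mem hμ) z₁ z hz
        rwa [← sub_eq_add_neg, ← sub_eq_add_neg] at this
      have h9 : z₁ ∈ cc (z₁ - (m - mm i)) := by
        have := htr (-(m - mm i)) (A.Λ.neg_mem hμ) z₁ _ h7
        have h10 : z₁ + (m - mm i) + -(m - mm i) = z₁ := by abel
        rw [h10, ← sub_eq_add_neg] at this
        exact this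
      have h10 : cc (z₁ - (m - mm i)) = C₀ := hcceq h9
      rw [← h10]
      exact h8
  -- functionals with vanishing real part on the stabilizer are constant
  have hconst : ∀ φ : (Fin g → ℂ) →ₗ[ℂ] ℂ, (∀ m ∈ Λ₀, (φ m).re = 0) →
      ∀ z ∈ C₀, φ z = φ z₁ := by
    intro φ hφ
    have hφc : Continuous φ := LinearMap.continuous_of_finiteDimensional φ
    have hK' : IsCompact (C₀ ∩ closedBall 0 R') :=
      (isCompact_closedBall _ _).inter_left hclosed
    have hne : (C₀ ∩ closedBall 0 R').Nonempty := by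
      obtain ⟨m, hm, h1, h2⟩ := hR' z₁ hz₁C₀
      exact ⟨z₁ - m, h2, by rw [mem_closedBall_zero_iff]; exact h1⟩
    obtain ⟨zs, hzs, hmax⟩ := hK'.exists_isMaxOn hne (f := fun z => (φ z).re)
      (Complex.continuous_re.comp hφc).continuousOn
    have hmax' : ∀ z ∈ C₀, (φ z).re ≤ (φ zs).re := by
      intro z hz
      obtain ⟨m, hm, h1, h2⟩ := hR' z hz
      have h3 := hmax ⟨h2, by rw [mem_closedBall_zero_iff]; exact h1⟩
      simp only [Set.mem_ofPred_eq, map_sub, Complex.sub_re, hφ m hm, sub_zero] at h3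
      exact h3
    have key := clopen_const hconn hφc hzs.1 (by
      intro z hz hzeq
      obtain ⟨J, _, _, H, ε, hε, hHd, hH0, hHC, hcov, -, -⟩ := Ct_discs h (hccC _ hz)
      filter_upwards [hcov] with z' hz' hz'C
      obtain ⟨j, τ, hτ, rfl⟩ := hz' (hccC _ hz'C)
      have hHC₀ : ∀ τ ∈ ball (0 : ℂ) ε, H j τ ∈ C₀ := by
        intro τ hτ
        have h1 : IsPreconnected (H j '' ball (0 : ℂ) ε) :=
          (convex_ball _ _).isPreconnected.image _ (hHd j).continuousOn
        have h2 : z ∈ H j '' ball (0 : ℂ) ε := ⟨0, mem_ball_self hε, hH0 j⟩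
        have h3 : H j '' ball (0 : ℂ) ε ⊆ Ct A P := by
          rintro _ ⟨τ', hτ', rfl⟩
          exact hHC j τ' hτ'
        have h4 : C₀ = cc z := hcceq hz
        rw [h4]
        exact h1.subset_connectedComponentIn h2 h3 ⟨τ, hτ, rfl⟩
      have hfd : DifferentiableOn ℂ (fun τ => φ (H j τ)) (ball 0 ε) := by
        have h1 : DifferentiableOn ℂ (fun τ => (LinearMap.toContinuousLinearMap φ) (H j τ))
            (ball 0 ε) := (LinearMap.toContinuousLinearMap φ).differentiable.comp_differentiableOn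
              (hHd j)
        exact h1
      have han := hfd.analyticOnNhd isOpen_ball
      have h0 := han 0 (mem_ball_self hε)
      have hev : ∀ᶠ τ in 𝓝 (0 : ℂ), φ (H j τ) = φ (H j 0) := by
        rcases h0.eventually_constant_or_nhds_le_map_nhds with h1 | h1
        · exact h1
        · exfalso
          have h2 : {w : ℂ | w.re ≤ (φ (H j 0)).re} ∈ 𝓝 (φ (H j 0)) := by
            apply h1
            rw [Filter.mem_map]
            filter_upwards [ball_mem_nhds (0 : ℂ) hε] with τ' hτ'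
            show (φ (H j τ')).re ≤ (φ (H j 0)).re
            rw [hH0 j, hzeq]
            exact hmax' _ (hHC₀ τ' hτ')
          obtain ⟨δ, hδ, hb⟩ := Metric.mem_nhds_iff.1 h2
          have h3 : φ (H j 0) + ((δ / 2 : ℝ) : ℂ) ∈ ball (φ (H j 0)) δ := by
            rw [mem_ball, dist_eq_norm, add_sub_cancel_left, Complex.norm_real,
              Real.norm_of_nonneg (by positivity)]
            linarith
          have h4 := hb h3
          simp only [Set.mem_ofPred_eq, Complex.add_re, Complex.ofReal_re] at h4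
          linarith
      have h5 := (han.eqOn_of_preconnected_of_eventuallyEq
        (analyticOnNhd_const (v := φ (H j 0))) (convex_ball _ _).isPreconnected
        (mem_ball_self hε) hev) hτ
      simp only at h5
      rw [h5, hH0 j, hzeq])
    intro z hz
    rw [key z hz, key z₁ hz₁C₀]
  -- the invariant form is constant
  let φω : (Fin g → ℂ) →ₗ[ℂ] ℂ :=
    { toFun := fun z => ∑ j, ω j * z j
      map_add' := fun z w => by simp [mul_add, Finset.sum_add_distrib]
      map_smul' := fun r z => by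
        simp only [Pi.smul_apply, smul_eq_mul, RingHom.id_apply]
        rw [Finset.mul_sum]
        apply Finset.sum_congr rfl
        intro j _
        ring }
  have hωconst : ∀ z ∈ C₀, φω z = φω z₁ := by
    apply clopen_const hconn (LinearMap.continuous_of_finiteDimensional φω) hz₁C₀
    intro z hz hzeq
    obtain ⟨J, _, _, H, ε, hε, hHd, hH0, hHC, hcov, -, hfin⟩ := Ct_discs h (hccC _ hz)
    filter_upwards [hcov] with z' hz' hz'C
    obtain ⟨j, τ, hτ, rfl⟩ := hz' (hccC _ hz'C)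
    have h1 := form_const hch h hc hS hβ hε (hHd j) (hHC j) (hfin c hc j) τ hτ
    have h2 : φω (H j τ) = φω (H j 0) := h1
    rw [h2, hH0 j, hzeq]
  -- the complex subspace
  let W : Submodule ℂ (Fin g → ℂ) :=
    { carrier := {w | ∀ φ : (Fin g → ℂ) →ₗ[ℂ] ℂ, (∀ m ∈ Λ₀, (φ m).re = 0) → φ w = 0}
      add_mem' := fun {a b} ha hb φ hφ => by rw [map_add, ha φ hφ, hb φ hφ, add_zero]
      zero_mem' := fun φ _ => map_zero φ
      smul_mem' := fun r w hw φ hφ => by rw [map_smul, hw φ hφ, smul_zero] }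
  have hΛW : ∀ m ∈ Λ₀, m ∈ W := by
    intro m hm φ hφ
    have h1 := hconst φ hφ _ hm.2
    rw [map_add] at h1
    linear_combination h1
  rcases hs W (by
    intro w hw
    by_contra hcon
    obtain ⟨f, hf1, hf2⟩ := Submodule.exists_le_ker_of_notMem hcon
    apply hf1
    have h1 := hw (cx f) (by
      intro m hm
      rw [cx_re]
      exact hf2 (Submodule.subset_span ⟨hΛW m hm, hm.1⟩))
    rw [← cx_re, h1, Complex.zero_re]) with hW | hW
  · -- the component is a point
    obtain ⟨J, _, ⟨j⟩, H, ε, hε, hHd, hH0, hHC, -, hnc, -⟩ := Ct_discs h hz₁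
    obtain ⟨τ, hτ, hne⟩ := hnc j
    apply hne
    have h1 : IsPreconnected (H j '' ball (0 : ℂ) ε) :=
      (convex_ball _ _).isPreconnected.image _ (hHd j).continuousOn
    have h2 : z₁ ∈ H j '' ball (0 : ℂ) ε := ⟨0, mem_ball_self hε, hH0 j⟩
    have h3 : H j '' ball (0 : ℂ) ε ⊆ Ct A P := by
      rintro _ ⟨τ', hτ', rfl⟩
      exact hHC j τ' hτ'
    have h4 : H j τ ∈ C₀ := h1.subset_connectedComponentIn h2 h3 ⟨τ, hτ, rfl⟩
    funext i
    have h5 := hconst (LinearMap.proj i) (by
      intro m hm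
      have : m = 0 := by
        have := hΛW m hm
        rw [hW] at this
        exact this
      rw [this, map_zero, Complex.zero_re]) _ h4
    exact h5
  · -- the form vanishes
    apply hω
    have h1 : ∀ m ∈ Λ₀, (φω m).re = 0 := by
      intro m hm
      have h2 := hωconst _ hm.2
      rw [map_add] at h2
      have h3 : φω m = 0 := by linear_combination h2
      rw [h3, Complex.zero_re]
    funext j
    have h2 : (Pi.single j 1 : Fin g → ℂ) ∈ W := by rw [hW]; trivial
    have h3 := h2 φω h1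
    have h4 : φω (Pi.single j 1) = ω j := by
      show ∑ i, ω i * (Pi.single j 1 : Fin g → ℂ) i = ω j
      rw [Finset.sum_eq_single j]
      · rw [Pi.single_eq_same, mul_one]
      · intro i _ hi
        rw [Pi.single_eq_of_ne hi, mul_zero]
      · intro hh; exact absurd (Finset.mem_univ _) hh
    rw [← h4]
    exact h3

end Pool.Agent.Run7.h10
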