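import Pool.Agent.Run7.h10.CC3

/-!
# The countability lemma for simple abelian varieties
-/

set_option autoImplicit false
set_option linter.unusedSectionVars false

namespace Pool.Agent.Run7.h10

open MvPolynomial Filter Topology Metric

variable {g N d : ℕ} {A : AbelianVariety g N}

theorem aeval_congr_vars {τ B : Type} [CommRing B] [Algebra ℂ B] {Q : MvPolynomial τ ℂ}
    {v w : τ → B} (h : ∀ i ∈ Q.vars, v i = w i) : aeval v Q = aeval w Q := by
  rw [aeval_def, aeval_def]
  exact eval₂Hom_congr' (f₁ := algebraMap ℂ B) (f₂ := algebraMap ℂ B) rfl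
    (fun i hi _ => h i hi) rfl

/-- a family of homogeneous relations bounding the dimension by `k` (projectively) -/
def Bounds (k : ℕ) (𝒬 : Set (MvPolynomial (Fin (N + 1)) ℂ)) : Prop :=
  ∀ α : Finset (Fin (N + 1)), α.card = k + 2 → ∃ Q ∈ 𝒬, Q ≠ 0 ∧ Q.vars ⊆ α ∧
    ∃ n, Q.IsHomogeneous n

/-- the dimension bound -/
theorem dm_le_of_bounds {k : ℕ} {𝒬 : Set (MvPolynomial (Fin (N + 1)) ℂ)} (h𝒬 : Bounds k 𝒬)
    {l : Fin (N + 1)} {D : MvPolynomial (Fin (N + 1)) ℂ}
    {P : Ideal (MvPolynomial (Option (Fin (N + 1))) ℂ)} (hP : P.IsPrime)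
    (hone : X (some l) - 1 ∈ P) (hinv : X none * rename some D - 1 ∈ P)
    (hQ : ∀ Q ∈ 𝒬, rename some Q ∈ P) : dm P ≤ k := by
  classical
  set B := MvPolynomial (Option (Fin (N + 1))) ℂ ⧸ P
  let v : Fin (N + 1) → B := fun i => Ideal.Quotient.mk P (X (some i))
  have hv : ∀ F : MvPolynomial (Fin (N + 1)) ℂ,
      aeval v F = Ideal.Quotient.mk P (rename some F) := by
    intro F
    induction F using MvPolynomial.induction_on with
    | C a =>
      rw [aeval_C, rename_C]
      rfl
    | add p q hp hq => rw [map_add, map_add, map_add, hp, hq]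
    | mul_X p i hp => rw [map_mul, map_mul, map_mul, hp, aeval_X, rename_X]
  set s : Set B := Set.range v with hs
  have hDne : Ideal.Quotient.mk P (rename some D) ≠ 0 := by
    intro h1
    rw [Ideal.Quotient.eq_zero_iff_mem] at h1
    apply hP.ne_top
    rw [Ideal.eq_top_iff_one]
    have := P.sub_mem (P.mul_mem_left (X none) h1) hinv
    rwa [sub_sub_cancel] at this
  have hadj : ∀ F : MvPolynomial (Fin (N + 1)) ℂ,
      Ideal.Quotient.mk P (rename some F) ∈ Algebra.adjoin ℂ s := by
    intro F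
    rw [← hv, hs, Algebra.adjoin_range_eq_range_aeval]
    exact ⟨F, rfl⟩
  haveI : Algebra.IsAlgebraic (Algebra.adjoin ℂ s) B := by
    constructor
    intro x
    obtain ⟨F, rfl⟩ := Ideal.Quotient.mk_surjective x
    obtain ⟨b, G, hG⟩ := exists_hat D F
    have hle : Ideal.span {X none * rename some D - 1} ≤ P := by
      rw [Ideal.span_singleton_le_iff_mem]; exact hinv
    have h1 := Ideal.Quotient.eq_zero_iff_mem.2 (hle hG)
    rw [map_sub, map_mul, map_pow] at h1
    let cD : Algebra.adjoin ℂ s := ⟨_, hadj (D ^ b)⟩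
    let cG : Algebra.adjoin ℂ s := ⟨_, hadj G⟩
    refine ⟨Polynomial.C cD * Polynomial.X - Polynomial.C cG, ?_, ?_⟩
    · intro h0
      have h2 := congrArg (fun p => p.coeff 1) h0
      simp only [Polynomial.coeff_sub, Polynomial.coeff_C_mul, Polynomial.coeff_X_one, mul_one,
        Polynomial.coeff_C, one_ne_zero, if_false, sub_zero, Polynomial.coeff_zero] at h2
      have h3 := congrArg Subtype.val h2
      have h4 : Ideal.Quotient.mk P (rename some (D ^ b)) = 0 := h3
      rw [map_pow, map_pow] at h4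
      exact pow_ne_zero _ hDne h4
    · rw [map_sub, map_mul, Polynomial.aeval_C, Polynomial.aeval_X, Polynomial.aeval_C]
      show Ideal.Quotient.mk P (rename some (D ^ b)) * Ideal.Quotient.mk P F -
        Ideal.Quotient.mk P (rename some G) = 0
      rw [map_pow, map_pow, mul_comm]
      exact h1
  haveI : FaithfulSMul ℂ B := (faithfulSMul_iff_algebraMap_injective ℂ B).2
    (algebraMap ℂ B).injective
  obtain ⟨t, hts, ht⟩ := exists_isTranscendenceBasis_subset (R := ℂ) (A := B) s
  have htfin : Finite t := (Set.finite_range _).subset hts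
  haveI := Fintype.ofFinite t
  have hcard : Fintype.card t = dm P := by
    have h1 := ht.cardinalMk_eq_trdeg
    rw [trdeg_eq_dm, Cardinal.mk_fintype] at h1
    exact_mod_cast h1
  by_contra hcon
  push Not at hcon
  choose i hi using fun τ : t => hts τ.2
  have hinj : Function.Injective i := by
    intro a b hab
    apply Subtype.ext
    rw [← hi a, ← hi b, hab]
  have hil : ∀ τ, i τ ≠ l := by
    intro τ h1
    have h2 : (τ : B) = algebraMap ℂ B 1 := by
      rw [← hi τ, h1, map_one]
      have := Ideal.Quotient.eq_zero_iff_mem.2 hone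
      rw [map_sub, map_one, sub_eq_zero] at this
      exact this
    exact ht.1.transcendental τ (by rw [h2]; exact isAlgebraic_algebraMap _)
  obtain ⟨t', ht'card⟩ := Finset.exists_subset_card_eq (s := (Finset.univ : Finset t))
    (n := k + 1) (by rw [Finset.card_univ, hcard]; omega)
  set α : Finset (Fin (N + 1)) := insert l (t'.image i) with hα
  have hαcard : α.card = k + 2 := by
    rw [hα, Finset.card_insert_of_notMem, Finset.card_image_of_injective _ hinj, ht'card.2]
    intro h1
    obtain ⟨τ, -, hτ⟩ := Finset.mem_image.1 h1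
    exact hil τ hτ
  obtain ⟨Q, hQ𝒬, hQ0, hQv, n, hQn⟩ := h𝒬 α hαcard
  -- substitution
  have hinvf : ∀ j : Fin (N + 1), ∃ p : MvPolynomial t ℂ,
      (j = l → p = 1) ∧ ∀ τ, i τ = j → p = X τ := by
    intro j
    by_cases hj : j = l
    · exact ⟨1, fun _ => rfl, fun τ hτ => absurd (hτ.trans hj) (hil τ)⟩
    · by_cases hj2 : ∃ τ, i τ = j
      · obtain ⟨τ, hτ⟩ := hj2
        refine ⟨X τ, fun h => absurd h hj, fun τ' hτ' => ?_⟩
        rw [hinj (hτ'.trans hτ.symm)]
      · exact ⟨0, fun h => absurd h hj, fun τ hτ => absurd ⟨τ, hτ⟩ hj2⟩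
  choose κ hκ1 hκ2 using hinvf
  have h1 : aeval (fun τ : t => (τ : B)) (aeval κ Q) = 0 := by
    rw [← AlgHom.comp_apply, comp_aeval]
    have h2 : aeval (fun j => aeval (fun τ : t => (τ : B)) (κ j)) Q = aeval v Q := by
      apply aeval_congr_vars
      intro j hj
      have hjα := hQv hj
      rw [hα, Finset.mem_insert] at hjα
      rcases hjα with hjl | hji
      · rw [hκ1 j hjl, map_one, hjl]
        have := Ideal.Quotient.eq_zero_iff_mem.2 hone
        rw [map_sub, map_one, sub_eq_zero] at this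
        exact this.symm
      · obtain ⟨τ, -, hτ⟩ := Finset.mem_image.1 hji
        rw [hκ2 j τ hτ, aeval_X, ← hτ]
        exact (hi τ).symm
    rw [h2, hv, Ideal.Quotient.eq_zero_iff_mem]
    exact hQ Q hQ𝒬
  have h2 : aeval κ Q = 0 := by
    have h3 := ht.1
    rw [algebraicIndependent_iff] at h3
    exact h3 _ h1
  have h3 : X l * Q = 0 := by
    apply MvPolynomial.funext
    intro y
    rw [map_mul, eval_X, map_zero]
    by_cases hyl : y l = 0
    · rw [hyl, zero_mul]
    · have h4 : eval y Q = y l ^ n * eval (fun j => y j / y l) Q := by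
        have h5 : y = y l • (fun j => y j / y l) := by
          funext j
          simp only [Pi.smul_apply, smul_eq_mul]
          field_simp
        conv_lhs => rw [h5]
        rw [eval_scale hQn]
      have h5 : eval (fun j => y j / y l) Q = 0 := by
        have h6 := congrArg (eval (fun τ : t => y (i τ) / y l)) h2
        rw [map_zero] at h6
        rw [← h6, ← aeval_pt, ← aeval_pt, ← AlgHom.comp_apply, comp_aeval]
        apply aeval_congr_vars
        intro j hj
        have hjα := hQv hj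
        rw [hα, Finset.mem_insert] at hjα
        rcases hjα with hjl | hji
        · rw [hκ1 j hjl, map_one, hjl, div_self hyl]
        · obtain ⟨τ, -, hτ⟩ := Finset.mem_image.1 hji
          rw [hκ2 j τ hτ, aeval_X, ← hτ]
      rw [h4, h5, mul_zero, mul_zero]
  rcases mul_eq_zero.1 h3 with h4 | h4
  · exact X_ne_zero l h4
  · exact hQ0 h4

/-- the countability lemma for simple abelian varieties -/
theorem countable_simple (hs : A.IsSimple) {b : Fin g → ℂ} {L : Fin d → Fin g → ℂ}
    {L' : Fin g → Fin d → ℂ} (hL : ∀ i k, ∑ j, L i j * L' j k = if i = k then 1 else 0)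
    {𝒬 : Set (MvPolynomial (Fin (N + 1)) ℂ)} {k : ℕ} (h𝒬 : Bounds k 𝒬)
    (h𝒬h : ∀ Q ∈ 𝒬, ∃ n, Q.IsHomogeneous n) (hk : k + d ≤ g) :
    {s : Fin d → ℂ | ∀ Q ∈ 𝒬, eval (A.θ (pL b L s)) Q = 0}.Countable := by
  classical
  set S : Set (Fin d → ℂ) := {s : Fin d → ℂ | ∀ Q ∈ 𝒬, eval (A.θ (pL b L s)) Q = 0} with hS
  have hloc : ∀ s₀ : Fin d → ℂ, ∃ O ∈ 𝓝 s₀, (S ∩ O).Countable := by
    intro s₀
    obtain ⟨l, hl⟩ : ∃ l, A.θ (pL b L s₀) l ≠ 0 := Function.ne_iff.1 (A.ne_zero _)
    obtain ⟨D, M, hD, hDM⟩ := A.exists_vector_fields hl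
    have hch := AbelianVariety.chart_xo hDM
    refine ⟨pL b L ⁻¹' (A.dom l D), ?_, ?_⟩
    · exact (continuous_pL b L).continuousAt.preimage_mem_nhds
        (hch.isOpen.mem_nhds ⟨hl, hD⟩)
    · set J : Ideal (MvPolynomial (Option (Fin (N + 1))) ℂ) := Ideal.span
        ({X (some l) - 1} ∪ {X none * rename some D - 1} ∪
          (rename some '' {F | (∃ n, F.IsHomogeneous n) ∧ ∀ z, eval (A.θ z) F = 0}) ∪
          (rename some '' 𝒬)) with hJ
      have hJone : X (some l) - 1 ∈ J := Ideal.subset_span (by simp)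
      have hJinv : X none * rename some D - 1 ∈ J := Ideal.subset_span (by simp)
      have hJeqs : ∀ F : MvPolynomial (Fin (N + 1)) ℂ, (∃ n, F.IsHomogeneous n) →
          (∀ z, eval (A.θ z) F = 0) → rename some F ∈ J := fun F hF1 hF2 =>
        Ideal.subset_span (Or.inl (Or.inr ⟨F, ⟨hF1, hF2⟩, rfl⟩))
      have hJQ : ∀ Q ∈ 𝒬, rename some Q ∈ J := fun Q hQ =>
        Ideal.subset_span (Or.inr ⟨Q, hQ, rfl⟩)
      have hEE : (EE (A.xo l D) (A.dom l D) b L J).Countable := by
        by_contra hunc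
        obtain ⟨P, hP, hJP, hdP, ⟨z, hz, hzP⟩, ω, hω, c, hc, S', hS', β, hβ⟩ :=
          ax_main hch hL (fun P hP hJP _ => by
            have := dm_le_of_bounds h𝒬 hP (hJP hJone) (hJP hJinv) (fun Q hQ => hJP (hJQ Q hQ))
            omega) hunc
        obtain ⟨P₁, hP₁, hPP₁, hzP₁, hdP₁, hcP₁⟩ := exists_curve (dm P - 1) hP hzP hc (by omega)
        have hcrv : Crv A l D P₁ := ⟨hP₁, hdP₁, hPP₁ (hJP hJone), hPP₁ (hJP hJinv),
          fun F hF1 hF2 => hPP₁ (hJP (hJeqs F hF1 hF2))⟩
        exact no_invariant_form hs hch hcrv ⟨z, hz, hzP₁⟩ hω hcP₁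
          (fun F hF => hPP₁ (hS' F hF)) (fun j => hPP₁ (hβ j))
      apply hEE.mono
      rintro s ⟨hs1, hs2⟩
      have hs2' : pL b L s ∈ A.dom l D := hs2
      refine ⟨hs2, ?_⟩
      have hzero : ∀ F : MvPolynomial (Fin (N + 1)) ℂ, (∃ n, F.IsHomogeneous n) →
          eval (A.θ (pL b L s)) F = 0 → eval (A.xo l D (pL b L s)) (rename some F) = 0 := by
        rintro F ⟨n, hn⟩ hF
        rw [AbelianVariety.eval_xo_rename]
        rw [A.θ_eq_smul hs2'.1, eval_scale hn] at hF
        rcases mul_eq_zero.1 hF with h | h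
        · exact absurd h (pow_ne_zero _ hs2'.1)
        · exact h
      rw [mem_Z_iff, hJ, Ideal.span_le]
      rintro F (((hF | hF) | hF) | hF)
      · rw [Set.mem_singleton_iff] at hF
        subst hF
        show eval _ _ = 0
        rw [map_sub, map_one, eval_X]
        show A.xch l (pL b L s) l - 1 = 0
        rw [AbelianVariety.xch_self hs2'.1, sub_self]
      · rw [Set.mem_singleton_iff] at hF
        subst hF
        show eval _ _ = 0
        rw [map_sub, map_one, map_mul, eval_X, AbelianVariety.eval_xo_rename]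
        show (eval (A.xch l (pL b L s)) D)⁻¹ * _ - 1 = 0
        rw [inv_mul_cancel₀ hs2'.2, sub_self]
      · obtain ⟨F', ⟨h1, h2⟩, rfl⟩ := hF
        exact hzero F' h1 (h2 _)
      · obtain ⟨F', h1, rfl⟩ := hF
        exact hzero F' (h𝒬h F' h1) (hs1 F' h1)
  choose O hO1 hO2 using hloc
  obtain ⟨t, ht, hcover⟩ := TopologicalSpace.countable_cover_nhds hO1
  have h1 : S = ⋃ s ∈ t, S ∩ O s := by
    rw [← Set.inter_iUnion₂, hcover, Set.inter_univ]
  rw [h1]
  exact ht.biUnion fun s _ => hO2 s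

end Pool.Agent.Run7.h10
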