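import Mathlib

/-!
# Abelian varieties, their exponential maps, and algebraic subvarieties of the product of the Lie
algebra and the abelian variety
-/

set_option autoImplicit false

namespace Pool.Agent.Run7.h10

open MvPolynomial

/-- A complex abelian variety of dimension `g`, embedded in the projective space of dimension
`N`. The function `θ` gives homogeneous coordinates of the exponential map from the Lie algebra
`ℂ^g` to the abelian variety, and `Λ` is the kernel of the exponential map. -/
structure AbelianVariety (g N : ℕ) where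
  /-- the kernel of the exponential map -/
  Λ : Submodule ℤ (Fin g → ℂ)
  /-- the kernel is discrete -/
  discrete : DiscreteTopology Λ
  /-- the kernel spans the Lie algebra as a real vector space -/
  spans : Submodule.span ℝ (Λ : Set (Fin g → ℂ)) = ⊤
  /-- homogeneous coordinates of the exponential map -/
  θ : (Fin g → ℂ) → (Fin (N + 1) → ℂ)
  /-- the exponential map is holomorphic -/
  entire : ∀ z, AnalyticAt ℂ θ z
  /-- the homogeneous coordinates have no common zero -/
  ne_zero : ∀ z, θ z ≠ 0
  /-- the fibres of the exponential map are the cosets of the kernel -/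
  kernel : ∀ z w, (∃ c : ℂ, θ z = c • θ w) ↔ z - w ∈ Λ
  /-- the exponential map is an immersion in the projective space -/
  immersion : ∀ z v, (∃ c : ℂ, fderiv ℂ θ z v = c • θ z) → v = 0
  /-- the image of the exponential map is a closed algebraic subset of the projective space -/
  algebraic : ∃ S : Set (MvPolynomial (Fin (N + 1)) ℂ), (∀ F ∈ S, ∃ n, F.IsHomogeneous n) ∧
    ∀ X : Fin (N + 1) → ℂ, X ≠ 0 → ((∀ F ∈ S, eval X F = 0) ↔ ∃ z, ∃ c : ℂ, X = c • θ z)
  /-- the addition is a morphism: near every pair of points it is given by bihomogeneous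
  polynomials without common zeros -/
  addition : ∀ a b : Fin g → ℂ, ∃ (m n : ℕ)
    (S : Fin (N + 1) → MvPolynomial (Fin (N + 1) ⊕ Fin (N + 1)) ℂ),
    (∀ i, IsWeightedHomogeneous (Sum.elim (fun _ => 1) (fun _ => 0)) (S i) m) ∧
    (∀ i, IsWeightedHomogeneous (Sum.elim (fun _ => 0) (fun _ => 1)) (S i) n) ∧
    (∃ i, eval (Sum.elim (θ a) (θ b)) (S i) ≠ 0) ∧
    ∀ z w, ∃ c : ℂ, (fun i => eval (Sum.elim (θ z) (θ w)) (S i)) = c • θ (z + w)

variable {g N : ℕ}

/-- A simple abelian variety: there is no complex subspace of the Lie algebra, apart from zero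
and the whole space, which is spanned over the reals by its periods. -/
def AbelianVariety.IsSimple (A : AbelianVariety g N) : Prop :=
  ∀ W : Submodule ℂ (Fin g → ℂ),
    (∀ w ∈ W, w ∈ Submodule.span ℝ {l : Fin g → ℂ | l ∈ W ∧ l ∈ A.Λ}) → W = ⊥ ∨ W = ⊤

/-- the weights given by the degree in the homogeneous coordinates -/
def Wt (g N : ℕ) : Fin g ⊕ Fin (N + 1) → ℕ := Sum.elim (fun _ => 0) (fun _ => 1)

namespace AbelianVariety

/-- the points of the abelian variety -/
abbrev Pts (A : AbelianVariety g N) : Type := (Fin g → ℂ) ⧸ A.Λ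

/-- the exponential map -/
def exp (A : AbelianVariety g N) (z : Fin g → ℂ) : A.Pts := Submodule.Quotient.mk z

/-- Zariski closed subsets of the product of the Lie algebra and the abelian variety: the sets
defined by polynomials in the coordinates of the Lie algebra and the homogeneous coordinates of
the abelian variety which are homogeneous in the latter -/
def ZClosed (A : AbelianVariety g N) (V : Set ((Fin g → ℂ) × A.Pts)) : Prop :=
  ∃ S : Set (MvPolynomial (Fin g ⊕ Fin (N + 1)) ℂ),
    (∀ F ∈ S, ∃ n, IsWeightedHomogeneous (Wt g N) F n) ∧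
    ∀ z w, (z, A.exp w) ∈ V ↔ ∀ F ∈ S, eval (Sum.elim z (A.θ w)) F = 0

/-- irreducible Zariski closed subsets -/
def Variety (A : AbelianVariety g N) (V : Set ((Fin g → ℂ) × A.Pts)) : Prop :=
  A.ZClosed V ∧ V.Nonempty ∧ ∀ V₁ V₂, A.ZClosed V₁ → A.ZClosed V₂ → V ⊆ V₁ ∪ V₂ →
    V ⊆ V₁ ∨ V ⊆ V₂

/-- the dimension is at least `n`: there is a chain of `n + 1` varieties -/
def DimGE (A : AbelianVariety g N) (V : Set ((Fin g → ℂ) × A.Pts)) (n : ℕ) : Prop :=
  ∃ c : Fin (n + 1) → Set ((Fin g → ℂ) × A.Pts), StrictMono c ∧ (∀ i, A.Variety (c i)) ∧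
    c (Fin.last n) ⊆ V

end AbelianVariety

end Pool.Agent.Run7.h10
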