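import Pool.Agent.Run7.h10.NN2

/-!
# Flatness at infinity of algebraic functions with linear growth
-/

set_option autoImplicit false
set_option linter.unusedSectionVars false

namespace Pool.Agent.Run7.h10

open MvPolynomial Filter Topology Metric

/-- second order Taylor estimate -/
theorem taylor2 {f : ℂ → ℂ} {r B : ℝ} (hr : 4 ≤ r) (hf : DifferentiableOn ℂ f (ball 0 r))
    (hB : ∀ z ∈ ball (0 : ℂ) r, ‖f z‖ ≤ B) : ‖f 1 - f 0 - deriv f 0‖ ≤ 32 * B / r ^ 2 := by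
  have hr0 : 0 < r := by linarith
  have hd1 : ∀ z ∈ ball (0 : ℂ) (r / 2), ‖deriv f z‖ ≤ B / (r / 4) := by
    intro z hz
    have hsub : closedBall z (r / 4) ⊆ ball 0 r := by
      intro w hw
      rw [mem_ball_zero_iff] at hz ⊢
      rw [mem_closedBall, dist_eq_norm] at hw
      calc ‖w‖ = ‖(w - z) + z‖ := by rw [sub_add_cancel]
        _ ≤ ‖w - z‖ + ‖z‖ := norm_add_le _ _
        _ < r := by linarith
    apply Complex.norm_deriv_le_of_forall_mem_sphere_norm_le (by positivity)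
    · exact (hf.mono hsub).diffContOnCl_ball (le_refl _)
    · intro w hw
      exact hB w (hsub (sphere_subset_closedBall hw))
  have hf' : DifferentiableOn ℂ (deriv f) (ball 0 r) := hf.deriv isOpen_ball
  have hd2 : ∀ z ∈ closedBall (0 : ℂ) 1, ‖deriv (deriv f) z‖ ≤ (B / (r / 4)) / (r / 8) := by
    intro z hz
    rw [mem_closedBall_zero_iff] at hz
    have hsub : closedBall z (r / 8) ⊆ ball 0 (r / 2) := by
      intro w hw
      rw [mem_ball_zero_iff]
      rw [mem_closedBall, dist_eq_norm] at hw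
      calc ‖w‖ = ‖(w - z) + z‖ := by rw [sub_add_cancel]
        _ ≤ ‖w - z‖ + ‖z‖ := norm_add_le _ _
        _ < r / 2 := by linarith
    apply Complex.norm_deriv_le_of_forall_mem_sphere_norm_le (by positivity)
    · apply (hf'.mono (hsub.trans (ball_subset_ball (by linarith)))).diffContOnCl_ball (le_refl _)
    · intro w hw
      exact hd1 w (hsub (sphere_subset_closedBall hw))
  have hcb : closedBall (0 : ℂ) 1 ⊆ ball 0 r := by
    apply closedBall_subset_ball; linarith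
  have hK : (B / (r / 4)) / (r / 8) = 32 * B / r ^ 2 := by
    field_simp
    ring
  rw [hK] at hd2
  have h0 : (0 : ℂ) ∈ closedBall (0 : ℂ) 1 := by simp
  have h1 : (1 : ℂ) ∈ closedBall (0 : ℂ) 1 := by simp
  have hdd : ∀ z ∈ closedBall (0 : ℂ) 1, ‖deriv f z - deriv f 0‖ ≤ 32 * B / r ^ 2 := by
    intro z hz
    have h2 := (convex_closedBall (0 : ℂ) 1).norm_image_sub_le_of_norm_deriv_le (f := deriv f)
      (fun w hw => (hf' w (hcb hw)).differentiableAt (isOpen_ball.mem_nhds (hcb hw))) hd2 h0 hz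
    refine h2.trans ?_
    rw [sub_zero]
    have h3 : 0 ≤ 32 * B / r ^ 2 := le_trans (norm_nonneg _) (hd2 0 h0)
    have h4 : ‖z‖ ≤ 1 := by simpa using hz
    calc 32 * B / r ^ 2 * ‖z‖ ≤ 32 * B / r ^ 2 * 1 := mul_le_mul_of_nonneg_left h4 h3
      _ = _ := mul_one _
  have hfd : ∀ w ∈ closedBall (0 : ℂ) 1, DifferentiableAt ℂ f w := fun w hw =>
    (hf w (hcb hw)).differentiableAt (isOpen_ball.mem_nhds (hcb hw))
  have h5 := (convex_closedBall (0 : ℂ) 1).norm_image_sub_le_of_norm_deriv_le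
    (f := fun z => f z - deriv f 0 * z) (C := 32 * B / r ^ 2)
    (fun w hw => (hfd w hw).sub ((differentiableAt_id).const_mul _)) (by
      intro w hw
      have h6 : deriv (fun z => f z - deriv f 0 * z) w = deriv f w - deriv f 0 := by
        have h7 := ((hfd w hw).hasDerivAt.sub ((hasDerivAt_id w).const_mul (deriv f 0))).deriv
        rw [mul_one] at h7
        exact h7
      rw [h6]
      exact hdd w hw) h0 h1
  simp only [mul_one, mul_zero, sub_zero, norm_one] at h5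
  have e : f 1 - f 0 - deriv f 0 = (f 1 - deriv f 0) - f 0 := by ring
  rw [e]
  exact h5

variable {m : ℕ}

/-- evaluation of the coefficientwise partial derivative -/
noncomputable def cpd (M : Polynomial (MvPolynomial (Fin m) ℂ)) (a : Fin m) (x : Fin m → ℂ)
    (T : ℂ) : ℂ := ∑ k ∈ Finset.range (M.natDegree + 1), T ^ k * eval x (pderiv a (M.coeff k))

theorem eval_sum (M : Polynomial (MvPolynomial (Fin m) ℂ)) (x : Fin m → ℂ) (T : ℂ) :
    (M.map (eval x)).eval T =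
      ∑ k ∈ Finset.range (M.natDegree + 1), T ^ k * eval x (M.coeff k) := by
  rw [Polynomial.eval_map, Polynomial.eval₂_eq_sum_range]
  apply Finset.sum_congr rfl
  intro k _
  rw [mul_comm]

/-- derivative of an implicit function -/
theorem implicit_deriv {M : Polynomial (MvPolynomial (Fin m) ℂ)} {x s : Fin m → ℂ} {α : ℂ → ℂ}
    {α' : ℂ} (hα : HasDerivAt α α' 0)
    (h0 : ∀ᶠ l in 𝓝 (0 : ℂ), (M.map (eval (x + l • s))).eval (α l) = 0) :
    (M.derivative.map (eval x)).eval (α 0) * α' + ∑ a, s a * cpd M a x (α 0) = 0 := by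
  have hu : HasFDerivAt (fun l : ℂ => x + l • s)
      ((ContinuousLinearMap.id ℂ ℂ).smulRight s) 0 := by
    have h1 : HasFDerivAt (fun l : ℂ => l • s) ((ContinuousLinearMap.id ℂ ℂ).smulRight s) 0 :=
      (hasFDerivAt_id (0 : ℂ)).smul_const s
    exact h1.const_add x
  have hterm : ∀ k, HasDerivAt (fun l => α l ^ k * eval (x + l • s) (M.coeff k))
      ((k : ℂ) * α 0 ^ (k - 1) * α' * eval x (M.coeff k) +
        α 0 ^ k * ∑ a, eval x (pderiv a (M.coeff k)) * s a) 0 := by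
    intro k
    have h1 := hα.pow k
    have h2 := (hasFDerivAt_eval hu (M.coeff k)).hasDerivAt
    have h3 := h1.mul h2
    refine h3.congr_deriv ?_
    rw [gF_apply]
    simp [zero_smul]
  have hsum : HasDerivAt (fun l => ∑ k ∈ Finset.range (M.natDegree + 1),
      α l ^ k * eval (x + l • s) (M.coeff k))
      (∑ k ∈ Finset.range (M.natDegree + 1), ((k : ℂ) * α 0 ^ (k - 1) * α' * eval x (M.coeff k) +
        α 0 ^ k * ∑ a, eval x (pderiv a (M.coeff k)) * s a)) 0 :=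
    HasDerivAt.fun_sum fun k _ => hterm k
  have hzero : HasDerivAt (fun l => ∑ k ∈ Finset.range (M.natDegree + 1),
      α l ^ k * eval (x + l • s) (M.coeff k)) 0 0 := by
    apply (hasDerivAt_const (0 : ℂ) (0 : ℂ)).congr_of_eventuallyEq
    filter_upwards [h0] with l hl
    rw [← eval_sum]
    exact hl
  have h4 := hsum.unique hzero
  rw [Finset.sum_add_distrib] at h4
  have h5 : (M.derivative.map (eval x)).eval (α 0) * α' =
      ∑ k ∈ Finset.range (M.natDegree + 1), (k : ℂ) * α 0 ^ (k - 1) * α' *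
        eval x (M.coeff k) := by
    rw [← Polynomial.derivative_map, Polynomial.derivative_eval, Polynomial.sum_over_range'
      _ _ (M.natDegree + 1) (lt_of_le_of_lt (Polynomial.natDegree_map_le) (Nat.lt_succ_self _)),
      Finset.sum_mul]
    · apply Finset.sum_congr rfl
      intro k _
      rw [Polynomial.coeff_map]
      ring
    · intro n; simp
  have h6 : ∑ a, s a * cpd M a x (α 0) = ∑ k ∈ Finset.range (M.natDegree + 1),
      α 0 ^ k * ∑ a, eval x (pderiv a (M.coeff k)) * s a := by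
    unfold cpd
    simp only [Finset.mul_sum]
    rw [Finset.sum_comm]
    apply Finset.sum_congr rfl
    intro k _
    apply Finset.sum_congr rfl
    intro a _
    ring
  rw [h5, h6]
  exact h4

/-- flatness at infinity -/
theorem flatness {M : Polynomial (MvPolynomial (Fin m) ℂ)} (hM : M.Monic)
    {Δ : MvPolynomial (Fin m) ℂ} {A B : Polynomial (MvPolynomial (Fin m) ℂ)}
    (hAB : A * M + B * M.derivative = Polynomial.C Δ)
    {C₀ : ℝ} (hC₀ : ∀ x T, (M.map (eval x)).eval T = 0 → ‖T‖ ≤ C₀ * (1 + ‖x‖))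
    {ξ : Fin m → ℂ} (hξ : ‖ξ‖ = 1) {D : ℕ} (hD : weightedTotalDegree (fun _ => 1) Δ ≤ D)
    (hΔ : eval ξ (weightedHomogeneousComponent (fun _ => 1) D Δ) ≠ 0) :
    ∃ ε > 0, ∃ C : ℝ, 0 ≤ C ∧ ∀ (t : ℂ) (ζ : Fin m → ℂ), 1 / ε < ‖t‖ → ‖ζ - ξ‖ < ε →
      ∃ (τ : Fin M.natDegree → ℂ) (Dm : Fin M.natDegree → Fin m → ℂ),
        (∀ i a, ‖Dm i a‖ ≤ C) ∧ ∀ s : Fin m → ℂ, ‖s‖ ≤ ε * ‖t‖ → ∀ T : ℂ,
          (M.map (eval (t • ζ + s))).eval T = 0 →
          ∃ i, ‖T - τ i - ∑ a, Dm i a * s a‖ ≤ C * ‖s‖ ^ 2 / ‖t‖ := by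
  obtain ⟨ε₁, hε₁, hnv⟩ := nonvan_one hD hΔ
  set ε₂ := min ε₁ 1 with hε₂
  have hε₂0 : 0 < ε₂ := lt_min hε₁ one_pos
  have hε₂1 : ε₂ ≤ ε₁ := min_le_left _ _
  have hε₂2 : ε₂ ≤ 1 := min_le_right _ _
  have hC₀0 : 0 ≤ |C₀| := abs_nonneg _
  set C₂ : ℝ := |C₀| * 4 with hC₂
  have hC₂0 : 0 ≤ C₂ := by positivity
  refine ⟨ε₂ / 8, by positivity, 128 * C₂ / ε₂ ^ 2, by positivity, ?_⟩
  intro t ζ ht hζ
  have ht8 : 8 / ε₂ < ‖t‖ := by
    have : 1 / (ε₂ / 8) = 8 / ε₂ := by field_simp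
    rwa [this] at ht
  have ht1 : 1 < ‖t‖ := by
    refine lt_of_le_of_lt ?_ ht8
    rw [le_div_iff₀ hε₂0]; linarith
  have ht0 : 0 < ‖t‖ := by linarith
  have ht0' : t ≠ 0 := norm_pos_iff.1 ht0
  have htε₁ : 1 / ε₁ < ‖t‖ := by
    refine lt_of_le_of_lt ?_ ht8
    rw [div_le_div_iff₀ hε₁ hε₂0]
    linarith
  -- nonvanishing of the discriminant
  have hΔne : ∀ s : Fin m → ℂ, ‖s‖ < ε₂ / 2 * ‖t‖ → eval (t • ζ + s) Δ ≠ 0 := by
    intro s hs
    have h1 : t • ζ + s = t • (ζ + t⁻¹ • s) := by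
      rw [smul_add, smul_smul, mul_inv_cancel₀ ht0', one_smul]
    rw [h1]
    apply hnv t htε₁
    have h2 : ζ + t⁻¹ • s - ξ = (ζ - ξ) + t⁻¹ • s := by abel
    rw [h2]
    have h3 : ‖t⁻¹ • s‖ < ε₂ / 2 := by
      rw [norm_smul, norm_inv, inv_mul_lt_iff₀ ht0]
      linarith
    calc ‖ζ - ξ + t⁻¹ • s‖ ≤ ‖ζ - ξ‖ + ‖t⁻¹ • s‖ := norm_add_le _ _
      _ < ε₂ / 8 + ε₂ / 2 := add_lt_add hζ h3
      _ ≤ ε₁ := by linarith
  have hcop : ∀ s : Fin m → ℂ, ‖s‖ < ε₂ / 2 * ‖t‖ →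
      (M.map (eval (t • ζ + s))).Separable := by
    intro s hs
    have h1 := congrArg (Polynomial.map (eval (t • ζ + s))) hAB
    simp only [Polynomial.map_add, Polynomial.map_mul, Polynomial.map_C] at h1
    rw [Polynomial.separable_def, Polynomial.derivative_map]
    refine ⟨Polynomial.C (eval (t • ζ + s) Δ)⁻¹ * A.map (eval (t • ζ + s)),
      Polynomial.C (eval (t • ζ + s) Δ)⁻¹ * B.map (eval (t • ζ + s)), ?_⟩
    have h2 : Polynomial.C (eval (t • ζ + s) Δ)⁻¹ * Polynomial.C (eval (t • ζ + s) Δ) = 1 := by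
      rw [← Polynomial.C_mul, inv_mul_cancel₀ (hΔne s hs), Polynomial.C_1]
    rw [← h2, ← h1]
    ring
  have hxb : ∀ s : Fin m → ℂ, ‖s‖ < ε₂ / 2 * ‖t‖ → ∀ T,
      (M.map (eval (t • ζ + s))).eval T = 0 → ‖T‖ ≤ C₂ * ‖t‖ := by
    intro s hs T hT
    have h1 := hC₀ _ _ hT
    have h2 : ‖t • ζ + s‖ ≤ 3 * ‖t‖ := by
      have h3 : ‖ζ‖ ≤ 1 + ε₂ / 8 := by
        calc ‖ζ‖ = ‖(ζ - ξ) + ξ‖ := by rw [sub_add_cancel]
          _ ≤ ‖ζ - ξ‖ + ‖ξ‖ := norm_add_le _ _
          _ ≤ 1 + ε₂ / 8 := by rw [hξ]; linarith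
      calc ‖t • ζ + s‖ ≤ ‖t • ζ‖ + ‖s‖ := norm_add_le _ _
        _ ≤ ‖t‖ * (1 + ε₂ / 8) + ε₂ / 2 * ‖t‖ := by
            rw [norm_smul]
            exact add_le_add (mul_le_mul_of_nonneg_left h3 ht0.le) hs.le
        _ ≤ 3 * ‖t‖ := by nlinarith
    calc ‖T‖ ≤ C₀ * (1 + ‖t • ζ + s‖) := h1
      _ ≤ |C₀| * (1 + ‖t • ζ + s‖) :=
          mul_le_mul_of_nonneg_right (le_abs_self _) (by positivity)
      _ ≤ |C₀| * (4 * ‖t‖) := mul_le_mul_of_nonneg_left (by linarith) hC₀0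
      _ = C₂ * ‖t‖ := by rw [hC₂]; ring
  -- roots at the base point
  obtain ⟨α₀, -, -, hα₀3⟩ := AR.J5652.root_functions (H := Set.univ) isOpen_univ convex_univ
    M.natDegree (fun _ => M.map (eval (t • ζ))) (fun i => differentiableOn_const _)
    (fun _ _ => hM.natDegree_map _) (fun _ _ => by
      have := hcop 0 (by rw [norm_zero]; positivity)
      rwa [add_zero] at this)
  set τ : Fin M.natDegree → ℂ := fun i => α₀ i 0 with hτ
  have hτroot : ∀ i, (M.map (eval (t • ζ))).eval (τ i) = 0 := fun i =>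
    (hα₀3 0 trivial _).2 ⟨i, rfl⟩
  have hτall : ∀ T, (M.map (eval (t • ζ))).eval T = 0 → ∃ i, T = τ i := fun T hT =>
    (hα₀3 0 trivial _).1 hT
  -- root functions along lines
  have hline : ∀ s : Fin m → ℂ, ∀ r : ℝ, 0 < r → r * ‖s‖ ≤ ε₂ / 2 * ‖t‖ →
      ∃ α : Fin M.natDegree → ℂ → ℂ, (∀ j, DifferentiableOn ℂ (α j) (ball 0 r)) ∧
        (∀ l ∈ ball (0 : ℂ) r, ∀ w, (M.map (eval (t • ζ + l • s))).eval w = 0 ↔
          ∃ j, w = α j l) ∧ (∀ j, ∀ l ∈ ball (0 : ℂ) r, ‖α j l‖ ≤ C₂ * ‖t‖) := by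
    intro s r hr hrs
    have hls : ∀ l ∈ ball (0 : ℂ) r, ‖l • s‖ < ε₂ / 2 * ‖t‖ := by
      intro l hl
      rw [mem_ball_zero_iff] at hl
      rw [norm_smul]
      rcases eq_or_lt_of_le (norm_nonneg s) with h | h
      · rw [← h, mul_zero]; positivity
      · calc ‖l‖ * ‖s‖ < r * ‖s‖ := by gcongr
          _ ≤ _ := hrs
    obtain ⟨α, h1, h2, h3⟩ := AR.J5652.root_functions (H := ball (0 : ℂ) r) isOpen_ball
      (convex_ball _ _) M.natDegree (fun l => M.map (eval (t • ζ + l • s)))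
      (fun i => by
        simp only [Polynomial.coeff_map]
        apply eval_differentiableOn
        intro j
        simp only [Pi.add_apply, Pi.smul_apply, smul_eq_mul]
        fun_prop)
      (fun _ _ => hM.natDegree_map _) (fun l hl => hcop _ (hls l hl))
    refine ⟨α, h1, h3, fun j l hl => ?_⟩
    exact hxb _ (hls l hl) _ ((h3 l hl _).2 ⟨j, rfl⟩)
  -- the slopes
  have hMne : ∀ i, (M.derivative.map (eval (t • ζ))).eval (τ i) ≠ 0 := by
    intro i h
    have h1 := congrArg (fun q => (Polynomial.map (eval (t • ζ)) q).eval (τ i)) hAB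
    simp only [Polynomial.map_add, Polynomial.map_mul, Polynomial.map_C, Polynomial.eval_add,
      Polynomial.eval_mul, Polynomial.eval_C, hτroot i, h, mul_zero, add_zero] at h1
    have h2 := hΔne 0 (by rw [norm_zero]; positivity)
    rw [add_zero] at h2
    exact h2 h1.symm
  set Dm : Fin M.natDegree → Fin m → ℂ := fun i a =>
    -(cpd M a (t • ζ) (τ i)) / (M.derivative.map (eval (t • ζ))).eval (τ i) with hDm
  have hslope : ∀ (s : Fin m → ℂ) (r : ℝ) (α : ℂ → ℂ) (i : Fin M.natDegree), 0 < r →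
      DifferentiableOn ℂ α (ball 0 r) → α 0 = τ i →
      (∀ l ∈ ball (0 : ℂ) r, (M.map (eval (t • ζ + l • s))).eval (α l) = 0) →
      deriv α 0 = ∑ a, Dm i a * s a := by
    intro s r α i hr hα hα0 hroot
    have hd : HasDerivAt α (deriv α 0) 0 :=
      ((hα 0 (mem_ball_self hr)).differentiableAt (ball_mem_nhds _ hr)).hasDerivAt
    have h1 := implicit_deriv hd (by
      filter_upwards [ball_mem_nhds (0 : ℂ) hr] with l hl
      exact hroot l hl)
    rw [hα0] at h1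
    have h2 : deriv α 0 * (M.derivative.map (eval (t • ζ))).eval (τ i) =
        -∑ a, s a * cpd M a (t • ζ) (τ i) := by linear_combination h1
    have h3 : deriv α 0 = (-∑ a, s a * cpd M a (t • ζ) (τ i)) /
        (M.derivative.map (eval (t • ζ))).eval (τ i) := by
      rw [eq_div_iff (hMne i), h2]
    rw [h3, hDm, neg_div, Finset.sum_div, ← Finset.sum_neg_distrib]
    apply Finset.sum_congr rfl
    intro a _
    ring
  refine ⟨τ, Dm, ?_, ?_⟩
  · intro i a
    classical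
    obtain ⟨α, hα1, hα2, hα3⟩ := hline (Pi.single a 1) (ε₂ / 2 * ‖t‖) (by positivity) (by
      have : ‖(Pi.single a 1 : Fin m → ℂ)‖ ≤ 1 := by
        rw [pi_norm_le_iff_of_nonneg zero_le_one]
        intro b
        by_cases hb : b = a
        · subst hb; simp
        · rw [Pi.single_eq_of_ne hb, norm_zero]; exact zero_le_one
      calc ε₂ / 2 * ‖t‖ * ‖(Pi.single a 1 : Fin m → ℂ)‖ ≤ ε₂ / 2 * ‖t‖ * 1 := by gcongr
        _ = _ := mul_one _)
    obtain ⟨j, hj⟩ := (hα2 0 (mem_ball_self (by positivity)) (τ i)).1 (by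
      rw [zero_smul, add_zero]; exact hτroot i)
    have h1 := hslope (Pi.single a 1) _ (α j) i (by positivity) (hα1 j) hj.symm
      (fun l hl => (hα2 l hl _).2 ⟨j, rfl⟩)
    have h2 : ∑ b, Dm i b * (Pi.single a 1 : Fin m → ℂ) b = Dm i a := by
      rw [Finset.sum_eq_single a]
      · rw [Pi.single_eq_same, mul_one]
      · intro b _ hb
        rw [Pi.single_eq_of_ne hb, mul_zero]
      · intro hh; exact absurd (Finset.mem_univ _) hh
    rw [← h2, ← h1]
    have hsub : closedBall (0 : ℂ) (ε₂ / 4 * ‖t‖) ⊆ ball 0 (ε₂ / 2 * ‖t‖) := by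
      apply closedBall_subset_ball
      nlinarith
    have h3 : ‖deriv (α j) 0‖ ≤ C₂ * ‖t‖ / (ε₂ / 4 * ‖t‖) := by
      apply Complex.norm_deriv_le_of_forall_mem_sphere_norm_le (by positivity)
      · exact ((hα1 j).mono hsub).diffContOnCl_ball (le_refl _)
      · intro w hw
        exact hα3 j w (hsub (sphere_subset_closedBall hw))
    refine h3.trans ?_
    have h4 : C₂ * ‖t‖ / (ε₂ / 4 * ‖t‖) = 4 * C₂ / ε₂ := by field_simp
    rw [h4, div_le_div_iff₀ hε₂0 (by positivity)]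
    nlinarith [mul_nonneg hC₂0 hε₂0.le, mul_nonneg (mul_nonneg hC₂0 hε₂0.le) (sub_nonneg.2 hε₂2)]
  · intro s hs T hT
    rcases eq_or_ne s 0 with rfl | hs0
    · rw [add_zero] at hT
      obtain ⟨i, hi⟩ := hτall T hT
      refine ⟨i, ?_⟩
      rw [hi]
      simp
    · have hsn : 0 < ‖s‖ := norm_pos_iff.2 hs0
      set r : ℝ := ε₂ / 2 * ‖t‖ / ‖s‖ with hr
      have hr4 : 4 ≤ r := by
        rw [hr, le_div_iff₀ hsn]
        linarith
      have hr0 : 0 < r := by linarith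
      obtain ⟨α, hα1, hα2, hα3⟩ := hline s r hr0 (by
        rw [hr, div_mul_cancel₀ _ hsn.ne'])
      obtain ⟨j, hj⟩ := (hα2 1 (by rw [mem_ball_zero_iff, norm_one]; linarith) T).1 (by
        rw [one_smul]; exact hT)
      obtain ⟨i, hi⟩ := hτall (α j 0) (by
        have := (hα2 0 (mem_ball_self hr0) (α j 0)).2 ⟨j, rfl⟩
        rwa [zero_smul, add_zero] at this)
      refine ⟨i, ?_⟩
      have h1 := hslope s r (α j) i hr0 (hα1 j) hi (fun l hl => (hα2 l hl _).2 ⟨j, rfl⟩)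
      have h2 := taylor2 hr4 (hα1 j) (hα3 j)
      rw [hj, ← hi, ← h1]
      refine h2.trans (le_of_eq ?_)
      rw [hr]
      field_simp
      ring

end Pool.Agent.Run7.h10
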