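import Mathlib
import Pool.Agent.Run7.h10.Alg

/-!
# Generic lifting of points
-/

set_option autoImplicit false
set_option linter.unusedSectionVars false

namespace Pool.Agent.Run7.h10

open MvPolynomial PrimeSpectrum

variable {σ : Type} [Finite σ]

theorem generic_lift {d : ℕ} {Q : Ideal (MvPolynomial σ ℂ)} (hQ : Q.IsPrime)
    (u : Fin d → MvPolynomial σ ℂ)
    (hinj : ∀ F : MvPolynomial (Fin d) ℂ, aeval u F ∈ Q → F = 0)
    {c : MvPolynomial σ ℂ} (hc : c ∉ Q) :
    ∃ h : MvPolynomial (Fin d) ℂ, h ≠ 0 ∧ ∀ x : Fin d → ℂ, eval x h ≠ 0 →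
      ∃ y ∈ Z Q, eval y c ≠ 0 ∧ ∀ i, eval y (u i) = x i := by
  set f : MvPolynomial (Fin d) ℂ →+* (MvPolynomial σ ℂ ⧸ Q) :=
    (Ideal.Quotient.mk Q).comp (aeval u : MvPolynomial (Fin d) ℂ →ₐ[ℂ] _).toRingHom with hf
  have hft : f.FiniteType := by
    apply RingHom.FiniteType.of_comp_finiteType (f := algebraMap ℂ (MvPolynomial (Fin d) ℂ))
    have h1 : f.comp (algebraMap ℂ (MvPolynomial (Fin d) ℂ)) =
        algebraMap ℂ (MvPolynomial σ ℂ ⧸ Q) := by
      ext r
      show Ideal.Quotient.mk Q (aeval u (algebraMap ℂ (MvPolynomial (Fin d) ℂ) r)) = _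
      rw [AlgHom.commutes]
      rfl
    rw [h1, RingHom.finiteType_algebraMap]
    infer_instance
  have hfp : f.FinitePresentation := RingHom.FinitePresentation.of_finiteType.1 hft
  have hcon := isConstructible_comap_image hfp
    (isConstructible_basicOpen (f := Ideal.Quotient.mk Q c))
  obtain ⟨S, hS⟩ := exists_constructibleSetData_iff.2 hcon
  have hbot : (⟨⊥, Ideal.isPrime_bot⟩ : PrimeSpectrum (MvPolynomial (Fin d) ℂ)) ∈ S.toSet := by
    rw [hS]
    refine ⟨⟨⊥, Ideal.isPrime_bot⟩, ?_, ?_⟩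
    · show Ideal.Quotient.mk Q c ∉ (⊥ : Ideal (MvPolynomial σ ℂ ⧸ Q))
      rw [Ideal.mem_bot, Ideal.Quotient.eq_zero_iff_mem]
      exact hc
    · ext F
      show f F ∈ (⊥ : Ideal (MvPolynomial σ ℂ ⧸ Q)) ↔ F ∈ (⊥ : Ideal (MvPolynomial (Fin d) ℂ))
      rw [Ideal.mem_bot, Ideal.mem_bot]
      constructor
      · intro h
        exact hinj F (Ideal.Quotient.eq_zero_iff_mem.1 h)
      · rintro rfl
        rw [map_zero]
  simp only [ConstructibleSetData.toSet, Set.mem_iUnion] at hbot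
  obtain ⟨C₀, hC₀, h1, h2⟩ := hbot
  refine ⟨C₀.f, ?_, ?_⟩
  · intro h3
    apply h2
    rw [mem_zeroLocus, h3]
    simp
  · intro x hx
    have h3 : (⟨pt x, pt_prime x⟩ : PrimeSpectrum (MvPolynomial (Fin d) ℂ)) ∈ S.toSet := by
      simp only [ConstructibleSetData.toSet, Set.mem_iUnion]
      refine ⟨C₀, hC₀, ?_, ?_⟩
      · rw [mem_zeroLocus] at h1 ⊢
        intro F hF
        have h4 : F ∈ (⊥ : Ideal (MvPolynomial (Fin d) ℂ)) := h1 hF
        rw [Ideal.mem_bot] at h4
        rw [h4]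
        exact Ideal.zero_mem _
      · rw [mem_zeroLocus]
        intro h4
        apply hx
        exact h4 (Set.mem_singleton _)
    rw [hS] at h3
    obtain ⟨q, hq1, hq2⟩ := h3
    set Q' : Ideal (MvPolynomial σ ℂ) := q.asIdeal.comap (Ideal.Quotient.mk Q) with hQ'
    haveI : q.asIdeal.IsPrime := q.isPrime
    have hQ'p : Q'.IsPrime := Ideal.comap_isPrime _ _
    have hcQ' : c ∉ Q' := hq1
    obtain ⟨y, hy, hyc⟩ : ∃ y ∈ Z Q', eval y c ≠ 0 := by
      by_contra hcon
      push Not at hcon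
      exact hcQ' (mem_of_vanish hQ'p hcon)
    refine ⟨y, ?_, hyc, ?_⟩
    · intro F hF
      apply hy
      rw [hQ', Ideal.mem_comap, Ideal.Quotient.eq_zero_iff_mem.2 hF]
      exact Ideal.zero_mem _
    · intro i
      have h4 : X i - C (x i) ∈ pt x := by rw [mem_pt]; simp
      have h5 : X i - C (x i) ∈ (comap f q).asIdeal := by
        rw [hq2]; exact h4
      have h6 : u i - C (x i) ∈ Q' := by
        have h7 : f (X i - C (x i)) ∈ q.asIdeal := h5
        have h8 : f (X i - C (x i)) = Ideal.Quotient.mk Q (u i - C (x i)) := by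
          show Ideal.Quotient.mk Q (aeval u (X i - C (x i))) = _
          rw [map_sub, aeval_X, aeval_C]
          rfl
        rw [h8] at h7
        exact h7
      have h7 := hy _ h6
      rw [map_sub, eval_C] at h7
      exact sub_eq_zero.1 h7

end Pool.Agent.Run7.h10
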