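import Pool.Agent.Run7.h10.VI
import Pool.Agent.Run7.h10.GL
import Pool.Agent.Run7.h10.FL

/-!
# Data at infinity
-/

set_option autoImplicit false
set_option linter.unusedSectionVars false

namespace Pool.Agent.Run7.h10

open MvPolynomial Filter Topology Metric

theorem eval_ray' {τ : Type} (w : τ → ℕ) (v : τ → ℂ) (F : MvPolynomial τ ℂ) (c : ℂ) :
    (ray w v F).eval c = eval (fun i => c ^ w i * v i) F := by
  induction F using MvPolynomial.induction_on with
  | C a => simp [ray]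
  | add p q hp hq => rw [map_add, Polynomial.eval_add, hp, hq, map_add]
  | mul_X p i hp =>
    rw [map_mul, Polynomial.eval_mul, hp, map_mul, eval_X]
    congr 1
    rw [ray, aeval_X]
    simp only [Polynomial.eval_mul, Polynomial.eval_C, Polynomial.eval_pow, Polynomial.eval_X]
    ring

/-- homogeneity can be checked on values -/
theorem isWH_of_eval {τ : Type} {w : τ → ℕ} {n : ℕ} {F : MvPolynomial τ ℂ}
    (h : ∀ (c : ℂ) (v : τ → ℂ), eval (fun i => c ^ w i * v i) F = c ^ n * eval v F) :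
    IsWeightedHomogeneous w F n := by
  classical
  have h1 : ∀ v : τ → ℂ, ray w v F = Polynomial.C (eval v F) * Polynomial.X ^ n := by
    intro v
    apply Polynomial.funext
    intro c
    rw [eval_ray', h]
    simp only [Polynomial.eval_mul, Polynomial.eval_C, Polynomial.eval_pow, Polynomial.eval_X]
    ring
  intro d hd
  by_contra hne
  have h2 : weightedHomogeneousComponent w (Finsupp.weight w d) F = 0 := by
    apply MvPolynomial.funext
    intro v
    rw [← aeval_pt, ← coeff_ray, h1 v, Polynomial.coeff_C_mul, Polynomial.coeff_X_pow, if_neg hne,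
      mul_zero, map_zero]
  have h3 := congrArg (coeff d) h2
  rw [coeff_weightedHomogeneousComponent, if_pos rfl, coeff_zero] at h3
  exact hd h3

variable {g N m : ℕ}

/-- weights -/
def wx (m : ℕ) (α : Type) : Fin m ⊕ α → ℕ := Sum.elim (fun _ => 1) (fun _ => 0)

/-- weights -/
def wy (m : ℕ) (α : Type) : Fin m ⊕ α → ℕ := Sum.elim (fun _ => 0) (fun _ => 1)

theorem elim_wx {α : Type} (c : ℂ) (x : Fin m → ℂ) (y : α → ℂ) :
    (fun i => c ^ wx m α i * Sum.elim x y i) = Sum.elim (c • x) y := by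
  funext i
  rcases i with i | i <;> simp [wx]

theorem elim_wy {α : Type} (c : ℂ) (x : Fin m → ℂ) (y : α → ℂ) :
    (fun i => c ^ wy m α i * Sum.elim x y i) = Sum.elim x (c • y) := by
  funext i
  rcases i with i | i <;> simp [wy]

theorem exists_rel' {Q : Ideal (MvPolynomial (Fin g ⊕ Fin (N + 1)) ℂ)} (hQ : Q.IsPrime)
    (hscl : Scl Q) (p : (Fin g → ℂ) →ₗ[ℂ] (Fin m → ℂ)) (α : Finset (Fin (N + 1)))
    (hcard : dm Q < m + α.card) :
    ∃ (n D : ℕ) (G : MvPolynomial (Fin m ⊕ α) ℂ), weightedTotalDegree (wx m α) G ≤ D ∧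
      weightedHomogeneousComponent (wx m α) D G ≠ 0 ∧ IsWeightedHomogeneous (wy m α) G n ∧
      ∀ z Y, Sum.elim z Y ∈ Z Q → eval (Sum.elim (p z) (fun j : α => Y j)) G = 0 := by
  classical
  let v' : Fin m ⊕ α → MvPolynomial (Fin g ⊕ Fin (N + 1)) ℂ :=
    Sum.elim (fun i => rename Sum.inl (lp p i)) (fun j => X (Sum.inr j))
  have hv' : ∀ (G : MvPolynomial (Fin m ⊕ α) ℂ) (z : Fin g → ℂ) (Y : Fin (N + 1) → ℂ),
      eval (Sum.elim z Y) (aeval v' G) = eval (Sum.elim (p z) (fun j : α => Y j)) G := by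
    intro G z Y
    induction G using MvPolynomial.induction_on with
    | C a => simp
    | add p q hp hq => rw [map_add, map_add, map_add, hp, hq]
    | mul_X q i hq =>
      rw [map_mul, map_mul, map_mul, hq, aeval_X, eval_X]
      congr 1
      rcases i with i | i
      · show eval (Sum.elim z Y) (rename Sum.inl (lp p i)) = p z i
        rw [eval_rename, Sum.elim_comp_inl, eval_lp]
      · show eval (Sum.elim z Y) (X (Sum.inr i.1)) = _
        rw [eval_X]
        rfl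
  obtain ⟨G₀, hG₀, hG₀0⟩ : ∃ G₀ : MvPolynomial (Fin m ⊕ α) ℂ, aeval v' G₀ ∈ Q ∧ G₀ ≠ 0 := by
    by_contra hcon
    push Not at hcon
    have h1 : AlgebraicIndependent ℂ (fun i => Ideal.Quotient.mk Q (v' i)) := by
      rw [algebraicIndependent_iff]
      intro F hF
      apply hcon
      rw [← Ideal.Quotient.eq_zero_iff_mem, ← hF]
      have : ∀ G : MvPolynomial (Fin m ⊕ α) ℂ, Ideal.Quotient.mk Q (aeval v' G) =
          aeval (fun i => Ideal.Quotient.mk Q (v' i)) G := by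
        intro G
        induction G using MvPolynomial.induction_on with
        | C a => rw [aeval_C, aeval_C]; rfl
        | add p q hp hq => rw [map_add, map_add, map_add, hp, hq]
        | mul_X q i hq => rw [map_mul, map_mul, map_mul, hq, aeval_X, aeval_X]
      exact this F
    haveI := hQ
    have h2 := h1.cardinalMk_le_trdeg
    rw [trdeg_eq_dm] at h2
    simp only [Cardinal.mk_fintype, Fintype.card_sum, Fintype.card_fin, Fintype.card_coe] at h2
    have h3 : m + α.card ≤ dm Q := by exact_mod_cast h2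
    omega
  have hray : ∀ z Y, Sum.elim z Y ∈ Z Q → ∀ n,
      eval (Sum.elim (p z) (fun j : α => Y j)) (weightedHomogeneousComponent (wy m α) n G₀) = 0 := by
    intro z Y hzY n
    rw [← aeval_pt, ← coeff_ray]
    have h1 : ray (wy m α) (Sum.elim (p z) (fun j : α => Y j)) G₀ = 0 := by
      apply Polynomial.funext
      intro c
      rw [eval_ray', elim_wy, Polynomial.eval_zero]
      have h2 := hscl z Y c hzY _ hG₀
      rw [hv'] at h2
      exact h2
    rw [h1, Polynomial.coeff_zero]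
  obtain ⟨n, hn⟩ : ∃ n, weightedHomogeneousComponent (wy m α) n G₀ ≠ 0 := by
    by_contra hcon
    push Not at hcon
    apply hG₀0
    rw [sum_components (w := wy m α) (F := G₀) le_rfl]
    exact Finset.sum_eq_zero fun j _ => hcon j
  refine ⟨n, _, weightedHomogeneousComponent (wy m α) n G₀, le_rfl, exists_top _ hn,
    weightedHomogeneousComponent_isWeightedHomogeneous n G₀, fun z Y hzY => hray z Y hzY n⟩

theorem exists_rel_inf {Q : Ideal (MvPolynomial (Fin g ⊕ Fin (N + 1)) ℂ)} (hQ : Q.IsPrime)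
    (hscl : Scl Q) (p : (Fin g → ℂ) →ₗ[ℂ] (Fin m → ℂ)) (α : Finset (Fin (N + 1)))
    (hcard : dm Q < m + α.card) :
    ∃ H : MvPolynomial (Fin m) ℂ, H ≠ 0 ∧ (∃ D, IsWeightedHomogeneous (fun _ => 1) H D) ∧
      ∀ ξ, eval ξ H ≠ 0 → ∃ q : MvPolynomial (Fin (N + 1)) ℂ, q ≠ 0 ∧ q.vars ⊆ α ∧
        (∃ n, q.IsHomogeneous n) ∧
        ∀ (T : Type) (V : Filter T) (_ : V.NeBot) (z : T → Fin g → ℂ) (Y : T → Fin (N + 1) → ℂ)
          (Y₁ : Fin (N + 1) → ℂ), (∀ᶠ t in V, Sum.elim (z t) (Y t) ∈ Z Q) →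
          Tendsto (fun t => ‖p (z t)‖) V atTop →
          Tendsto (fun t => (‖p (z t)‖ : ℂ)⁻¹ • p (z t)) V (𝓝 ξ) → Tendsto Y V (𝓝 Y₁) →
          eval Y₁ q = 0 := by
  classical
  obtain ⟨n, D, G, hD, htop, hwy, hG⟩ := exists_rel' hQ hscl p α hcard
  set G' := weightedHomogeneousComponent (wx m α) D G with hG'
  have hG'x : IsWeightedHomogeneous (wx m α) G' D :=
    weightedHomogeneousComponent_isWeightedHomogeneous D G
  have hG'y : IsWeightedHomogeneous (wy m α) G' n := by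
    intro d hd
    apply hwy
    intro h0
    apply hd
    rw [hG', coeff_weightedHomogeneousComponent, h0, ite_self]
  obtain ⟨v₀, hv₀⟩ : ∃ v₀ : Fin m ⊕ α → ℂ, eval v₀ G' ≠ 0 := by
    by_contra hcon
    push Not at hcon
    apply htop
    apply MvPolynomial.funext
    intro v
    rw [hcon v, map_zero]
  set y₀ : α → ℂ := v₀ ∘ Sum.inr with hy₀
  set H : MvPolynomial (Fin m) ℂ := aeval (Sum.elim X (fun j => C (y₀ j))) G' with hH
  have hHe : ∀ x, eval x H = eval (Sum.elim x y₀) G' := by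
    intro x
    rw [hH]
    generalize G' = F
    induction F using MvPolynomial.induction_on with
    | C a => simp
    | add p q hp hq => rw [map_add, map_add, map_add, hp, hq]
    | mul_X q i hq =>
      rw [map_mul, map_mul, map_mul, hq, aeval_X, eval_X]
      congr 1
      rcases i with i | i <;> simp
  refine ⟨H, ?_, ⟨D, ?_⟩, ?_⟩
  · intro h0
    apply hv₀
    have h1 := hHe (v₀ ∘ Sum.inl)
    rw [h0, map_zero, hy₀, Sum.elim_comp_inl_inr] at h1
    exact h1.symm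
  · apply isWH_of_eval
    intro c x
    rw [hHe, hHe, ← eval_wh hG'x, elim_wx]
    congr 2
    funext i
    rcases i with i | i <;> simp
  · intro ξ hξ
    set q₀ : MvPolynomial α ℂ := aeval (Sum.elim (fun i => C (ξ i)) X) G' with hq₀
    have hq₀e : ∀ y, eval y q₀ = eval (Sum.elim ξ y) G' := by
      intro y
      rw [hq₀]
      generalize G' = F
      induction F using MvPolynomial.induction_on with
      | C a => simp
      | add p q hp hq => rw [map_add, map_add, map_add, hp, hq]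
      | mul_X q i hq =>
        rw [map_mul, map_mul, map_mul, hq, aeval_X, eval_X]
        congr 1
        rcases i with i | i <;> simp
    set q : MvPolynomial (Fin (N + 1)) ℂ := rename Subtype.val q₀ with hq
    have hqe : ∀ Y : Fin (N + 1) → ℂ, eval Y q = eval (Sum.elim ξ (fun j : α => Y j)) G' := by
      intro Y
      rw [hq, eval_rename, hq₀e]
      rfl
    refine ⟨q, ?_, ?_, ⟨n, ?_⟩, ?_⟩
    · intro h0
      apply hξ
      have h1 : q₀ = 0 := by
        apply rename_injective _ Subtype.val_injective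
        rw [map_zero, ← h0]
      rw [hHe, ← hq₀e, h1, map_zero]
    · refine (vars_rename _ _).trans ?_
      intro j hj
      obtain ⟨i, _, rfl⟩ := Finset.mem_image.1 hj
      exact i.2
    · show IsWeightedHomogeneous 1 q n
      apply isWH_of_eval
      intro c Y
      rw [hqe, hqe, ← eval_wh hG'y, elim_wy]
      congr 2
      funext j
      rcases j with j | j <;> simp
    · intro T V hV z Y Y₁ hmem hinf hdir hY
      rw [hqe]
      have h1 : ∀ᶠ t in V, wh (wx m α) D G (‖p (z t)‖ : ℂ)⁻¹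
          (Sum.elim ((‖p (z t)‖ : ℂ)⁻¹ • p (z t)) (fun j : α => Y t j)) = 0 := by
        filter_upwards [hmem, hinf.eventually_gt_atTop 0] with t ht1 ht2
        have hne : (‖p (z t)‖ : ℂ) ≠ 0 := by
          rw [Ne, Complex.ofReal_eq_zero]
          exact ht2.ne'
        have h2 := eval_eq_wh hD hne
          (Sum.elim ((‖p (z t)‖ : ℂ)⁻¹ • p (z t)) (fun j : α => Y t j))
        rw [elim_wx, smul_smul, mul_inv_cancel₀ hne, one_smul, hG _ _ ht1] at h2
        rcases mul_eq_zero.1 h2.symm with h3 | h3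
        · exact absurd h3 (pow_ne_zero _ hne)
        · exact h3
      have h2 : Tendsto (fun t => (‖p (z t)‖ : ℂ)⁻¹) V (𝓝 0) := by
        have h3 : Tendsto (fun t => (‖p (z t)‖)⁻¹) V (𝓝 0) := tendsto_inv_atTop_zero.comp hinf
        have h4 := (Complex.continuous_ofReal.tendsto 0).comp h3
        simp only [Complex.ofReal_zero] at h4
        refine h4.congr fun t => ?_
        simp
      have h3 : Tendsto (fun t => (Sum.elim ((‖p (z t)‖ : ℂ)⁻¹ • p (z t))
          (fun j : α => Y t j) : Fin m ⊕ α → ℂ)) V (𝓝 (Sum.elim ξ (fun j : α => Y₁ j))) := by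
        rw [tendsto_pi_nhds]
        rintro (i | j)
        · exact (tendsto_pi_nhds.1 hdir) i
        · exact (tendsto_pi_nhds.1 hY) j
      have h4 := ((wh_continuous (wx m α) D G).tendsto (0, Sum.elim ξ (fun j : α => Y₁ j))).comp
        (h2.prodMk_nhds h3)
      have h5 : wh (wx m α) D G 0 (Sum.elim ξ (fun j : α => Y₁ j)) = 0 :=
        tendsto_nhds_unique h4 (tendsto_const_nhds.congr' (by
          filter_upwards [h1] with t ht
          exact ht.symm))
      rwa [wh_zero] at h5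

/-- a direction where finitely many homogeneous polynomials do not vanish -/
theorem exists_dir {ι : Type} [Fintype ι] (hm : 0 < m) (H : ι → MvPolynomial (Fin m) ℂ)
    (hH : ∀ i, H i ≠ 0) (hHh : ∀ i, ∃ D, IsWeightedHomogeneous (fun _ => 1) (H i) D) :
    ∃ ξ : Fin m → ℂ, ‖ξ‖ = 1 ∧ ∀ i, eval ξ (H i) ≠ 0 := by
  classical
  obtain ⟨x, hx⟩ : ∃ x, eval x (X (⟨0, hm⟩ : Fin m) * ∏ i, H i) ≠ 0 := by
    by_contra hcon
    push Not at hcon
    have h1 : X (⟨0, hm⟩ : Fin m) * ∏ i, H i = 0 := by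
      apply MvPolynomial.funext
      intro v
      rw [hcon v, map_zero]
    rcases mul_eq_zero.1 h1 with h2 | h2
    · exact X_ne_zero _ h2
    · rw [Finset.prod_eq_zero_iff] at h2
      obtain ⟨i, _, hi⟩ := h2
      exact hH i hi
  rw [map_mul, eval_X, map_prod, mul_ne_zero_iff, Finset.prod_ne_zero_iff] at hx
  have hx0 : x ≠ 0 := by
    rintro rfl
    exact hx.1 rfl
  have hn : 0 < ‖x‖ := norm_pos_iff.2 hx0
  have hne : (‖x‖ : ℂ)⁻¹ ≠ 0 := by
    rw [Ne, inv_eq_zero, Complex.ofReal_eq_zero]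
    exact hn.ne'
  refine ⟨(‖x‖ : ℂ)⁻¹ • x, ?_, fun i => ?_⟩
  · rw [norm_smul, norm_inv, Complex.norm_real, norm_norm, inv_mul_cancel₀ hn.ne']
  · obtain ⟨D, hD⟩ := hHh i
    have h1 := eval_wh hD (‖x‖ : ℂ)⁻¹ x
    have h2 : (fun t => (‖x‖ : ℂ)⁻¹ ^ (1 : ℕ) * x t) = (‖x‖ : ℂ)⁻¹ • x := by
      funext t
      simp
    rw [h2] at h1
    rw [h1]
    exact mul_ne_zero (pow_ne_zero _ hne) (hx.2 i (Finset.mem_univ i))

/-- the data at infinity of a homogeneous prime ideal -/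
structure Inf (Q : Ideal (MvPolynomial (Fin g ⊕ Fin (N + 1)) ℂ))
    (p : (Fin g → ℂ) →ₗ[ℂ] (Fin m → ℂ)) (ξ : Fin m → ℂ)
    (𝒬 : Set (MvPolynomial (Fin (N + 1)) ℂ)) : Prop where
  norm_one : ‖ξ‖ = 1
  pts : ∀ K : ℝ, ∃ z Y, Sum.elim z Y ∈ Z Q ∧ Y ≠ 0 ∧ K < ‖p z‖ ∧ (‖p z‖ : ℂ)⁻¹ • p z = ξ
  bounds : Bounds (g - m) 𝒬
  hom : ∀ q ∈ 𝒬, ∃ n, q.IsHomogeneous n
  limit : ∀ q ∈ 𝒬, ∀ (T : Type) (V : Filter T) (_ : V.NeBot) (z : T → Fin g → ℂ)
    (Y : T → Fin (N + 1) → ℂ) (Y₁ : Fin (N + 1) → ℂ),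
    (∀ᶠ t in V, Sum.elim (z t) (Y t) ∈ Z Q) → Tendsto (fun t => ‖p (z t)‖) V atTop →
    Tendsto (fun t => (‖p (z t)‖ : ℂ)⁻¹ • p (z t)) V (𝓝 ξ) → Tendsto Y V (𝓝 Y₁) →
    eval Y₁ q = 0
  flat : ∀ j : Fin g, ∃ n : ℕ, ∃ ε > 0, ∃ C : ℝ, 0 ≤ C ∧ ∀ (t : ℂ) (ζ : Fin m → ℂ),
    1 / ε < ‖t‖ → ‖ζ - ξ‖ < ε →
    ∃ (τ : Fin n → ℂ) (Dm : Fin n → Fin m → ℂ), (∀ i a, ‖Dm i a‖ ≤ C) ∧
      ∀ s : Fin m → ℂ, ‖s‖ ≤ ε * ‖t‖ → ∀ z Y, Sum.elim z Y ∈ Z Q → p z = t • ζ + s →
      ∃ i, ‖z j - τ i - ∑ a, Dm i a * s a‖ ≤ C * ‖s‖ ^ 2 / ‖t‖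

theorem exists_inf {Q : Ideal (MvPolynomial (Fin g ⊕ Fin (N + 1)) ℂ)} (hQ : Q.IsPrime)
    (hscl : Scl Q) (hd : dm Q = g + 1) {b : Fin (N + 1)} (hb : X (Sum.inr b) ∉ Q)
    (hbase : 1 ≤ dm (Q.comap (rename Sum.inl : MvPolynomial (Fin g) ℂ →ₐ[ℂ]
      MvPolynomial (Fin g ⊕ Fin (N + 1)) ℂ).toRingHom)) :
    ∃ (m : ℕ) (p : (Fin g → ℂ) →ₗ[ℂ] (Fin m → ℂ)) (r : (Fin m → ℂ) →ₗ[ℂ] (Fin g → ℂ))
      (ξ : Fin m → ℂ) (𝒬 : Set (MvPolynomial (Fin (N + 1)) ℂ)),
      (∀ s, p (r s) = s) ∧ m ≤ g ∧ Inf Q p ξ 𝒬 := by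
  classical
  set P := Q.comap (rename Sum.inl : MvPolynomial (Fin g) ℂ →ₐ[ℂ]
      MvPolynomial (Fin g ⊕ Fin (N + 1)) ℂ).toRingHom with hP
  have hPp : P.IsPrime := Ideal.comap_isPrime _ _
  have hPZ : ∀ z Y, Sum.elim z Y ∈ Z Q → z ∈ Z P := by
    intro z Y h F hF
    have h1 := h (rename Sum.inl F) hF
    rwa [eval_rename, Sum.elim_comp_inl] at h1
  obtain ⟨m, p, hp, hinj⟩ := exists_nrm' hPp
  have hm := nrm_dm hPp hp hinj
  have hm0 : 0 < m := by omega
  obtain ⟨r, hr⟩ := p.exists_rightInverse_of_surjective (LinearMap.range_eq_top.2 hp.surj)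
  have hr' : ∀ s, p (r s) = s := fun s => LinearMap.congr_fun hr s
  have hmg : m ≤ g := by
    have h1 := LinearMap.finrank_le_finrank_of_surjective hp.surj
    simpa using h1
  -- lifting
  obtain ⟨h, hh0, hlift⟩ := generic_lift hQ (fun i => rename Sum.inl (lp p i)) (by
    intro F hF
    apply hinj
    show rename Sum.inl (ph p F) ∈ Q
    have h1 : (rename Sum.inl : MvPolynomial (Fin g) ℂ →ₐ[ℂ]
        MvPolynomial (Fin g ⊕ Fin (N + 1)) ℂ).comp (ph p) =
        aeval (fun i => rename Sum.inl (lp p i)) := by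
      apply MvPolynomial.algHom_ext
      intro i
      simp [ph]
    have h2 := AlgHom.congr_fun h1 F
    rw [AlgHom.comp_apply] at h2
    rw [h2]
    exact hF) hb
  -- minimal polynomials
  choose M hM1 hM2 hM3 hM4 using fun j : Fin g => exists_minpoly hPp hp hinj (X j)
  choose Δ hΔ0 A B hAB using hM4
  -- relations
  have hrel : ∀ α : {α : Finset (Fin (N + 1)) // α.card = g - m + 2},
      ∃ H : MvPolynomial (Fin m) ℂ, H ≠ 0 ∧ (∃ D, IsWeightedHomogeneous (fun _ => 1) H D) ∧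
      ∀ ξ, eval ξ H ≠ 0 → ∃ q : MvPolynomial (Fin (N + 1)) ℂ, q ≠ 0 ∧ q.vars ⊆ α.1 ∧
        (∃ n, q.IsHomogeneous n) ∧
        ∀ (T : Type) (V : Filter T) (_ : V.NeBot) (z : T → Fin g → ℂ) (Y : T → Fin (N + 1) → ℂ)
          (Y₁ : Fin (N + 1) → ℂ), (∀ᶠ t in V, Sum.elim (z t) (Y t) ∈ Z Q) →
          Tendsto (fun t => ‖p (z t)‖) V atTop →
          Tendsto (fun t => (‖p (z t)‖ : ℂ)⁻¹ • p (z t)) V (𝓝 ξ) → Tendsto Y V (𝓝 Y₁) →
          eval Y₁ q = 0 := by
    intro α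
    apply exists_rel_inf hQ hscl p α.1
    rw [α.2, hd]
    omega
  choose H hH0 hHh hH using hrel
  -- the direction
  obtain ⟨ξ, hξ1, hξ⟩ := exists_dir hm0
    (ι := Unit ⊕ (Fin g ⊕ {α : Finset (Fin (N + 1)) // α.card = g - m + 2}))
    (Sum.elim (fun _ => weightedHomogeneousComponent (fun _ => 1)
        (weightedTotalDegree (fun _ => 1) h) h)
      (Sum.elim (fun j => weightedHomogeneousComponent (fun _ => 1)
        (weightedTotalDegree (fun _ => 1) (Δ j)) (Δ j)) H)) (by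
      rintro (i | j | α)
      · exact exists_top _ hh0
      · exact exists_top _ (hΔ0 j)
      · exact hH0 α) (by
      rintro (i | j | α)
      · exact ⟨_, weightedHomogeneousComponent_isWeightedHomogeneous _ _⟩
      · exact ⟨_, weightedHomogeneousComponent_isWeightedHomogeneous _ _⟩
      · exact hHh α)
  have hξh := hξ (Sum.inl ())
  have hξΔ := fun j => hξ (Sum.inr (Sum.inl j))
  have hξH := fun α => hξ (Sum.inr (Sum.inr α))
  simp only [Sum.elim_inl, Sum.elim_inr] at hξh hξΔ hξH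
  choose q hq0 hqv hqh hql using fun α => hH α ξ (hξH α)
  refine ⟨m, p, r, ξ, Set.range q, hr', hmg, hξ1, ?_, ?_, ?_, ?_, ?_⟩
  · intro K
    obtain ⟨ε, hε, hnv⟩ := nonvan_one le_rfl hξh
    set t : ℝ := max (1 / ε) (max K 0) + 1 with ht
    have ht1 : 1 / ε < t := by
      have := le_max_left (1 / ε) (max K 0); linarith
    have ht2 : K < t := by
      have := (le_max_left K 0).trans (le_max_right (1 / ε) (max K 0)); linarith
    have ht0 : 0 < t := by
      have := (le_max_right K 0).trans (le_max_right (1 / ε) (max K 0)); linarith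
    have htn : ‖(t : ℂ)‖ = t := by
      rw [Complex.norm_real, Real.norm_of_nonneg ht0.le]
    have h1 := hnv (t : ℂ) (by rw [htn]; exact ht1) ξ (by rw [sub_self, norm_zero]; exact hε)
    obtain ⟨y, hy, hyb, hyx⟩ := hlift _ h1
    have hpy : p (y ∘ Sum.inl) = (t : ℂ) • ξ := by
      funext i
      have h2 := hyx i
      rwa [eval_rename, eval_lp] at h2
    have hn : ‖p (y ∘ Sum.inl)‖ = t := by
      rw [hpy, norm_smul, htn, hξ1, mul_one]
    refine ⟨y ∘ Sum.inl, y ∘ Sum.inr, ?_, ?_, ?_, ?_⟩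
    · rwa [Sum.elim_comp_inl_inr]
    · intro h0
      have h2 := congrFun h0 b
      rw [eval_X] at hyb
      exact hyb h2
    · rw [hn]; exact ht2
    · rw [hn, hpy, smul_smul, inv_mul_cancel₀, one_smul]
      rw [Ne, Complex.ofReal_eq_zero]
      exact ht0.ne'
  · intro α hα
    exact ⟨q ⟨α, hα⟩, ⟨_, rfl⟩, hq0 _, hqv _, hqh _⟩
  · rintro _ ⟨α, rfl⟩
    exact hqh α
  · rintro _ ⟨α, rfl⟩
    exact hql α
  · intro j
    obtain ⟨C₀, hC₀⟩ := hp.growth
    obtain ⟨ε, hε, C₁, hC₁, hfl⟩ := flatness (hM1 j) (hAB j) (C₀ := C₀) (by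
      intro x T hT
      obtain ⟨z, hz, hpz, hzT⟩ := hM3 j x T hT
      rw [← hzT, eval_X, ← hpz]
      exact (norm_le_pi_norm z j).trans (hC₀ z hz)) hξ1 le_rfl (hξΔ j)
    refine ⟨(M j).natDegree, ε, hε, C₁, hC₁, ?_⟩
    intro t ζ ht hζ
    obtain ⟨τ, Dm, h1, h2⟩ := hfl t ζ ht hζ
    refine ⟨τ, Dm, h1, ?_⟩
    intro s hs z Y hzY hpz
    apply h2 s hs
    have h3 := hM2 j z (hPZ z Y hzY)
    rw [eval_X, hpz] at h3
    exact h3

end Pool.Agent.Run7.h10
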