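import Pool.Agent.Run7.h10.LP3

/-!
# The intersection principle
-/

set_option autoImplicit false
set_option linter.unusedSectionVars false

namespace Pool.Agent.Run7.h10

open MvPolynomial Filter Topology Metric

variable {σ : Type} [Fintype σ]

theorem krull_finset {ι : Type} {P : Ideal (MvPolynomial σ ℂ)} (hP : P.IsPrime) {y : σ → ℂ}
    (hy : y ∈ Z P) (s : Finset ι) (f : ι → MvPolynomial σ ℂ) (hf : ∀ i ∈ s, eval y (f i) = 0) :
    ∃ Q : Ideal (MvPolynomial σ ℂ), Q.IsPrime ∧ P ≤ Q ∧ (∀ i ∈ s, f i ∈ Q) ∧ y ∈ Z Q ∧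
      dm P ≤ dm Q + s.card := by
  classical
  induction s using Finset.induction_on with
  | empty => exact ⟨P, hP, le_rfl, fun i hi => absurd hi (Finset.notMem_empty i), hy, by simp⟩
  | insert i s his ih =>
    obtain ⟨Q, hQ, hPQ, hfQ, hyQ, hd⟩ := ih fun j hj => hf j (Finset.mem_insert_of_mem hj)
    obtain ⟨Q', hQ', hQQ', hfQ', hyQ', hd'⟩ :=
      krull_one hQ hyQ (hf i (Finset.mem_insert_self i s))
    refine ⟨Q', hQ', hPQ.trans hQQ', ?_, hyQ', ?_⟩
    · intro j hj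
      rcases Finset.mem_insert.1 hj with rfl | hj
      · exact hfQ'
      · exact hQQ' (hfQ j hj)
    · rw [Finset.card_insert_of_notMem his]
      omega

theorem exists_larger {a : ℂ} {U : Set ℂ} (hU : U ∈ 𝓝 a) : ∃ b ∈ U, ‖a‖ < ‖b‖ := by
  obtain ⟨ε, hε, hb⟩ := Metric.mem_nhds_iff.1 hU
  by_cases ha : a = 0
  · subst ha
    refine ⟨((ε / 2 : ℝ) : ℂ), hb ?_, ?_⟩
    · rw [mem_ball_zero_iff, Complex.norm_real, Real.norm_of_nonneg (by positivity)]
      linarith
    · rw [norm_zero, Complex.norm_real, Real.norm_of_nonneg (by positivity)]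
      positivity
  · have ha' : 0 < ‖a‖ := norm_pos_iff.2 ha
    refine ⟨a * (1 + (ε / (2 * ‖a‖) : ℝ)), hb ?_, ?_⟩
    · rw [mem_ball, dist_eq_norm]
      have : a * (1 + (ε / (2 * ‖a‖) : ℝ)) - a = a * (ε / (2 * ‖a‖) : ℝ) := by ring
      rw [this, norm_mul, Complex.norm_real, Real.norm_of_nonneg (by positivity)]
      have : ‖a‖ * (ε / (2 * ‖a‖)) = ε / 2 := by field_simp
      rw [this]
      linarith
    · have : (1 + (ε / (2 * ‖a‖) : ℝ) : ℂ) = ((1 + ε / (2 * ‖a‖) : ℝ) : ℂ) := by push_cast; ring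
      rw [this, norm_mul, Complex.norm_real, Real.norm_of_nonneg (by positivity)]
      have h2 : 0 < ε / (2 * ‖a‖) := by positivity
      nlinarith

theorem exists_smaller_one {U : Set ℂ} (hU : U ∈ 𝓝 (1 : ℂ)) : ∃ b ∈ U, ‖b‖ < 1 := by
  obtain ⟨ε, hε, hb⟩ := Metric.mem_nhds_iff.1 hU
  refine ⟨((1 - min (ε / 2) (1 / 2) : ℝ) : ℂ), hb ?_, ?_⟩
  · rw [mem_ball, dist_eq_norm]
    have : ((1 - min (ε / 2) (1 / 2) : ℝ) : ℂ) - 1 = ((- min (ε / 2) (1 / 2) : ℝ) : ℂ) := by
      push_cast; ring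
    rw [this, Complex.norm_real, norm_neg, Real.norm_of_nonneg (by positivity)]
    have := min_le_left (ε / 2) (1 / 2)
    linarith
  · have h1 := min_le_right (ε / 2) (1 / 2)
    have h2 : 0 < min (ε / 2) (1 / 2) := by positivity
    rw [Complex.norm_real, Real.norm_of_nonneg (by linarith)]
    linarith

/-- a positive dimensional algebraic set does not lie in a bounded set without reaching the
boundary -/
theorem reaches_boundary {Q : Ideal (MvPolynomial σ ℂ)} (hQ : Q.IsPrime) (hd : 1 ≤ dm Q)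
    {x₁ : σ → ℂ} (hx₁ : x₁ ∈ Z Q) {O : Set (σ → ℂ)} (hO : IsOpen O)
    (hb : Bornology.IsBounded O) (hx₁O : x₁ ∈ O) : ∃ x ∈ Z Q, x ∈ closure O ∧ x ∉ O := by
  by_contra hcon
  push Not at hcon
  obtain ⟨i, hi⟩ : ∃ i, X i - C (x₁ i) ∉ Q := by
    by_contra hcon2
    push Not at hcon2
    have : Q = pt x₁ := by
      apply le_antisymm hx₁
      intro F hF
      rw [← Ideal.Quotient.eq_zero_iff_mem]
      have h1 : Ideal.Quotient.mk Q F = Ideal.Quotient.mk Q (C (eval x₁ F)) := by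
        clear hF
        induction F using MvPolynomial.induction_on with
        | C a => simp
        | add p q hp hq => simp only [map_add, hp, hq]
        | mul_X p j hp =>
          rw [map_mul, hp, map_mul, eval_X, map_mul, map_mul]
          congr 1
          exact Ideal.Quotient.eq.2 (hcon2 j)
      rw [h1, mem_pt.1 hF]
      simp
    rw [this, dm_pt] at hd
    omega
  have hcl : IsClosed (Z Q) := by
    have : Z Q = ⋂ F ∈ Q, {y | eval y F = 0} := by
      ext y; simp [Z]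
    rw [this]
    exact isClosed_biInter fun F _ => isClosed_eq (MvPolynomial.continuous_eval F)
      continuous_const
  have hK : IsCompact (Z Q ∩ closure O) :=
    (hb.isCompact_closure).inter_left hcl
  obtain ⟨x₂, hx₂, hmax⟩ := hK.exists_isMaxOn ⟨x₁, hx₁, subset_closure hx₁O⟩
    (f := fun x => ‖x i‖) (by fun_prop)
  have hx₂O : x₂ ∈ O := hcon x₂ hx₂.1 hx₂.2
  have hF : (X i : MvPolynomial σ ℂ) - C (eval x₂ (X i)) ∉ Q := by
    intro h
    rw [eval_X] at h
    have h1 := hx₁ _ h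
    simp only [map_sub, eval_X, eval_C] at h1
    rw [← sub_eq_zero.1 h1] at h
    exact hi h
  have h1 := open_map hQ hx₂.1 hF (hO.mem_nhds hx₂O)
  obtain ⟨b, ⟨x₃, hx₃, rfl⟩, hlt⟩ := exists_larger h1
  simp only [eval_X] at hlt
  have := hmax ⟨hx₃.1, subset_closure hx₃.2⟩
  simp only [Set.mem_ofPred_eq] at this
  exact absurd hlt (not_lt.2 this)

theorem isClosed_Z (P : Ideal (MvPolynomial σ ℂ)) : IsClosed (Z P) := by
  have : Z P = ⋂ F ∈ P, {y | eval y F = 0} := by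
    ext y; simp [Z]
  rw [this]
  exact isClosed_biInter fun F _ => isClosed_eq (MvPolynomial.continuous_eval F)
    continuous_const

/-- intersection principle for polynomials -/
theorem ip_poly {P : Ideal (MvPolynomial σ ℂ)} (hP : P.IsPrime) {n : ℕ} (hn : n ≤ dm P)
    (f : Fin n → MvPolynomial σ ℂ) {O : Set (σ → ℂ)} (hO : IsOpen O)
    (hb : Bornology.IsBounded O) {δ : ℝ}
    (hbd : ∀ x ∈ Z P, x ∈ closure O → x ∉ O → δ ≤ ‖fun i => eval x (f i)‖)
    {x₀ : σ → ℂ} (hx₀ : x₀ ∈ Z P) (hx₀O : x₀ ∈ O) (hlt : ‖fun i => eval x₀ (f i)‖ < δ) :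
    ∃ x ∈ Z P, x ∈ O ∧ ∀ i, eval x (f i) = 0 := by
  classical
  have hK : IsCompact (Z P ∩ closure O) := (hb.isCompact_closure).inter_left (isClosed_Z P)
  obtain ⟨x₁, hx₁, hmin⟩ := hK.exists_isMinOn ⟨x₀, hx₀, subset_closure hx₀O⟩
    (f := fun x => ‖fun i => eval x (f i)‖) (by
      apply Continuous.continuousOn
      apply Continuous.norm
      exact continuous_pi fun i => MvPolynomial.continuous_eval (f i))
  have hle : ‖fun i => eval x₁ (f i)‖ < δ :=
    lt_of_le_of_lt (hmin ⟨hx₀, subset_closure hx₀O⟩) hlt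
  have hx₁O : x₁ ∈ O := by
    by_contra hcon
    exact absurd (hbd x₁ hx₁.1 hx₁.2 hcon) (not_le.2 hle)
  refine ⟨x₁, hx₁.1, hx₁O, ?_⟩
  by_contra hcon
  push Not at hcon
  obtain ⟨j, hj⟩ := hcon
  set c : Fin n → ℂ := fun i => eval x₁ (f i) with hc
  have hcj : c j ≠ 0 := hj
  have hcpos : 0 < ‖c‖ := norm_pos_iff.2 (fun h => hcj (congrFun h j))
  obtain ⟨Q, hQ, hPQ, hfQ, hyQ, hd⟩ := krull_finset hP hx₁.1 (Finset.univ.erase j)
    (fun i => f i - C (c i / c j) * f j) (by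
      intro i _
      simp only [map_sub, map_mul, eval_C]
      show c i - c i / c j * c j = 0
      field_simp
      ring)
  have hd1 : 1 ≤ dm Q := by
    rw [Finset.card_erase_of_mem (Finset.mem_univ j), Finset.card_univ, Fintype.card_fin] at hd
    have := j.pos
    omega
  have hval : ∀ x ∈ Z Q, (fun i => eval x (f i)) = (eval x (f j) / c j) • c := by
    intro x hx
    funext i
    rw [Pi.smul_apply, smul_eq_mul]
    by_cases hij : i = j
    · subst hij
      field_simp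
    · have h1 := hx _ (hfQ i (Finset.mem_erase.2 ⟨hij, Finset.mem_univ i⟩))
      simp only [map_sub, map_mul, eval_C] at h1
      rw [sub_eq_zero.1 h1]
      field_simp
  by_cases hT : f j - C (eval x₁ (f j)) ∈ Q
  · have hcst : ∀ x ∈ Z Q, (fun i => eval x (f i)) = c := by
      intro x hx
      have h1 := hx _ hT
      simp only [map_sub, eval_C] at h1
      rw [hval x hx, sub_eq_zero.1 h1]
      show (c j / c j) • c = c
      rw [div_self hcj, one_smul]
    obtain ⟨x, hx, hxc, hxO⟩ := reaches_boundary hQ hd1 hyQ hO hb hx₁O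
    have h1 := hbd x (Z_anti hPQ hx) hxc hxO
    rw [hcst x hx] at h1
    exact absurd h1 (not_le.2 hle)
  · have h1 := open_map hQ hyQ hT (hO.mem_nhds hx₁O)
    have h2 : (fun z => z / c j) '' ((fun x => eval x (f j)) '' (Z Q ∩ O)) ∈ 𝓝 (1 : ℂ) := by
      have h3 : (fun z : ℂ => z * c j) ⁻¹' ((fun x => eval x (f j)) '' (Z Q ∩ O)) ∈ 𝓝 (1 : ℂ) := by
        apply ContinuousAt.preimage_mem_nhds (by fun_prop)
        rw [one_mul]
        exact h1
      apply Filter.mem_of_superset h3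
      intro z hz
      exact ⟨z * c j, hz, by field_simp⟩
    obtain ⟨b, ⟨_, ⟨x, hx, rfl⟩, rfl⟩, hlt'⟩ := exists_smaller_one h2
    have h4 := hmin ⟨Z_anti hPQ hx.1, subset_closure hx.2⟩
    simp only [Set.mem_ofPred_eq] at h4
    rw [hval x hx.1, norm_smul] at h4
    nlinarith

/-- intersection principle -/
theorem ip {P : Ideal (MvPolynomial σ ℂ)} (hP : P.IsPrime) {n : ℕ} (hn : n ≤ dm P)
    (f : (σ → ℂ) → Fin n → ℂ) {O : Set (σ → ℂ)} (hO : IsOpen O)
    (hb : Bornology.IsBounded O) (hf : ContinuousOn f (closure O))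
    (happ : ∀ η > 0, ∃ F : Fin n → MvPolynomial σ ℂ,
      ∀ x ∈ closure O, ‖f x - fun i => eval x (F i)‖ ≤ η)
    {δ : ℝ} (hbd : ∀ x ∈ Z P, x ∈ closure O → x ∉ O → δ ≤ ‖f x‖)
    {x₀ : σ → ℂ} (hx₀ : x₀ ∈ Z P) (hx₀O : x₀ ∈ O) (hlt : ‖f x₀‖ < δ) :
    ∃ x ∈ Z P, x ∈ O ∧ f x = 0 := by
  have hK : IsCompact (Z P ∩ closure O) := (hb.isCompact_closure).inter_left (isClosed_Z P)
  obtain ⟨x₁, hx₁, hmin⟩ := hK.exists_isMinOn ⟨x₀, hx₀, subset_closure hx₀O⟩
    (f := fun x => ‖f x‖) ((hf.mono Set.inter_subset_right).norm)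
  have hle : ‖f x₁‖ < δ := lt_of_le_of_lt (hmin ⟨hx₀, subset_closure hx₀O⟩) hlt
  have hx₁O : x₁ ∈ O := by
    by_contra hcon
    exact absurd (hbd x₁ hx₁.1 hx₁.2 hcon) (not_le.2 hle)
  refine ⟨x₁, hx₁.1, hx₁O, ?_⟩
  by_contra hne
  have hm : 0 < ‖f x₁‖ := norm_pos_iff.2 hne
  set η : ℝ := min (‖f x₁‖ / 2) ((δ - ‖f x₀‖) / 3) with hη
  have hη0 : 0 < η := lt_min (by positivity) (by linarith)
  have hη1 : η ≤ ‖f x₁‖ / 2 := min_le_left _ _
  have hη2 : η ≤ (δ - ‖f x₀‖) / 3 := min_le_right _ _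
  obtain ⟨F, hF⟩ := happ η hη0
  have hF' : ∀ x ∈ closure O, |‖f x‖ - ‖fun i => eval x (F i)‖| ≤ η := fun x hx =>
    (abs_norm_sub_norm_le _ _).trans (hF x hx)
  obtain ⟨x, hx, hxO, h0⟩ := ip_poly hP hn F hO hb (δ := δ - η) (by
      intro x hx hxc hxO
      have h1 := hbd x hx hxc hxO
      have h2 := abs_le.1 (hF' x hxc)
      linarith) hx₀ hx₀O (by
      have h2 := abs_le.1 (hF' x₀ (subset_closure hx₀O))
      linarith)
  have h1 : ‖f x‖ ≤ η := by
    have h2 := hF x (subset_closure hxO)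
    have h3 : (fun i => eval x (F i)) = 0 := funext h0
    rwa [h3, sub_zero] at h2
  have h2 := hmin ⟨hx, subset_closure hxO⟩
  simp only [Set.mem_ofPred_eq] at h2
  linarith

end Pool.Agent.Run7.h10
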