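import Pool.Agent.Run7.h10.INF

/-!
# The key lemma: solving the equations near infinity
-/

set_option autoImplicit false
set_option linter.unusedSectionVars false

namespace Pool.Agent.Run7.h10

open MvPolynomial Filter Topology Metric

variable {g N m : ℕ}

/-- perturbations by bounded vectors near infinity -/
theorem dir_add {T : Type} {V : Filter T} {x s : T → Fin m → ℂ} {ξ : Fin m → ℂ} (hξ : ‖ξ‖ = 1)
    (hx : Tendsto (fun t => ‖x t‖) V atTop)
    (hdir : Tendsto (fun t => (‖x t‖ : ℂ)⁻¹ • x t) V (𝓝 ξ)) {B : ℝ}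
    (hs : ∀ᶠ t in V, ‖s t‖ ≤ B) :
    Tendsto (fun t => ‖x t + s t‖) V atTop ∧
      Tendsto (fun t => (‖x t + s t‖ : ℂ)⁻¹ • (x t + s t)) V (𝓝 ξ) := by
  have h1 : Tendsto (fun t => ‖x t + s t‖) V atTop := by
    apply tendsto_atTop_mono' V _ (tendsto_atTop_add_const_right V (-B) hx)
    filter_upwards [hs] with t ht
    have h2 := norm_sub_le (x t + s t) (s t)
    rw [add_sub_cancel_right] at h2
    linarith
  refine ⟨h1, ?_⟩
  have hinv : Tendsto (fun t => (‖x t‖)⁻¹) V (𝓝 0) := tendsto_inv_atTop_zero.comp hx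
  have hsz : Tendsto (fun t => (‖x t‖ : ℂ)⁻¹ • s t) V (𝓝 0) := by
    rw [tendsto_zero_iff_norm_tendsto_zero]
    have h3 : Tendsto (fun t => (‖x t‖)⁻¹ * B) V (𝓝 0) := by
      have := hinv.mul_const B
      rwa [zero_mul] at this
    refine squeeze_zero' (Eventually.of_forall fun t => norm_nonneg _) ?_ h3
    filter_upwards [hs] with t ht
    rw [norm_smul, norm_inv, Complex.norm_real, norm_norm]
    exact mul_le_mul_of_nonneg_left ht (by positivity)
  have hsum : Tendsto (fun t => (‖x t‖ : ℂ)⁻¹ • (x t + s t)) V (𝓝 ξ) := by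
    have := hdir.add hsz
    rw [add_zero] at this
    refine this.congr fun t => ?_
    rw [smul_add]
  have hn : Tendsto (fun t => ‖(‖x t‖ : ℂ)⁻¹ • (x t + s t)‖) V (𝓝 1) := by
    rw [← hξ]; exact hsum.norm
  have hn' : Tendsto (fun t => ((‖(‖x t‖ : ℂ)⁻¹ • (x t + s t)‖ : ℝ) : ℂ)⁻¹) V (𝓝 1) := by
    have h4 := (Complex.continuous_ofReal.tendsto 1).comp hn
    rw [Complex.ofReal_one] at h4
    have h5 := h4.inv₀ one_ne_zero
    rw [inv_one] at h5
    exact h5
  have h6 := hn'.smul hsum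
  rw [one_smul] at h6
  refine h6.congr' ?_
  filter_upwards [hx.eventually_gt_atTop 0] with t ht
  have hne : (‖x t‖ : ℂ) ≠ 0 := by
    rw [Ne, Complex.ofReal_eq_zero]; exact ht.ne'
  rw [smul_smul]
  congr 1
  rw [norm_smul, norm_inv, Complex.norm_real, norm_norm, Complex.ofReal_mul, Complex.ofReal_inv,
    mul_inv, inv_inv]
  field_simp

/-- limits along ultrafilters -/
theorem ultra_transfer {ι T : Type} {U : Ultrafilter ι} {V : Ultrafilter T} {κ : T → ι}
    (hκ : Tendsto κ V U) {X : Type} {f : ι → X} {F : Filter X} (h : Tendsto (f ∘ κ) V F) :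
    Tendsto f U F := by
  have h1 : V.map κ = U := Ultrafilter.coe_le_coe.1 hκ
  have h2 : Filter.map κ (V : Filter T) = (U : Filter ι) := by
    rw [← Ultrafilter.coe_map, h1]
  rw [← h2, Filter.tendsto_map'_iff]
  exact h

variable {A : AbelianVariety g N}

/-- the asymptotic differences -/
def Cset (A : AbelianVariety g N) (Q : Ideal (MvPolynomial (Fin g ⊕ Fin (N + 1)) ℂ))
    (p : (Fin g → ℂ) →ₗ[ℂ] (Fin m → ℂ)) (ξ : Fin m → ℂ) : Set (Fin g → ℂ) :=
  {c | ∀ K : ℝ, 0 < K → ∃ w b, Sum.elim w (A.θ b) ∈ Z Q ∧ K < ‖p w‖ ∧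
    ‖(‖p w‖ : ℂ)⁻¹ • p w - ξ‖ < 1 / K ∧ ‖b - w - c‖ < 1 / K}

open AbelianVariety in
theorem key (hs : A.IsSimple) {Q : Ideal (MvPolynomial (Fin g ⊕ Fin (N + 1)) ℂ)}
    (hQ : Q.IsPrime) (hd : g + 1 ≤ dm Q) (hQA : ∀ F ∈ A.eqs, rename Sum.inr F ∈ Q)
    (hscl : Scl Q) {p : (Fin g → ℂ) →ₗ[ℂ] (Fin m → ℂ)} {r : (Fin m → ℂ) →ₗ[ℂ] (Fin g → ℂ)}
    {ξ : Fin m → ℂ} {𝒬 : Set (MvPolynomial (Fin (N + 1)) ℂ)} (hpr : ∀ s, p (r s) = s)
    (hmg : m ≤ g) (hI : Inf Q p ξ 𝒬) {c₀ : Fin g → ℂ} (hc₀ : c₀ ∈ Cset A Q p ξ) :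
    ∃ ε > 0, ∀ c, ‖c - c₀‖ < ε → ∀ K : ℝ, 0 < K → ∃ w, Sum.elim w (A.θ (w + c)) ∈ Z Q ∧
      K < ‖p w‖ ∧ ‖(‖p w‖ : ℂ)⁻¹ • p w - ξ‖ < 1 / K := by
  classical
  have hpc : Continuous p := LinearMap.continuous_of_finiteDimensional p
  -- sequences
  choose w b hmem hw1 hw2 hw3 using fun k : ℕ => hc₀ ((k : ℝ) + 1) (by positivity)
  have hlim0 : Tendsto (fun k : ℕ => 1 / ((k : ℝ) + 1)) atTop (𝓝 0) :=
    tendsto_one_div_add_atTop_nhds_zero_nat (𝕜 := ℝ)
  have hwinf : Tendsto (fun k => ‖p (w k)‖) atTop atTop := by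
    apply tendsto_atTop_mono (fun k => (hw1 k).le)
    exact tendsto_atTop_add_const_right _ _ tendsto_natCast_atTop_atTop
  have hwdir : Tendsto (fun k => (‖p (w k)‖ : ℂ)⁻¹ • p (w k)) atTop (𝓝 ξ) := by
    rw [tendsto_iff_norm_sub_tendsto_zero]
    exact squeeze_zero (fun k => norm_nonneg _) (fun k => (hw2 k).le) hlim0
  have hbw : Tendsto (fun k => b k - w k - c₀) atTop (𝓝 0) := by
    rw [tendsto_zero_iff_norm_tendsto_zero]
    exact squeeze_zero (fun k => norm_nonneg _) (fun k => (hw3 k).le) hlim0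
  obtain ⟨R, hR, hbdd⟩ := A.exists_bdd
  choose lam hlam1 hlam2 using fun k => hbdd (b k)
  set U : Ultrafilter ℕ := hyperfilter ℕ with hU
  have hUt : (U : Filter ℕ) ≤ atTop := Nat.hyperfilter_le_atTop
  obtain ⟨bt, -, hbt⟩ := (isCompact_closedBall (0 : Fin g → ℂ) R).ultrafilter_le_nhds
    (U.map fun k => b k - lam k) (by
      rw [Filter.le_principal_iff]
      show (fun k => b k - lam k) ⁻¹' closedBall 0 R ∈ U
      filter_upwards with k
      rw [Set.mem_preimage, mem_closedBall_zero_iff]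
      exact hlam2 k)
  have hbt' : Tendsto (fun k => b k - lam k) U (𝓝 bt) := hbt
  obtain ⟨l, hl⟩ : ∃ l, A.θ bt l ≠ 0 := Function.ne_iff.1 (A.ne_zero _)
  obtain ⟨r₀, hr₀, hsolve⟩ := solve_near hQ hd hQA hscl hl
  -- flatness data
  choose n εf hεf Cf hCf hflat using hI.flat
  set ζ : ℕ → Fin m → ℂ := fun k => (‖p (w k)‖ : ℂ)⁻¹ • p (w k) with hζ
  have hfl : ∀ (j : Fin g) (k : ℕ), ∃ (τ : Fin (n j) → ℂ) (Dm : Fin (n j) → Fin m → ℂ),
      1 / εf j < ‖(‖p (w k)‖ : ℂ)‖ → ‖ζ k - ξ‖ < εf j → (∀ i a, ‖Dm i a‖ ≤ Cf j) ∧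
      ∀ s : Fin m → ℂ, ‖s‖ ≤ εf j * ‖(‖p (w k)‖ : ℂ)‖ → ∀ z Y, Sum.elim z Y ∈ Z Q →
      p z = (‖p (w k)‖ : ℂ) • ζ k + s →
      ∃ i, ‖z j - τ i - ∑ a, Dm i a * s a‖ ≤ Cf j * ‖s‖ ^ 2 / ‖(‖p (w k)‖ : ℂ)‖ := by
    intro j k
    by_cases h1 : 1 / εf j < ‖(‖p (w k)‖ : ℂ)‖
    · by_cases h2 : ‖ζ k - ξ‖ < εf j
      · obtain ⟨τ, Dm, h3, h4⟩ := hflat j (‖p (w k)‖ : ℂ) (ζ k) h1 h2
        exact ⟨τ, Dm, fun _ _ => ⟨h3, h4⟩⟩
      · exact ⟨0, 0, fun _ h => absurd h h2⟩
    · exact ⟨0, 0, fun h => absurd h h1⟩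
  choose τ Dm hflk using hfl
  have hgood : ∀ j, ∀ᶠ k in (U : Filter ℕ), 1 / εf j < ‖(‖p (w k)‖ : ℂ)‖ ∧ ‖ζ k - ξ‖ < εf j := by
    intro j
    apply hUt
    have h1 : ∀ᶠ k in atTop, 1 / εf j < ‖p (w k)‖ := hwinf.eventually_gt_atTop _
    have h2 : ∀ᶠ k in atTop, ‖ζ k - ξ‖ < εf j := by
      have := hwdir (ball_mem_nhds ξ (hεf j))
      filter_upwards [this] with k hk
      rw [Set.mem_preimage, mem_ball, dist_eq_norm] at hk
      exact hk
    filter_upwards [h1, h2] with k hk1 hk2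
    refine ⟨?_, hk2⟩
    rwa [Complex.norm_real, norm_norm]
  -- limit slopes
  have hDlim : ∀ (j : Fin g) (i : Fin (n j)) (a : Fin m), ∃ D : ℂ,
      Tendsto (fun k => Dm j k i a) U (𝓝 D) := by
    intro j i a
    obtain ⟨D, -, hD⟩ := (isCompact_closedBall (0 : ℂ) (Cf j)).ultrafilter_le_nhds
      (U.map fun k => Dm j k i a) (by
        rw [Filter.le_principal_iff]
        show (fun k => Dm j k i a) ⁻¹' closedBall 0 (Cf j) ∈ U
        filter_upwards [hgood j] with k hk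
        rw [Set.mem_preimage, mem_closedBall_zero_iff]
        exact (hflk j k hk.1 hk.2).1 i a)
    exact ⟨D, hD⟩
  choose D hD using hDlim
  set v : ∀ j, Fin (n j) → ℂ := fun j i => limUnder (U : Filter ℕ) (fun k => τ j k i - w k j)
    with hv
  -- the affine maps
  set lin : (∀ j, Fin (n j)) → (Fin m → ℂ) → (Fin g → ℂ) := fun ι s j =>
    ∑ a, D j (ι j) a * s a with hlin
  set L : (∀ j, Fin (n j)) → Fin m → Fin g → ℂ := fun ι i =>
    r (Pi.single i 1) + (lin ι (Pi.single i 1) - r (p (lin ι (Pi.single i 1)))) with hL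
  set vv : (∀ j, Fin (n j)) → Fin g → ℂ := fun ι j => v j (ι j) with hvv
  set bb : (∀ j, Fin (n j)) → Fin g → ℂ := fun ι => bt + (vv ι - r (p (vv ι))) with hbb
  set L' : Fin g → Fin m → ℂ := fun j k => p (Pi.single j 1) k with hL'
  have hLL : ∀ ι, ∀ i k, ∑ j, L ι i j * L' j k = if i = k then 1 else 0 := by
    intro ι i k
    have h1 : ∑ j, L ι i j * L' j k = p (L ι i) k := by
      conv_rhs => rw [pi_eq_sum_univ' (L ι i)]
      rw [map_sum, Finset.sum_apply]
      apply Finset.sum_congr rfl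
      intro j _
      rw [map_smul, Pi.smul_apply, smul_eq_mul]
    rw [h1, hL]
    simp only [map_add, map_sub, hpr, sub_self, add_zero]
    rw [Pi.single_apply]
    simp only [eq_comm]
  have hlin_eq : ∀ ι s, pL (bb ι) (L ι) s =
      bt + (r s + ((vv ι + lin ι s) - r (p (vv ι + lin ι s)))) := by
    intro ι s
    have h1 : lin ι s = ∑ i, s i • lin ι (Pi.single i 1) := by
      funext j
      rw [Finset.sum_apply, hlin]
      simp only [Pi.smul_apply, smul_eq_mul]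
      apply Finset.sum_congr rfl
      intro i _
      rw [Finset.sum_eq_single i]
      · rw [Pi.single_eq_same, mul_one, mul_comm]
      · intro a _ ha
        rw [Pi.single_eq_of_ne ha, mul_zero]
      · intro h; exact absurd (Finset.mem_univ _) h
    have h2 : r s = ∑ i, s i • r (Pi.single i 1) := by
      conv_lhs => rw [pi_eq_sum_univ' s]
      rw [map_sum]
      simp only [map_smul]
    have h3 : pL (bb ι) (L ι) s = bb ι + ∑ i, s i • L ι i := by
      funext j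
      rw [pL, Pi.add_apply, Finset.sum_apply]
      rfl
    rw [h3]
    have h4 : ∑ i, s i • L ι i = r s + (lin ι s - r (p (lin ι s))) := by
      rw [h2]
      conv_rhs => rw [h1]
      simp only [hL, smul_add, smul_sub, Finset.sum_add_distrib, Finset.sum_sub_distrib, map_sum,
        map_smul]
    have habel : ∀ (a b c d e f : Fin g → ℂ),
        a + (b - c) + (d + (e - f)) = a + (d + ((b + e) - (c + f))) := by
      intros; abel
    rw [h4, map_add, map_add]
    exact habel _ _ _ _ _ _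
  -- bad radii
  have hcount : ∀ ι, {s : Fin m → ℂ | ∀ q ∈ 𝒬, eval (A.θ (pL (bb ι) (L ι) s)) q = 0}.Countable :=
    fun ι => countable_simple hs (hLL ι) hI.bounds hI.hom (by omega)
  have hbad : (⋃ ι, (fun s => ‖pL (bb ι) (L ι) s - bt‖) ''
      {s : Fin m → ℂ | ∀ q ∈ 𝒬, eval (A.θ (pL (bb ι) (L ι) s)) q = 0}).Countable :=
    Set.countable_iUnion fun ι => (hcount ι).image _
  obtain ⟨rs, hrs1, hrs2⟩ := (hbad.dense_compl ℝ).exists_mem_open isOpen_Ioo
    (⟨r₀ / 2, by constructor <;> linarith⟩ : (Set.Ioo 0 r₀).Nonempty)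
  have hwe : Tendsto (fun k => w k + (c₀ - lam k)) U (𝓝 bt) := by
    have h1 : Tendsto (fun k => (b k - lam k) - (b k - w k - c₀)) U (𝓝 (bt - 0)) :=
      hbt'.sub (hbw.mono_left hUt)
    rw [sub_zero] at h1
    refine h1.congr fun k => ?_
    abel
  obtain ⟨ε, hε, hev⟩ := hsolve ℕ U w (fun k => b k - lam k) (fun k => c₀ - lam k) (by
      intro k
      apply scl_exp hscl _ (hmem k)
      rw [exp_eq, sub_sub_cancel_left]
      exact A.Λ.neg_mem (hlam1 k)) hbt' hwe rs hrs2.1 hrs2.2.le (by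
    intro T V κ e' z Y b₁ hκ he0 hmemT hzb hb₁l hY hb₁
    apply hrs1
    -- displacement
    have hκU : Tendsto κ V U := hκ
    have hκt : Tendsto κ V atTop := hκ.mono_right hUt
    have hu : Tendsto (fun t => z t - w (κ t)) V (𝓝 (b₁ - bt)) := by
      have h1 := (hzb.sub he0).sub (hwe.comp hκU)
      rw [sub_zero] at h1
      refine h1.congr fun t => ?_
      simp only [Function.comp_apply]
      abel
    have hpu : Tendsto (fun t => p (z t - w (κ t))) V (𝓝 (p (b₁ - bt))) :=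
      (hpc.tendsto _).comp hu
    obtain ⟨B, hB⟩ : ∃ B : ℝ, ∀ᶠ t in (V : Filter T), ‖p (z t - w (κ t))‖ ≤ B := by
      refine ⟨‖p (b₁ - bt)‖ + 1, ?_⟩
      have h1 : ∀ᶠ t in (V : Filter T), ‖p (z t - w (κ t))‖ < ‖p (b₁ - bt)‖ + 1 :=
        hpu.norm.eventually_lt_const (by linarith)
      exact h1.mono fun t ht => ht.le
    have hxinf : Tendsto (fun t => ‖p (w (κ t))‖) V atTop := hwinf.comp hκt
    have hxdir : Tendsto (fun t => (‖p (w (κ t))‖ : ℂ)⁻¹ • p (w (κ t))) V (𝓝 ξ) := hwdir.comp hκt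
    have hpz : ∀ t, p (w (κ t)) + p (z t - w (κ t)) = p (z t) := by
      intro t
      rw [← map_add, add_sub_cancel]
    obtain ⟨hzinf, hzdir⟩ := dir_add hI.norm_one hxinf hxdir hB
    simp only [hpz] at hzinf hzdir
    -- the limit lies in the zero set
    have hq : ∀ q ∈ 𝒬, eval (A.θ b₁) q = 0 := by
      intro q hq
      have h1 := hI.limit q hq T V inferInstance z Y (A.xch l b₁) hmemT hzinf hzdir hY
      obtain ⟨nq, hnq⟩ := hI.hom q hq
      rw [θ_eq_smul hb₁l, eval_scale hnq, h1, mul_zero]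
    -- indices
    have hidx : ∀ j, ∃ i, ∀ᶠ t in (V : Filter T),
        ‖z t j - τ j (κ t) i - ∑ a, Dm j (κ t) i a * p (z t - w (κ t)) a‖ ≤
          Cf j * ‖p (z t - w (κ t))‖ ^ 2 / ‖(‖p (w (κ t))‖ : ℂ)‖ := by
      intro j
      rw [← Ultrafilter.eventually_exists_iff]
      have h1 : ∀ᶠ t in (V : Filter T), B ≤ εf j * ‖(‖p (w (κ t))‖ : ℂ)‖ := by
        have h2 : Tendsto (fun t => εf j * ‖(‖p (w (κ t))‖ : ℂ)‖) V atTop := by
          apply Tendsto.const_mul_atTop (hεf j)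
          refine hxinf.congr fun t => ?_
          rw [Complex.norm_real, norm_norm]
        exact h2.eventually_ge_atTop B
      filter_upwards [hκU.eventually (hgood j), h1, hB, hmemT, hxinf.eventually_gt_atTop 0]
        with t ht1 ht2 ht3 ht4 ht5
      have hne : (‖p (w (κ t))‖ : ℂ) ≠ 0 := by
        rw [Ne, Complex.ofReal_eq_zero]; exact ht5.ne'
      exact (hflk j (κ t) ht1.1 ht1.2).2 (p (z t - w (κ t))) (ht3.trans ht2) (z t) (Y t) ht4 (by
        rw [hζ]
        simp only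
        rw [smul_smul, mul_inv_cancel₀ hne, one_smul, hpz])
    choose ι hι using hidx
    have hval : ∀ j, (b₁ - bt) j = v j (ι j) + ∑ a, D j (ι j) a * p (b₁ - bt) a := by
      intro j
      have herr : Tendsto (fun t => z t j - τ j (κ t) (ι j) -
          ∑ a, Dm j (κ t) (ι j) a * p (z t - w (κ t)) a) V (𝓝 0) := by
        rw [tendsto_zero_iff_norm_tendsto_zero]
        have h1 : Tendsto (fun t => Cf j * B ^ 2 * (‖p (w (κ t))‖)⁻¹) V (𝓝 0) := by
          have := (tendsto_inv_atTop_zero.comp hxinf).const_mul (Cf j * B ^ 2)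
          rw [mul_zero] at this
          exact this
        refine squeeze_zero' (Eventually.of_forall fun t => norm_nonneg _) ?_ h1
        filter_upwards [hι j, hB] with t ht1 ht2
        refine ht1.trans ?_
        rw [Complex.norm_real, norm_norm, div_eq_mul_inv]
        apply mul_le_mul_of_nonneg_right _ (by positivity)
        apply mul_le_mul_of_nonneg_left _ (hCf j)
        exact pow_le_pow_left₀ (norm_nonneg _) ht2 2
      have hsum : Tendsto (fun t => ∑ a, Dm j (κ t) (ι j) a * p (z t - w (κ t)) a) V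
          (𝓝 (∑ a, D j (ι j) a * p (b₁ - bt) a)) := by
        apply tendsto_finsetSum
        intro a _
        exact ((hD j (ι j) a).comp hκU).mul ((tendsto_pi_nhds.1 hpu) a)
      have huj : Tendsto (fun t => (z t - w (κ t)) j) V (𝓝 ((b₁ - bt) j)) :=
        (tendsto_pi_nhds.1 hu) j
      have h2 : Tendsto ((fun k => τ j k (ι j) - w k j) ∘ κ) V
          (𝓝 ((b₁ - bt) j - ∑ a, D j (ι j) a * p (b₁ - bt) a - 0)) := by
        refine ((huj.sub hsum).sub herr).congr fun t => ?_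
        simp only [Function.comp_apply, Pi.sub_apply]
        ring
      have h3 := (ultra_transfer hκU h2).limUnder_eq
      rw [hv]
      simp only
      rw [h3]
      ring
    have hvec : b₁ - bt = vv ι + lin ι (p (b₁ - bt)) := funext hval
    refine Set.mem_iUnion.2 ⟨ι, p (b₁ - bt), ?_, ?_⟩
    · rw [Set.mem_ofPred_eq, hlin_eq, ← hvec]
      have h1 : bt + (r (p (b₁ - bt)) + (b₁ - bt - r (p (b₁ - bt)))) = b₁ := by abel
      rw [h1]
      exact hq
    · simp only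
      rw [hlin_eq, ← hvec, ← hb₁]
      congr 1
      abel)
  -- conclusion
  refine ⟨ε, hε, fun c hc K hK => ?_⟩
  have hz : ∀ k, ∃ z, (∀ e' : Fin g → ℂ, ‖e' - (c₀ - lam k)‖ < ε → ∃ z,
      Sum.elim z (A.θ (z + e')) ∈ Z Q ∧ ‖z + e' - bt‖ < rs) →
      Sum.elim z (A.θ (z + (c - lam k))) ∈ Z Q ∧ ‖z + (c - lam k) - bt‖ < rs := by
    intro k
    by_cases h : ∀ e' : Fin g → ℂ, ‖e' - (c₀ - lam k)‖ < ε → ∃ z,
      Sum.elim z (A.θ (z + e')) ∈ Z Q ∧ ‖z + e' - bt‖ < rs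
    · obtain ⟨z, h1, h2⟩ := h (c - lam k) (by
        have : c - lam k - (c₀ - lam k) = c - c₀ := by abel
        rw [this]; exact hc)
      exact ⟨z, fun _ => ⟨h1, h2⟩⟩
    · exact ⟨0, fun h' => absurd h' h⟩
  choose z hz using hz
  obtain ⟨C, hC⟩ := (LinearMap.toContinuousLinearMap p).bound
  have hB : ∀ᶠ k in (U : Filter ℕ), ‖p (z k - w k)‖ ≤ C * (rs + 1 + ε) := by
    have h1 : ∀ᶠ k in (U : Filter ℕ), ‖w k + (c₀ - lam k) - bt‖ < 1 := by
      have h2 := hwe (ball_mem_nhds bt one_pos)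
      filter_upwards [h2] with k hk
      rw [Set.mem_preimage, mem_ball, dist_eq_norm] at hk
      exact hk
    filter_upwards [hev, h1] with k hk1 hk2
    have h3 := (hz k hk1).2
    have h4 : z k - w k = (z k + (c - lam k) - bt) - (w k + (c₀ - lam k) - bt) - (c - c₀) := by
      abel
    have h5 : ‖z k - w k‖ ≤ rs + 1 + ε := by
      rw [h4]
      calc _ ≤ ‖(z k + (c - lam k) - bt) - (w k + (c₀ - lam k) - bt)‖ + ‖c - c₀‖ := norm_sub_le _ _
        _ ≤ (‖z k + (c - lam k) - bt‖ + ‖w k + (c₀ - lam k) - bt‖) + ‖c - c₀‖ :=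
            add_le_add_left (norm_sub_le _ _) _
        _ ≤ rs + 1 + ε := by linarith
    exact (hC.2 (z k - w k)).trans (mul_le_mul_of_nonneg_left h5 hC.1.le)
  obtain ⟨hzinf, hzdir⟩ := dir_add hI.norm_one (hwinf.mono_left hUt) (hwdir.mono_left hUt) hB
  have hpz : ∀ k, p (w k) + p (z k - w k) = p (z k) := by
    intro k
    rw [← map_add, add_sub_cancel]
  simp only [hpz] at hzinf hzdir
  have h1 : ∀ᶠ k in (U : Filter ℕ), ‖(‖p (z k)‖ : ℂ)⁻¹ • p (z k) - ξ‖ < 1 / K := by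
    have := hzdir (ball_mem_nhds ξ (show 0 < 1 / K by positivity))
    filter_upwards [this] with k hk
    rw [Set.mem_preimage, mem_ball, dist_eq_norm] at hk
    exact hk
  obtain ⟨k, hk1, hk2, hk3⟩ := (hev.and (h1.and (hzinf.eventually_gt_atTop K))).exists
  refine ⟨z k, ?_, hk3, hk2⟩
  have h3 := (hz k hk1).1
  apply scl_exp hscl _ h3
  rw [exp_eq]
  have : z k + c - (z k + (c - lam k)) = lam k := by abel
  rw [this]
  exact hlam1 k

end Pool.Agent.Run7.h10
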