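import Pool.Agent.Run7.h10.CC4

/-!
# The local lemma: solving equations near a point of an abelian variety
-/

set_option autoImplicit false
set_option linter.unusedSectionVars false

namespace Pool.Agent.Run7.h10

open MvPolynomial Filter Topology Metric

variable {g N : ℕ} {A : AbelianVariety g N}

/-- the homogeneous equations of the variety -/
def AbelianVariety.eqs (A : AbelianVariety g N) : Set (MvPolynomial (Fin (N + 1)) ℂ) :=
  {F | (∃ n, F.IsHomogeneous n) ∧ ∀ z, eval (A.θ z) F = 0}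

open AbelianVariety in
theorem local_data {l : Fin (N + 1)} {b : Fin g → ℂ} (hl : A.θ b l ≠ 0) :
    ∃ (ℓ : (Fin (N + 1) → ℂ) →L[ℂ] (Fin g → ℂ)) (r₀ ρ : ℝ), 0 < r₀ ∧ 0 < ρ ∧
      (∀ z ∈ closedBall b r₀, A.θ z l ≠ 0 ∧ ‖A.xch l z - A.xch l b‖ < ρ) ∧
      (∀ Y : Fin (N + 1) → ℂ, Y l = 1 → (∀ F ∈ A.eqs, eval Y F = 0) → ‖Y - A.xch l b‖ ≤ ρ →
        ∀ z ∈ closedBall b r₀, ℓ Y = ℓ (A.xch l z) → Y = A.xch l z) ∧
      (∀ η > 0, ∃ G : Fin g → MvPolynomial (Fin g) ℂ, ∀ z ∈ closedBall b r₀, ∀ i,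
        ‖ℓ (A.xch l z) i - eval z (G i)‖ ≤ η) := by
  classical
  obtain ⟨ℓ, hℓ⟩ := exists_lin hl
  have hℓ' : HasStrictFDerivAt (fun z => ℓ (A.xch l z))
      ((ContinuousLinearEquiv.refl ℂ (Fin g → ℂ) : (Fin g → ℂ) →L[ℂ] (Fin g → ℂ))) b := hℓ
  obtain ⟨r₁, hr₁, hinv⟩ := Metric.eventually_nhds_iff.1 hℓ'.eventually_left_inverse
  have hinj : ∀ z z', ‖z - b‖ < r₁ → ‖z' - b‖ < r₁ → ℓ (A.xch l z) = ℓ (A.xch l z') → z = z' := by
    intro z z' hz hz' h
    have h1 := hinv (y := z) (by rw [dist_eq_norm]; exact hz)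
    have h2 := hinv (y := z') (by rw [dist_eq_norm]; exact hz')
    rw [← h1, ← h2]
    simp only [h]
  obtain ⟨ρ₁, hρ₁, hlift⟩ := A.exists_lift hl hr₁
  have hcont : ContinuousAt (A.xch l) b := (analyticAt_xch hl).continuousAt
  obtain ⟨r₂, hr₂, hc₂⟩ := Metric.continuousAt_iff.1 hcont (ρ₁ / 2) (by positivity)
  obtain ⟨r₃, hr₃, hc₃⟩ := Metric.isOpen_iff.1 (isOpen_chart (A := A) l) b hl
  have happ : ∀ i, ∃ r > 0, ContinuousOn (fun z => ℓ (A.xch l z) i) (closedBall b r) ∧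
      ∀ η > 0, ∃ F : MvPolynomial (Fin g) ℂ, ∀ x ∈ closedBall b r,
        ‖ℓ (A.xch l x) i - eval x F‖ ≤ η := by
    intro i
    apply poly_approx
    have h1 : AnalyticAt ℂ (fun z => ℓ (A.xch l z)) b := (ℓ.analyticAt _).comp (analyticAt_xch hl)
    exact (analyticAt_pi_iff.1 h1) i
  choose r₄ hr₄ hr₄' happ' using happ
  obtain ⟨r₅, hr₅, hr₅'⟩ : ∃ r₅ > 0, ∀ i, r₅ ≤ r₄ i := by
    by_cases hg : Nonempty (Fin g)
    · obtain ⟨i, hi⟩ := Finite.exists_min r₄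
      exact ⟨r₄ i, hr₄ i, hi⟩
    · exact ⟨1, one_pos, fun i => (hg ⟨i⟩).elim⟩
  set r₀ := min (min (r₁ / 2) (r₂ / 2)) (min (r₃ / 2) r₅) with hr₀
  have e1 : r₀ ≤ r₁ / 2 := (min_le_left _ _).trans (min_le_left _ _)
  have e2 : r₀ ≤ r₂ / 2 := (min_le_left _ _).trans (min_le_right _ _)
  have e3 : r₀ ≤ r₃ / 2 := (min_le_right _ _).trans (min_le_left _ _)
  have e4 : r₀ ≤ r₅ := (min_le_right _ _).trans (min_le_right _ _)
  have hr₀0 : 0 < r₀ := by
    rw [hr₀]; positivity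
  refine ⟨ℓ, r₀, ρ₁ / 2, hr₀0, by positivity, ?_, ?_, ?_⟩
  · intro z hz
    rw [mem_closedBall] at hz
    refine ⟨hc₃ (by rw [mem_ball]; linarith), ?_⟩
    rw [← dist_eq_norm]
    exact hc₂ (by linarith)
  · intro Y hY1 hYe hYρ z hz h
    obtain ⟨z', hz'1, hz'2, hz'3⟩ := hlift Y hY1 (fun F hF1 hF2 => hYe F ⟨hF1, hF2⟩)
      (by linarith)
    rw [mem_closedBall, dist_eq_norm] at hz
    rw [← hz'3]
    congr 1
    apply hinj z' z hz'1 (by linarith)
    rw [hz'3, h]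
  · intro η hη
    choose G hG using fun i => happ' i η hη
    refine ⟨G, fun z hz i => hG i z ?_⟩
    rw [mem_closedBall] at hz ⊢
    linarith [hr₅' i]

/-- invariance under scaling of the homogeneous coordinates -/
def Scl (Q : Ideal (MvPolynomial (Fin g ⊕ Fin (N + 1)) ℂ)) : Prop :=
  ∀ (z : Fin g → ℂ) (Y : Fin (N + 1) → ℂ) (c : ℂ), Sum.elim z Y ∈ Z Q → Sum.elim z (c • Y) ∈ Z Q

open AbelianVariety in
theorem Scl.xch {Q : Ideal (MvPolynomial (Fin g ⊕ Fin (N + 1)) ℂ)} (h : Scl Q)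
    {z w : Fin g → ℂ} {l : Fin (N + 1)} (hl : A.θ w l ≠ 0) :
    Sum.elim z (A.xch l w) ∈ Z Q ↔ Sum.elim z (A.θ w) ∈ Z Q := by
  constructor
  · intro h1
    rw [θ_eq_smul hl]
    exact h _ _ _ h1
  · intro h1
    have h2 := h _ _ (A.θ w l)⁻¹ h1
    have h3 : A.xch l w = (A.θ w l)⁻¹ • A.θ w := by
      funext i
      simp [AbelianVariety.xch, div_eq_inv_mul]
    rw [h3]
    exact h2

open AbelianVariety in
theorem solve_near {Q : Ideal (MvPolynomial (Fin g ⊕ Fin (N + 1)) ℂ)} (hQ : Q.IsPrime)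
    (hd : g + 1 ≤ dm Q) (hQA : ∀ F ∈ A.eqs, rename Sum.inr F ∈ Q) (hscl : Scl Q)
    {l : Fin (N + 1)} {b : Fin g → ℂ} (hl : A.θ b l ≠ 0) :
    ∃ r₀ > 0, ∀ (ι : Type) (U : Ultrafilter ι) (w b' e : ι → Fin g → ℂ),
      (∀ k, Sum.elim (w k) (A.θ (b' k)) ∈ Z Q) → Tendsto b' U (𝓝 b) →
      Tendsto (fun k => w k + e k) U (𝓝 b) → ∀ r : ℝ, 0 < r → r ≤ r₀ →
      (∀ (T : Type) (V : Ultrafilter T) (κ : T → ι) (e' z : T → Fin g → ℂ)
        (Y : T → Fin (N + 1) → ℂ) (b₁ : Fin g → ℂ), Tendsto κ V U →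
        Tendsto (fun t => e' t - e (κ t)) V (𝓝 0) →
        (∀ᶠ t in V, Sum.elim (z t) (Y t) ∈ Z Q) →
        Tendsto (fun t => z t + e' t) V (𝓝 b₁) → A.θ b₁ l ≠ 0 →
        Tendsto Y V (𝓝 (A.xch l b₁)) → ‖b₁ - b‖ = r → False) →
      ∃ ε > 0, ∀ᶠ k in (U : Filter ι), ∀ e' : Fin g → ℂ, ‖e' - e k‖ < ε →
        ∃ z, Sum.elim z (A.θ (z + e')) ∈ Z Q ∧ ‖z + e' - b‖ < r := by
  classical
  obtain ⟨ℓ, r₀, ρ, hr₀, hρ, hloc, huniq, happ⟩ := local_data hl
  refine ⟨r₀, hr₀, ?_⟩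
  intro ι U w b' e hmem hb' hwe r hr hrr₀ hbad
  -- the functions
  set f : (Fin g → ℂ) → (Fin g ⊕ Fin (N + 1) → ℂ) → Fin (g + 1) → ℂ := fun e' x =>
    Fin.cons (x (Sum.inr l) - 1) (fun i => ℓ (x ∘ Sum.inr) i -
      ℓ (A.xch l (x ∘ Sum.inl + e')) i) with hf
  have hxc : ∀ z ∈ closedBall b r₀, ContinuousAt (fun z => ℓ (A.xch l z)) z := fun z hz =>
    ((ℓ.analyticAt _).comp (analyticAt_xch (hloc z hz).1)).continuousAt
  -- uniform lower bound at the boundary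
  have hδ : ∃ δ > 0, ∀ᶠ k in (U : Filter ι), ∀ e' : Fin g → ℂ, ‖e' - e k‖ < δ →
      ∀ (z : Fin g → ℂ) (Y : Fin (N + 1) → ℂ), Sum.elim z Y ∈ Z Q →
        (‖z + e' - b‖ ≤ r ∧ ‖Y - A.xch l b‖ ≤ ρ) →
        (‖z + e' - b‖ = r ∨ ‖Y - A.xch l b‖ = ρ) → δ ≤ ‖f e' (Sum.elim z Y)‖ := by
    by_contra hcon
    push Not at hcon
    set T := ι × (Fin g → ℂ) × (Fin g → ℂ) × (Fin (N + 1) → ℂ) with hT
    let m : T → ι × ((Fin g → ℂ) × (Fin (g + 1) → ℂ)) := fun t =>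
      (t.1, (t.2.1 - e t.1, f t.2.1 (Sum.elim t.2.2.1 t.2.2.2)))
    let S : Set T := {t | Sum.elim t.2.2.1 t.2.2.2 ∈ Z Q ∧
      (‖t.2.2.1 + t.2.1 - b‖ ≤ r ∧ ‖t.2.2.2 - A.xch l b‖ ≤ ρ) ∧
      (‖t.2.2.1 + t.2.1 - b‖ = r ∨ ‖t.2.2.2 - A.xch l b‖ = ρ)}
    have hne : (comap m ((U : Filter ι) ×ˢ 𝓝 (0, 0)) ⊓ 𝓟 S).NeBot := by
      rw [Filter.inf_principal_neBot_iff]
      intro u hu
      obtain ⟨s, hs, hsu⟩ := Filter.mem_comap.1 hu
      obtain ⟨s₁, hs₁, s₂, hs₂, hss⟩ := Filter.mem_prod_iff.1 hs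
      obtain ⟨δ, hδ, hδs⟩ := Metric.mem_nhds_iff.1 hs₂
      obtain ⟨k, hk1, hk2⟩ := (Filter.Eventually.and (hcon δ hδ) hs₁).exists
      obtain ⟨e', he', z, Y, h1, h2, h3, h4⟩ := hk1
      refine ⟨(k, e', z, Y), hsu (hss ⟨hk2, hδs ?_⟩), h1, h2, h3⟩
      rw [mem_ball]
      show dist ((e' - e k, f e' (Sum.elim z Y)) : (Fin g → ℂ) × (Fin (g + 1) → ℂ)) (0, 0) < δ
      rw [Prod.dist_eq, max_lt_iff, dist_zero_right, dist_zero_right]
      exact ⟨he', h4⟩
    let V : Ultrafilter T := Ultrafilter.of (comap m ((U : Filter ι) ×ˢ 𝓝 (0, 0)) ⊓ 𝓟 S)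
    have hV : (V : Filter T) ≤ comap m ((U : Filter ι) ×ˢ 𝓝 (0, 0)) ⊓ 𝓟 S := Ultrafilter.of_le _
    have hVm : Tendsto m V ((U : Filter ι) ×ˢ 𝓝 (0, 0)) :=
      Filter.tendsto_iff_comap.2 (hV.trans inf_le_left)
    have hVS : ∀ᶠ t in (V : Filter T), t ∈ S := Filter.le_principal_iff.1 (hV.trans inf_le_right)
    have hκ : Tendsto (Prod.fst ∘ m) V U := Filter.tendsto_fst.comp hVm
    have hef : Tendsto (Prod.snd ∘ m) V (𝓝 (0, 0)) := Filter.tendsto_snd.comp hVm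
    rw [nhds_prod_eq] at hef
    have he0 : Tendsto (Prod.fst ∘ (Prod.snd ∘ m)) V (𝓝 0) := Filter.tendsto_fst.comp hef
    have hf0 : Tendsto (Prod.snd ∘ (Prod.snd ∘ m)) V (𝓝 0) := Filter.tendsto_snd.comp hef
    obtain ⟨b₁, hb₁, hb₁t⟩ := (isCompact_closedBall b r).ultrafilter_le_nhds
      (V.map fun t : T => t.2.2.1 + t.2.1) (by
        rw [Filter.le_principal_iff]
        show (fun t : T => t.2.2.1 + t.2.1) ⁻¹' closedBall b r ∈ V
        filter_upwards [hVS] with t ht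
        rw [Set.mem_preimage, mem_closedBall, dist_eq_norm]
        exact ht.2.1.1)
    have hb₁t' : Tendsto (fun t : T => t.2.2.1 + t.2.1) V (𝓝 b₁) := hb₁t
    obtain ⟨Y₁, hY₁, hY₁t⟩ := (isCompact_closedBall (A.xch l b) ρ).ultrafilter_le_nhds
      (V.map fun t : T => t.2.2.2) (by
        rw [Filter.le_principal_iff]
        show (fun t : T => t.2.2.2) ⁻¹' closedBall (A.xch l b) ρ ∈ V
        filter_upwards [hVS] with t ht
        rw [Set.mem_preimage, mem_closedBall, dist_eq_norm]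
        exact ht.2.1.2)
    have hY₁t' : Tendsto (fun t : T => t.2.2.2) V (𝓝 Y₁) := hY₁t
    have hb₁r₀ : b₁ ∈ closedBall b r₀ := closedBall_subset_closedBall hrr₀ hb₁
    have hYl : Y₁ l = 1 := by
      have h1 : Tendsto (fun t : T => f t.2.1 (Sum.elim t.2.2.1 t.2.2.2) 0) V (𝓝 0) :=
        (tendsto_pi_nhds.1 hf0) 0
      have h2 : Tendsto (fun t : T => t.2.2.2 l - 1) V (𝓝 (Y₁ l - 1)) :=
        ((tendsto_pi_nhds.1 hY₁t') l).sub_const 1
      exact sub_eq_zero.1 (tendsto_nhds_unique h2 h1)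
    have hYℓ : ℓ Y₁ = ℓ (A.xch l b₁) := by
      funext i
      have h1 : Tendsto (fun t : T => f t.2.1 (Sum.elim t.2.2.1 t.2.2.2) i.succ) V (𝓝 0) :=
        (tendsto_pi_nhds.1 hf0) i.succ
      have h2 : Tendsto (fun t : T => ℓ t.2.2.2 i) V (𝓝 (ℓ Y₁ i)) :=
        (tendsto_pi_nhds.1 ((ℓ.continuous.tendsto _).comp hY₁t')) i
      have h3 : Tendsto (fun t : T => ℓ (A.xch l (t.2.2.1 + t.2.1)) i) V
          (𝓝 (ℓ (A.xch l b₁) i)) :=
        (tendsto_pi_nhds.1 ((hxc b₁ hb₁r₀).tendsto.comp hb₁t')) i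
      have h4 := h2.sub h3
      exact sub_eq_zero.1 (tendsto_nhds_unique h4 h1)
    have hYe : ∀ F ∈ A.eqs, eval Y₁ F = 0 := by
      intro F hF
      have h1 : Tendsto (fun t : T => eval t.2.2.2 F) V (𝓝 (eval Y₁ F)) :=
        ((MvPolynomial.continuous_eval F).tendsto _).comp hY₁t'
      refine tendsto_nhds_unique h1 (tendsto_const_nhds.congr' ?_)
      filter_upwards [hVS] with t ht
      have h2 := ht.1 _ (hQA F hF)
      rw [eval_rename] at h2
      exact h2.symm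
    have hY₁' : ‖Y₁ - A.xch l b‖ ≤ ρ := by
      rw [← dist_eq_norm]; exact hY₁
    have hYx : Y₁ = A.xch l b₁ := huniq Y₁ hYl hYe hY₁' b₁ hb₁r₀ hYℓ
    have hbr : ‖b₁ - b‖ = r := by
      have h1 : ∀ᶠ t in (V : Filter T), ‖t.2.2.1 + t.2.1 - b‖ = r ∨ ‖t.2.2.2 - A.xch l b‖ = ρ := by
        filter_upwards [hVS] with t ht
        exact ht.2.2
      rw [Ultrafilter.eventually_or] at h1
      rcases h1 with h1 | h1
      · have h2 : Tendsto (fun t : T => ‖t.2.2.1 + t.2.1 - b‖) V (𝓝 ‖b₁ - b‖) :=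
          (hb₁t'.sub_const b).norm
        refine tendsto_nhds_unique h2 (tendsto_const_nhds.congr' ?_)
        filter_upwards [h1] with t ht
        exact ht.symm
      · exfalso
        have h2 : Tendsto (fun t : T => ‖t.2.2.2 - A.xch l b‖) V (𝓝 ‖Y₁ - A.xch l b‖) :=
          (hY₁t'.sub_const _).norm
        have h3 : ‖Y₁ - A.xch l b‖ = ρ := by
          refine tendsto_nhds_unique h2 (tendsto_const_nhds.congr' ?_)
          filter_upwards [h1] with t ht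
          exact ht.symm
        rw [hYx] at h3
        exact absurd h3 (hloc b₁ hb₁r₀).2.ne
    refine hbad T V (fun t => t.1) (fun t => t.2.1) (fun t => t.2.2.1) (fun t => t.2.2.2) b₁ hκ he0
      ?_ hb₁t' (hloc b₁ hb₁r₀).1 (hYx ▸ hY₁t') hbr
    filter_upwards [hVS] with t ht
    exact ht.1
  obtain ⟨δ, hδ0, hδ⟩ := hδ
  -- closeness
  have hb0 : b ∈ closedBall b r₀ := mem_closedBall_self hr₀.le
  obtain ⟨r₆, hr₆, hcl⟩ := Metric.continuousAt_iff.1 (hxc b hb0) (δ / 2) (by positivity)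
  set r₇ := min r₆ r with hr₇
  have hr₇0 : 0 < r₇ := lt_min hr₆ hr
  refine ⟨min δ (r₇ / 2), by positivity, ?_⟩
  filter_upwards [hδ, hb' (ball_mem_nhds b hr₇0), hwe (ball_mem_nhds b (half_pos hr₇0))]
    with k hk1 hk2 hk3
  intro e' he'
  have he1 : ‖e' - e k‖ < δ := lt_of_lt_of_le he' (min_le_left _ _)
  have he2 : ‖e' - e k‖ < r₇ / 2 := lt_of_lt_of_le he' (min_le_right _ _)
  rw [Set.mem_preimage, mem_ball, dist_eq_norm] at hk2 hk3
  have hk4 : ‖w k + e' - b‖ < r₇ := by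
    have : w k + e' - b = (w k + e k - b) + (e' - e k) := by abel
    rw [this]
    calc _ ≤ ‖w k + e k - b‖ + ‖e' - e k‖ := norm_add_le _ _
      _ < r₇ / 2 + r₇ / 2 := add_lt_add hk3 he2
      _ = r₇ := by ring
  have hr₇r : r₇ ≤ r := min_le_right _ _
  have hr₇6 : r₇ ≤ r₆ := min_le_left _ _
  have hbk : b' k ∈ closedBall b r₀ := by
    rw [mem_closedBall, dist_eq_norm]; linarith
  set O : Set (Fin g ⊕ Fin (N + 1) → ℂ) :=
    {x | ‖x ∘ Sum.inl + e' - b‖ < r ∧ ‖x ∘ Sum.inr - A.xch l b‖ < ρ} with hO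
  have hc1 : Continuous fun x : Fin g ⊕ Fin (N + 1) → ℂ => ‖x ∘ Sum.inl + e' - b‖ := by
    apply Continuous.norm
    apply Continuous.sub _ continuous_const
    apply Continuous.add _ continuous_const
    exact continuous_pi fun i => continuous_apply _
  have hc2 : Continuous fun x : Fin g ⊕ Fin (N + 1) → ℂ => ‖x ∘ Sum.inr - A.xch l b‖ := by
    apply Continuous.norm
    apply Continuous.sub _ continuous_const
    exact continuous_pi fun i => continuous_apply _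
  have hOo : IsOpen O := (isOpen_lt hc1 continuous_const).inter (isOpen_lt hc2 continuous_const)
  have hcO : closure O ⊆ {x | ‖x ∘ Sum.inl + e' - b‖ ≤ r ∧ ‖x ∘ Sum.inr - A.xch l b‖ ≤ ρ} := by
    apply closure_minimal
    · intro x hx
      exact ⟨hx.1.le, hx.2.le⟩
    · exact (isClosed_le hc1 continuous_const).inter (isClosed_le hc2 continuous_const)
  have hOb : Bornology.IsBounded O := by
    rw [isBounded_iff_forall_norm_le]
    refine ⟨max (r + ‖b - e'‖) (ρ + ‖A.xch l b‖), fun x hx => ?_⟩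
    rw [pi_norm_le_iff_of_nonneg (le_max_of_le_left (by positivity))]
    rintro (i | i)
    · apply le_max_of_le_left
      have h1 : ‖(x ∘ Sum.inl) i‖ ≤ ‖x ∘ Sum.inl‖ := norm_le_pi_norm (x ∘ Sum.inl) i
      have h2 : x ∘ Sum.inl = (x ∘ Sum.inl + e' - b) + (b - e') := by abel
      have h3 : ‖x ∘ Sum.inl‖ ≤ ‖x ∘ Sum.inl + e' - b‖ + ‖b - e'‖ := by
        conv_lhs => rw [h2]
        exact norm_add_le _ _
      have h4 := hx.1
      exact h1.trans (h3.trans (by linarith))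
    · apply le_max_of_le_right
      have h1 : ‖(x ∘ Sum.inr) i‖ ≤ ‖x ∘ Sum.inr‖ := norm_le_pi_norm (x ∘ Sum.inr) i
      have h3 : ‖x ∘ Sum.inr‖ ≤ ‖x ∘ Sum.inr - A.xch l b‖ + ‖A.xch l b‖ := by
        conv_lhs => rw [← sub_add_cancel (x ∘ Sum.inr) (A.xch l b)]
        exact norm_add_le _ _
      have h4 := hx.2
      exact h1.trans (h3.trans (by linarith))
  have hmemO : ∀ x ∈ closure O, x ∘ Sum.inl + e' ∈ closedBall b r₀ := by
    intro x hx
    rw [mem_closedBall, dist_eq_norm]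
    exact (hcO hx).1.trans hrr₀
  have hfc : ContinuousOn (f e') (closure O) := by
    rw [continuousOn_pi]
    intro i
    refine Fin.cases ?_ (fun i => ?_) i
    · show ContinuousOn (fun x : Fin g ⊕ Fin (N + 1) → ℂ => x (Sum.inr l) - 1) _
      exact ((continuous_apply _).sub continuous_const).continuousOn
    · show ContinuousOn (fun x : Fin g ⊕ Fin (N + 1) → ℂ => ℓ (x ∘ Sum.inr) i -
        ℓ (A.xch l (x ∘ Sum.inl + e')) i) _
      apply ContinuousOn.sub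
      · apply Continuous.continuousOn
        exact (continuous_apply i).comp (ℓ.continuous.comp
          (continuous_pi fun j => continuous_apply _))
      · intro x hx
        apply ContinuousAt.continuousWithinAt
        have h1 : ContinuousAt (fun x : Fin g ⊕ Fin (N + 1) → ℂ => x ∘ Sum.inl + e') x :=
          ((continuous_pi fun j => continuous_apply _).add continuous_const).continuousAt
        have h2 : ContinuousAt (fun x : Fin g ⊕ Fin (N + 1) → ℂ =>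
            ℓ (A.xch l (x ∘ Sum.inl + e'))) x :=
          ContinuousAt.comp (g := fun z => ℓ (A.xch l z)) (hxc _ (hmemO x hx)) h1
        exact (continuous_apply i).continuousAt.comp h2
  have hfapp : ∀ η > 0, ∃ F : Fin (g + 1) → MvPolynomial (Fin g ⊕ Fin (N + 1)) ℂ,
      ∀ x ∈ closure O, ‖f e' x - fun i => eval x (F i)‖ ≤ η := by
    intro η hη
    obtain ⟨G, hG⟩ := happ η hη
    refine ⟨Fin.cons (X (Sum.inr l) - 1) (fun i =>
      (∑ j, C (ℓ (Pi.single j 1) i) * X (Sum.inr j)) -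
        aeval (fun j => X (Sum.inl j) + C (e' j)) (G i)), fun x hx => ?_⟩
    rw [pi_norm_le_iff_of_nonneg hη.le]
    intro i
    refine Fin.cases ?_ (fun i => ?_) i
    · show ‖(x (Sum.inr l) - 1) - eval x (X (Sum.inr l) - 1)‖ ≤ η
      simp only [map_sub, eval_X, map_one, sub_self, norm_zero]
      exact hη.le
    · show ‖(ℓ (x ∘ Sum.inr) i - ℓ (A.xch l (x ∘ Sum.inl + e')) i) - eval x
        ((∑ j, C (ℓ (Pi.single j 1) i) * X (Sum.inr j)) -
        aeval (fun j => X (Sum.inl j) + C (e' j)) (G i))‖ ≤ η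
      have h1 : eval x (∑ j, C (ℓ (Pi.single j 1) i) * X (Sum.inr j)) = ℓ (x ∘ Sum.inr) i := by
        rw [map_sum]
        simp only [map_mul, eval_C, eval_X]
        conv_rhs => rw [pi_eq_sum_univ' (x ∘ Sum.inr)]
        rw [map_sum, Finset.sum_apply]
        apply Finset.sum_congr rfl
        intro j _
        rw [map_smul, Pi.smul_apply, smul_eq_mul, mul_comm]
        rfl
      have h2 : eval x (aeval (fun j => X (Sum.inl j) + C (e' j)) (G i)) =
          eval (x ∘ Sum.inl + e') (G i) := by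
        have h3 : eval x (aeval (fun j => X (Sum.inl j) + C (e' j)) (G i)) =
            (eval x).comp (aeval (fun j => X (Sum.inl j) + C (e' j)) :
              MvPolynomial (Fin g) ℂ →ₐ[ℂ] MvPolynomial (Fin g ⊕ Fin (N + 1)) ℂ).toRingHom
              (G i) := rfl
        rw [h3]
        congr 1
        apply MvPolynomial.ringHom_ext
        · intro c
          simp
        · intro j
          simp
      rw [map_sub, h1, h2]
      have h3 : ℓ (x ∘ Sum.inr) i - ℓ (A.xch l (x ∘ Sum.inl + e')) i - (ℓ (x ∘ Sum.inr) i -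
          eval (x ∘ Sum.inl + e') (G i)) = -(ℓ (A.xch l (x ∘ Sum.inl + e')) i -
            eval (x ∘ Sum.inl + e') (G i)) := by ring
      rw [h3, norm_neg]
      exact hG _ (hmemO x hx) i
  have hx₀ : Sum.elim (w k) (A.xch l (b' k)) ∈ Z Q :=
    (hscl.xch (hloc _ hbk).1).2 (hmem k)
  obtain ⟨x, hx, hxO, hfx⟩ := ip hQ hd (f e') hOo hOb hfc hfapp (δ := δ) (by
      intro x hx hxc hxO
      have h1 := hcO hxc
      have h2 := hk1 e' he1 (x ∘ Sum.inl) (x ∘ Sum.inr) (by rwa [Sum.elim_comp_inl_inr]) h1 (by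
        by_contra hcon
        push Not at hcon
        exact hxO ⟨lt_of_le_of_ne h1.1 hcon.1, lt_of_le_of_ne h1.2 hcon.2⟩)
      rwa [Sum.elim_comp_inl_inr] at h2) hx₀ (by
      refine ⟨?_, ?_⟩
      · rw [Sum.elim_comp_inl]
        linarith
      · rw [Sum.elim_comp_inr]
        exact (hloc _ hbk).2) (by
      have h1 : ‖ℓ (A.xch l (b' k)) - ℓ (A.xch l b)‖ < δ / 2 := by
        rw [← dist_eq_norm]
        apply hcl
        rw [dist_eq_norm]
        linarith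
      have h2 : ‖ℓ (A.xch l (w k + e')) - ℓ (A.xch l b)‖ < δ / 2 := by
        rw [← dist_eq_norm]
        apply hcl
        rw [dist_eq_norm]
        linarith
      rw [pi_norm_lt_iff hδ0]
      intro i
      refine Fin.cases ?_ (fun i => ?_) i
      · show ‖A.xch l (b' k) l - 1‖ < δ
        rw [xch_self (hloc _ hbk).1, sub_self, norm_zero]
        exact hδ0
      · show ‖ℓ (A.xch l (b' k)) i - ℓ (A.xch l (w k + e')) i‖ < δ
        have h3 : ‖(ℓ (A.xch l (b' k)) - ℓ (A.xch l (w k + e'))) i‖ ≤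
            ‖ℓ (A.xch l (b' k)) - ℓ (A.xch l (w k + e'))‖ := norm_le_pi_norm _ i
        have h4 : ℓ (A.xch l (b' k)) - ℓ (A.xch l (w k + e')) =
            (ℓ (A.xch l (b' k)) - ℓ (A.xch l b)) - (ℓ (A.xch l (w k + e')) - ℓ (A.xch l b)) := by
          abel
        refine lt_of_le_of_lt h3 ?_
        rw [h4]
        calc _ ≤ _ := norm_sub_le _ _
          _ < δ / 2 + δ / 2 := add_lt_add h1 h2
          _ = δ := by ring)
  have hz : x ∘ Sum.inl + e' ∈ closedBall b r₀ := hmemO x (subset_closure hxO)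
  have hYl : (x ∘ Sum.inr) l = 1 := by
    have h1 := congrFun hfx 0
    have h2 : x (Sum.inr l) - 1 = 0 := h1
    exact sub_eq_zero.1 h2
  have hYℓ : ℓ (x ∘ Sum.inr) = ℓ (A.xch l (x ∘ Sum.inl + e')) := by
    funext i
    have h1 := congrFun hfx i.succ
    have h2 : ℓ (x ∘ Sum.inr) i - ℓ (A.xch l (x ∘ Sum.inl + e')) i = 0 := h1
    exact sub_eq_zero.1 h2
  have hY := huniq (x ∘ Sum.inr) hYl (by
    intro F hF
    have h2 := hx _ (hQA F hF)
    rwa [eval_rename] at h2) hxO.2.le _ hz hYℓ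
  refine ⟨x ∘ Sum.inl, ?_, hxO.1⟩
  rw [← hscl.xch (hloc _ hz).1, ← hY, Sum.elim_comp_inl_inr]
  exact hx

end Pool.Agent.Run7.h10
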