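import Pool.Agent.Run7.h10.Norm
import Pool.Agent.Helper272.Arn.J5759

/-!
# Local parametrization of algebraic curves, part 1: discs over a punctured disc
-/

set_option autoImplicit false
set_option linter.unusedSectionVars false

namespace Pool.Agent.Run7.h10

open MvPolynomial Filter Topology Metric

/-- moderate growth on a left half plane -/
def Mod (c : ℝ) (g : ℂ → ℂ) : Prop :=
  ∃ C a : ℝ, 0 ≤ C ∧ 0 ≤ a ∧ ∀ w : ℂ, w.re < c → ‖g w‖ ≤ C * Real.exp (-a * w.re)

theorem Mod.const {c : ℝ} (hc : c ≤ 0) (b : ℂ) : Mod c (fun _ => b) := by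
  refine ⟨‖b‖, 0, norm_nonneg _, le_rfl, fun w _ => ?_⟩
  simp

theorem exp_le_exp_aux {a a' x : ℝ} (h : a ≤ a') (hx : x ≤ 0) :
    Real.exp (-a * x) ≤ Real.exp (-a' * x) := by
  apply Real.exp_le_exp.2
  nlinarith

theorem Mod.add {c : ℝ} (hc : c ≤ 0) {f g : ℂ → ℂ} (hf : Mod c f) (hg : Mod c g) :
    Mod c (fun w => f w + g w) := by
  obtain ⟨C, a, hC, ha, h⟩ := hf
  obtain ⟨C', a', hC', ha', h'⟩ := hg
  refine ⟨C + C', a + a', by positivity, by positivity, fun w hw => ?_⟩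
  have hw0 : w.re ≤ 0 := hw.le.trans hc
  calc ‖f w + g w‖ ≤ ‖f w‖ + ‖g w‖ := norm_add_le _ _
    _ ≤ C * Real.exp (-a * w.re) + C' * Real.exp (-a' * w.re) := add_le_add (h w hw) (h' w hw)
    _ ≤ C * Real.exp (-(a + a') * w.re) + C' * Real.exp (-(a + a') * w.re) := by
        gcongr 1
        · exact mul_le_mul_of_nonneg_left (exp_le_exp_aux (by linarith) hw0) hC
        · exact mul_le_mul_of_nonneg_left (exp_le_exp_aux (by linarith) hw0) hC'
    _ = _ := by ring

theorem Mod.mul {c : ℝ} {f g : ℂ → ℂ} (hf : Mod c f) (hg : Mod c g) :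
    Mod c (fun w => f w * g w) := by
  obtain ⟨C, a, hC, ha, h⟩ := hf
  obtain ⟨C', a', hC', ha', h'⟩ := hg
  refine ⟨C * C', a + a', by positivity, by positivity, fun w hw => ?_⟩
  calc ‖f w * g w‖ = ‖f w‖ * ‖g w‖ := norm_mul _ _
    _ ≤ (C * Real.exp (-a * w.re)) * (C' * Real.exp (-a' * w.re)) :=
        mul_le_mul (h w hw) (h' w hw) (norm_nonneg _) (by positivity)
    _ = C * C' * (Real.exp (-a * w.re) * Real.exp (-a' * w.re)) := by ring
    _ = _ := by rw [← Real.exp_add]; ring_nf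

theorem Mod.of_bound {c : ℝ} (hc : c ≤ 0) {f : ℂ → ℂ} {C a : ℝ}
    (h : ∀ w : ℂ, w.re < c → ‖f w‖ ≤ C * Real.exp (-a * w.re)) : Mod c f := by
  refine ⟨|C|, |a|, abs_nonneg _, abs_nonneg _, fun w hw => (h w hw).trans ?_⟩
  have hw0 : w.re ≤ 0 := hw.le.trans hc
  calc C * Real.exp (-a * w.re) ≤ |C| * Real.exp (-a * w.re) :=
        mul_le_mul_of_nonneg_right (le_abs_self C) (Real.exp_pos _).le
    _ ≤ _ := mul_le_mul_of_nonneg_left (exp_le_exp_aux (le_abs_self a) hw0) (abs_nonneg _)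

theorem Mod.eval {σ : Type} {c : ℝ} (hc : c ≤ 0) (x : σ → ℂ → ℂ) (hx : ∀ i, Mod c (x i))
    (F : MvPolynomial σ ℂ) : Mod c (fun w => eval (fun i => x i w) F) := by
  induction F using MvPolynomial.induction_on with
  | C a => simpa using Mod.const hc a
  | add p q hp hq => simpa using hp.add hc hq
  | mul_X p i hp => simpa using hp.mul (hx i)

theorem Mod.exp {c : ℝ} (hc : c ≤ 0) : Mod c Complex.exp := by
  refine ⟨1, 0, zero_le_one, le_rfl, fun w hw => ?_⟩
  rw [Complex.norm_exp]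
  simp only [neg_zero, zero_mul, Real.exp_zero, mul_one]
  exact Real.exp_le_one_iff.2 (hw.le.trans hc)

/-- a periodic function of moderate growth is zero or has no zeros far to the left -/
theorem dich {c : ℝ} {N : ℕ} (hN : 0 < N) {g : ℂ → ℂ}
    (hg : DifferentiableOn ℂ g {w | w.re < c})
    (hper : ∀ w : ℂ, w.re < c → g (w + 2 * Real.pi * Complex.I * N) = g w)
    (hm : Mod c g) : (∀ w : ℂ, w.re < c → g w = 0) ∨
      ∃ c₂ ≤ c, ∀ w : ℂ, w.re < c₂ → g w ≠ 0 := by
  obtain ⟨C, a, -, -, hgr⟩ := hm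
  rcases AR.J5759.laurent c N hN g hg hper C a hgr with h | ⟨l, G, hG, hG0, c₁, hc₁, h⟩
  · exact Or.inl h
  · right
    have hev : ∀ᶠ τ in 𝓝 (0 : ℂ), G τ ≠ 0 := hG.continuousAt.eventually_ne hG0
    obtain ⟨δ, hδ, hb⟩ := Metric.eventually_nhds_iff.1 hev
    have hNr : (0 : ℝ) < N := by exact_mod_cast hN
    refine ⟨min c₁ (N * Real.log δ), (min_le_left _ _).trans hc₁.le, fun w hw => ?_⟩
    rw [h w (hw.trans_le (min_le_left _ _))]
    apply mul_ne_zero (Complex.exp_ne_zero _)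
    apply hb
    rw [dist_zero_right, Complex.norm_exp]
    have h1 : (w / (N : ℂ)).re = w.re / N := by
      rw [← Complex.ofReal_natCast, Complex.div_ofReal_re]
    rw [h1, ← Real.lt_log_iff_exp_lt hδ, div_lt_iff₀ hNr]
    have := hw.trans_le (min_le_right _ _)
    linarith

/-- roots of monic polynomials with bounded coefficients are bounded -/
theorem monic_root_bound (χ : Polynomial (Polynomial ℂ)) (hχ : χ.Monic) (K : ℝ) :
    ∃ B : ℝ, ∀ z v : ℂ, ‖z‖ ≤ K → χ.evalEval z v = 0 → ‖v‖ ≤ B := by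
  have hcont : ∀ i, ∃ B : ℝ, 0 ≤ B ∧ ∀ z : ℂ, ‖z‖ ≤ K → ‖(χ.coeff i).eval z‖ ≤ B := by
    intro i
    rcases (closedBall (0 : ℂ) K).eq_empty_or_nonempty with he | hne
    · refine ⟨0, le_rfl, fun z hz => ?_⟩
      have : z ∈ closedBall (0 : ℂ) K := by simpa using hz
      rw [he] at this
      exact absurd this (Set.notMem_empty _)
    · obtain ⟨z₀, hz₀, hmax⟩ := (isCompact_closedBall (0 : ℂ) K).exists_isMaxOn hne
        (f := fun z => ‖(χ.coeff i).eval z‖) ((χ.coeff i).continuous.norm.continuousOn)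
      refine ⟨‖(χ.coeff i).eval z₀‖, norm_nonneg _, fun z hz => ?_⟩
      exact hmax (show z ∈ closedBall (0 : ℂ) K by simpa using hz)
  choose B hB0 hB using hcont
  refine ⟨1 + ∑ i ∈ Finset.range χ.natDegree, B i, fun z v hz h => ?_⟩
  have hm : (χ.map (Polynomial.evalRingHom z)).Monic := hχ.map _
  have hd : (χ.map (Polynomial.evalRingHom z)).natDegree = χ.natDegree :=
    hχ.natDegree_map _
  have h1 := AR.J5652.rf_bound (χ.map (Polynomial.evalRingHom z)) χ.natDegree hd hm.ne_zero v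
    (by rw [Polynomial.map_evalRingHom_eval]; exact h)
  refine h1.trans ?_
  gcongr with i hi
  have h2 : (χ.map (Polynomial.evalRingHom z)).coeff χ.natDegree = 1 := by
    rw [← hd]; exact hm
  rw [h2, norm_one, div_one, Polynomial.coeff_map, Polynomial.coe_evalRingHom]
  exact hB i z hz

end Pool.Agent.Run7.h10
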