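import Pool.Agent.Run7.h10.LP1

/-!
# Local parametrization of algebraic curves, part 2: discs over a punctured disc
-/

set_option autoImplicit false
set_option linter.unusedSectionVars false

namespace Pool.Agent.Run7.h10

open MvPolynomial Filter Topology Metric

theorem iterate_periodic {c : ℝ} {g : ℂ → ℂ} {N : ℕ}
    (h : ∀ w : ℂ, w.re < c → g (w + 2 * Real.pi * Complex.I * N) = g w) (k : ℕ) :
    ∀ w : ℂ, w.re < c → g (w + 2 * Real.pi * Complex.I * ((N * k : ℕ) : ℂ)) = g w := by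
  induction k with
  | zero => intro w _; simp
  | succ k ih =>
    intro w hw
    have h1 : w + 2 * Real.pi * Complex.I * ((N * (k + 1) : ℕ) : ℂ) =
        (w + 2 * Real.pi * Complex.I * ((N * k : ℕ) : ℂ)) + 2 * Real.pi * Complex.I * N := by
      push_cast; ring
    have h2 : (w + 2 * Real.pi * Complex.I * ((N * k : ℕ) : ℂ)).re = w.re := by
      have : (2 * Real.pi * Complex.I * ((N * k : ℕ) : ℂ)).re = 0 := by
        rw [← Complex.ofReal_natCast]; simp
      rw [Complex.add_re, this, add_zero]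
    rw [h1, h _ (by rw [h2]; exact hw), ih w hw]

theorem periodic_of_dvd {c : ℝ} {g : ℂ → ℂ} {N M : ℕ} (hd : N ∣ M)
    (h : ∀ w : ℂ, w.re < c → g (w + 2 * Real.pi * Complex.I * N) = g w) :
    ∀ w : ℂ, w.re < c → g (w + 2 * Real.pi * Complex.I * M) = g w := by
  obtain ⟨k, rfl⟩ := hd
  exact iterate_periodic h k

/-- the root functions of one monic polynomial -/
theorem one_coordinate (χ : Polynomial (Polynomial ℂ)) (hχ : χ.Monic) (s₀ : ℂ) :
    ∃ (c : ℝ) (N : ℕ) (d : ℕ) (α : Fin d → ℂ → ℂ), 0 < N ∧ c ≤ 0 ∧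
      (∀ j, DifferentiableOn ℂ (α j) {w | w.re < c}) ∧
      (∀ j, Mod c (α j)) ∧
      (∀ j, ∀ w : ℂ, w.re < c → α j (w + 2 * Real.pi * Complex.I * N) = α j w) ∧
      (∀ w v : ℂ, w.re < c → χ.evalEval (s₀ + Complex.exp w) v = 0 → ∃ j, v = α j w) := by
  obtain ⟨R, bad, hbad, h1, h2, h3⟩ := AR.J5759.sqfree_part χ hχ.ne_zero
  obtain ⟨ε, hε, hne⟩ := AR.J5759.exists_ball_ne (bad.comp (Polynomial.X + Polynomial.C s₀))
    (by
      intro h
      apply hbad
      have := congrArg (fun p => p.comp (Polynomial.X - Polynomial.C s₀)) h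
      simpa [Polynomial.comp_assoc] using this)
  have hne' : ∀ z, 0 < ‖z - s₀‖ → ‖z - s₀‖ < ε → bad.eval z ≠ 0 := by
    intro z hz1 hz2 h
    apply hne (z - s₀) hz1 hz2
    simp [Polynomial.eval_comp, h]
  have hexp : Real.exp (min 0 (Real.log ε)) ≤ ε := by
    calc Real.exp (min 0 (Real.log ε)) ≤ Real.exp (Real.log ε) :=
          Real.exp_le_exp.2 (min_le_right _ _)
      _ = ε := Real.exp_log hε
  obtain ⟨N, α, hN, hα1, -, hα3, hα4, hα5⟩ := AR.J5759.puiseux R s₀ (min 0 (Real.log ε))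
    (fun z hz1 hz2 => h1 z (hne' z hz1 (hz2.trans_le hexp)))
    (fun z hz1 hz2 => h2 z (hne' z hz1 (hz2.trans_le hexp)))
  obtain ⟨C, a, hCa⟩ := hα5 (min 0 (Real.log ε) - 1) (by linarith)
  have hc0 : min 0 (Real.log ε) - 1 ≤ 0 := by
    have := min_le_left 0 (Real.log ε)
    linarith
  refine ⟨min 0 (Real.log ε) - 1, N, R.natDegree, α, hN, hc0, ?_, ?_, ?_, ?_⟩
  · intro j
    apply (hα1 j).mono
    intro w hw
    have : w.re < min 0 (Real.log ε) - 1 := hw
    show w.re < min 0 (Real.log ε)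
    linarith
  · intro j
    exact Mod.of_bound hc0 (fun w hw => hCa j w hw)
  · intro j w hw
    exact hα4 j w (by linarith)
  · intro w v hw hv
    have hw' : w.re < min 0 (Real.log ε) := by linarith
    apply (hα3 w hw' v).1
    apply h3 _ _ _ hv
    apply hne'
    · rw [add_sub_cancel_left, Complex.norm_exp]; positivity
    · rw [add_sub_cancel_left, Complex.norm_exp]
      calc Real.exp w.re < Real.exp (min 0 (Real.log ε)) := Real.exp_lt_exp.2 hw'
        _ ≤ ε := hexp

variable {σ : Type} [Fintype σ]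

/-- the discs over a punctured disc -/
theorem curve_discs {Q : Ideal (MvPolynomial σ ℂ)} {T : MvPolynomial σ ℂ}
    (hT : ∀ F : MvPolynomial σ ℂ, ∃ χ : Polynomial (Polynomial ℂ), χ.Monic ∧
        (∀ x ∈ Z Q, χ.evalEval (eval x T) (eval x F) = 0)) (s₀ : ℂ) :
    ∃ (J : Type) (_ : Fintype J) (h : J → ℂ → σ → ℂ) (N : ℕ) (ε : ℝ), 0 < N ∧ 0 < ε ∧
      (∀ j, DifferentiableOn ℂ (h j) (ball 0 ε)) ∧
      (∀ j, ∀ τ ∈ ball (0 : ℂ) ε, h j τ ∈ Z Q ∧ eval (h j τ) T = s₀ + τ ^ N) ∧
      (∀ x ∈ Z Q, eval x T ≠ s₀ → ‖eval x T - s₀‖ < ε ^ N →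
        ∃ j, ∃ τ ∈ ball (0 : ℂ) ε, τ ^ N = eval x T - s₀ ∧ x = h j τ) := by
  classical
  choose χ hχ hχ0 using fun i : σ => hT (X i)
  choose c N d α hN hc hα1 hα2 hα3 hα4 using fun i : σ => one_coordinate (χ i) (hχ i) s₀
  obtain ⟨S, hS⟩ := (IsNoetherian.noetherian Q : Q.FG)
  -- common constants
  obtain ⟨c₁, hc₁0, hc₁⟩ : ∃ c₁ : ℝ, c₁ ≤ 0 ∧ ∀ i, c₁ ≤ c i := by
    rcases isEmpty_or_nonempty σ with he | hne
    · exact ⟨0, le_rfl, fun i => he.elim i⟩
    · refine ⟨Finset.univ.inf' Finset.univ_nonempty c, ?_, fun i =>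
        Finset.inf'_le c (Finset.mem_univ i)⟩
      obtain ⟨i⟩ := hne
      exact (Finset.inf'_le c (Finset.mem_univ i)).trans (hc i)
  set M : ℕ := ∏ i, N i with hM
  have hM0 : 0 < M := Finset.prod_pos fun i _ => hN i
  have hMr : (0 : ℝ) < M := by exact_mod_cast hM0
  have hMc : (M : ℂ) ≠ 0 := by exact_mod_cast hM0.ne'
  have hdvd : ∀ i, N i ∣ M := fun i => Finset.dvd_prod_of_mem N (Finset.mem_univ i)
  let x : (∀ i, Fin (d i)) → ℂ → σ → ℂ := fun j w i => α i (j i) w
  have hxd : ∀ j i, DifferentiableOn ℂ (fun w => x j w i) {w | w.re < c₁} := fun j i =>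
    (hα1 i (j i)).mono (fun w hw => lt_of_lt_of_le hw (hc₁ i))
  have hxm : ∀ j i, Mod c₁ (fun w => x j w i) := by
    intro j i
    obtain ⟨C, a, hC, ha, h⟩ := hα2 i (j i)
    exact ⟨C, a, hC, ha, fun w hw => h w (hw.trans_le (hc₁ i))⟩
  have hxp : ∀ j i, ∀ w : ℂ, w.re < c₁ → x j (w + 2 * Real.pi * Complex.I * M) i = x j w i := by
    intro j i w hw
    exact periodic_of_dvd (hdvd i) (hα3 i (j i)) w (hw.trans_le (hc₁ i))
  have hFd : ∀ j (F : MvPolynomial σ ℂ), DifferentiableOn ℂ (fun w => eval (x j w) F)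
      {w | w.re < c₁} := by
    intro j F
    induction F using MvPolynomial.induction_on with
    | C a =>
      simp only [eval_C]
      exact differentiableOn_const _
    | add p q hp hq =>
      simp only [map_add]
      exact hp.add hq
    | mul_X p i hp =>
      simp only [map_mul, eval_X]
      exact hp.mul (hxd j i)
  have hFm : ∀ j (F : MvPolynomial σ ℂ), Mod c₁ (fun w => eval (x j w) F) := by
    intro j F
    exact Mod.eval hc₁0 (fun i w => x j w i) (hxm j) F
  have hFp : ∀ j (F : MvPolynomial σ ℂ), ∀ w : ℂ, w.re < c₁ →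
      eval (x j (w + 2 * Real.pi * Complex.I * M)) F = eval (x j w) F := by
    intro j F w hw
    have : x j (w + 2 * Real.pi * Complex.I * M) = x j w := funext fun i => hxp j i w hw
    rw [this]
  -- good and bad indices
  let Good : (∀ i, Fin (d i)) → Prop := fun j => ∀ w : ℂ, w.re < c₁ →
    x j w ∈ Z Q ∧ eval (x j w) T = s₀ + Complex.exp w
  have hbad : ∀ j, ¬ Good j → ∃ c₂ ≤ c₁, ∀ w : ℂ, w.re < c₂ →
      ¬ (x j w ∈ Z Q ∧ eval (x j w) T = s₀ + Complex.exp w) := by
    intro j hj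
    by_cases h1 : ∀ w : ℂ, w.re < c₁ → eval (x j w) T + (-s₀ + (-1) * Complex.exp w) = 0
    · -- some element of `S` is not identically zero
      by_cases h2 : ∀ F ∈ S, ∀ w : ℂ, w.re < c₁ → eval (x j w) F = 0
      · exfalso
        apply hj
        intro w hw
        refine ⟨?_, by linear_combination h1 w hw⟩
        rw [mem_Z_iff, ← hS, Ideal.span_le]
        intro F hF
        exact h2 F hF w hw
      · push Not at h2
        obtain ⟨F, hF, w₀, hw₀, hw₀'⟩ := h2
        rcases dich hM0 (hFd j F) (hFp j F) (hFm j F) with h3 | ⟨c₂, hc₂, h3⟩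
        · exact absurd (h3 w₀ hw₀) hw₀'
        · refine ⟨c₂, hc₂, fun w hw hh => h3 w hw (hh.1 F ?_)⟩
          rw [← hS]
          exact Ideal.subset_span hF
    · push Not at h1
      obtain ⟨w₀, hw₀, hw₀'⟩ := h1
      rcases dich (g := fun w => eval (x j w) T + (-s₀ + (-1) * Complex.exp w)) hM0
        ((hFd j T).add ((differentiableOn_const _).add
          ((differentiableOn_const _).mul Complex.differentiable_exp.differentiableOn)))
        (fun w hw => by
          show _ = _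
          rw [hFp j T w hw]
          congr 3
          have : w + 2 * Real.pi * Complex.I * M = w + M * (2 * Real.pi * Complex.I) := by ring
          rw [this]
          exact (Complex.exp_periodic.nat_mul M) w)
        ((hFm j T).add hc₁0 ((Mod.const hc₁0 _).add hc₁0
          ((Mod.const hc₁0 _).mul (Mod.exp hc₁0)))) with h3 | ⟨c₂, hc₂, h3⟩
      · exact absurd (h3 w₀ hw₀) hw₀'
      · refine ⟨c₂, hc₂, fun w hw hh => h3 w hw ?_⟩
        rw [hh.2]; ring
  -- extension of the good functions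
  have hgood : ∀ j, Good j → ∀ i, ∃ F : ℂ → ℂ, AnalyticAt ℂ F 0 ∧
      ∃ c₂ ≤ c₁, ∀ w : ℂ, w.re < c₂ → x j w i = F (Complex.exp (w / M)) := by
    intro j hj i
    obtain ⟨C, a, -, -, hgr⟩ := hxm j i
    obtain ⟨B, hB⟩ := monic_root_bound (χ i) (hχ i) (‖s₀‖ + 1)
    obtain ⟨F, hF, c₂, hc₂, h⟩ := AR.J5759.laurent' c₁ M hM0 (fun w => x j w i) (hxd j i)
      (hxp j i) C a hgr B c₁ (by
        intro r hr
        obtain ⟨h1, h2⟩ := hj r (by simpa using hr)
        apply hB (s₀ + Complex.exp r)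
        · refine (norm_add_le _ _).trans ?_
          gcongr
          rw [Complex.norm_exp]
          simp only [Complex.ofReal_re]
          exact Real.exp_le_one_iff.2 (hr.le.trans hc₁0)
        · have h3 := hχ0 i _ h1
          rw [h2, eval_X] at h3
          exact h3)
    exact ⟨F, hF, c₂, hc₂.le, h⟩
  choose! cb hcb1 hcb2 using hbad
  choose! G hG cg hcg1 hcg2 using hgood
  -- a common half plane
  obtain ⟨c₃, hc₃, hc₃b, hc₃g⟩ : ∃ c₃ ≤ c₁, (∀ j, ¬ Good j → c₃ ≤ cb j) ∧
      ∀ j, Good j → ∀ i, c₃ ≤ cg j i := by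
    have hf1 : ∃ a ≤ c₁, ∀ j, ¬ Good j → a ≤ cb j := by
      obtain ⟨a, ha⟩ := (Set.finite_range cb).bddBelow
      refine ⟨min a c₁, min_le_right _ _, fun j _ => (min_le_left _ _).trans
        (ha (Set.mem_range_self j))⟩
    have hf2 : ∃ a : ℝ, ∀ j i, a ≤ cg j i := by
      obtain ⟨a, ha⟩ := (Set.finite_range (fun p : (∀ i, Fin (d i)) × σ => cg p.1 p.2)).bddBelow
      exact ⟨a, fun j i => ha ⟨(j, i), rfl⟩⟩
    obtain ⟨a, ha1, ha2⟩ := hf1
    obtain ⟨b, hb⟩ := hf2
    exact ⟨min a b, (min_le_left _ _).trans ha1, fun j hj => (min_le_left _ _).trans (ha2 j hj),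
      fun j _ i => (min_le_right _ _).trans (hb j i)⟩
  -- a common disc
  obtain ⟨ε₁, hε₁, hε₁d⟩ : ∃ ε > 0, ∀ j, Good j → ∀ i, DifferentiableOn ℂ (G j i) (ball 0 ε) := by
    have h1 : ∀ j i, ∃ ε > 0, Good j → DifferentiableOn ℂ (G j i) (ball 0 ε) := by
      intro j i
      by_cases hj : Good j
      · have h2 := (hG j hj i).eventually_analyticAt
        obtain ⟨ε, hε, hb⟩ := Metric.eventually_nhds_iff.1 h2
        exact ⟨ε, hε, fun _ z hz => (hb hz).differentiableAt.differentiableWithinAt⟩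
      · exact ⟨1, one_pos, fun h => absurd h hj⟩
    choose e he hed using h1
    rcases isEmpty_or_nonempty ((∀ i, Fin (d i)) × σ) with hE | hE
    · exact ⟨1, one_pos, fun j _ i => hE.elim (j, i)⟩
    · refine ⟨Finset.univ.inf' Finset.univ_nonempty
        (fun p : (∀ i, Fin (d i)) × σ => e p.1 p.2), ?_, fun j hj i => ?_⟩
      · rw [gt_iff_lt, Finset.lt_inf'_iff]
        exact fun p _ => he _ _
      · apply (hed j i hj).mono
        apply ball_subset_ball
        exact Finset.inf'_le (fun p : (∀ i, Fin (d i)) × σ => e p.1 p.2) (Finset.mem_univ (j, i))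
  set ε : ℝ := min ε₁ (Real.exp (c₃ / M)) with hεdef
  have hε : 0 < ε := lt_min hε₁ (Real.exp_pos _)
  -- the relation between `τ` and `w`
  have hlog : ∀ τ : ℂ, τ ≠ 0 → ‖τ‖ < ε → ∃ w : ℂ, w.re < c₃ ∧ Complex.exp (w / M) = τ ∧
      Complex.exp w = τ ^ M := by
    intro τ hτ hτε
    refine ⟨M * Complex.log τ, ?_, ?_, ?_⟩
    · have h1 : ((M : ℂ) * Complex.log τ).re = M * Real.log ‖τ‖ := by
        rw [← Complex.ofReal_natCast, Complex.re_ofReal_mul, Complex.log_re]
      rw [h1]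
      have h2 : Real.log ‖τ‖ < c₃ / M := by
        rw [Real.log_lt_iff_lt_exp (norm_pos_iff.2 hτ)]
        exact hτε.trans_le (min_le_right _ _)
      rw [lt_div_iff₀ hMr] at h2
      linarith
    · rw [mul_div_cancel_left₀ _ hMc, Complex.exp_log hτ]
    · rw [Complex.exp_nat_mul, Complex.exp_log hτ]
  have hGx : ∀ j, Good j → ∀ w : ℂ, w.re < c₃ → (fun i => G j i (Complex.exp (w / M))) = x j w := by
    intro j hj w hw
    funext i
    exact (hcg2 j hj i w (hw.trans_le (hc₃g j hj i))).symm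
  have hpt : ∀ j, Good j → ∀ τ ∈ ball (0 : ℂ) ε, τ ≠ 0 →
      (fun i => G j i τ) ∈ Z Q ∧ eval (fun i => G j i τ) T = s₀ + τ ^ M := by
    intro j hj τ hτ hτ0
    obtain ⟨w, hw, h1, h2⟩ := hlog τ hτ0 (by simpa using hτ)
    have h3 := hj w (hw.trans_le hc₃)
    rw [← hGx j hj w hw, h1, h2] at h3
    exact h3
  have hcont : ∀ j, Good j → ContinuousOn (fun τ => (fun i => G j i τ : σ → ℂ)) (ball 0 ε) := by
    intro j hj
    rw [continuousOn_pi]
    intro i
    exact ((hε₁d j hj i).mono (ball_subset_ball (min_le_left _ _))).continuousOn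
  have hpt0 : ∀ j, Good j → ∀ τ ∈ ball (0 : ℂ) ε,
      (fun i => G j i τ) ∈ Z Q ∧ eval (fun i => G j i τ) T = s₀ + τ ^ M := by
    intro j hj τ hτ
    by_cases hτ0 : τ = 0
    · subst hτ0
      have h0 : ContinuousAt (fun τ => (fun i => G j i τ : σ → ℂ)) 0 :=
        (hcont j hj).continuousAt (ball_mem_nhds _ hε)
      have hev : ∀ᶠ τ in 𝓝[≠] (0 : ℂ), τ ∈ ball (0 : ℂ) ε ∧ τ ≠ 0 := by
        refine Filter.Eventually.and ?_ self_mem_nhdsWithin
        exact nhdsWithin_le_nhds (ball_mem_nhds _ hε)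
      have key : ∀ F : MvPolynomial σ ℂ, Tendsto (fun τ => eval (fun i => G j i τ) F) (𝓝[≠] 0)
          (𝓝 (eval (fun i => G j i 0) F)) := by
        intro F
        exact ((MvPolynomial.continuous_eval F).continuousAt.comp h0).tendsto.mono_left
          nhdsWithin_le_nhds
      refine ⟨fun F hF => ?_, ?_⟩
      · apply tendsto_nhds_unique (key F)
        apply tendsto_const_nhds.congr'
        filter_upwards [hev] with τ hτ
        exact ((hpt j hj τ hτ.1 hτ.2).1 F hF).symm
      · apply tendsto_nhds_unique (key T)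
        have h5 : Tendsto (fun τ : ℂ => s₀ + τ ^ M) (𝓝[≠] 0) (𝓝 (s₀ + 0 ^ M)) := by
          apply Tendsto.mono_left _ nhdsWithin_le_nhds
          exact (continuous_const.add (continuous_id.pow M)).tendsto 0
        apply h5.congr'
        filter_upwards [hev] with τ hτ
        exact (hpt j hj τ hτ.1 hτ.2).2.symm
    · exact hpt j hj τ hτ hτ0
  refine ⟨{j // Good j}, inferInstance, fun j τ i => G j i τ, M, ε, hM0, hε, ?_, ?_, ?_⟩
  · intro j
    rw [differentiableOn_pi]
    intro i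
    exact (hε₁d j j.2 i).mono (ball_subset_ball (min_le_left _ _))
  · intro j τ hτ
    exact hpt0 j j.2 τ hτ
  · intro y hy hyT hyε
    set t : ℂ := eval y T - s₀ with ht
    have ht0 : t ≠ 0 := sub_ne_zero.2 hyT
    have hre : (Complex.log t).re < c₃ := by
      rw [Complex.log_re, Real.log_lt_iff_lt_exp (norm_pos_iff.2 ht0)]
      refine hyε.trans_le ?_
      calc ε ^ M ≤ (Real.exp (c₃ / M)) ^ M := pow_le_pow_left₀ hε.le (min_le_right _ _) M
        _ = Real.exp c₃ := by
            rw [← Real.exp_nat_mul, mul_div_cancel₀ _ hMr.ne']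
    have hexp : Complex.exp (Complex.log t) = t := Complex.exp_log ht0
    have hroot : ∀ i, ∃ k, y i = α i k (Complex.log t) := by
      intro i
      apply hα4 i _ _ ((hre.trans_le hc₃).trans_le (hc₁ i))
      have h1 := hχ0 i y hy
      rw [eval_X] at h1
      rw [hexp, ht]
      have : s₀ + (eval y T - s₀) = eval y T := by ring
      rw [this]
      exact h1
    choose k hk using hroot
    have hyx : y = x k (Complex.log t) := funext hk
    have hgk : Good k := by
      by_contra hb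
      apply hcb2 k hb (Complex.log t) (hre.trans_le (hc₃b k hb))
      rw [← hyx, hexp]
      exact ⟨hy, by rw [ht]; ring⟩
    refine ⟨⟨k, hgk⟩, Complex.exp (Complex.log t / M), ?_, ?_, ?_⟩
    · rw [mem_ball_zero_iff, Complex.norm_exp]
      have h1 : (Complex.log t / (M : ℂ)).re = Real.log ‖t‖ / M := by
        rw [← Complex.ofReal_natCast, Complex.div_ofReal_re, Complex.log_re]
      rw [h1]
      have h2 : Real.log ‖t‖ / M < Real.log ε := by
        rw [div_lt_iff₀ hMr]
        have h3 := Real.log_lt_log (norm_pos_iff.2 ht0) hyε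
        rw [Real.log_pow] at h3
        linarith
      rw [← Real.lt_log_iff_exp_lt hε]
      exact h2
    · rw [← Complex.exp_nat_mul, mul_div_cancel₀ _ hMc, hexp]
    · rw [hyx]
      exact (hGx k hgk _ hre).symm

end Pool.Agent.Run7.h10
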