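import Pool.Agent.Run7.h10.LP2

/-!
# Local parametrization of algebraic curves, part 3, and the open mapping theorem
-/

set_option autoImplicit false
set_option linter.unusedSectionVars false

namespace Pool.Agent.Run7.h10

open MvPolynomial Filter Topology Metric

theorem monic_lower (q : Polynomial ℂ) (hq : q.Monic) (a : ℂ) (c : ℝ) (hc : 0 ≤ c)
    (h : ∀ r, q.eval r = 0 → c ≤ ‖a - r‖) : c ^ q.natDegree ≤ ‖q.eval a‖ := by
  have hs : q.Splits := IsAlgClosed.splits q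
  rw [hs.eval_eq_prod_roots_of_monic hq, hs.natDegree_eq_card_roots]
  have key : ∀ s : Multiset ℂ, (∀ r ∈ s, c ≤ ‖a - r‖) →
      c ^ s.card ≤ ‖(s.map (a - ·)).prod‖ := by
    intro s
    induction s using Multiset.induction_on with
    | empty => intro _; simp
    | cons r s ih =>
      intro hs
      rw [Multiset.card_cons, Multiset.map_cons, Multiset.prod_cons, norm_mul, pow_succ']
      exact mul_le_mul (hs r (Multiset.mem_cons_self _ _))
        (ih fun r' hr' => hs r' (Multiset.mem_cons_of_mem hr')) (by positivity) (norm_nonneg _)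
  apply key
  intro r hr
  exact h r (Polynomial.isRoot_of_mem_roots hr)

variable {σ : Type} [Fintype σ]

theorem exists_sep (S : Finset (σ → ℂ)) (y : σ → ℂ) (h : ∀ x ∈ S, x ≠ y) :
    ∃ F : MvPolynomial σ ℂ, (∀ x ∈ S, eval x F = 0) ∧ eval y F ≠ 0 := by
  classical
  have h1 : ∀ x : σ → ℂ, ∃ F : MvPolynomial σ ℂ, eval x F = 0 ∧ (x ≠ y → eval y F ≠ 0) := by
    intro x
    by_cases hx : x = y
    · exact ⟨0, by simp, fun h => absurd hx h⟩
    · obtain ⟨i, hi⟩ := Function.ne_iff.1 hx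
      refine ⟨X i - C (x i), by simp, fun _ => ?_⟩
      simp only [map_sub, eval_X, eval_C]
      exact sub_ne_zero.2 (Ne.symm hi)
  choose F hF1 hF2 using h1
  refine ⟨∏ x ∈ S, F x, ?_, ?_⟩
  · intro x hx
    rw [map_prod]
    exact Finset.prod_eq_zero hx (hF1 x)
  · rw [map_prod]
    exact Finset.prod_ne_zero_iff.2 fun x hx => hF2 x (h x hx)

/-- local parametrization of algebraic curves -/
theorem local_param {Q : Ideal (MvPolynomial σ ℂ)} (hQ : Q.IsPrime) (hd : dm Q = 1)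
    {y : σ → ℂ} (hy : y ∈ Z Q) :
    ∃ T : MvPolynomial σ ℂ, (∀ c, T - C c ∉ Q) ∧
    ∃ (J : Type) (_ : Fintype J) (_ : Nonempty J) (h : J → ℂ → σ → ℂ) (N : ℕ) (ε : ℝ),
      0 < N ∧ 0 < ε ∧
      (∀ j, DifferentiableOn ℂ (h j) (ball 0 ε)) ∧ (∀ j, h j 0 = y) ∧
      (∀ j, ∀ τ ∈ ball (0 : ℂ) ε, h j τ ∈ Z Q ∧ eval (h j τ) T = eval y T + τ ^ N) ∧
      (∀ ε' > 0, ε' ≤ ε → ∀ᶠ x in 𝓝 y, x ∈ Z Q → ∃ j, ∃ τ ∈ ball (0 : ℂ) ε', x = h j τ) := by
  classical
  obtain ⟨T, hTc, hT⟩ := exists_norm hQ hd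
  obtain ⟨J, _, h, N, ε, hN, hε, hhd, hhZ, hcov⟩ := curve_discs (Q := Q) (T := T)
    (fun F => by obtain ⟨χ, h1, h2, -⟩ := hT F; exact ⟨χ, h1, h2⟩) (eval y T)
  have hcont : ∀ j, ContinuousAt (h j) 0 := fun j =>
    ((hhd j).continuousOn.continuousAt (ball_mem_nhds _ hε))
  -- the curve is not isolated at `y`
  have hne : ∃ j, h j 0 = y := by
    by_contra hcon
    push Not at hcon
    obtain ⟨F, hF0, hFy⟩ := exists_sep (Finset.univ.image fun j => h j 0) y (by
      intro x hx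
      obtain ⟨j, -, rfl⟩ := Finset.mem_image.1 hx
      exact hcon j)
    obtain ⟨χ, hχ, hχ1, hχ2⟩ := hT F
    set c : ℝ := ‖eval y F‖ / 2 with hc
    have hc0 : 0 < c := by rw [hc]; exact half_pos (norm_pos_iff.2 hFy)
    -- the values of `F` on the discs are small
    have hsm : ∃ ε₁ > 0, ε₁ ≤ ε ∧ ∀ j, ∀ τ ∈ ball (0 : ℂ) ε₁, ‖eval (h j τ) F‖ ≤ c := by
      have h1 : ∀ᶠ τ in 𝓝 (0 : ℂ), ∀ j, ‖eval (h j τ) F‖ < c := by
        rw [Filter.eventually_all]
        intro j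
        have h2 : ContinuousAt (fun τ => ‖eval (h j τ) F‖) 0 :=
          ((MvPolynomial.continuous_eval F).continuousAt.comp (hcont j)).norm
        apply h2.eventually_lt_const
        show ‖eval (h j 0) F‖ < c
        rw [hF0 _ (Finset.mem_image_of_mem _ (Finset.mem_univ j)), norm_zero]
        exact hc0
      obtain ⟨ε₁, hε₁, hb⟩ := Metric.eventually_nhds_iff.1 h1
      refine ⟨min ε₁ ε, lt_min hε₁ hε, min_le_right _ _, fun j τ hτ => (hb ?_ j).le⟩
      exact (mem_ball.1 hτ).trans_le (min_le_left _ _)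
    obtain ⟨ε₁, hε₁, hε₁ε, hsm⟩ := hsm
    have hlow : ∀ t : ℂ, t ≠ eval y T → ‖t - eval y T‖ < ε₁ ^ N →
        c ^ χ.natDegree ≤ ‖χ.evalEval t (eval y F)‖ := by
      intro t ht1 ht2
      rw [← Polynomial.map_evalRingHom_eval, ← hχ.natDegree_map (Polynomial.evalRingHom t)]
      apply monic_lower _ (hχ.map _) _ _ hc0.le
      intro r hr
      rw [Polynomial.map_evalRingHom_eval] at hr
      obtain ⟨x, hx, hxT, hxF⟩ := hχ2 t r hr
      obtain ⟨j, τ, hτ, hτN, rfl⟩ := hcov x hx (by rw [hxT]; exact ht1)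
        (by rw [hxT]; exact ht2.trans_le (pow_le_pow_left₀ hε₁.le hε₁ε N))
      have hτ1 : τ ∈ ball (0 : ℂ) ε₁ := by
        rw [mem_ball_zero_iff]
        apply lt_of_pow_lt_pow_left₀ N hε₁.le
        rw [← norm_pow, hτN, hxT]
        exact ht2
      have h3 := hsm j τ hτ1
      rw [hxF] at h3
      have h4 : ‖eval y F‖ - ‖r‖ ≤ ‖eval y F - r‖ := norm_sub_norm_le _ _
      have h5 : ‖eval y F‖ = 2 * c := by rw [hc]; ring
      linarith
    have hlim : c ^ χ.natDegree ≤ ‖χ.evalEval (eval y T) (eval y F)‖ := by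
      have hct : Continuous fun t : ℂ => ‖χ.evalEval t (eval y F)‖ := by
        have : ∀ t : ℂ, χ.evalEval t (eval y F) =
            (χ.eval (Polynomial.C (eval y F))).eval t := fun t => rfl
        simp_rw [this]
        exact (Polynomial.continuous _).norm
      have hev : ∀ᶠ t in 𝓝[≠] (eval y T), c ^ χ.natDegree ≤ ‖χ.evalEval t (eval y F)‖ := by
        have h1 : ∀ᶠ t in 𝓝[≠] (eval y T), t ∈ ball (eval y T) (ε₁ ^ N) :=
          nhdsWithin_le_nhds (ball_mem_nhds _ (by positivity))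
        filter_upwards [h1, self_mem_nhdsWithin] with t ht1 ht2
        exact hlow t ht2 (by rwa [mem_ball, dist_eq_norm] at ht1)
      exact ge_of_tendsto (hct.continuousAt.tendsto.mono_left nhdsWithin_le_nhds) hev
    rw [hχ1 y hy, norm_zero] at hlim
    have : 0 < c ^ χ.natDegree := by positivity
    linarith
  refine ⟨T, hTc, {j // h j 0 = y}, inferInstance, ?_, fun j => h j, N, ε, hN, hε,
    fun j => hhd j, fun j => j.2, fun j => hhZ j, ?_⟩
  · obtain ⟨j, hj⟩ := hne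
    exact ⟨⟨j, hj⟩⟩
  · intro ε' hε' hε'ε
    -- the discs not centred at `y` stay away from `y`
    have h1 : ∀ j, ∃ ε₂ > 0, h j 0 ≠ y → ∀ᶠ x in 𝓝 y, ∀ τ ∈ ball (0 : ℂ) ε₂, x ≠ h j τ := by
      intro j
      by_cases hj : h j 0 = y
      · exact ⟨1, one_pos, fun h => absurd hj h⟩
      · obtain ⟨U, V, hU, hV, hUV⟩ := t2_separation_nhds hj
        obtain ⟨ε₂, hε₂, hb⟩ := Metric.eventually_nhds_iff.1 ((hcont j).eventually_mem hU)
        refine ⟨ε₂, hε₂, fun _ => ?_⟩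
        filter_upwards [hV] with x hx τ hτ hxτ
        exact Set.disjoint_left.1 hUV (hb hτ) (hxτ ▸ hx)
    choose ε₂ hε₂ hε₂' using h1
    obtain ⟨ε₃, hε₃, hε₃le⟩ : ∃ ε₃ > 0, ∀ j, ε₃ ≤ ε₂ j := by
      rcases isEmpty_or_nonempty J with hJ | hJ
      · exact ⟨1, one_pos, fun j => hJ.elim j⟩
      · refine ⟨Finset.univ.inf' Finset.univ_nonempty ε₂, ?_, fun j =>
          Finset.inf'_le ε₂ (Finset.mem_univ j)⟩
        rw [gt_iff_lt, Finset.lt_inf'_iff]
        exact fun j _ => hε₂ j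
    have h2 : ∀ᶠ x in 𝓝 y, ∀ j, h j 0 ≠ y → ∀ τ ∈ ball (0 : ℂ) (ε₂ j), x ≠ h j τ := by
      rw [Filter.eventually_all]
      intro j
      by_cases hj : h j 0 = y
      · exact Filter.Eventually.of_forall fun x h => absurd hj h
      · filter_upwards [hε₂' j hj] with x hx _ using hx
    have h3 : ∀ᶠ x in 𝓝 y, ‖eval x T - eval y T‖ < (min ε' ε₃) ^ N := by
      have hct : ContinuousAt (fun x : σ → ℂ => ‖eval x T - eval y T‖) y :=
        ((MvPolynomial.continuous_eval T).sub continuous_const).norm.continuousAt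
      apply hct.eventually_lt_const
      show ‖eval y T - eval y T‖ < _
      rw [sub_self, norm_zero]
      have := lt_min hε' hε₃
      positivity
    have h4 : ∀ᶠ x in 𝓝 y, x ∈ Z Q → eval x T = eval y T → x = y := by
      have hfin := finite_zeros hQ hd (hTc (eval y T))
      have hfin2 : ({x ∈ Z Q | eval x (T - C (eval y T)) = 0} \ {y}).Finite :=
        hfin.subset Set.sdiff_subset
      have : ({x ∈ Z Q | eval x (T - C (eval y T)) = 0} \ {y})ᶜ ∈ 𝓝 y :=
        hfin2.isClosed.isOpen_compl.mem_nhds (by simp)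
      filter_upwards [this] with x hx hxQ hxT
      by_contra hxy
      exact hx ⟨⟨hxQ, by simp [hxT]⟩, hxy⟩
    filter_upwards [h2, h3, h4] with x hx2 hx3 hx4 hxQ
    by_cases hxT : eval x T = eval y T
    · obtain ⟨j, hj⟩ := hne
      refine ⟨⟨j, hj⟩, 0, by simpa using hε', ?_⟩
      rw [hx4 hxQ hxT]
      exact hj.symm
    · have hε'3 : 0 < min ε' ε₃ := lt_min hε' hε₃
      obtain ⟨j, τ, hτ, hτN, hxj⟩ := hcov x hxQ hxT
        (hx3.trans_le (pow_le_pow_left₀ hε'3.le ((min_le_left _ _).trans hε'ε) N))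
      have hτ1 : ‖τ‖ < min ε' ε₃ := by
        apply lt_of_pow_lt_pow_left₀ N hε'3.le
        rw [← norm_pow, hτN]
        exact hx3
      have hj : h j 0 = y := by
        by_contra hj
        refine hx2 j hj τ ?_ hxj
        rw [mem_ball_zero_iff]
        exact hτ1.trans_le ((min_le_right _ _).trans (hε₃le j))
      refine ⟨⟨j, hj⟩, τ, ?_, hxj⟩
      rw [mem_ball_zero_iff]
      exact hτ1.trans_le (min_le_left _ _)

theorem one_le_dm {Q : Ideal (MvPolynomial σ ℂ)} (hQ : Q.IsPrime) {y : σ → ℂ} (hy : y ∈ Z Q)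
    {F : MvPolynomial σ ℂ} (hF : F - C (eval y F) ∉ Q) : 1 ≤ dm Q := by
  by_contra hcon
  have h0 : dm Q = 0 := by omega
  apply hF
  rw [pt_of_dm_zero hQ h0 hy, mem_pt]
  simp

/-- the points of a disc lying in a finite set are finite in number -/
theorem disc_finite {h : ℂ → σ → ℂ} {T : MvPolynomial σ ℂ} {N : ℕ} (hN : 0 < N) {ε : ℝ}
    {y : σ → ℂ} (hT : ∀ τ ∈ ball (0 : ℂ) ε, eval (h τ) T = eval y T + τ ^ N)
    {E : Set (σ → ℂ)} (hE : E.Finite) : {τ ∈ ball (0 : ℂ) ε | h τ ∈ E}.Finite := by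
  have h1 : {τ ∈ ball (0 : ℂ) ε | h τ ∈ E} ⊆
      ⋃ e ∈ E, ((Polynomial.nthRoots N (eval e T - eval y T)).toFinset : Set ℂ) := by
    rintro τ ⟨hτ, hτE⟩
    refine Set.mem_biUnion hτE ?_
    rw [Finset.mem_coe, Multiset.mem_toFinset, Polynomial.mem_nthRoots hN, hT τ hτ]
    ring
  exact (hE.biUnion fun e _ => Finset.finite_toSet _).subset h1

theorem eval_differentiableOn {E : Type} [NormedAddCommGroup E] [NormedSpace ℂ E]
    {x : E → σ → ℂ} {S : Set E} (hi : ∀ i, DifferentiableOn ℂ (fun w => x w i) S)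
    (F : MvPolynomial σ ℂ) : DifferentiableOn ℂ (fun w => eval (x w) F) S := by
  induction F using MvPolynomial.induction_on with
  | C a =>
    simp only [eval_C]
    exact differentiableOn_const _
  | add p q hp hq =>
    simp only [map_add]
    exact hp.add hq
  | mul_X p i hp =>
    simp only [map_mul, eval_X]
    exact hp.mul (hi i)

theorem open_map {Q : Ideal (MvPolynomial σ ℂ)} (hQ : Q.IsPrime) {y : σ → ℂ} (hy : y ∈ Z Q)
    {F : MvPolynomial σ ℂ} (hF : F - C (eval y F) ∉ Q) {O : Set (σ → ℂ)} (hO : O ∈ 𝓝 y) :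
    (fun x => eval x F) '' (Z Q ∩ O) ∈ 𝓝 (eval y F) := by
  have hd := one_le_dm hQ hy hF
  obtain ⟨Q', hQ', hQQ', hyQ', hd', hF'⟩ := exists_curve (dm Q - 1) hQ hy hF (by omega)
  obtain ⟨T, hTc, J, _, ⟨j⟩, h, N, ε, hN, hε, hhd, hh0, hhZ, -⟩ := local_param hQ' hd' hyQ'
  have han : AnalyticAt ℂ (h j) 0 :=
    ((hhd j).analyticOnNhd isOpen_ball) 0 (mem_ball_self hε)
  have hgd : DifferentiableOn ℂ (fun τ => eval (h j τ) F) (ball 0 ε) := by
    have hi : ∀ i, DifferentiableOn ℂ (fun τ => h j τ i) (ball 0 ε) :=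
      fun i => (differentiableOn_pi.1 (hhd j)) i
    exact eval_differentiableOn hi F
  have hgan : AnalyticAt ℂ (fun τ => eval (h j τ) F) 0 :=
    (hgd.analyticOnNhd isOpen_ball) 0 (mem_ball_self hε)
  have hfin := finite_zeros hQ' hd' hF'
  have hfin2 := disc_finite (h := h j) hN (fun τ hτ => (hhZ j τ hτ).2) hfin
  rcases hgan.eventually_constant_or_nhds_le_map_nhds with h1 | h1
  · exfalso
    have h2 : {τ ∈ ball (0 : ℂ) ε | h j τ ∈ {x ∈ Z Q' | eval x (F - C (eval y F)) = 0}}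
        ∈ 𝓝 (0 : ℂ) := by
      filter_upwards [h1, ball_mem_nhds (0 : ℂ) hε] with τ h3 h4
      refine ⟨h4, (hhZ j τ h4).1, ?_⟩
      rw [hh0] at h3
      simp [h3]
    exact infinite_of_mem_nhds (0 : ℂ) h2 hfin2
  · have h2 : (fun τ => eval (h j τ) F) '' (ball 0 ε ∩ h j ⁻¹' O) ∈ 𝓝 (eval y F) := by
      have h3 := h1 (U := (fun τ => eval (h j τ) F) '' (ball 0 ε ∩ h j ⁻¹' O)) (by
        apply Filter.image_mem_map
        apply Filter.inter_mem (ball_mem_nhds _ hε)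
        apply han.continuousAt.preimage_mem_nhds
        rw [hh0]
        exact hO)
      simpa [hh0] using h3
    apply Filter.mem_of_superset h2
    rintro _ ⟨τ, ⟨h3, h4⟩, rfl⟩
    exact ⟨h j τ, ⟨Z_anti hQQ' (hhZ j τ h3).1, h4⟩, rfl⟩

end Pool.Agent.Run7.h10
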