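import Pool.Agent.Run7.h10.KL

/-!
# Exponential-algebraic closedness for simple abelian varieties
-/

set_option autoImplicit false
set_option linter.unusedSectionVars false

namespace Pool.Agent.Run7.h10

open MvPolynomial Filter Topology Metric

variable {g N m : ℕ} {A : AbelianVariety g N}

open AbelianVariety in
theorem Cset_nonempty {Q : Ideal (MvPolynomial (Fin g ⊕ Fin (N + 1)) ℂ)}
    (hQA : ∀ F ∈ A.eqs, rename Sum.inr F ∈ Q)
    (hscl : Scl Q) {p : (Fin g → ℂ) →ₗ[ℂ] (Fin m → ℂ)}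
    {ξ : Fin m → ℂ} {𝒬 : Set (MvPolynomial (Fin (N + 1)) ℂ)} (hI : Inf Q p ξ 𝒬) :
    (Cset A Q p ξ).Nonempty := by
  choose z Y hzY hY0 hK hdir using fun k : ℕ => hI.pts k
  choose w hw using fun k => mem_Z_cone hscl hQA (hY0 k) (hzY k)
  obtain ⟨R, hR, hbdd⟩ := A.exists_bdd
  choose lam hlam1 hlam2 using fun k => hbdd (w k - z k)
  have hin : ∀ k, w k - z k - lam k ∈ closedBall (0 : Fin g → ℂ) R := fun k => by
    rw [mem_closedBall_zero_iff]; exact hlam2 k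
  obtain ⟨c, -, φ, hφ, hlim⟩ := (isCompact_closedBall (0 : Fin g → ℂ) R).tendsto_subseq hin
  refine ⟨c, fun K hKpos => ?_⟩
  have h1 : ∀ᶠ k in atTop, dist ((fun k => w k - z k - lam k) (φ k)) c < 1 / K :=
    hlim (ball_mem_nhds c (show 0 < 1 / K by positivity))
  have h2 : ∀ᶠ k : ℕ in atTop, K < (φ k : ℝ) := by
    have h3 : Tendsto (fun k => ((φ k : ℕ) : ℝ)) atTop atTop :=
      tendsto_natCast_atTop_atTop.comp hφ.tendsto_atTop
    exact h3.eventually_gt_atTop K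
  obtain ⟨k, hk1, hk2⟩ := (h1.and h2).exists
  refine ⟨z (φ k), w (φ k) - lam (φ k), ?_, hk2.trans (hK _), ?_, ?_⟩
  · apply scl_exp hscl _ (hw (φ k))
    rw [exp_eq, sub_sub_cancel_left]
    exact A.Λ.neg_mem (hlam1 _)
  · rw [hdir, sub_self, norm_zero]
    positivity
  · rw [dist_eq_norm] at hk1
    have h3 : w (φ k) - lam (φ k) - z (φ k) - c = w (φ k) - z (φ k) - lam (φ k) - c := by abel
    rw [h3]
    exact hk1

theorem Cset_univ (hs : A.IsSimple) {Q : Ideal (MvPolynomial (Fin g ⊕ Fin (N + 1)) ℂ)}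
    (hQ : Q.IsPrime) (hd : g + 1 ≤ dm Q) (hQA : ∀ F ∈ A.eqs, rename Sum.inr F ∈ Q)
    (hscl : Scl Q) {p : (Fin g → ℂ) →ₗ[ℂ] (Fin m → ℂ)} {r : (Fin m → ℂ) →ₗ[ℂ] (Fin g → ℂ)}
    {ξ : Fin m → ℂ} {𝒬 : Set (MvPolynomial (Fin (N + 1)) ℂ)} (hpr : ∀ s, p (r s) = s)
    (hmg : m ≤ g) (hI : Inf Q p ξ 𝒬) : Cset A Q p ξ = Set.univ := by
  apply IsClopen.eq_univ _ (Cset_nonempty hQA hscl hI)
  constructor
  · rw [← closure_subset_iff_isClosed]
    intro c hc K hK
    obtain ⟨c', hc', hcc⟩ := Metric.mem_closure_iff.1 hc (1 / (2 * K)) (by positivity)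
    obtain ⟨w, b, h1, h2, h3, h4⟩ := hc' (2 * K) (by positivity)
    have h5 : 1 / (2 * K) < 1 / K := by
      apply one_div_lt_one_div_of_lt hK
      linarith
    refine ⟨w, b, h1, by linarith, h3.trans h5, ?_⟩
    rw [dist_comm, dist_eq_norm] at hcc
    have h6 : b - w - c = (b - w - c') + (c' - c) := by abel
    rw [h6]
    calc _ ≤ ‖b - w - c'‖ + ‖c' - c‖ := norm_add_le _ _
      _ < 1 / (2 * K) + 1 / (2 * K) := add_lt_add h4 hcc
      _ = 1 / K := by field_simp; ring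
  · rw [Metric.isOpen_iff]
    intro c₀ hc₀
    obtain ⟨ε, hε, h⟩ := key hs hQ hd hQA hscl hpr hmg hI hc₀
    refine ⟨ε, hε, fun c hc K hK => ?_⟩
    rw [mem_ball, dist_eq_norm] at hc
    obtain ⟨w, h1, h2, h3⟩ := h c hc K hK
    refine ⟨w, w + c, h1, h2, h3, ?_⟩
    rw [add_sub_cancel_left, sub_self, norm_zero]
    positivity

/-- the case of positive dimensional base -/
theorem inf_case (hs : A.IsSimple) {Q : Ideal (MvPolynomial (Fin g ⊕ Fin (N + 1)) ℂ)}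
    (hQ : Q.IsPrime) (hd : dm Q = g + 1) (hQA : ∀ F ∈ A.eqs, rename Sum.inr F ∈ Q)
    (hscl : Scl Q) {b : Fin (N + 1)} (hb : X (Sum.inr b) ∉ Q)
    (hbase : 1 ≤ dm (Q.comap (rename Sum.inl : MvPolynomial (Fin g) ℂ →ₐ[ℂ]
      MvPolynomial (Fin g ⊕ Fin (N + 1)) ℂ).toRingHom)) :
    {w | Sum.elim w (A.θ w) ∈ Z Q}.Infinite := by
  obtain ⟨m, p, r, ξ, 𝒬, hpr, hmg, hI⟩ := exists_inf hQ hscl hd hb hbase
  have h0 : (0 : Fin g → ℂ) ∈ Cset A Q p ξ := by
    rw [Cset_univ hs hQ hd.ge hQA hscl hpr hmg hI]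
    trivial
  obtain ⟨ε, hε, h⟩ := key hs hQ hd.ge hQA hscl hpr hmg hI h0
  intro hfin
  have hfin2 : ((fun w => ‖p w‖) '' {w | Sum.elim w (A.θ w) ∈ Z Q}).Finite := hfin.image _
  obtain ⟨K, hK⟩ := hfin2.bddAbove
  obtain ⟨w, h1, h2, -⟩ := h 0 (by rw [sub_zero, norm_zero]; exact hε) (max K 1)
    (lt_of_lt_of_le one_pos (le_max_right _ _))
  rw [add_zero] at h1
  have h3 := hK ⟨w, h1, rfl⟩
  simp only at h3
  have h4 := le_max_left K 1
  linarith

/-- the case of zero dimensional base -/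
theorem zero_case {Q : Ideal (MvPolynomial (Fin g ⊕ Fin (N + 1)) ℂ)}
    (hQ : Q.IsPrime) (hd : g + 1 ≤ dm Q) (hQA : ∀ F ∈ A.eqs, rename Sum.inr F ∈ Q)
    (hscl : Scl Q) {w₀ : Fin g → ℂ} (hw : ∀ z Y, Sum.elim z Y ∈ Z Q → z = w₀)
    {b₀ : Fin g → ℂ} (hb₀ : Sum.elim w₀ (A.θ b₀) ∈ Z Q) (b : Fin g → ℂ) :
    Sum.elim w₀ (A.θ b) ∈ Z Q := by
  have h : {b | Sum.elim w₀ (A.θ b) ∈ Z Q} = Set.univ := by
    apply IsClopen.eq_univ _ ⟨b₀, hb₀⟩
    constructor
    · have hc : Continuous fun b : Fin g → ℂ => (Sum.elim w₀ (A.θ b) : Fin g ⊕ Fin (N + 1) → ℂ) := by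
        rw [continuous_pi_iff]
        rintro (i | i)
        · exact continuous_const
        · exact (continuous_apply i).comp AbelianVariety.continuous_θ
      exact (isClosed_Z Q).preimage hc
    · rw [Metric.isOpen_iff]
      intro b₁ hb₁
      obtain ⟨l, hl⟩ : ∃ l, A.θ b₁ l ≠ 0 := Function.ne_iff.1 (A.ne_zero _)
      obtain ⟨r₀, hr₀, hsolve⟩ := solve_near hQ hd hQA hscl hl
      obtain ⟨ε, hε, hev⟩ := hsolve Unit (pure ()) (fun _ => w₀) (fun _ => b₁)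
        (fun _ => b₁ - w₀) (fun _ => hb₁) tendsto_const_nhds (by
          have : w₀ + (b₁ - w₀) = b₁ := by abel
          rw [this]
          exact tendsto_const_nhds) r₀ hr₀ le_rfl (by
        intro T V κ e' z Y b₂ _ he0 hmem hzb _ _ hb₂
        have h1 : ∀ᶠ t in (V : Filter T), z t = w₀ := by
          filter_upwards [hmem] with t ht
          exact hw _ _ ht
        have h2 : Tendsto (fun t => z t + e' t) V (𝓝 b₁) := by
          have h3 : Tendsto (fun t => b₁ + (e' t - (b₁ - w₀))) V (𝓝 (b₁ + 0)) :=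
            he0.const_add b₁
          rw [add_zero] at h3
          refine h3.congr' ?_
          filter_upwards [h1] with t ht
          rw [ht]
          abel
        have h3 := tendsto_nhds_unique hzb h2
        rw [h3, sub_self, norm_zero] at hb₂
        exact hr₀.ne hb₂)
      refine ⟨ε, hε, fun b hb => ?_⟩
      rw [mem_ball, dist_eq_norm] at hb
      obtain ⟨k, hk⟩ := hev.exists
      obtain ⟨z, hz1, _⟩ := hk (b - w₀) (by
        have h1 : b - w₀ - (b₁ - w₀) = b - b₁ := by abel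
        rw [h1]
        exact hb)
      rw [hw _ _ hz1, add_sub_cancel] at hz1
      exact hz1
  have := Set.mem_univ b
  rw [← h] at this
  exact this

/-- existence of a solution -/
theorem exists_sol (hs : A.IsSimple) {Q : Ideal (MvPolynomial (Fin g ⊕ Fin (N + 1)) ℂ)}
    (hQ : Q.IsPrime) (hd : dm Q = g + 1) (hQA : ∀ F ∈ A.eqs, rename Sum.inr F ∈ Q)
    (hscl : Scl Q) {z₀ w₀ : Fin g → ℂ} (h₀ : Sum.elim z₀ (A.θ w₀) ∈ Z Q) :
    ∃ z, Sum.elim z (A.θ z) ∈ Z Q := by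
  obtain ⟨b, hb⟩ : ∃ b, A.θ w₀ b ≠ 0 := Function.ne_iff.1 (A.ne_zero _)
  have hbQ : X (Sum.inr b) ∉ Q := by
    intro h
    have h1 := h₀ _ h
    rw [eval_X] at h1
    exact hb h1
  by_cases hbase : 1 ≤ dm (Q.comap (rename Sum.inl : MvPolynomial (Fin g) ℂ →ₐ[ℂ]
      MvPolynomial (Fin g ⊕ Fin (N + 1)) ℂ).toRingHom)
  · exact (inf_case hs hQ hd hQA hscl hbQ hbase).nonempty
  · have hP : (Q.comap (rename Sum.inl : MvPolynomial (Fin g) ℂ →ₐ[ℂ]
      MvPolynomial (Fin g ⊕ Fin (N + 1)) ℂ).toRingHom).IsPrime := Ideal.comap_isPrime _ _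
    have hPZ : ∀ z Y, Sum.elim z Y ∈ Z Q → z ∈ Z (Q.comap (rename Sum.inl :
        MvPolynomial (Fin g) ℂ →ₐ[ℂ] MvPolynomial (Fin g ⊕ Fin (N + 1)) ℂ).toRingHom) := by
      intro z Y h F hF
      have h1 := h (rename Sum.inl F) hF
      rwa [eval_rename, Sum.elim_comp_inl] at h1
    have hpt := pt_of_dm_zero hP (by omega) (hPZ _ _ h₀)
    have hw : ∀ z Y, Sum.elim z Y ∈ Z Q → z = z₀ := by
      intro z Y h
      have h1 := hPZ z Y h
      rw [hpt] at h1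
      funext i
      have h2 := h1 (X i - C (z₀ i)) (by rw [mem_pt]; simp)
      simp only [map_sub, eval_X, eval_C] at h2
      exact sub_eq_zero.1 h2
    exact ⟨z₀, zero_case hQ hd.ge hQA hscl hw h₀ z₀⟩

open AbelianVariety in
/-- the main theorem -/
theorem main_simple (hs : A.IsSimple) {V : Set ((Fin g → ℂ) × A.Pts)} (hV : A.Variety V)
    (hd : A.DimGE V g) : (∃ z, (z, A.exp z) ∈ V) ∧
      ((∃ x ∈ V, ∃ y ∈ V, x.1 ≠ y.1) → {z | (z, A.exp z) ∈ V}.Infinite) := by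
  classical
  have hI := IV_prime hV
  have hIh := A.IV_hg V
  have hId := dm_IV_of_DimGE hV hd
  have hsol : ∀ (Q : Ideal (MvPolynomial (Fin g ⊕ Fin (N + 1)) ℂ)), Q.IsPrime → Hg Q →
      A.IV V ≤ Q → g + 1 ≤ dm Q → ∀ z₀ w₀, Sum.elim z₀ (A.θ w₀) ∈ Z Q →
      ∃ z, Sum.elim z (A.θ z) ∈ Z Q := by
    intro Q hQ hQh hle hdQ z₀ w₀ h₀
    obtain ⟨Q', hQ', hQ'h, hQQ', hy, hdQ'⟩ := exists_cut (k := g + 1) (by omega) (dm Q - (g + 1))
      hQ hQh h₀ (by omega)
    obtain ⟨z, hz⟩ := exists_sol hs hQ' hdQ' (fun F hF => hQQ' (hle (eqs_mem_IV V hF))) hQ'h.scl hy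
    exact ⟨z, Z_anti hQQ' hz⟩
  obtain ⟨⟨z₁, x₁⟩, hne⟩ := hV.2.1
  obtain ⟨w₁, rfl⟩ := exists_exp x₁
  refine ⟨?_, ?_⟩
  · obtain ⟨z, hz⟩ := hsol _ hI hIh le_rfl hId z₁ w₁ (mem_Z_IV hne)
    exact ⟨z, mem_of_Z_IV hV.1 hz⟩
  · rintro ⟨⟨zx, xx⟩, hx, ⟨zy, xy⟩, hy, hxy⟩
    obtain ⟨wx', rfl⟩ := exists_exp xx
    obtain ⟨wy', rfl⟩ := exists_exp xy
    obtain ⟨a, ha⟩ := Function.ne_iff.1 hxy
    by_cases hd1 : dm (A.IV V) = g + 1
    · -- the dimension is g
      obtain ⟨b, hb⟩ : ∃ b, A.θ w₁ b ≠ 0 := Function.ne_iff.1 (A.ne_zero _)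
      have hbQ : X (Sum.inr b) ∉ A.IV V := by
        intro h
        have h1 := mem_Z_IV hne _ h
        rw [eval_X] at h1
        exact hb h1
      have hP : ((A.IV V).comap (rename Sum.inl : MvPolynomial (Fin g) ℂ →ₐ[ℂ]
        MvPolynomial (Fin g ⊕ Fin (N + 1)) ℂ).toRingHom).IsPrime := Ideal.comap_isPrime _ _
      have hPZ : ∀ z w, (z, A.exp w) ∈ V → z ∈ Z ((A.IV V).comap (rename Sum.inl :
          MvPolynomial (Fin g) ℂ →ₐ[ℂ] MvPolynomial (Fin g ⊕ Fin (N + 1)) ℂ).toRingHom) := by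
        intro z w h F hF
        have h1 := mem_Z_IV h (rename Sum.inl F) hF
        rwa [eval_rename, Sum.elim_comp_inl] at h1
      have hbase : 1 ≤ dm ((A.IV V).comap (rename Sum.inl : MvPolynomial (Fin g) ℂ →ₐ[ℂ]
          MvPolynomial (Fin g ⊕ Fin (N + 1)) ℂ).toRingHom) := by
        by_contra hcon
        have hpt := pt_of_dm_zero hP (by omega) (hPZ _ _ hx)
        have h1 := hPZ _ _ hy
        rw [hpt] at h1
        have h2 := h1 (X a - C (zx a)) (by rw [mem_pt]; simp)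
        simp only [map_sub, eval_X, eval_C] at h2
        exact ha (sub_eq_zero.1 h2).symm
      apply (inf_case hs hI hd1 (fun F hF => eqs_mem_IV V hF) hIh.scl hbQ hbase).mono
      intro z hz
      exact mem_of_Z_IV hV.1 hz
    · -- the dimension is larger
      have hinf : {c : ℂ | ∃ z w, (z, A.exp w) ∈ V ∧ z a = c}.Infinite := by
        intro hfin
        have h1 : ∏ c ∈ hfin.toFinset, (X (Sum.inl a) - C c) ∈ A.IV V := by
          rw [mem_IV]
          intro z w hzw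
          rw [map_prod]
          apply Finset.prod_eq_zero (i := z a)
          · rw [Set.Finite.mem_toFinset]
            exact ⟨z, w, hzw, rfl⟩
          · rw [ray_zero_iff]
            intro c
            simp
        obtain ⟨c, _, hc⟩ := (Ideal.IsPrime.prod_mem_iff (hp := hI)).1 h1
        have h2 := mem_Z_IV hx _ hc
        have h3 := mem_Z_IV hy _ hc
        simp only [map_sub, eval_X, eval_C, Sum.elim_inl] at h2 h3
        exact ha ((sub_eq_zero.1 h2).trans (sub_eq_zero.1 h3).symm)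
      intro hfin
      apply hinf
      apply (hfin.image fun z => z a).subset
      rintro c ⟨z, w, hzw, hc⟩
      have hfh : IsWeightedHomogeneous (Wt g N) (X (Sum.inl a) - C c :
          MvPolynomial (Fin g ⊕ Fin (N + 1)) ℂ) 0 := by
        apply IsWeightedHomogeneous.sub
        · exact isWeightedHomogeneous_X ℂ (Wt g N) (Sum.inl a)
        · exact isWeightedHomogeneous_C (Wt g N) c
      obtain ⟨Q₁, hQ₁, hQ₁h, hle, hfQ, hy₁, hd₁⟩ := exists_cut_one hI hIh (mem_Z_IV hzw) hfh (by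
        simp [hc])
      obtain ⟨z', hz'⟩ := hsol Q₁ hQ₁ hQ₁h hle (by omega) z w hy₁
      refine ⟨z', mem_of_Z_IV hV.1 (Z_anti hle hz'), ?_⟩
      have h1 := hz' _ hfQ
      simp only [map_sub, eval_X, eval_C, Sum.elim_inl] at h1
      exact sub_eq_zero.1 h1

end Pool.Agent.Run7.h10
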