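import Pool.Agent.Run7.h10.WH

/-!
# Linear Noether normalization with linear growth
-/

set_option autoImplicit false
set_option linter.unusedSectionVars false

namespace Pool.Agent.Run7.h10

open MvPolynomial Filter Topology Metric

variable {g m : ℕ}

/-- the linear polynomials of a linear map -/
noncomputable def lp (p : (Fin g → ℂ) →ₗ[ℂ] (Fin m → ℂ)) (i : Fin m) : MvPolynomial (Fin g) ℂ :=
  ∑ j, C (p (Pi.single j 1) i) * X j

theorem eval_lp (p : (Fin g → ℂ) →ₗ[ℂ] (Fin m → ℂ)) (i : Fin m) (z : Fin g → ℂ) :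
    eval z (lp p i) = p z i := by
  rw [lp, map_sum]
  simp only [map_mul, eval_C, eval_X]
  conv_rhs => rw [pi_eq_sum_univ' z]
  rw [map_sum, Finset.sum_apply]
  apply Finset.sum_congr rfl
  intro j _
  rw [map_smul, Pi.smul_apply, smul_eq_mul, mul_comm]

/-- pull back of polynomials -/
noncomputable def ph (p : (Fin g → ℂ) →ₗ[ℂ] (Fin m → ℂ)) :
    MvPolynomial (Fin m) ℂ →ₐ[ℂ] MvPolynomial (Fin g) ℂ := aeval (lp p)

theorem eval_ph (p : (Fin g → ℂ) →ₗ[ℂ] (Fin m → ℂ)) (z : Fin g → ℂ) (F : MvPolynomial (Fin m) ℂ) :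
    eval z (ph p F) = eval (p z) F := by
  induction F using MvPolynomial.induction_on with
  | C a => simp [ph]
  | add a b ha hb => rw [map_add, map_add, map_add, ha, hb]
  | mul_X a i ha =>
    rw [map_mul, map_mul, map_mul, ha, eval_X]
    congr 1
    rw [ph, aeval_X, eval_lp]

/-- a linear Noether normalization with linear growth -/
structure Nrm (P : Ideal (MvPolynomial (Fin g) ℂ)) (p : (Fin g → ℂ) →ₗ[ℂ] (Fin m → ℂ)) :
    Prop where
  surj : Function.Surjective p
  growth : ∃ C : ℝ, ∀ z ∈ Z P, ‖z‖ ≤ C * (1 + ‖p z‖)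
  int : ((Ideal.Quotient.mk P).comp (ph p : MvPolynomial (Fin m) ℂ →+* _)).IsIntegral

theorem hom_lead {n m' : ℕ} (u : Fin n → MvPolynomial (Fin m') ℂ) (c : Fin n → ℂ)
    {F : MvPolynomial (Fin n) ℂ} {D : ℕ} (hF : IsWeightedHomogeneous (fun _ => 1) F D) :
    (aeval (fun i => Polynomial.C (u i) + Polynomial.C (C (c i)) * Polynomial.X) F :
      Polynomial (MvPolynomial (Fin m') ℂ)).natDegree ≤ D ∧
    (aeval (fun i => Polynomial.C (u i) + Polynomial.C (C (c i)) * Polynomial.X) F :
      Polynomial (MvPolynomial (Fin m') ℂ)).coeff D = C (eval c F) := by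
  classical
  set f : Fin n → Polynomial (MvPolynomial (Fin m') ℂ) :=
    fun i => Polynomial.C (u i) + Polynomial.C (C (c i)) * Polynomial.X with hf
  have hf1 : ∀ i, (f i).natDegree ≤ 1 := by
    intro i
    apply Polynomial.natDegree_add_le_of_degree_le
    · rw [Polynomial.natDegree_C]; omega
    · exact (Polynomial.natDegree_C_mul_le _ _).trans Polynomial.natDegree_X_le
  have hf2 : ∀ i, (f i).coeff 1 = C (c i) := by
    intro i
    rw [hf, Polynomial.coeff_add, Polynomial.coeff_C_mul, Polynomial.coeff_X_one, mul_one,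
      Polynomial.coeff_C, if_neg one_ne_zero, zero_add]
  have hprod : ∀ (e : Fin n →₀ ℕ) (S : Finset (Fin n)),
      (∏ i ∈ S, f i ^ e i).natDegree ≤ ∑ i ∈ S, e i ∧
      (∏ i ∈ S, f i ^ e i).coeff (∑ i ∈ S, e i) = C (∏ i ∈ S, c i ^ e i) := by
    intro e S
    induction S using Finset.induction_on with
    | empty => simp
    | insert i S hi ih =>
      rw [Finset.prod_insert hi, Finset.sum_insert hi, Finset.prod_insert hi]
      have h1 : (f i ^ e i).natDegree ≤ e i := by
        have := Polynomial.natDegree_pow_le_of_le (e i) (hf1 i)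
        rwa [mul_one] at this
      have h2 : (f i ^ e i).coeff (e i) = C (c i) ^ e i := by
        have := Polynomial.coeff_pow_of_natDegree_le (m := e i) (hf1 i)
        rwa [mul_one, hf2] at this
      refine ⟨Polynomial.natDegree_mul_le_of_le h1 ih.1, ?_⟩
      rw [Polynomial.coeff_mul_add_eq_of_natDegree_le h1 ih.1, h2, ih.2, C_mul, C_pow]
  have hdeg : ∀ e ∈ F.support, ∑ i, e i = D := by
    intro e he
    have h1 : Finsupp.weight (fun _ => 1) e = D := hF (mem_support_iff.1 he)
    rw [← h1, Finsupp.weight_apply, Finsupp.sum_fintype _ _ (by simp)]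
    simp
  rw [aeval_def, eval₂_eq']
  have hG : ∀ e ∈ F.support, (algebraMap ℂ (Polynomial (MvPolynomial (Fin m') ℂ)) (coeff e F) *
      ∏ i, f i ^ e i).natDegree ≤ D ∧
      (algebraMap ℂ (Polynomial (MvPolynomial (Fin m') ℂ)) (coeff e F) *
        ∏ i, f i ^ e i).coeff D = C (coeff e F * ∏ i, c i ^ e i) := by
    intro e he
    obtain ⟨h1, h2⟩ := hprod e Finset.univ
    rw [hdeg e he] at h1 h2
    have h3 : algebraMap ℂ (Polynomial (MvPolynomial (Fin m') ℂ)) (coeff e F) =
        Polynomial.C (C (coeff e F)) := rfl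
    rw [h3]
    refine ⟨(Polynomial.natDegree_C_mul_le _ _).trans h1, ?_⟩
    rw [Polynomial.coeff_C_mul, h2, C_mul]
  refine ⟨Polynomial.natDegree_sum_le_of_forall_le _ _ fun e he => (hG e he).1, ?_⟩
  rw [Polynomial.finsetSum_coeff, eval_eq', map_sum]
  apply Finset.sum_congr rfl
  intro e he
  exact (hG e he).2

theorem gen_lead {n m' : ℕ} (u : Fin n → MvPolynomial (Fin m') ℂ) (c : Fin n → ℂ)
    {F : MvPolynomial (Fin n) ℂ} {D : ℕ} (hD : weightedTotalDegree (fun _ => 1) F ≤ D) :
    (aeval (fun i => Polynomial.C (u i) + Polynomial.C (C (c i)) * Polynomial.X) F :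
      Polynomial (MvPolynomial (Fin m') ℂ)).natDegree ≤ D ∧
    (aeval (fun i => Polynomial.C (u i) + Polynomial.C (C (c i)) * Polynomial.X) F :
      Polynomial (MvPolynomial (Fin m') ℂ)).coeff D =
      C (eval c (weightedHomogeneousComponent (fun _ => 1) D F)) := by
  have h := fun j => hom_lead u c (F := weightedHomogeneousComponent (fun _ => 1) j F)
    (weightedHomogeneousComponent_isWeightedHomogeneous j F)
  have hsum : (aeval (fun i => Polynomial.C (u i) + Polynomial.C (C (c i)) * Polynomial.X) F :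
      Polynomial (MvPolynomial (Fin m') ℂ)) = ∑ j ∈ Finset.range (D + 1),
      aeval (fun i => Polynomial.C (u i) + Polynomial.C (C (c i)) * Polynomial.X)
        (weightedHomogeneousComponent (fun _ => 1) j F) := by
    conv_lhs => rw [sum_components hD]
    rw [map_sum]
  rw [hsum]
  constructor
  · apply Polynomial.natDegree_sum_le_of_forall_le
    intro j hj
    have := Finset.mem_range.1 hj
    exact (h j).1.trans (by omega)
  · rw [Polynomial.finsetSum_coeff, Finset.sum_eq_single D]
    · exact (h D).2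
    · intro j hj hjD
      apply Polynomial.coeff_eq_zero_of_natDegree_lt
      have := Finset.mem_range.1 hj
      exact lt_of_le_of_lt (h j).1 (by omega)
    · intro hh
      exact absurd (Finset.mem_range.2 (Nat.lt_succ_self D)) hh

theorem isIntegral_of_comp {R R' S : Type} [CommRing R] [CommRing R'] [CommRing S]
    (f : R' →+* S) (φ : R →+* S) (hφ : φ.IsIntegral) (h : ∀ r, f.IsIntegralElem (φ r)) :
    f.IsIntegral := by
  letI : Algebra R' S := f.toAlgebra
  intro s
  obtain ⟨q, hq, hqs⟩ := hφ s
  let φ' : R →+* integralClosure R' S := φ.codRestrict (integralClosure R' S).toSubring h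
  have h1 : IsIntegral (integralClosure R' S) s := by
    refine ⟨q.map φ', hq.map φ', ?_⟩
    rw [Polynomial.eval₂_map]
    exact hqs
  exact isIntegral_trans s h1

/-- the normalization step -/
theorem Nrm.step {P : Ideal (MvPolynomial (Fin g) ℂ)} (hP : P.IsPrime)
    {p : (Fin g → ℂ) →ₗ[ℂ] (Fin (m + 1) → ℂ)} (h : Nrm P p) {F : MvPolynomial (Fin (m + 1)) ℂ}
    (hF0 : F ≠ 0) (hF : ph p F ∈ P) : ∃ p' : (Fin g → ℂ) →ₗ[ℂ] (Fin m → ℂ), Nrm P p' := by
  classical
  set D := weightedTotalDegree (fun _ : Fin (m + 1) => 1) F with hD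
  set FD := weightedHomogeneousComponent (fun _ : Fin (m + 1) => 1) D F with hFD
  have hFD0 : FD ≠ 0 := exists_top _ hF0
  obtain ⟨c, hc⟩ : ∃ c, eval c FD ≠ 0 := by
    by_contra hcon
    push Not at hcon
    exact hFD0 (MvPolynomial.funext fun x => by rw [hcon x, map_zero])
  have hFDh : IsWeightedHomogeneous (fun _ => 1) FD D :=
    weightedHomogeneousComponent_isWeightedHomogeneous D F
  have hDpos : 0 < D := by
    by_contra hcon
    have hD0 : D = 0 := by omega
    -- then `F` is a nonzero constant
    have h1 : F = FD := by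
      have := sum_components (w := fun _ : Fin (m + 1) => 1) (F := F) hD.ge
      rw [hD0] at this
      simp only [zero_add, Finset.range_one, Finset.sum_singleton] at this
      rw [hFD, hD0]
      exact this
    have h2 : F.totalDegree = 0 := by
      have h3 : F.IsHomogeneous 0 := by
        rw [h1]
        rw [hD0] at hFDh
        exact hFDh
      exact Nat.le_zero.1 h3.totalDegree_le
    rw [totalDegree_eq_zero_iff_eq_C] at h2
    rw [h2] at hF
    have h3 : ph p (C (coeff 0 F)) = C (coeff 0 F) := by simp [ph]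
    rw [h3] at hF
    apply hP.ne_top
    rw [Ideal.eq_top_iff_one]
    have h4 : coeff 0 F ≠ 0 := by
      intro h5
      rw [h5, C_0] at h2
      exact hF0 h2
    have h5 := P.mul_mem_left (C (coeff 0 F)⁻¹) hF
    rwa [← C_mul, inv_mul_cancel₀ h4, C_1] at h5
  have hc0 : c ≠ 0 := by
    rintro rfl
    apply hc
    have h1 := eval_wh hFDh 0 (0 : Fin (m + 1) → ℂ)
    rw [zero_pow hDpos.ne', zero_mul] at h1
    simpa using h1
  obtain ⟨a, ha⟩ : ∃ a, c a ≠ 0 := Function.ne_iff.1 hc0
  -- the projection along `c`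
  let π : (Fin (m + 1) → ℂ) →ₗ[ℂ] (Fin m → ℂ) :=
    { toFun := fun u b => u (a.succAbove b) - c (a.succAbove b) / c a * u a
      map_add' := fun u v => by
        funext b
        simp only [Pi.add_apply]
        ring
      map_smul' := fun r u => by
        funext b
        simp only [Pi.smul_apply, smul_eq_mul, RingHom.id_apply]
        ring }
  let ι : (Fin m → ℂ) → (Fin (m + 1) → ℂ) := fun v => a.insertNth 0 v
  have hι : ∀ u, u = ι (π u) + (u a / c a) • c := by
    intro u
    funext i
    refine Fin.succAboveCases a ?_ (fun b => ?_) i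
    · simp only [ι, Pi.add_apply, Fin.insertNth_apply_same, Pi.smul_apply, smul_eq_mul]
      field_simp
      ring
    · simp only [ι, Pi.add_apply, Fin.insertNth_apply_succAbove, Pi.smul_apply, smul_eq_mul, π,
        LinearMap.coe_mk, AddHom.coe_mk]
      ring
  have hπι : ∀ v, π (ι v) = v := by
    intro v
    funext b
    simp only [ι, π, LinearMap.coe_mk, AddHom.coe_mk, Fin.insertNth_apply_same,
      Fin.insertNth_apply_succAbove]
    ring
  have hιn : ∀ v, ‖ι v‖ ≤ ‖v‖ := by
    intro v
    rw [pi_norm_le_iff_of_nonneg (norm_nonneg _)]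
    intro i
    refine Fin.succAboveCases a ?_ (fun b => ?_) i
    · simp only [ι, Fin.insertNth_apply_same, norm_zero]; positivity
    · simp only [ι, Fin.insertNth_apply_succAbove]
      exact norm_le_pi_norm v b
  refine ⟨π.comp p, ⟨?_, ?_, ?_⟩⟩
  · intro v
    obtain ⟨z, hz⟩ := h.surj (ι v)
    refine ⟨z, ?_⟩
    rw [LinearMap.comp_apply, hz, hπι]
  · -- growth
    obtain ⟨C₁, hC₁⟩ := h.growth
    obtain ⟨ε, hε, hnv⟩ := nonvan_one hD.ge hc
    have hbd : ∀ z ∈ Z P, ‖p z‖ ≤ (1 + ‖c‖ / ε) * (1 + ‖π (p z)‖) := by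
      intro z hz
      set u := p z with hu
      have hFu : eval u F = 0 := by
        rw [hu, ← eval_ph]
        exact hz _ hF
      set t := u a / c a with ht
      have h1 : ‖t‖ ≤ (1 + ‖π u‖) / ε := by
        by_contra hcon
        push Not at hcon
        have hn : 0 ≤ ‖π u‖ := norm_nonneg _
        have ht1 : 1 / ε < ‖t‖ := by
          refine lt_of_le_of_lt ?_ hcon
          gcongr
          linarith
        have ht0 : t ≠ 0 := by
          intro h0
          rw [h0, norm_zero] at ht1
          have : 0 < 1 / ε := by positivity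
          linarith
        have htn : 0 < ‖t‖ := norm_pos_iff.2 ht0
        have h2 : ‖(t⁻¹ • u) - c‖ < ε := by
          have h3 : t⁻¹ • u - c = t⁻¹ • ι (π u) := by
            conv_lhs => rw [hι u]
            rw [smul_add, smul_smul, ← ht, inv_mul_cancel₀ ht0, one_smul, add_sub_cancel_right]
          rw [h3, norm_smul, norm_inv]
          rw [inv_mul_lt_iff₀ htn]
          calc ‖ι (π u)‖ ≤ ‖π u‖ := hιn _
            _ < 1 + ‖π u‖ := by linarith
            _ ≤ ‖t‖ * ε := by
                rw [div_lt_iff₀ hε] at hcon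
                linarith
        have h4 := hnv t ht1 (t⁻¹ • u) h2
        rw [smul_smul, mul_inv_cancel₀ ht0, one_smul] at h4
        exact h4 hFu
      calc ‖u‖ = ‖ι (π u) + t • c‖ := by rw [← hι u]
        _ ≤ ‖ι (π u)‖ + ‖t • c‖ := norm_add_le _ _
        _ ≤ ‖π u‖ + (1 + ‖π u‖) / ε * ‖c‖ := by
            rw [norm_smul]
            exact add_le_add (hιn _) (mul_le_mul_of_nonneg_right h1 (norm_nonneg _))
        _ ≤ (1 + ‖c‖ / ε) * (1 + ‖π u‖) := by
            have e : (1 + ‖π u‖) / ε * ‖c‖ = ‖c‖ / ε * (1 + ‖π u‖) := by ring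
            rw [e]
            linarith
    refine ⟨|C₁| * (1 + (1 + ‖c‖ / ε)), fun z hz => ?_⟩
    have h1 := hC₁ z hz
    have h2 := hbd z hz
    rw [LinearMap.comp_apply]
    have hn : 0 ≤ ‖π (p z)‖ := norm_nonneg _
    calc ‖z‖ ≤ C₁ * (1 + ‖p z‖) := h1
      _ ≤ |C₁| * (1 + ‖p z‖) := mul_le_mul_of_nonneg_right (le_abs_self _) (by positivity)
      _ ≤ |C₁| * ((1 + ‖π (p z)‖) + (1 + ‖c‖ / ε) * (1 + ‖π (p z)‖)) := by
          apply mul_le_mul_of_nonneg_left _ (abs_nonneg _)
          linarith
      _ = _ := by ring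
  · -- integrality
    set mk := Ideal.Quotient.mk P
    set f' : MvPolynomial (Fin m) ℂ →+* (MvPolynomial (Fin g) ℂ ⧸ P) :=
      mk.comp (ph (π.comp p) : MvPolynomial (Fin m) ℂ →+* _) with hf'
    set φ : MvPolynomial (Fin (m + 1)) ℂ →+* (MvPolynomial (Fin g) ℂ ⧸ P) :=
      mk.comp (ph p : MvPolynomial (Fin (m + 1)) ℂ →+* _) with hφ
    apply isIntegral_of_comp f' φ h.int
    -- the integral element
    set T := mk (C (c a)⁻¹ * lp p a) with hT
    let uu : Fin (m + 1) → MvPolynomial (Fin m) ℂ := a.insertNth 0 (fun b => X b)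
    have hX : ∀ i, φ (X i) = f' (uu i) + f' (C (c i)) * T := by
      intro i
      have e1 : ∀ r : MvPolynomial (Fin m) ℂ, f' r = mk (ph (π.comp p) r) := fun _ => rfl
      have e2 : ∀ r, φ r = mk (ph p r) := fun _ => rfl
      rw [e1, e1, e2, hT, ← map_mul, ← map_add]
      congr 1
      apply MvPolynomial.funext
      intro z
      rw [eval_ph, eval_X, map_add, map_mul, eval_ph, eval_ph, map_mul, eval_C, eval_C, eval_lp]
      have e3 := congrFun (hι (p z)) i
      rw [e3]
      simp only [Pi.add_apply, Pi.smul_apply, smul_eq_mul, LinearMap.comp_apply]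
      congr 1
      · simp only [ι, uu]
        refine Fin.succAboveCases a ?_ (fun b => ?_) i
        · simp
        · simp
      · field_simp
    have hTint : f'.IsIntegralElem T := by
      obtain ⟨hG1, hG2⟩ := gen_lead uu c hD.ge
      set G := (aeval (fun i => Polynomial.C (uu i) + Polynomial.C (C (c i)) * Polynomial.X) F :
        Polynomial (MvPolynomial (Fin m) ℂ)) with hG
      refine ⟨Polynomial.C (C (eval c FD)⁻¹) * G, ?_, ?_⟩
      · apply Polynomial.monic_of_natDegree_le_of_coeff_eq_one D
        · exact (Polynomial.natDegree_C_mul_le _ _).trans hG1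
        · rw [Polynomial.coeff_C_mul, hG2, ← hFD, ← C_mul, inv_mul_cancel₀ hc, C_1]
      · rw [Polynomial.eval₂_mul]
        have h1 : Polynomial.eval₂ f' T G = φ F := by
          rw [hG]
          have h2 : (Polynomial.eval₂RingHom f' T).comp
              ((aeval (fun i => Polynomial.C (uu i) + Polynomial.C (C (c i)) * Polynomial.X) :
                MvPolynomial (Fin (m + 1)) ℂ →ₐ[ℂ] Polynomial (MvPolynomial (Fin m) ℂ)) :
                MvPolynomial (Fin (m + 1)) ℂ →+* Polynomial (MvPolynomial (Fin m) ℂ)) = φ := by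
            apply MvPolynomial.ringHom_ext
            · intro r
              rw [RingHom.comp_apply, RingHom.coe_coe, aeval_C]
              have e1 : (algebraMap ℂ (Polynomial (MvPolynomial (Fin m) ℂ))) r =
                Polynomial.C (C r) := rfl
              rw [e1, Polynomial.coe_eval₂RingHom, Polynomial.eval₂_C]
              show mk (ph (π.comp p) (C r)) = mk (ph p (C r))
              simp [ph]
            · intro i
              rw [RingHom.comp_apply, RingHom.coe_coe, aeval_X, hX i, Polynomial.coe_eval₂RingHom,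
                Polynomial.eval₂_add, Polynomial.eval₂_mul, Polynomial.eval₂_C,
                Polynomial.eval₂_C, Polynomial.eval₂_X]
          exact congrArg (fun k => k F) h2
        have h3 : φ F = 0 := Ideal.Quotient.eq_zero_iff_mem.2 hF
        rw [h1, h3, mul_zero]
    intro G
    induction G using MvPolynomial.induction_on with
    | C r =>
      have h1 : φ (C r) = f' (C r) := by
        show mk (ph p (C r)) = mk (ph (π.comp p) (C r))
        simp [ph]
      rw [h1]
      exact RingHom.isIntegralElem_map f'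
    | add q r hq hr =>
      rw [map_add]
      exact RingHom.IsIntegralElem.add f' hq hr
    | mul_X q i hq =>
      rw [map_mul, hX i]
      exact RingHom.IsIntegralElem.mul f' hq (RingHom.IsIntegralElem.add f'
        (RingHom.isIntegralElem_map f')
        (RingHom.IsIntegralElem.mul f' (RingHom.isIntegralElem_map f') hTint))

end Pool.Agent.Run7.h10
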