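import Pool.Agent.Run7.h10.NN

/-!
# Minimal polynomials over a linear Noether normalization
-/

set_option autoImplicit false
set_option linter.unusedSectionVars false
set_option linter.style.haveILetI false

namespace Pool.Agent.Run7.h10

open MvPolynomial Filter Topology Metric

variable {g m : ℕ}

theorem exists_nrm_aux {P : Ideal (MvPolynomial (Fin g) ℂ)} (hP : P.IsPrime) :
    ∃ (m : ℕ), (∃ p : (Fin g → ℂ) →ₗ[ℂ] (Fin m → ℂ), Nrm P p) ∧
      ∀ m' < m, ¬ ∃ p : (Fin g → ℂ) →ₗ[ℂ] (Fin m' → ℂ), Nrm P p := by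
  classical
  have hex : ∃ m : ℕ, ∃ p : (Fin g → ℂ) →ₗ[ℂ] (Fin m → ℂ), Nrm P p := by
    refine ⟨g, LinearMap.id, fun z => ⟨z, rfl⟩, ⟨1, fun z _ => ?_⟩, ?_⟩
    · rw [LinearMap.id_apply]; linarith [norm_nonneg z]
    · apply RingHom.isIntegral_of_surjective
      intro s
      obtain ⟨F, rfl⟩ := Ideal.Quotient.mk_surjective s
      refine ⟨F, ?_⟩
      rw [RingHom.comp_apply]
      congr 1
      apply MvPolynomial.funext
      intro z
      exact eval_ph _ _ _
  exact ⟨Nat.find hex, Nat.find_spec hex, fun m' h => Nat.find_min hex h⟩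

theorem exists_nrm' {P : Ideal (MvPolynomial (Fin g) ℂ)} (hP : P.IsPrime) :
    ∃ (m : ℕ) (p : (Fin g → ℂ) →ₗ[ℂ] (Fin m → ℂ)), Nrm P p ∧
      (∀ F, ph p F ∈ P → F = 0) := by
  obtain ⟨m, ⟨p, hp⟩, hmin⟩ := exists_nrm_aux hP
  refine ⟨m, p, hp, ?_⟩
  intro F hF
  by_contra hF0
  rcases m with _ | m'
  · -- constants
    have h1 : F = C (coeff 0 F) := MvPolynomial.eq_C_of_isEmpty F
    have h4 : coeff 0 F ≠ 0 := by
      intro h5
      rw [h5, C_0] at h1
      exact hF0 h1
    have h3 : ph p F = C (coeff 0 F) := by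
      rw [h1]
      simp [ph]
    rw [h3] at hF
    apply hP.ne_top
    rw [Ideal.eq_top_iff_one]
    have h5 := P.mul_mem_left (C (coeff 0 F)⁻¹) hF
    rwa [← C_mul, inv_mul_cancel₀ h4, C_1] at h5
  · exact hmin m' (by omega) (hp.step hP hF0 hF)

theorem nrm_dm {P : Ideal (MvPolynomial (Fin g) ℂ)} (hP : P.IsPrime)
    {p : (Fin g → ℂ) →ₗ[ℂ] (Fin m → ℂ)} (hp : Nrm P p) (hinj : ∀ F, ph p F ∈ P → F = 0) :
    dm P = m := by
  let φ : MvPolynomial (Fin m) ℂ →ₐ[ℂ] (MvPolynomial (Fin g) ℂ ⧸ P) :=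
    (Ideal.Quotient.mkₐ ℂ P).comp (ph p)
  letI : Algebra (MvPolynomial (Fin m) ℂ) (MvPolynomial (Fin g) ℂ ⧸ P) := φ.toRingHom.toAlgebra
  haveI : IsScalarTower ℂ (MvPolynomial (Fin m) ℂ) (MvPolynomial (Fin g) ℂ ⧸ P) :=
    IsScalarTower.of_algebraMap_eq fun r => (φ.commutes r).symm
  haveI : Algebra.IsIntegral (MvPolynomial (Fin m) ℂ) (MvPolynomial (Fin g) ℂ ⧸ P) := ⟨hp.int⟩
  have hinj' : Function.Injective
      (algebraMap (MvPolynomial (Fin m) ℂ) (MvPolynomial (Fin g) ℂ ⧸ P)) := by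
    rw [injective_iff_map_eq_zero]
    intro F hF
    exact hinj F (Ideal.Quotient.eq_zero_iff_mem.1 hF)
  have h1 := trdeg_of_integral hinj'
  rw [trdeg_eq_dm, MvPolynomial.trdeg_of_isDomain] at h1
  simp only [Cardinal.mk_fintype, Fintype.card_fin, Cardinal.lift_natCast] at h1
  exact_mod_cast h1

theorem bezout_clear {R : Type} [CommRing R] [IsDomain R] {M : Polynomial R}
    (h : IsCoprime (M.map (algebraMap R (FractionRing R)))
      (M.map (algebraMap R (FractionRing R))).derivative) :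
    ∃ Δ : R, Δ ≠ 0 ∧ ∃ A B : Polynomial R, A * M + B * M.derivative = Polynomial.C Δ := by
  obtain ⟨a, b, hab⟩ := h
  obtain ⟨δ₁, hδ₁, h₁⟩ := IsLocalization.integerNormalization_spec (nonZeroDivisors R) a
  obtain ⟨δ₂, hδ₂, h₂⟩ := IsLocalization.integerNormalization_spec (nonZeroDivisors R) b
  refine ⟨δ₁ * δ₂, mul_ne_zero (nonZeroDivisors.ne_zero hδ₁) (nonZeroDivisors.ne_zero hδ₂),
    Polynomial.C δ₂ * IsLocalization.integerNormalization (nonZeroDivisors R) a,
    Polynomial.C δ₁ * IsLocalization.integerNormalization (nonZeroDivisors R) b, ?_⟩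
  apply Polynomial.map_injective _ (IsFractionRing.injective R (FractionRing R))
  rw [Polynomial.derivative_map] at hab
  simp only [Polynomial.map_add, Polynomial.map_mul, Polynomial.map_C, h₁, h₂, map_mul]
  have e1 : ∀ (r : R) (q : Polynomial (FractionRing R)),
      r • q = Polynomial.C (algebraMap R (FractionRing R) r) * q := by
    intro r q
    rw [← Polynomial.smul_eq_C_mul, algebraMap_smul]
  rw [e1, e1]
  linear_combination (Polynomial.C (algebraMap R (FractionRing R) δ₁) *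
    Polynomial.C (algebraMap R (FractionRing R) δ₂)) * hab

theorem exists_minpoly {P : Ideal (MvPolynomial (Fin g) ℂ)} (hP : P.IsPrime)
    {p : (Fin g → ℂ) →ₗ[ℂ] (Fin m → ℂ)} (h : Nrm P p) (hinj : ∀ F, ph p F ∈ P → F = 0)
    (y : MvPolynomial (Fin g) ℂ) :
    ∃ M : Polynomial (MvPolynomial (Fin m) ℂ), M.Monic ∧
      (∀ z ∈ Z P, (M.map (eval (p z))).eval (eval z y) = 0) ∧
      (∀ (x : Fin m → ℂ) (T : ℂ), (M.map (eval x)).eval T = 0 →
        ∃ z ∈ Z P, p z = x ∧ eval z y = T) ∧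
      ∃ Δ, Δ ≠ 0 ∧ ∃ A B, A * M + B * M.derivative = Polynomial.C Δ := by
  classical
  set φ : MvPolynomial (Fin m) ℂ →+* (MvPolynomial (Fin g) ℂ ⧸ P) :=
    (Ideal.Quotient.mk P).comp (ph p : MvPolynomial (Fin m) ℂ →+* _) with hφ
  letI : Algebra (MvPolynomial (Fin m) ℂ) (MvPolynomial (Fin g) ℂ ⧸ P) := φ.toAlgebra
  haveI : Algebra.IsIntegral (MvPolynomial (Fin m) ℂ) (MvPolynomial (Fin g) ℂ ⧸ P) := ⟨h.int⟩
  have hinj' : Function.Injective
      (algebraMap (MvPolynomial (Fin m) ℂ) (MvPolynomial (Fin g) ℂ ⧸ P)) := by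
    rw [injective_iff_map_eq_zero]
    intro F hF
    exact hinj F (Ideal.Quotient.eq_zero_iff_mem.1 hF)
  haveI : FaithfulSMul (MvPolynomial (Fin m) ℂ) (MvPolynomial (Fin g) ℂ ⧸ P) :=
    (faithfulSMul_iff_algebraMap_injective _ _).2 hinj'
  haveI : Module.IsTorsionFree (MvPolynomial (Fin m) ℂ) (MvPolynomial (Fin g) ℂ ⧸ P) :=
    inferInstance
  have hint : IsIntegral (MvPolynomial (Fin m) ℂ) (Ideal.Quotient.mk P y) := h.int _
  set M := minpoly (MvPolynomial (Fin m) ℂ) (Ideal.Quotient.mk P y) with hM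
  have hmonic : M.Monic := minpoly.monic hint
  refine ⟨M, hmonic, ?_, ?_, ?_⟩
  · intro z hz
    have h0 : Polynomial.aeval (Ideal.Quotient.mk P y) M = 0 := minpoly.aeval _ _
    have h1 : Polynomial.eval₂ φ (Ideal.Quotient.mk P y) M = 0 := h0
    have h2 := congrArg (evQ hz) h1
    rw [map_zero, Polynomial.hom_eval₂, evQ_mk] at h2
    have h3 : (evQ hz).comp φ = eval (p z) := by
      apply MvPolynomial.ringHom_ext
      · intro r
        show evQ hz (Ideal.Quotient.mk P (ph p (C r))) = _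
        rw [evQ_mk, eval_ph]
      · intro i
        show evQ hz (Ideal.Quotient.mk P (ph p (X i))) = _
        rw [evQ_mk, eval_ph]
    rw [h3] at h2
    rw [Polynomial.eval_map]
    exact h2
  · intro x T hxT
    -- lying over
    let f : Polynomial (MvPolynomial (Fin m) ℂ) →+* (MvPolynomial (Fin g) ℂ ⧸ P) :=
      Polynomial.eval₂RingHom φ (Ideal.Quotient.mk P y)
    have hf : f.IsIntegral := by
      apply RingHom.IsIntegral.tower_top (f := Polynomial.C)
      have : f.comp Polynomial.C = φ := by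
        ext <;> simp [f]
      rw [this]
      exact h.int
    let ev : Polynomial (MvPolynomial (Fin m) ℂ) →+* ℂ :=
      (Polynomial.evalRingHom T).comp (Polynomial.mapRingHom (eval x))
    have hev : ∀ q, ev q = (q.map (eval x)).eval T := fun _ => rfl
    letI : Algebra (Polynomial (MvPolynomial (Fin m) ℂ)) (MvPolynomial (Fin g) ℂ ⧸ P) :=
      f.toAlgebra
    haveI : Algebra.IsIntegral (Polynomial (MvPolynomial (Fin m) ℂ))
      (MvPolynomial (Fin g) ℂ ⧸ P) := ⟨hf⟩
    haveI : (RingHom.ker ev).IsPrime := RingHom.ker_isPrime ev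
    obtain ⟨Q, hQ, hQc⟩ := Ideal.exists_ideal_over_prime_of_isIntegral_of_isDomain
      (R := Polynomial (MvPolynomial (Fin m) ℂ)) (S := MvPolynomial (Fin g) ℂ ⧸ P)
      (RingHom.ker ev) (by
        intro q hq
        have hq' : Polynomial.aeval (Ideal.Quotient.mk P y) q = 0 := hq
        obtain ⟨r, hr⟩ := minpoly.isIntegrallyClosed_dvd hint hq'
        rw [RingHom.mem_ker, hr, map_mul, hev, ← hM, hxT, zero_mul])
    set Q' := Q.comap (Ideal.Quotient.mk P) with hQ'
    haveI : Q'.IsPrime := Ideal.comap_isPrime _ _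
    obtain ⟨z, hz⟩ := Z_nonempty (P := Q') this.ne_top
    have hmem : ∀ q : Polynomial (MvPolynomial (Fin m) ℂ), ∀ F : MvPolynomial (Fin g) ℂ,
        ev q = 0 → f q = Ideal.Quotient.mk P F → eval z F = 0 := by
      intro q F h1 h2
      apply hz
      show Ideal.Quotient.mk P F ∈ Q
      rw [← h2]
      have h3 : q ∈ Q.comap (algebraMap (Polynomial (MvPolynomial (Fin m) ℂ))
        (MvPolynomial (Fin g) ℂ ⧸ P)) := by rw [hQc]; exact h1
      exact h3
    refine ⟨z, ?_, ?_, ?_⟩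
    · intro F hF
      apply hz
      show Ideal.Quotient.mk P F ∈ Q
      rw [Ideal.Quotient.eq_zero_iff_mem.2 hF]
      exact Q.zero_mem
    · funext i
      have h1 := hmem (Polynomial.C (X i - C (x i))) (ph p (X i - C (x i)))
        (by rw [hev]; simp) (by simp [f, hφ])
      rw [eval_ph, map_sub, eval_X, eval_C] at h1
      exact sub_eq_zero.1 h1
    · have h1 := hmem (Polynomial.X - Polynomial.C (C T)) (y - C T)
        (by rw [hev]; simp) (by simp [f, hφ, ph])
      rw [map_sub, eval_C] at h1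
      exact sub_eq_zero.1 h1
  · apply bezout_clear
    have hirr : Irreducible M := (minpoly.prime_of_isIntegrallyClosed hint).irreducible
    have hirr' : Irreducible (M.map (algebraMap (MvPolynomial (Fin m) ℂ)
        (FractionRing (MvPolynomial (Fin m) ℂ)))) :=
      (Polynomial.Monic.irreducible_iff_irreducible_map_fraction_map hmonic).1 hirr
    haveI : CharZero (FractionRing (MvPolynomial (Fin m) ℂ)) :=
      charZero_of_injective_algebraMap (IsFractionRing.injective (MvPolynomial (Fin m) ℂ)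
        (FractionRing (MvPolynomial (Fin m) ℂ)))
    exact hirr'.separable

end Pool.Agent.Run7.h10
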