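import Pool.Agent.Run7.h10.Alg

/-!
# Finite maps of algebraic curves to the line and characteristic polynomials
-/

set_option autoImplicit false
set_option linter.unusedSectionVars false
set_option linter.style.haveILetI false

namespace Pool.Agent.Run7.h10

open MvPolynomial

variable {σ : Type} [Finite σ]

theorem trdeg_of_integral {A B : Type} [CommRing A] [Nontrivial A] [CommRing B] [IsDomain B]
    [Algebra ℂ A] [Algebra ℂ B] [Algebra A B] [IsScalarTower ℂ A B]
    (hg : Function.Injective (algebraMap A B)) [Algebra.IsIntegral A B] :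
    Algebra.trdeg ℂ B = Algebra.trdeg ℂ A := by
  haveI : FaithfulSMul A B := (faithfulSMul_iff_algebraMap_injective A B).2 hg
  have h := _root_.trdeg_add_eq ℂ A (A := B)
  rw [_root_.trdeg_eq_zero (R := A) (A := B), add_zero] at h
  exact h.symm

theorem trdeg_of_finite {A B : Type} [CommRing A] [Nontrivial A] [CommRing B] [IsDomain B]
    [Algebra ℂ A] [Algebra ℂ B] (g : A →ₐ[ℂ] B) (hg : Function.Injective g) (hfin : g.Finite) :
    Algebra.trdeg ℂ B = Algebra.trdeg ℂ A := by
  letI : Algebra A B := g.toRingHom.toAlgebra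
  haveI : IsScalarTower ℂ A B := IsScalarTower.of_algebraMap_eq fun x => (g.commutes x).symm
  have hmap : Function.Injective (algebraMap A B) := hg
  haveI : Module.Finite A B := hfin
  haveI : Algebra.IsIntegral A B := Algebra.IsIntegral.of_finite _ _
  exact trdeg_of_integral hmap

/-- Noether normalization: the number of variables is the dimension -/
theorem exists_noether {P : Ideal (MvPolynomial σ ℂ)} (hP : P.IsPrime) {n : ℕ}
    (hn : dm P = n) : ∃ g : MvPolynomial (Fin n) ℂ →ₐ[ℂ] (MvPolynomial σ ℂ ⧸ P),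
      Function.Injective g ∧ g.Finite := by
  obtain ⟨s, g, hg, hfin⟩ := exists_finite_inj_algHom_of_fg ℂ (MvPolynomial σ ℂ ⧸ P)
  have hs : s = n := by
    rw [← hn]
    have h1 := trdeg_of_finite g hg hfin
    rw [trdeg_eq_dm, MvPolynomial.trdeg_of_isDomain] at h1
    simp only [Cardinal.mk_fintype, Fintype.card_fin, Cardinal.lift_natCast] at h1
    exact_mod_cast h1.symm
  subst hs
  exact ⟨g, hg, hfin⟩

/-- evaluation at a point of the zero set -/
noncomputable def evQ {Q : Ideal (MvPolynomial σ ℂ)} {x : σ → ℂ} (hx : x ∈ Z Q) :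
    (MvPolynomial σ ℂ ⧸ Q) →+* ℂ := Ideal.Quotient.lift Q (eval x) hx

theorem evQ_mk {Q : Ideal (MvPolynomial σ ℂ)} {x : σ → ℂ} (hx : x ∈ Z Q)
    (F : MvPolynomial σ ℂ) : evQ hx (Ideal.Quotient.mk Q F) = eval x F := rfl

/-- characteristic polynomials of a finite free algebra over the polynomial ring -/
theorem charpoly_facts {R : Type} [CommRing R] [IsDomain R] [Algebra ℂ R]
    (g : Polynomial ℂ →ₐ[ℂ] R) (hg : Function.Injective g) (hfin : g.Finite) (f : R) :
    ∃ χ : Polynomial (Polynomial ℂ), χ.Monic ∧ χ.eval₂ (g : Polynomial ℂ →+* R) f = 0 ∧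
      ∀ t φ : ℂ, χ.evalEval t φ = 0 →
        ∀ a b : R, a * (g Polynomial.X - g (Polynomial.C t)) +
          b * (f - g (Polynomial.C φ)) ≠ 1 := by
  classical
  letI : Algebra (Polynomial ℂ) R := g.toRingHom.toAlgebra
  have hmap : ∀ p, algebraMap (Polynomial ℂ) R p = g p := fun _ => rfl
  haveI : Module.Finite (Polynomial ℂ) R := hfin
  haveI : FaithfulSMul (Polynomial ℂ) R :=
    (faithfulSMul_iff_algebraMap_injective (Polynomial ℂ) R).2 hg
  haveI : Module.IsTorsionFree (Polynomial ℂ) R := inferInstance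
  haveI : Module.Free (Polynomial ℂ) R := Module.free_of_finite_type_torsion_free'
  let b := Module.Free.chooseBasis (Polynomial ℂ) R
  let M := Algebra.leftMulMatrix b
  refine ⟨(M f).charpoly, Matrix.charpoly_monic _, ?_, ?_⟩
  · have h1 : Polynomial.aeval f (M f).charpoly = 0 := by
      apply Algebra.leftMulMatrix_injective b
      rw [map_zero, ← Polynomial.aeval_algHom_apply]
      exact Matrix.aeval_self_charpoly _
    exact h1
  · intro t φ h a c hac
    have h1 : M a * (M (g Polynomial.X) - M (g (Polynomial.C t))) +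
        M c * (M f - M (g (Polynomial.C φ))) = 1 := by
      have h0 := congrArg M hac
      simp only [map_add, map_mul, map_one] at h0
      rw [map_sub M, map_sub M] at h0
      exact h0
    have h2 : ∀ p : Polynomial ℂ, M (g p) = Matrix.scalar _ p := by
      intro p
      rw [← hmap, AlgHom.commutes]
      rfl
    let E : Matrix _ _ (Polynomial ℂ) →+* Matrix _ _ ℂ :=
      (Polynomial.evalRingHom t).mapMatrix (m := Module.Free.ChooseBasisIndex (Polynomial ℂ) R)
    have h3 := congrArg E h1
    rw [h2, h2, h2, map_add, map_mul, map_mul, map_sub, map_sub, map_one] at h3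
    have h4 : ∀ p : Polynomial ℂ, E (Matrix.scalar _ p) = Matrix.scalar _ (p.eval t) := by
      intro p
      ext i j
      by_cases hij : i = j
      · subst hij; simp [E]
      · simp [E, hij]
    rw [h4, h4, h4, Polynomial.eval_X, Polynomial.eval_C, sub_self, mul_zero, zero_add,
      Polynomial.eval_C] at h3
    have h5 := congrArg Matrix.det h3
    rw [Matrix.det_mul, Matrix.det_one] at h5
    have h6 : (Matrix.scalar (Module.Free.ChooseBasisIndex (Polynomial ℂ) R) φ -
        E (M f)).det = 0 := by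
      rw [← Matrix.eval_charpoly]
      have h7 : (E (M f)).charpoly = (M f).charpoly.map (Polynomial.evalRingHom t) :=
        Matrix.charpoly_map _ _
      rw [h7, Polynomial.map_evalRingHom_eval]
      exact h
    have h8 : (E (M f) - Matrix.scalar _ φ).det = 0 := by
      rw [← neg_sub, Matrix.det_neg, h6, mul_zero]
    rw [h8, mul_zero] at h5
    exact zero_ne_one h5

theorem exists_norm {Q : Ideal (MvPolynomial σ ℂ)} (hQ : Q.IsPrime) (hd : dm Q = 1) :
    ∃ T : MvPolynomial σ ℂ, (∀ c, T - C c ∉ Q) ∧ ∀ F : MvPolynomial σ ℂ,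
      ∃ χ : Polynomial (Polynomial ℂ), χ.Monic ∧
        (∀ x ∈ Z Q, χ.evalEval (eval x T) (eval x F) = 0) ∧
        ∀ t φ, χ.evalEval t φ = 0 → ∃ x ∈ Z Q, eval x T = t ∧ eval x F = φ := by
  classical
  obtain ⟨g, hg, hfin⟩ : ∃ g : Polynomial ℂ →ₐ[ℂ] (MvPolynomial σ ℂ ⧸ Q),
      Function.Injective g ∧ g.Finite := by
    obtain ⟨g, hg, hfin⟩ := exists_noether hQ hd
    let e : Polynomial ℂ ≃ₐ[ℂ] MvPolynomial (Fin 1) ℂ :=
      (MvPolynomial.uniqueAlgEquiv ℂ (Fin 1)).symm
    refine ⟨g.comp e.toAlgHom, hg.comp e.injective, ?_⟩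
    exact AlgHom.Finite.comp hfin (AlgHom.Finite.of_surjective _ e.surjective)
  obtain ⟨T, hT⟩ := Ideal.Quotient.mk_surjective (g Polynomial.X)
  have hC : ∀ c : ℂ, g (Polynomial.C c) = Ideal.Quotient.mk Q (C c) := by
    intro c
    have := g.commutes c
    exact this
  refine ⟨T, ?_, ?_⟩
  · intro c hc
    rw [← Ideal.Quotient.eq_zero_iff_mem, map_sub, hT, ← hC, ← map_sub] at hc
    have h1 := hg (hc.trans (map_zero g).symm)
    exact Polynomial.X_sub_C_ne_zero c h1
  · intro F
    obtain ⟨χ, hχ, h1, h2⟩ := charpoly_facts g hg hfin (Ideal.Quotient.mk Q F)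
    refine ⟨χ, hχ, ?_, ?_⟩
    · intro x hx
      have h3 := congrArg (evQ hx) h1
      rw [map_zero, Polynomial.hom_eval₂, evQ_mk] at h3
      have h4 : (evQ hx).comp (g : Polynomial ℂ →+* (MvPolynomial σ ℂ ⧸ Q)) =
          Polynomial.evalRingHom (eval x T) := by
        apply Polynomial.ringHom_ext
        · intro a
          show evQ hx (g (Polynomial.C a)) = _
          rw [hC, evQ_mk]
          simp
        · show evQ hx (g Polynomial.X) = _
          rw [← hT, evQ_mk]
          simp
      rw [h4] at h3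
      rw [← Polynomial.map_evalRingHom_eval, Polynomial.eval_map]
      exact h3
    · intro t φ h
      by_contra hcon
      push Not at hcon
      have h3 : Q ⊔ Ideal.span {T - C t, F - C φ} = ⊤ := by
        by_contra hne
        obtain ⟨x, hx⟩ := Z_nonempty hne
        have hxQ : x ∈ Z Q := Z_anti le_sup_left hx
        have h4 := hx (T - C t) (Ideal.mem_sup_right (Ideal.subset_span (by simp)))
        have h5 := hx (F - C φ) (Ideal.mem_sup_right (Ideal.subset_span (by simp)))
        simp only [map_sub, eval_C] at h4 h5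
        exact hcon x hxQ (sub_eq_zero.1 h4) (sub_eq_zero.1 h5)
      have h4 : (1 : MvPolynomial σ ℂ) ∈ Q ⊔ Ideal.span {T - C t, F - C φ} := by
        rw [h3]; trivial
      obtain ⟨q, hq, r, hr, hqr⟩ := Submodule.mem_sup.1 h4
      obtain ⟨a, b, hab⟩ := Ideal.mem_span_pair.1 hr
      apply h2 t φ h (Ideal.Quotient.mk Q a) (Ideal.Quotient.mk Q b)
      rw [← hT, hC, hC, ← map_sub, ← map_sub, ← map_mul, ← map_mul, ← map_add, hab,
        ← map_one (Ideal.Quotient.mk Q), Ideal.Quotient.eq]
      rw [← hqr]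
      have : r - (q + r) = -q := by ring
      rw [this]
      exact Q.neg_mem hq

end Pool.Agent.Run7.h10
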