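import Pool.Agent.Run7.h10.AV2

/-!
# Weighted homogenization and asymptotics of polynomials
-/

set_option autoImplicit false
set_option linter.unusedSectionVars false

namespace Pool.Agent.Run7.h10

open MvPolynomial Filter Topology Metric

variable {τ : Type} [Fintype τ]

/-- weighted homogenization, evaluated -/
noncomputable def wh (w : τ → ℕ) (D : ℕ) (F : MvPolynomial τ ℂ) (e : ℂ) (v : τ → ℂ) : ℂ :=
  ∑ j ∈ Finset.range (D + 1), e ^ (D - j) * eval v (weightedHomogeneousComponent w j F)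

theorem wh_continuous (w : τ → ℕ) (D : ℕ) (F : MvPolynomial τ ℂ) :
    Continuous (fun p : ℂ × (τ → ℂ) => wh w D F p.1 p.2) := by
  unfold wh
  apply continuous_finsetSum
  intro j _
  exact (continuous_fst.pow _).mul ((MvPolynomial.continuous_eval _).comp continuous_snd)

theorem wh_zero (w : τ → ℕ) (D : ℕ) (F : MvPolynomial τ ℂ) (v : τ → ℂ) :
    wh w D F 0 v = eval v (weightedHomogeneousComponent w D F) := by
  unfold wh
  rw [Finset.sum_eq_single D]
  · simp
  · intro j hj hjD
    have := Finset.mem_range.1 hj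
    rw [zero_pow (by omega), zero_mul]
  · intro h
    exact absurd (Finset.mem_range.2 (Nat.lt_succ_self D)) h

theorem sum_components {w : τ → ℕ} {D : ℕ} {F : MvPolynomial τ ℂ}
    (hD : weightedTotalDegree w F ≤ D) :
    F = ∑ j ∈ Finset.range (D + 1), weightedHomogeneousComponent w j F := by
  classical
  ext d
  rw [coeff_sum]
  simp only [coeff_weightedHomogeneousComponent]
  by_cases hd : coeff d F = 0
  · simp [hd]
  · have h1 : Finsupp.weight w d ≤ D := (le_weightedTotalDegree w (mem_support_iff.2 hd)).trans hD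
    rw [Finset.sum_ite_eq, if_pos (Finset.mem_range.2 (by omega))]

theorem eval_eq_wh {w : τ → ℕ} {D : ℕ} {F : MvPolynomial τ ℂ}
    (hD : weightedTotalDegree w F ≤ D) {t : ℂ} (ht : t ≠ 0) (v : τ → ℂ) :
    eval (fun i => t ^ w i * v i) F = t ^ D * wh w D F t⁻¹ v := by
  conv_lhs => rw [sum_components hD]
  rw [map_sum, wh, Finset.mul_sum]
  apply Finset.sum_congr rfl
  intro j hj
  rw [eval_wh (weightedHomogeneousComponent_isWeightedHomogeneous j F)]
  have h1 : t ^ D = t ^ j * t ^ (D - j) := by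
    rw [← pow_add]
    congr 1
    have := Finset.mem_range.1 hj
    omega
  rw [h1, ← mul_assoc]
  congr 1
  rw [mul_assoc, ← mul_pow, mul_inv_cancel₀ ht, one_pow, mul_one]

theorem exists_top (w : τ → ℕ) {F : MvPolynomial τ ℂ} (hF : F ≠ 0) :
    weightedHomogeneousComponent w (weightedTotalDegree w F) F ≠ 0 := by
  classical
  have hne : F.support.Nonempty := by
    rw [Finset.nonempty_iff_ne_empty, Ne, support_eq_empty]
    exact hF
  obtain ⟨d, hd, hmax⟩ := Finset.exists_mem_eq_sup F.support hne (fun s => Finsupp.weight w s)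
  intro h
  have h1 := congrArg (coeff d) h
  have hmax' : Finsupp.weight w d = weightedTotalDegree w F := hmax.symm
  rw [coeff_weightedHomogeneousComponent, if_pos hmax', coeff_zero] at h1
  exact mem_support_iff.1 hd h1

/-- polynomials do not vanish near infinity in directions where the top form does not vanish -/
theorem nonvan {w : τ → ℕ} {D : ℕ} {F : MvPolynomial τ ℂ} (hD : weightedTotalDegree w F ≤ D)
    {c : τ → ℂ} (hc : eval c (weightedHomogeneousComponent w D F) ≠ 0) :
    ∃ ε > 0, ∀ t : ℂ, 1 / ε < ‖t‖ → ∀ v : τ → ℂ, ‖v - c‖ < ε →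
      eval (fun i => t ^ w i * v i) F ≠ 0 := by
  have h1 : ContinuousAt (fun p : ℂ × (τ → ℂ) => wh w D F p.1 p.2) (0, c) :=
    (wh_continuous w D F).continuousAt
  have h2 : ∀ᶠ p in 𝓝 ((0 : ℂ), c), wh w D F p.1 p.2 ≠ 0 := by
    apply h1.eventually_ne
    show wh w D F 0 c ≠ 0
    rw [wh_zero]
    exact hc
  obtain ⟨ε, hε, hb⟩ := Metric.eventually_nhds_iff.1 h2
  refine ⟨ε, hε, fun t ht v hv => ?_⟩
  have ht0 : 0 < ‖t‖ := lt_trans (by positivity) ht
  have ht0' : t ≠ 0 := norm_pos_iff.1 ht0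
  rw [eval_eq_wh hD ht0']
  apply mul_ne_zero (pow_ne_zero _ ht0')
  have h3 : dist ((t⁻¹, v) : ℂ × (τ → ℂ)) (0, c) < ε := by
    rw [Prod.dist_eq, max_lt_iff, dist_zero_right, dist_eq_norm]
    refine ⟨?_, hv⟩
    rw [norm_inv, inv_lt_comm₀ ht0 hε, ← one_div]
    exact ht
  exact hb h3

/-- the case of the usual degree -/
theorem nonvan_one {D : ℕ} {F : MvPolynomial τ ℂ}
    (hD : weightedTotalDegree (fun _ => 1) F ≤ D) {c : τ → ℂ}
    (hc : eval c (weightedHomogeneousComponent (fun _ => 1) D F) ≠ 0) :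
    ∃ ε > 0, ∀ t : ℂ, 1 / ε < ‖t‖ → ∀ v : τ → ℂ, ‖v - c‖ < ε → eval (t • v) F ≠ 0 := by
  obtain ⟨ε, hε, h⟩ := nonvan hD hc
  refine ⟨ε, hε, fun t ht v hv => ?_⟩
  have h1 := h t ht v hv
  simp only [pow_one] at h1
  exact h1

end Pool.Agent.Run7.h10
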