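import Pool.Agent.Run7.h10.LL
import Pool.Agent.Run7.h10.WH

/-!
# Algebraic subvarieties of the product of the Lie algebra and an abelian variety
-/

set_option autoImplicit false
set_option linter.unusedSectionVars false

namespace Pool.Agent.Run7.h10

open MvPolynomial Filter Topology Metric

section ray

variable {σ : Type} {B : Type} [CommRing B] [Algebra ℂ B]

/-- restriction to a ray -/
noncomputable def ray (w : σ → ℕ) (x : σ → B) : MvPolynomial σ ℂ →ₐ[ℂ] Polynomial B :=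
  aeval fun i => Polynomial.C (x i) * Polynomial.X ^ w i

theorem ray_monomial (w : σ → ℕ) (x : σ → B) (d : σ →₀ ℕ) (a : ℂ) :
    ray w x (monomial d a) = Polynomial.C (aeval x (monomial d a)) *
      Polynomial.X ^ (Finsupp.weight w d) := by
  rw [ray, aeval_monomial, aeval_monomial, Finsupp.prod, Finsupp.prod]
  have h1 : algebraMap ℂ (Polynomial B) a = Polynomial.C (algebraMap ℂ B a) := rfl
  rw [h1, map_mul, mul_assoc]
  congr 1
  simp only [mul_pow, Finset.prod_mul_distrib, map_prod, map_pow, ← pow_mul]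
  congr 1
  rw [Finset.prod_pow_eq_pow_sum, Finsupp.weight_apply, Finsupp.sum]
  congr 1
  apply Finset.sum_congr rfl
  intro i _
  rw [smul_eq_mul, mul_comm]

theorem coeff_ray (w : σ → ℕ) (x : σ → B) (F : MvPolynomial σ ℂ) (n : ℕ) :
    (ray w x F).coeff n = aeval x (weightedHomogeneousComponent w n F) := by
  classical
  induction F using MvPolynomial.induction_on' with
  | monomial d a =>
    rw [ray_monomial, Polynomial.coeff_C_mul, Polynomial.coeff_X_pow]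
    have h1 : IsWeightedHomogeneous w (monomial d a) (Finsupp.weight w d) :=
      isWeightedHomogeneous_monomial w d a rfl
    by_cases h : n = Finsupp.weight w d
    · rw [if_pos h, mul_one, h, h1.weightedHomogeneousComponent_same]
    · rw [if_neg h, mul_zero, h1.weightedHomogeneousComponent_ne n h, map_zero]
  | add p q hp hq => rw [map_add, Polynomial.coeff_add, hp, hq, map_add, map_add]

theorem ray_component (w : σ → ℕ) (x : σ → B) {F : MvPolynomial σ ℂ} (h : ray w x F = 0) (n : ℕ) :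
    ray w x (weightedHomogeneousComponent w n F) = 0 := by
  ext m
  rw [coeff_ray, Polynomial.coeff_zero]
  have h1 : IsWeightedHomogeneous w (weightedHomogeneousComponent w n F) n :=
    weightedHomogeneousComponent_isWeightedHomogeneous n F
  by_cases hm : m = n
  · rw [hm, h1.weightedHomogeneousComponent_same, ← coeff_ray, h, Polynomial.coeff_zero]
  · rw [h1.weightedHomogeneousComponent_ne m hm, map_zero]

theorem ray_eq_zero_iff (w : σ → ℕ) (x : σ → B) (F : MvPolynomial σ ℂ) :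
    ray w x F = 0 ↔ ∀ n, aeval x (weightedHomogeneousComponent w n F) = 0 := by
  constructor
  · intro h n
    rw [← coeff_ray, h, Polynomial.coeff_zero]
  · intro h
    ext n
    rw [coeff_ray, h, Polynomial.coeff_zero]

end ray

variable {g N : ℕ}

/-- homogeneous ideals -/
def Hg (Q : Ideal (MvPolynomial (Fin g ⊕ Fin (N + 1)) ℂ)) : Prop :=
  ∀ F ∈ Q, ∀ n, weightedHomogeneousComponent (Wt g N) n F ∈ Q

theorem eval_ray (F : MvPolynomial (Fin g ⊕ Fin (N + 1)) ℂ) (z : Fin g → ℂ)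
    (Y : Fin (N + 1) → ℂ) (c : ℂ) :
    (ray (Wt g N) (Sum.elim z Y) F).eval c = eval (Sum.elim z (c • Y)) F := by
  induction F using MvPolynomial.induction_on with
  | C a => simp [ray]
  | add p q hp hq => rw [map_add, Polynomial.eval_add, hp, hq, map_add]
  | mul_X p i hp =>
    rw [map_mul, Polynomial.eval_mul, hp, map_mul, eval_X]
    congr 1
    rcases i with i | i
    · simp [ray, Wt]
    · rw [ray, aeval_X]
      simp only [Wt, Sum.elim_inr, pow_one, Polynomial.eval_mul, Polynomial.eval_C,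
        Polynomial.eval_X, Pi.smul_apply, smul_eq_mul]
      ring

theorem ray_zero_iff (F : MvPolynomial (Fin g ⊕ Fin (N + 1)) ℂ) (z : Fin g → ℂ)
    (Y : Fin (N + 1) → ℂ) :
    ray (Wt g N) (Sum.elim z Y) F = 0 ↔ ∀ c : ℂ, eval (Sum.elim z (c • Y)) F = 0 := by
  constructor
  · intro h c
    rw [← eval_ray, h, Polynomial.eval_zero]
  · intro h
    apply Polynomial.funext
    intro c
    rw [eval_ray, h, Polynomial.eval_zero]

theorem eval_weight {F : MvPolynomial (Fin g ⊕ Fin (N + 1)) ℂ} {n : ℕ}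
    (hF : IsWeightedHomogeneous (Wt g N) F n) (z : Fin g → ℂ) (Y : Fin (N + 1) → ℂ) (c : ℂ) :
    eval (Sum.elim z (c • Y)) F = c ^ n * eval (Sum.elim z Y) F := by
  rw [← eval_wh hF]
  congr 2
  funext i
  rcases i with i | i
  · simp [Wt]
  · simp [Wt]

theorem Hg.scl {Q : Ideal (MvPolynomial (Fin g ⊕ Fin (N + 1)) ℂ)} (h : Hg Q) : Scl Q := by
  intro z Y c hz F hF
  revert c
  rw [← ray_zero_iff, ray_eq_zero_iff]
  intro n
  rw [aeval_pt]
  exact hz _ (h F hF n)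

/-- the homogeneous core of an ideal -/
noncomputable def core (Q : Ideal (MvPolynomial (Fin g ⊕ Fin (N + 1)) ℂ)) :
    Ideal (MvPolynomial (Fin g ⊕ Fin (N + 1)) ℂ) :=
  RingHom.ker (ray (Wt g N) (fun i => Ideal.Quotient.mk Q (X i)))

theorem aeval_mk {σ : Type} (Q : Ideal (MvPolynomial σ ℂ)) (F : MvPolynomial σ ℂ) :
    aeval (fun i => Ideal.Quotient.mk Q (X i)) F = Ideal.Quotient.mk Q F := by
  induction F using MvPolynomial.induction_on with
  | C a => rw [aeval_C]; rfl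
  | add p q hp hq => rw [map_add, map_add, hp, hq]
  | mul_X p i hp => rw [map_mul, map_mul, hp, aeval_X]

theorem mem_core {Q : Ideal (MvPolynomial (Fin g ⊕ Fin (N + 1)) ℂ)}
    {F : MvPolynomial (Fin g ⊕ Fin (N + 1)) ℂ} :
    F ∈ core Q ↔ ∀ n, weightedHomogeneousComponent (Wt g N) n F ∈ Q := by
  rw [core, RingHom.mem_ker, ray_eq_zero_iff]
  simp only [aeval_mk, Ideal.Quotient.eq_zero_iff_mem]

theorem sum_comp (F : MvPolynomial (Fin g ⊕ Fin (N + 1)) ℂ) :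
    F = ∑ j ∈ Finset.range (weightedTotalDegree (Wt g N) F + 1),
      weightedHomogeneousComponent (Wt g N) j F := sum_components le_rfl

theorem core_le (Q : Ideal (MvPolynomial (Fin g ⊕ Fin (N + 1)) ℂ)) : core Q ≤ Q := by
  intro F hF
  rw [mem_core] at hF
  rw [sum_comp F]
  exact Ideal.sum_mem _ fun n _ => hF n

theorem core_hg (Q : Ideal (MvPolynomial (Fin g ⊕ Fin (N + 1)) ℂ)) : Hg (core Q) := by
  intro F hF n
  rw [core, RingHom.mem_ker] at hF ⊢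
  exact ray_component _ _ hF n

theorem core_prime {Q : Ideal (MvPolynomial (Fin g ⊕ Fin (N + 1)) ℂ)} (hQ : Q.IsPrime) :
    (core Q).IsPrime := RingHom.ker_isPrime _

theorem Hg.le_core {I Q : Ideal (MvPolynomial (Fin g ⊕ Fin (N + 1)) ℂ)} (hI : Hg I)
    (h : I ≤ Q) : I ≤ core Q := by
  intro F hF
  rw [mem_core]
  exact fun n => h (hI F hF n)

theorem Hg.minimalPrime {I Q : Ideal (MvPolynomial (Fin g ⊕ Fin (N + 1)) ℂ)} (hI : Hg I)
    (hQ : Q ∈ I.minimalPrimes) : Hg Q := by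
  have h1 : core Q = Q := le_antisymm (core_le Q)
    (hQ.2 ⟨core_prime hQ.1.1, hI.le_core hQ.1.2⟩ (core_le Q))
  rw [← h1]
  exact core_hg Q

theorem Hg.sup {I : Ideal (MvPolynomial (Fin g ⊕ Fin (N + 1)) ℂ)} (hI : Hg I)
    {f : MvPolynomial (Fin g ⊕ Fin (N + 1)) ℂ} {n : ℕ}
    (hf : IsWeightedHomogeneous (Wt g N) f n) : Hg (I ⊔ Ideal.span {f}) := by
  have h1 : I ⊔ Ideal.span {f} ≤ core (I ⊔ Ideal.span {f}) := by
    rw [sup_le_iff]
    refine ⟨hI.le_core le_sup_left, ?_⟩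
    rw [Ideal.span_singleton_le_iff_mem, mem_core]
    intro m
    by_cases hm : m = n
    · rw [hm, hf.weightedHomogeneousComponent_same]
      exact Ideal.mem_sup_right (Ideal.mem_span_singleton_self f)
    · rw [hf.weightedHomogeneousComponent_ne m hm]
      exact Ideal.zero_mem _
  rw [le_antisymm h1 (core_le _)]
  exact core_hg _

theorem dm_ray {σ : Type} [Finite σ] (w : σ → ℕ) (x : σ → ℂ) :
    dm (RingHom.ker (ray w x)) ≤ 1 := by
  have h1 := trdeg_le_of_injective (R := ℂ) (Ideal.kerLiftAlg (ray w x))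
    (Ideal.kerLiftAlg_injective (ray w x))
  rw [Polynomial.trdeg_of_isDomain] at h1
  have h2 := trdeg_eq_dm (RingHom.ker (ray w x))
  rw [h2] at h1
  exact_mod_cast h1

/-- homogeneous primes of smaller dimension through a point -/
theorem exists_cut {k : ℕ} (hk : 1 ≤ k) {y : Fin g ⊕ Fin (N + 1) → ℂ} : ∀ (n : ℕ)
    {Q₀ : Ideal (MvPolynomial (Fin g ⊕ Fin (N + 1)) ℂ)}, Q₀.IsPrime → Hg Q₀ → y ∈ Z Q₀ →
    dm Q₀ = k + n → ∃ Q : Ideal (MvPolynomial (Fin g ⊕ Fin (N + 1)) ℂ), Q.IsPrime ∧ Hg Q ∧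
      Q₀ ≤ Q ∧ y ∈ Z Q ∧ dm Q = k := by
  intro n
  induction n with
  | zero => exact fun {Q₀} hQ₀ hH hy hd => ⟨Q₀, hQ₀, hH, le_rfl, hy, hd⟩
  | succ n ih =>
    intro Q₀ hQ₀ hH hy hd
    obtain ⟨F, hF, hFQ⟩ : ∃ F ∈ RingHom.ker (ray (Wt g N) y), F ∉ Q₀ := by
      by_contra hcon
      push Not at hcon
      have h1 := dm_le (RingHom.ker_isPrime (ray (Wt g N) y)) hQ₀ hcon
      have h2 := dm_ray (Wt g N) y
      omega
    obtain ⟨m, hm⟩ : ∃ m, weightedHomogeneousComponent (Wt g N) m F ∉ Q₀ := by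
      by_contra hcon
      push Not at hcon
      apply hFQ
      rw [sum_comp F]
      exact Ideal.sum_mem _ fun n _ => hcon n
    set f := weightedHomogeneousComponent (Wt g N) m F with hf
    have hfh : IsWeightedHomogeneous (Wt g N) f m :=
      weightedHomogeneousComponent_isWeightedHomogeneous m F
    have hfy : eval y f = 0 := by
      have h1 := (ray_eq_zero_iff _ _ _).1 (RingHom.mem_ker.1 hF) m
      rwa [aeval_pt] at h1
    have h1 : Q₀ ⊔ Ideal.span {f} ≤ pt y := by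
      rw [sup_le_iff]
      refine ⟨hy, ?_⟩
      rw [Ideal.span_singleton_le_iff_mem]
      exact hfy
    obtain ⟨Q₁, hQ₁, hQ₁y⟩ := Ideal.exists_minimalPrimes_le h1
    have hd1 := dm_step hQ₀ hm hQ₁
    obtain ⟨Q, hQ1, hQ2, hQ3, hQ4, hQ5⟩ := ih hQ₁.1.1 ((hH.sup hfh).minimalPrime hQ₁) hQ₁y
      (by omega)
    exact ⟨Q, hQ1, hQ2, (le_sup_left.trans hQ₁.1.2).trans hQ3, hQ4, hQ5⟩

/-- a component of a hypersurface section through a point -/
theorem exists_cut_one {y : Fin g ⊕ Fin (N + 1) → ℂ}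
    {Q₀ : Ideal (MvPolynomial (Fin g ⊕ Fin (N + 1)) ℂ)} (hQ₀ : Q₀.IsPrime) (hH : Hg Q₀)
    (hy : y ∈ Z Q₀) {f : MvPolynomial (Fin g ⊕ Fin (N + 1)) ℂ} {m : ℕ}
    (hfh : IsWeightedHomogeneous (Wt g N) f m) (hfy : eval y f = 0) :
    ∃ Q : Ideal (MvPolynomial (Fin g ⊕ Fin (N + 1)) ℂ), Q.IsPrime ∧ Hg Q ∧
      Q₀ ≤ Q ∧ f ∈ Q ∧ y ∈ Z Q ∧ dm Q₀ ≤ dm Q + 1 := by
  have h1 : Q₀ ⊔ Ideal.span {f} ≤ pt y := by
    rw [sup_le_iff]
    refine ⟨hy, ?_⟩
    rw [Ideal.span_singleton_le_iff_mem]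
    exact hfy
  obtain ⟨Q₁, hQ₁, hQ₁y⟩ := Ideal.exists_minimalPrimes_le h1
  exact ⟨Q₁, hQ₁.1.1, (hH.sup hfh).minimalPrime hQ₁, le_sup_left.trans hQ₁.1.2,
    hQ₁.1.2 (Ideal.mem_sup_right (Ideal.mem_span_singleton_self f)), hQ₁y,
    dm_step_le hQ₀ hQ₁⟩

namespace AbelianVariety

variable {A : AbelianVariety g N}

theorem exp_eq {z w : Fin g → ℂ} : A.exp z = A.exp w ↔ z - w ∈ A.Λ :=
  Submodule.Quotient.eq _

theorem exists_exp (x : A.Pts) : ∃ z, A.exp z = x := Submodule.Quotient.mk_surjective _ x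

theorem θ_of_exp {z w : Fin g → ℂ} (h : A.exp z = A.exp w) : ∃ c : ℂ, c ≠ 0 ∧ A.θ z = c • A.θ w := by
  rw [exp_eq] at h
  obtain ⟨c, hc, h1⟩ := A.θ_add w h
  rw [add_sub_cancel] at h1
  exact ⟨c, hc, h1⟩

/-- the homogeneous ideal of a subset -/
noncomputable def IV (A : AbelianVariety g N) (V : Set ((Fin g → ℂ) × A.Pts)) :
    Ideal (MvPolynomial (Fin g ⊕ Fin (N + 1)) ℂ) :=
  ⨅ (z : Fin g → ℂ) (w : Fin g → ℂ) (_ : (z, A.exp w) ∈ V),
    RingHom.ker (ray (Wt g N) (Sum.elim z (A.θ w)))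

theorem mem_IV {V : Set ((Fin g → ℂ) × A.Pts)} {F : MvPolynomial (Fin g ⊕ Fin (N + 1)) ℂ} :
    F ∈ A.IV V ↔ ∀ z w, (z, A.exp w) ∈ V → ray (Wt g N) (Sum.elim z (A.θ w)) F = 0 := by
  simp only [IV, Ideal.mem_iInf, RingHom.mem_ker]

theorem IV_hg (V : Set ((Fin g → ℂ) × A.Pts)) : Hg (A.IV V) := by
  intro F hF n
  rw [mem_IV] at hF ⊢
  exact fun z w h => ray_component _ _ (hF z w h) n

theorem eval_of_IV {V : Set ((Fin g → ℂ) × A.Pts)} {F : MvPolynomial (Fin g ⊕ Fin (N + 1)) ℂ}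
    (hF : F ∈ A.IV V) {z w : Fin g → ℂ} (h : (z, A.exp w) ∈ V) :
    eval (Sum.elim z (A.θ w)) F = 0 := by
  have h1 := (ray_zero_iff _ _ _).1 (mem_IV.1 hF z w h) 1
  rwa [one_smul] at h1

theorem mem_Z_IV {V : Set ((Fin g → ℂ) × A.Pts)} {z w : Fin g → ℂ} (h : (z, A.exp w) ∈ V) :
    Sum.elim z (A.θ w) ∈ Z (A.IV V) := fun _ hF => eval_of_IV hF h

theorem eqs_mem_IV (V : Set ((Fin g → ℂ) × A.Pts)) {F : MvPolynomial (Fin (N + 1)) ℂ}
    (hF : F ∈ A.eqs) : rename Sum.inr F ∈ A.IV V := by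
  rw [mem_IV]
  intro z w _
  rw [ray_zero_iff]
  intro c
  obtain ⟨⟨n, hn⟩, h0⟩ := hF
  rw [eval_rename, Sum.elim_comp_inr, eval_scale hn, h0, mul_zero]

theorem mem_of_Z_IV {V : Set ((Fin g → ℂ) × A.Pts)} (hV : A.ZClosed V) {z w : Fin g → ℂ}
    (h : Sum.elim z (A.θ w) ∈ Z (A.IV V)) : (z, A.exp w) ∈ V := by
  obtain ⟨S, hS1, hS2⟩ := hV
  rw [hS2]
  intro F hF
  apply h
  rw [mem_IV]
  intro z' w' h'
  rw [ray_zero_iff]
  intro c
  obtain ⟨n, hn⟩ := hS1 F hF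
  rw [eval_weight hn, (hS2 z' w').1 h' F hF, mul_zero]

theorem Z_cone {Q : Ideal (MvPolynomial (Fin g ⊕ Fin (N + 1)) ℂ)}
    (hQA : ∀ F ∈ A.eqs, rename Sum.inr F ∈ Q) {z : Fin g → ℂ} {Y : Fin (N + 1) → ℂ}
    (hY : Y ≠ 0) (h : Sum.elim z Y ∈ Z Q) : ∃ w, ∃ c : ℂ, c ≠ 0 ∧ Y = c • A.θ w := by
  obtain ⟨S, hS1, hS2⟩ := A.algebraic
  obtain ⟨w, c, hwc⟩ := (hS2 Y hY).1 (by
    intro F hF
    have h1 := h (rename Sum.inr F) (hQA F ⟨hS1 F hF, fun z =>
      (hS2 (A.θ z) (A.ne_zero z)).2 ⟨z, 1, by simp⟩ F hF⟩)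
    rwa [eval_rename, Sum.elim_comp_inr] at h1)
  refine ⟨w, c, ?_, hwc⟩
  rintro rfl
  rw [zero_smul] at hwc
  exact hY hwc

theorem mem_Z_cone {Q : Ideal (MvPolynomial (Fin g ⊕ Fin (N + 1)) ℂ)} (hscl : Scl Q)
    (hQA : ∀ F ∈ A.eqs, rename Sum.inr F ∈ Q) {z : Fin g → ℂ} {Y : Fin (N + 1) → ℂ}
    (hY : Y ≠ 0) (h : Sum.elim z Y ∈ Z Q) : ∃ w, Sum.elim z (A.θ w) ∈ Z Q := by
  obtain ⟨w, c, hc, rfl⟩ := Z_cone hQA hY h
  refine ⟨w, ?_⟩
  have h1 := hscl z _ c⁻¹ h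
  rwa [smul_smul, inv_mul_cancel₀ hc, one_smul] at h1

theorem scl_exp {Q : Ideal (MvPolynomial (Fin g ⊕ Fin (N + 1)) ℂ)} (hscl : Scl Q)
    {z w w' : Fin g → ℂ} (h : A.exp w = A.exp w') (hz : Sum.elim z (A.θ w') ∈ Z Q) :
    Sum.elim z (A.θ w) ∈ Z Q := by
  obtain ⟨c, _, hc⟩ := θ_of_exp h
  rw [hc]
  exact hscl _ _ _ hz

/-- the zero set of a polynomial, homogenized -/
def VF (A : AbelianVariety g N) (F : MvPolynomial (Fin g ⊕ Fin (N + 1)) ℂ) :
    Set ((Fin g → ℂ) × A.Pts) :=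
  {p | ∀ w, A.exp w = p.2 → ∀ n,
    eval (Sum.elim p.1 (A.θ w)) (weightedHomogeneousComponent (Wt g N) n F) = 0}

theorem VF_closed (F : MvPolynomial (Fin g ⊕ Fin (N + 1)) ℂ) : A.ZClosed (A.VF F) := by
  refine ⟨{G | ∃ n, G = weightedHomogeneousComponent (Wt g N) n F}, ?_, ?_⟩
  · rintro G ⟨n, rfl⟩
    exact ⟨n, weightedHomogeneousComponent_isWeightedHomogeneous n F⟩
  · intro z w
    constructor
    · rintro h G ⟨n, rfl⟩
      exact h w rfl n
    · intro h w' hw' n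
      obtain ⟨c, _, hc⟩ := θ_of_exp hw'
      rw [hc, eval_weight (weightedHomogeneousComponent_isWeightedHomogeneous n F), h _ ⟨n, rfl⟩,
        mul_zero]

theorem mem_VF {F : MvPolynomial (Fin g ⊕ Fin (N + 1)) ℂ} {z w : Fin g → ℂ}
    (h : ray (Wt g N) (Sum.elim z (A.θ w)) F = 0) : (z, A.exp w) ∈ A.VF F := by
  intro w' hw' n
  obtain ⟨c, _, hc⟩ := θ_of_exp hw'
  rw [ray_eq_zero_iff] at h
  have h1 := h n
  rw [aeval_pt] at h1
  rw [hc, eval_weight (weightedHomogeneousComponent_isWeightedHomogeneous n F), h1, mul_zero]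

theorem mem_IV_of_VF {V : Set ((Fin g → ℂ) × A.Pts)} {F : MvPolynomial (Fin g ⊕ Fin (N + 1)) ℂ}
    (h : V ⊆ A.VF F) : F ∈ A.IV V := by
  rw [mem_IV]
  intro z w hzw
  rw [ray_eq_zero_iff]
  intro n
  rw [aeval_pt]
  exact h hzw w rfl n

theorem IV_prime {V : Set ((Fin g → ℂ) × A.Pts)} (hV : A.Variety V) : (A.IV V).IsPrime := by
  obtain ⟨_, ⟨⟨z, x⟩, hne⟩, hirr⟩ := hV
  constructor
  · intro htop
    obtain ⟨w, rfl⟩ := exists_exp x
    have h1 : (1 : MvPolynomial (Fin g ⊕ Fin (N + 1)) ℂ) ∈ A.IV V := by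
      rw [htop]; exact Submodule.mem_top
    have h2 := eval_of_IV h1 hne
    rw [map_one] at h2
    exact one_ne_zero h2
  · intro F G hFG
    have h1 : V ⊆ A.VF F ∪ A.VF G := by
      rintro ⟨z, x⟩ hzx
      obtain ⟨w, rfl⟩ := exists_exp x
      have h2 := mem_IV.1 hFG z w hzx
      rw [map_mul, mul_eq_zero] at h2
      rcases h2 with h2 | h2
      · exact Or.inl (mem_VF h2)
      · exact Or.inr (mem_VF h2)
    rcases hirr _ _ (VF_closed F) (VF_closed G) h1 with h2 | h2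
    · exact Or.inl (mem_IV_of_VF h2)
    · exact Or.inr (mem_IV_of_VF h2)

theorem IV_anti {V V' : Set ((Fin g → ℂ) × A.Pts)} (h : V ⊆ V') : A.IV V' ≤ A.IV V := by
  intro F hF
  rw [mem_IV] at hF ⊢
  exact fun z w hzw => hF z w (h hzw)

theorem IV_strict {V V' : Set ((Fin g → ℂ) × A.Pts)} (hV : A.ZClosed V) (h : V ⊂ V') :
    A.IV V' < A.IV V := by
  refine lt_of_le_of_ne (IV_anti h.1) ?_
  intro heq
  apply h.2
  rintro ⟨z, x⟩ hzx
  obtain ⟨w, rfl⟩ := exists_exp x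
  apply mem_of_Z_IV hV
  rw [← heq]
  exact mem_Z_IV hzx

theorem one_le_dm_IV {V : Set ((Fin g → ℂ) × A.Pts)} (hV : A.Variety V) : 1 ≤ dm (A.IV V) := by
  obtain ⟨⟨z, x⟩, hne⟩ := hV.2.1
  obtain ⟨w, rfl⟩ := exists_exp x
  have hk : (RingHom.ker (ray (Wt g N) (Sum.elim z (A.θ w)))).IsPrime := RingHom.ker_isPrime _
  have h1 : A.IV V ≤ RingHom.ker (ray (Wt g N) (Sum.elim z (A.θ w))) := fun F hF =>
    mem_IV.1 hF z w hne
  have h2 := dm_le (IV_prime hV) hk h1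
  have h3 : RingHom.ker (ray (Wt g N) (Sum.elim z (A.θ w))) < pt (Sum.elim z (A.θ w)) := by
    refine lt_of_le_of_ne ?_ ?_
    · intro F hF
      have h4 := (ray_zero_iff _ _ _).1 (RingHom.mem_ker.1 hF) 1
      rwa [one_smul] at h4
    · intro heq
      obtain ⟨l, hl⟩ : ∃ l, A.θ w l ≠ 0 := Function.ne_iff.1 (A.ne_zero _)
      have h4 : X (Sum.inr l) - C (A.θ w l) ∈ RingHom.ker (ray (Wt g N) (Sum.elim z (A.θ w))) := by
        rw [heq, mem_pt]
        simp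
      have h5 := (ray_zero_iff _ _ _).1 (RingHom.mem_ker.1 h4) 0
      simp only [zero_smul, map_sub, eval_X, eval_C, Sum.elim_inr, Pi.zero_apply, zero_sub,
        neg_eq_zero] at h5
      exact hl h5
  have h4 := dm_lt hk (pt_prime _) h3
  omega

theorem dm_IV_of_DimGE {V : Set ((Fin g → ℂ) × A.Pts)} (hV : A.Variety V) {n : ℕ}
    (h : A.DimGE V n) : n + 1 ≤ dm (A.IV V) := by
  obtain ⟨c, hc1, hc2, hc3⟩ := h
  have h1 : ∀ k (hk : k < n + 1), k + 1 ≤ dm (A.IV (c ⟨k, hk⟩)) := by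
    intro k
    induction k with
    | zero => exact fun hk => one_le_dm_IV (hc2 _)
    | succ k ih =>
      intro hk
      have h2 := ih (by omega)
      have h3 : c ⟨k, by omega⟩ < c ⟨k + 1, hk⟩ := hc1 (by simp [Fin.lt_def])
      have h4 := dm_lt (IV_prime (hc2 ⟨k + 1, hk⟩)) (IV_prime (hc2 ⟨k, by omega⟩))
        (IV_strict (hc2 ⟨k, by omega⟩).1 h3)
      omega
  have h2 := h1 n (by omega)
  have h3 := dm_le (IV_prime hV) (IV_prime (hc2 (Fin.last n))) (IV_anti hc3)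
  exact h2.trans h3

end AbelianVariety

end Pool.Agent.Run7.h10
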